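import Mathlib

set_option autoImplicit false
set_option linter.unusedSectionVars false

/-! The 4-dimensional commutative algebra with basis `a, x, u, b` and products
`a a = a`, `a x = l x`, `a u = 0`, `a b = α a + x`, `x x = 0`, `x u = 0`, `x b = ρ x + u`,
`u u = u`, `u b = μ u`, `b b = b`. -/

namespace Q11.AxBlock

universe u

/-- parameters of the algebra -/
structure Par (F : Type u) where
  l : F
  α : F
  ρ : F
  μ : F

/-- coordinates with respect to `a, x, u, b` -/
def B {F : Type u} (_p : Par F) : Type u := Fin 4 → F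

variable {F : Type u} [Field F] {p : Par F}

instance : AddCommGroup (B p) := inferInstanceAs (AddCommGroup (Fin 4 → F))
instance : Module F (B p) := inferInstanceAs (Module F (Fin 4 → F))

/-- the product -/
def mulB (p : Par F) (a b : Fin 4 → F) : Fin 4 → F :=
  ![a 0 * b 0 + p.α * (a 0 * b 3 + a 3 * b 0),
    p.l * (a 0 * b 1 + a 1 * b 0) + (a 0 * b 3 + a 3 * b 0) + p.ρ * (a 1 * b 3 + a 3 * b 1),
    a 2 * b 2 + (a 1 * b 3 + a 3 * b 1) + p.μ * (a 2 * b 3 + a 3 * b 2),
    a 3 * b 3]

instance : Mul (B p) := ⟨fun a b => mulB p a b⟩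

lemma extB {a b : B p} (h0 : a 0 = b 0) (h1 : a 1 = b 1) (h2 : a 2 = b 2) (h3 : a 3 = b 3) :
    a = b := by
  funext i
  fin_cases i <;> assumption

@[simp] lemma add_ap (a b : B p) (i : Fin 4) : (a + b) i = a i + b i := rfl
@[simp] lemma neg_ap (a : B p) (i : Fin 4) : (-a) i = -(a i) := rfl
@[simp] lemma sub_ap (a b : B p) (i : Fin 4) : (a - b) i = a i - b i := rfl
@[simp] lemma zero_ap (i : Fin 4) : (0 : B p) i = 0 := rfl
@[simp] lemma smul_ap (c : F) (b : B p) (i : Fin 4) : (c • b) i = c * b i := rfl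
@[simp] lemma mul_ap0 (a b : B p) :
    (a * b) 0 = a 0 * b 0 + p.α * (a 0 * b 3 + a 3 * b 0) := rfl
@[simp] lemma mul_ap1 (a b : B p) : (a * b) 1 =
    p.l * (a 0 * b 1 + a 1 * b 0) + (a 0 * b 3 + a 3 * b 0) + p.ρ * (a 1 * b 3 + a 3 * b 1) := rfl
@[simp] lemma mul_ap2 (a b : B p) : (a * b) 2 =
    a 2 * b 2 + (a 1 * b 3 + a 3 * b 1) + p.μ * (a 2 * b 3 + a 3 * b 2) := rfl
@[simp] lemma mul_ap3 (a b : B p) : (a * b) 3 = a 3 * b 3 := rfl

instance : NonUnitalNonAssocCommRing (B p) :=
  { (inferInstance : AddCommGroup (B p)) with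
    mul := (· * ·)
    left_distrib := by intro a b c; apply extB <;> simp <;> ring
    right_distrib := by intro a b c; apply extB <;> simp <;> ring
    zero_mul := by intro a; apply extB <;> simp
    mul_zero := by intro a; apply extB <;> simp
    mul_comm := by intro a b; apply extB <;> simp <;> ring }

instance : IsScalarTower F (B p) (B p) :=
  ⟨by intro t a b; apply extB <;> simp <;> ring⟩

instance : SMulCommClass F (B p) (B p) :=
  ⟨by intro t a b; apply extB <;> simp <;> ring⟩

lemma finrankB : Module.finrank F (B p) = 4 := by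
  show Module.finrank F (Fin 4 → F) = 4
  simp

/-- vectors -/
def vec (a b c d : F) : B p := (![a, b, c, d] : Fin 4 → F)
@[simp] lemma vec0 (a b c d : F) : (vec a b c d : B p) 0 = a := rfl
@[simp] lemma vec1 (a b c d : F) : (vec a b c d : B p) 1 = b := rfl
@[simp] lemma vec2 (a b c d : F) : (vec a b c d : B p) 2 = c := rfl
@[simp] lemma vec3 (a b c d : F) : (vec a b c d : B p) 3 = d := rfl

end Q11.AxBlock
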