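import Pool.Agent.Q141.CP.Stm

/-!
# The numerical inequality AN1
-/

set_option autoImplicit false

namespace Pool.Agent.Q141.CP

theorem t_AN1 : S_AN1 := by
  intro θ h0 h1
  have e1 := Real.exp_one_gt_d9
  have e2 := Real.exp_one_lt_d9
  -- the right side
  have hneg : ∀ t : ℝ, Real.exp (-t) = 1 / Real.exp t := fun t => by rw [Real.exp_neg, one_div]
  rcases le_total θ (35 / 100) with h2 | h2
  · have hL : (θ * Real.exp (1 - θ)) ^ 25 ≤ θ * ((35 / 100) ^ 24 * Real.exp 1 ^ 25) := by
      calc (θ * Real.exp (1 - θ)) ^ 25 = θ * (θ ^ 24 * Real.exp (1 - θ) ^ 25) := by ring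
        _ ≤ θ * ((35 / 100) ^ 24 * Real.exp 1 ^ 25) := by
          apply mul_le_mul_of_nonneg_left _ h0.le
          apply mul_le_mul (pow_le_pow_left₀ h0.le h2 _)
            (pow_le_pow_left₀ (Real.exp_pos _).le (Real.exp_le_exp.2 (by linarith)) _)
            (by positivity) (by positivity)
    have hN : (35 / 100 : ℝ) ^ 24 * Real.exp 1 ^ 25 ≤ 1 := by
      have : Real.exp 1 ^ 25 ≤ (2.7182818286 : ℝ) ^ 25 :=
        pow_le_pow_left₀ (Real.exp_pos _).le e2.le _
      calc (35 / 100 : ℝ) ^ 24 * Real.exp 1 ^ 25 ≤ (35 / 100 : ℝ) ^ 24 * (2.7182818286 : ℝ) ^ 25 :=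
            mul_le_mul_of_nonneg_left this (by positivity)
        _ ≤ 1 := by norm_num
    have hR : θ ≤ 1 - Real.exp (-(6 * θ)) := by
      rw [hneg]
      have h3 : 1 + 6 * θ ≤ Real.exp (6 * θ) := by
        have := Real.add_one_le_exp (6 * θ)
        linarith
      have h4 : 1 / Real.exp (6 * θ) ≤ 1 / (1 + 6 * θ) :=
        one_div_le_one_div_of_le (by linarith) h3
      have h5 : 1 / (1 + 6 * θ) ≤ 1 - θ := by
        rw [div_le_iff₀ (by linarith)]
        nlinarith
      linarith
    have h6 : θ * ((35 / 100) ^ 24 * Real.exp 1 ^ 25) ≤ θ := by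
      have := mul_le_mul_of_nonneg_left hN h0.le
      linarith
    linarith
  · rcases le_total θ (9 / 10) with h3 | h3
    · -- the middle part
      have hs : θ * Real.exp (1 - θ) ≤ 9 / 10 * Real.exp (1 / 10) := by
        have h4 : θ / (9 / 10) ≤ Real.exp (θ - 9 / 10) := by
          have h5 := Real.add_one_le_exp (θ / (9 / 10) - 1)
          have h6 : θ / (9 / 10) - 1 ≤ θ - 9 / 10 := by
            rw [div_sub_one (by norm_num), div_le_iff₀ (by norm_num)]
            nlinarith
          have h7 := Real.exp_le_exp.2 h6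
          linarith
        have h5 : Real.exp (1 / 10) = Real.exp (1 - θ) * Real.exp (θ - 9 / 10) := by
          rw [← Real.exp_add]; congr 1; ring
        rw [h5]
        have h6 : θ ≤ 9 / 10 * Real.exp (θ - 9 / 10) := by
          rw [div_le_iff₀ (by norm_num)] at h4
          linarith
        have := mul_le_mul_of_nonneg_left h6 (Real.exp_pos (1 - θ)).le
        calc θ * Real.exp (1 - θ) = Real.exp (1 - θ) * θ := mul_comm _ _
          _ ≤ _ := this
          _ = _ := by ring
      have hL : (θ * Real.exp (1 - θ)) ^ 25 ≤ (9 / 10) ^ 25 * Real.exp (5 / 2) := by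
        calc (θ * Real.exp (1 - θ)) ^ 25 ≤ (9 / 10 * Real.exp (1 / 10)) ^ 25 :=
              pow_le_pow_left₀ (by positivity) hs _
          _ = (9 / 10) ^ 25 * Real.exp (5 / 2) := by
              rw [mul_pow, ← Real.exp_nat_mul]; congr 2; norm_num
      have hE : Real.exp (5 / 2) ≤ 122 / 10 := by
        have h4 : Real.exp (5 / 2) ^ 2 = Real.exp 1 ^ 5 := by
          rw [← Real.exp_nat_mul, ← Real.exp_nat_mul]; congr 1; norm_num
        have h5 : Real.exp 1 ^ 5 ≤ (2.7182818286 : ℝ) ^ 5 :=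
          pow_le_pow_left₀ (Real.exp_pos _).le e2.le _
        have h6 : (2.7182818286 : ℝ) ^ 5 ≤ (122 / 10) ^ 2 := by norm_num
        rw [← h4] at h5
        exact le_of_sq_le_sq (h5.trans h6) (by norm_num)
      have hR : Real.exp (-(6 * θ)) ≤ 1 / 8 := by
        rw [hneg]
        apply one_div_le_one_div_of_le (by norm_num)
        have h4 : Real.exp 2 ≤ Real.exp (6 * θ) := Real.exp_le_exp.2 (by linarith)
        have h5 : Real.exp (6 * θ) ≥ Real.exp (21 / 10) := Real.exp_le_exp.2 (by linarith)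
        have h6 : Real.exp (21 / 10) = Real.exp 1 ^ 2 * Real.exp (1 / 10) := by
          rw [← Real.exp_nat_mul, ← Real.exp_add]; congr 1; norm_num
        have h7 : (1 + 1 / 10 : ℝ) ≤ Real.exp (1 / 10) := by
          have := Real.add_one_le_exp (1 / 10 : ℝ)
          linarith
        have h8 : (2.7182818283 : ℝ) ^ 2 ≤ Real.exp 1 ^ 2 :=
          pow_le_pow_left₀ (by norm_num) e1.le _
        have h9 : (2.7182818283 : ℝ) ^ 2 * (1 + 1 / 10) ≤ Real.exp 1 ^ 2 * Real.exp (1 / 10) :=
          mul_le_mul h8 h7 (by norm_num) (by positivity)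
        have h10 : (8 : ℝ) ≤ (2.7182818283 : ℝ) ^ 2 * (1 + 1 / 10) := by norm_num
        linarith
      have hF : (9 / 10 : ℝ) ^ 25 * Real.exp (5 / 2) ≤ (9 / 10 : ℝ) ^ 25 * (122 / 10) :=
        mul_le_mul_of_nonneg_left hE (by positivity)
      have hG : (9 / 10 : ℝ) ^ 25 * (122 / 10) ≤ 1005 / 1000 * (1 - 1 / 8) := by norm_num
      have hH : (1005 / 1000 : ℝ) * (1 - 1 / 8) ≤ 1005 / 1000 * (1 - Real.exp (-(6 * θ))) := by
        linarith
      linarith
    · -- the last part
      have hs : θ * Real.exp (1 - θ) ≤ 1 := by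
        have h4 : θ ≤ Real.exp (θ - 1) := by
          have := Real.add_one_le_exp (θ - 1)
          linarith
        calc θ * Real.exp (1 - θ) ≤ Real.exp (θ - 1) * Real.exp (1 - θ) :=
              mul_le_mul_of_nonneg_right h4 (Real.exp_pos _).le
          _ = 1 := by rw [← Real.exp_add]; norm_num
      have hL : (θ * Real.exp (1 - θ)) ^ 25 ≤ 1 := pow_le_one₀ (by positivity) hs
      have hR : Real.exp (-(6 * θ)) ≤ 1 / 201 := by
        rw [hneg]
        apply one_div_le_one_div_of_le (by norm_num)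
        have h5 : Real.exp (54 / 10) ≤ Real.exp (6 * θ) := Real.exp_le_exp.2 (by linarith)
        have h6 : Real.exp (54 / 10) = Real.exp 1 ^ 5 * Real.exp (4 / 10) := by
          rw [← Real.exp_nat_mul, ← Real.exp_add]; congr 1; norm_num
        have h7 : (1 + 4 / 10 : ℝ) ≤ Real.exp (4 / 10) := by
          have := Real.add_one_le_exp (4 / 10 : ℝ)
          linarith
        have h8 : (2.7182818283 : ℝ) ^ 5 ≤ Real.exp 1 ^ 5 :=
          pow_le_pow_left₀ (by norm_num) e1.le _
        have h9 : (2.7182818283 : ℝ) ^ 5 * (1 + 4 / 10) ≤ Real.exp 1 ^ 5 * Real.exp (4 / 10) :=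
          mul_le_mul h8 h7 (by norm_num) (by positivity)
        have h10 : (201 : ℝ) ≤ (2.7182818283 : ℝ) ^ 5 * (1 + 4 / 10) := by norm_num
        linarith
      linarith

end Pool.Agent.Q141.CP
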