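import Pool.Agent.Q11.CapP

/-!
Normal form of generalized multilinear polynomials, and the vanishing of alternating sums.
-/

namespace Pool.Agent.Q11.Cap

open Equiv

universe u

variable {U : Type u} [Ring U]

/-- generalized monomials in exactly the variables in `s` -/
def Mo (U : Type u) [Ring U] {ι : Type} (s : Set ι) : Set ((ι → U) → U) :=
  {M | ∃ (a : U) (l : List (ι × U)), (l.map Prod.fst).Nodup ∧ (∀ i, i ∈ l.map Prod.fst ↔ i ∈ s) ∧
    M = fun x => a * (l.map fun p => x p.1 * p.2).prod}

theorem Mo_mul_const {ι : Type} {s : Set ι} {F : (ι → U) → U} (h : F ∈ Mo U s) (b : U) :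
    (fun x => F x * b) ∈ Mo U s := by
  obtain ⟨a, l, h1, h2, rfl⟩ := h
  rcases List.eq_nil_or_concat l with rfl | ⟨l', p, rfl⟩
  · refine ⟨a * b, [], h1, h2, ?_⟩
    funext x
    simp
  · refine ⟨a, l' ++ [(p.1, p.2 * b)], ?_, ?_, ?_⟩
    · simpa using h1
    · simpa using h2
    · funext x
      simp [mul_assoc]

theorem Mo_mul {ι : Type} {s t : Set ι} {F G : (ι → U) → U} (hd : Disjoint s t)
    (hF : F ∈ Mo U s) (hG : G ∈ Mo U t) : (fun x => F x * G x) ∈ Mo U (s ∪ t) := by
  obtain ⟨b, m, g1, g2, rfl⟩ := hG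
  obtain ⟨a, l, h1, h2, e⟩ := Mo_mul_const hF b
  refine ⟨a, l ++ m, ?_, ?_, ?_⟩
  · rw [List.map_append, List.nodup_append']
    refine ⟨h1, g1, ?_⟩
    intro i hi hi'
    exact (Set.disjoint_left.mp hd) ((h2 i).mp hi) ((g2 i).mp hi')
  · intro i
    rw [List.map_append, List.mem_append, h2, g2]
    rfl
  · funext x
    have := congrFun e x
    rw [List.map_append, List.prod_append, ← mul_assoc, ← mul_assoc, this]

theorem P.mem_closure {ι : Type} {s : Set ι} {F : (ι → U) → U} (hF : P s F) :
    F ∈ AddSubgroup.closure (Mo U s) := by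
  induction hF with
  | const a =>
    refine AddSubgroup.subset_closure ⟨a, [], by simp, by simp, ?_⟩
    funext x
    simp
  | var j =>
    refine AddSubgroup.subset_closure ⟨1, [(j, 1)], by simp, by simp, ?_⟩
    funext x
    simp
  | @mul s t F G hd h1 h2 ih1 ih2 =>
    refine AddSubgroup.closure_induction
      (p := fun F _ => (fun x => F x * G x) ∈ AddSubgroup.closure (Mo U (s ∪ t))) ?_ ?_ ?_ ?_ ih1
    · intro F hF
      refine AddSubgroup.closure_induction
        (p := fun G _ => (fun x => F x * G x) ∈ AddSubgroup.closure (Mo U (s ∪ t)))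
        ?_ ?_ ?_ ?_ ih2
      · intro G hG
        exact AddSubgroup.subset_closure (Mo_mul hd hF hG)
      · have : (fun x => F x * (0 : (ι → U) → U) x) = 0 := by
          funext x
          simp
        rw [this]
        exact AddSubgroup.zero_mem _
      · intro G1 G2 _ _ hG1 hG2
        have : (fun x => F x * (G1 + G2) x) = (fun x => F x * G1 x) + (fun x => F x * G2 x) := by
          funext x
          simp [mul_add]
        rw [this]
        exact AddSubgroup.add_mem _ hG1 hG2
      · intro G1 _ hG1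
        have : (fun x => F x * (-G1) x) = -(fun x => F x * G1 x) := by
          funext x
          simp
        rw [this]
        exact AddSubgroup.neg_mem _ hG1
    · have : (fun x => (0 : (ι → U) → U) x * G x) = 0 := by
        funext x
        simp
      rw [this]
      exact AddSubgroup.zero_mem _
    · intro F1 F2 _ _ hF1 hF2
      have : (fun x => (F1 + F2) x * G x) = (fun x => F1 x * G x) + (fun x => F2 x * G x) := by
        funext x
        simp [add_mul]
      rw [this]
      exact AddSubgroup.add_mem _ hF1 hF2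
    · intro F1 _ hF1
      have : (fun x => (-F1) x * G x) = -(fun x => F1 x * G x) := by
        funext x
        simp
      rw [this]
      exact AddSubgroup.neg_mem _ hF1
  | add h1 h2 ih1 ih2 => exact AddSubgroup.add_mem _ ih1 ih2
  | neg h1 ih1 => exact AddSubgroup.neg_mem _ ih1
  | zero s => exact AddSubgroup.zero_mem _

/-- the alternating sum -/
def altS {ι : Type} [Fintype ι] [DecidableEq ι] (F : (ι → U) → U) (x : ι → U) : U :=
  ∑ σ : Perm ι, (Perm.sign σ : ℤ) • F (x ∘ σ)

/-- The Capelli identities of rank `n` for the ideal `I`, with coefficients in `U`. -/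
def HCap (I : Ideal U) (n : ℕ) : Prop :=
  ∀ (x a : Fin n → U), (∀ i, x i ∈ I) →
    ∑ σ : Perm (Fin n), (Perm.sign σ : ℤ) • (List.ofFn fun i => x (σ i) * a i).prod = 0

theorem altS_monomial {I : Ideal U} {n : ℕ} (hc : HCap I n) {ι : Type} [Fintype ι]
    [DecidableEq ι] (hn : Fintype.card ι = n) {F : (ι → U) → U} (hF : F ∈ Mo U (Set.univ : Set ι))
    (x : ι → U) (hx : ∀ i, x i ∈ I) : altS F x = 0 := by
  obtain ⟨a, l, h1, h2, rfl⟩ := hF
  have hinj : Function.Injective (fun i : Fin l.length => (l.get i).1) := by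
    have h3 := List.nodup_iff_injective_get.mp h1
    intro i j hij
    have h4 := @h3 (i.cast (by simp)) (j.cast (by simp)) (by simpa using hij)
    simpa [Fin.ext_iff] using h4
  have hsurj : Function.Surjective (fun i : Fin l.length => (l.get i).1) := by
    intro i
    have h3 := (h2 i).mpr (Set.mem_univ i)
    rw [List.mem_map] at h3
    obtain ⟨p, hp, rfl⟩ := h3
    obtain ⟨k, hk⟩ := List.get_of_mem hp
    exact ⟨k, congrArg Prod.fst hk⟩
  let e : Fin l.length ≃ ι := Equiv.ofBijective _ ⟨hinj, hsurj⟩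
  have hl : l.length = n := by
    rw [← hn, ← Fintype.card_congr e, Fintype.card_fin]
  subst hl
  have key := hc (fun i => x (e i)) (fun i => (l.get i).2) (fun i => hx _)
  have hterm : ∀ τ : Perm (Fin l.length),
      (l.map fun p => (x ∘ (e.permCongr τ)) p.1 * p.2).prod
        = (List.ofFn fun i => x (e (τ i)) * (l.get i).2).prod := by
    intro τ
    have hgen : ∀ f : ι × U → U, l.map f = List.ofFn (fun i => f (l.get i)) := by
      intro f
      have h5 : List.map f (List.ofFn l.get) = List.ofFn (f ∘ l.get) := List.map_ofFn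
      rw [List.ofFn_get] at h5
      exact h5
    rw [hgen]
    congr 2
    funext i
    have he : e.symm (l.get i).1 = i := by
      rw [Equiv.symm_apply_eq]
      rfl
    simp only [Function.comp_apply, Equiv.permCongr_apply, he]
  unfold altS
  rw [← Equiv.sum_comp e.permCongr]
  have : ∀ τ : Perm (Fin l.length), (Perm.sign (e.permCongr τ) : ℤ) •
      (a * (l.map fun p => (x ∘ (e.permCongr τ)) p.1 * p.2).prod)
      = a * ((Perm.sign τ : ℤ) • (List.ofFn fun i => x (e (τ i)) * (l.get i).2).prod) := by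
    intro τ
    rw [hterm, Equiv.Perm.sign_permCongr, mul_smul_comm]
  rw [Finset.sum_congr rfl (fun τ _ => this τ), ← Finset.mul_sum, key, mul_zero]

theorem altS_eq_zero {I : Ideal U} {n : ℕ} (hc : HCap I n) {ι : Type} [Fintype ι]
    [DecidableEq ι] (hn : Fintype.card ι = n) {F : (ι → U) → U} (hF : P (Set.univ : Set ι) F)
    (x : ι → U) (hx : ∀ i, x i ∈ I) : altS F x = 0 := by
  refine AddSubgroup.closure_induction
    (p := fun F _ => altS F x = 0) ?_ ?_ ?_ ?_ hF.mem_closure
  · intro F hF
    exact altS_monomial hc hn hF x hx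
  · simp [altS]
  · intro F G _ _ h1 h2
    unfold altS at *
    simp only [Pi.add_apply, smul_add, Finset.sum_add_distrib, h1, h2, add_zero]
  · intro F _ h1
    unfold altS at *
    simp only [Pi.neg_apply, smul_neg, Finset.sum_neg_distrib, h1, neg_zero]

/-- `PC I n`: alternating sums over `n` variables vanish. -/
def PC (I : Ideal U) (n : ℕ) : Prop :=
  ∀ (ι : Type) [Fintype ι] [DecidableEq ι], Fintype.card ι = n →
    ∀ F : (ι → U) → U, P (Set.univ : Set ι) F → ∀ x : ι → U, (∀ i, x i ∈ I) → altS F x = 0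

theorem HCap.pc {I : Ideal U} {n : ℕ} (hc : HCap I n) : PC I n :=
  fun _ _ _ hn _ hF x hx => altS_eq_zero hc hn hF x hx

/-- coset lemma -/
theorem sum_coset {G K A : Type*} [Group G] [Fintype G] [Group K] [Fintype K]
    [AddCommGroup A] (φ : K →* G) (hφ : Function.Injective φ) (g : G → A)
    (h : ∀ b : G, ∑ k : K, g (φ k * b) = 0) : ∑ x : G, g x = 0 := by
  classical
  let H : Subgroup G := φ.range
  let ψ : (G ⧸ H) × K → G := fun q => (Quotient.out q.1 * φ q.2)⁻¹
  have hmk : ∀ (q : G ⧸ H) (k : K), (QuotientGroup.mk (Quotient.out q * φ k) : G ⧸ H) = q := by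
    intro q k
    have h1 : (QuotientGroup.mk (Quotient.out q * φ k) : G ⧸ H)
        = QuotientGroup.mk (Quotient.out q) := by
      rw [QuotientGroup.eq]
      refine ⟨k⁻¹, ?_⟩
      rw [map_inv]
      group
    rw [h1]
    exact Quotient.out_eq q
  have hinj : Function.Injective ψ := by
    rintro ⟨q1, k1⟩ ⟨q2, k2⟩ h12
    have h1 : Quotient.out q1 * φ k1 = Quotient.out q2 * φ k2 := inv_injective h12
    have h2 : q1 = q2 := by
      rw [← hmk q1 k1, ← hmk q2 k2, h1]
    subst h2
    have h3 := hφ (mul_left_cancel h1)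
    rw [h3]
  have hsurj : Function.Surjective ψ := by
    intro g
    have h1 : (QuotientGroup.mk (Quotient.out (QuotientGroup.mk g⁻¹ : G ⧸ H)) : G ⧸ H)
        = QuotientGroup.mk g⁻¹ := Quotient.out_eq _
    rw [QuotientGroup.eq] at h1
    obtain ⟨k, hk⟩ := h1
    refine ⟨(QuotientGroup.mk g⁻¹, k), ?_⟩
    show (Quotient.out (QuotientGroup.mk g⁻¹ : G ⧸ H) * φ k)⁻¹ = g
    rw [hk]
    group
  rw [← Equiv.sum_comp (Equiv.ofBijective ψ ⟨hinj, hsurj⟩), Fintype.sum_prod_type]
  refine Finset.sum_eq_zero (fun q _ => ?_)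
  have hq := h (Quotient.out q)⁻¹
  rw [← Equiv.sum_comp (Equiv.inv K)] at hq
  rw [← hq]
  refine Finset.sum_congr rfl (fun k _ => ?_)
  congr 1
  simp [ψ]

end Pool.Agent.Q11.Cap
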