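import Pool.Agent.Q11.CapA

/-!
Alternation over some variables, the exchange identity.
-/

namespace Pool.Agent.Q11.Cap

open Equiv

universe u

variable {U : Type u} [Ring U]

/-- alternation over some variables over the variables satisfying `p` vanishes -/
theorem PC.sub_alt {I : Ideal U} {m : ℕ} (hPC : PC I m) {ι : Type} [Fintype ι] [DecidableEq ι]
    {F : (ι → U) → U} (hF : P (Set.univ : Set ι) F) (v : ι → U) (hv : ∀ i, v i ∈ I)
    (p : ι → Prop) [DecidablePred p] (hp : Fintype.card {i // p i} = m) (b : Perm ι) :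
    ∑ h : Perm {i // p i}, (Perm.sign h : ℤ) • F (v ∘ (Perm.ofSubtype h) ∘ b) = 0 := by
  let G : ι → ({i // p i} → U) → U := fun i z => if h : p (b i) then z ⟨b i, h⟩ else v (b i)
  have hG : ∀ i, P {k : {i // p i} | b.symm k.1 = i} (G i) := by
    intro i
    by_cases h : p (b i)
    · have : G i = fun z => z ⟨b i, h⟩ := by
        funext z
        simp [G, h]
      rw [this]
      refine P.var' _ ?_
      ext k
      simp only [Set.mem_ofPred_eq, Set.mem_singleton_iff, Equiv.symm_apply_eq]
      constructor
      · intro hk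
        exact Subtype.ext hk
      · rintro rfl
        rfl
    · have : G i = fun z => v (b i) := by
        funext z
        simp [G, h]
      rw [this]
      refine P.const' _ ?_
      ext k
      simp only [Set.mem_ofPred_eq, Set.mem_empty_iff_false, iff_false, Equiv.symm_apply_eq]
      intro hk
      exact h (hk ▸ k.2)
  have h1 := hPC {i // p i} hp _ (hF.substU (fun k => b.symm k.1) G hG) (fun k => v k.1)
    (fun k => hv _)
  unfold altS at h1
  rw [← h1]
  refine Finset.sum_congr rfl (fun h _ => ?_)
  congr 2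
  funext i
  simp only [Function.comp_apply, G]
  by_cases hp : p (b i)
  · rw [dif_pos hp, Perm.ofSubtype_apply_of_mem h hp]
  · rw [dif_neg hp, Perm.ofSubtype_apply_of_not_mem h hp]

theorem PC.mono {I : Ideal U} {n m : ℕ} (hPC : PC I n) (hnm : n ≤ m) : PC I m := by
  intro ι _ _ hm F hF x hx
  have h1 : n ≤ (Finset.univ : Finset ι).card := by
    rw [Finset.card_univ, hm]
    exact hnm
  obtain ⟨p, hdec, hp⟩ : ∃ (p : ι → Prop) (_ : DecidablePred p),
      Fintype.card {i // p i} = n := by
    obtain ⟨t, -, ht⟩ := Finset.exists_subset_card_eq h1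
    exact ⟨fun i => i ∈ t, inferInstance, by simpa using ht⟩
  unfold altS
  refine sum_coset (Perm.ofSubtype (p := p)) Perm.ofSubtype_injective _ ?_
  intro b
  have h2 := hPC.sub_alt hF x hx p hp b
  have h3 : ∀ h : Perm {i // p i}, (Perm.sign (Perm.ofSubtype h * b) : ℤ) •
      F (x ∘ ⇑(Perm.ofSubtype h * b)) =
      (Perm.sign b : ℤ) • ((Perm.sign h : ℤ) • F (x ∘ (Perm.ofSubtype h) ∘ b)) := by
    intro h
    rw [Perm.sign_mul, Perm.sign_ofSubtype, smul_smul, Units.val_mul, mul_comm]
    rfl
  rw [Finset.sum_congr rfl (fun h _ => h3 h), ← Finset.smul_sum, h2, smul_zero]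

/-- the exchange identity -/
theorem PC.exchange {I : Ideal U} {d : ℕ} (hPC : PC I (d + 1)) {Y : Type} [Fintype Y]
    [DecidableEq Y] (hY : Fintype.card Y = d) {Φ : U → (Y → U) → U}
    (hΦ : P (Set.univ : Set (Option Y)) (fun z => Φ (z none) (fun t => z (some t))))
    (w : U) (hw : w ∈ I) (y : Y → U) (hy : ∀ t, y t ∈ I) :
    ∑ τ : Perm Y, (Perm.sign τ : ℤ) • Φ w (y ∘ τ) =
      ∑ t : Y, ∑ τ : Perm Y, (Perm.sign τ : ℤ) • Φ (y t) (Function.update y t w ∘ τ) := by
  let z : Option Y → U := fun o => o.elim w y
  have hz : ∀ o, z o ∈ I := by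
    intro o
    cases o with
    | none => exact hw
    | some t => exact hy t
  have h1 := hPC (Option Y) (by rw [Fintype.card_option, hY]) _ hΦ z hz
  unfold altS at h1
  rw [← Equiv.sum_comp (Perm.decomposeOption (α := Y)).symm, Fintype.sum_prod_type,
    Fintype.sum_option] at h1
  have h2 : ∀ τ : Perm Y, (Perm.sign (Perm.decomposeOption.symm (none, τ)) : ℤ) •
      Φ ((z ∘ ⇑(Perm.decomposeOption.symm (none, τ))) none)
        (fun t => (z ∘ ⇑(Perm.decomposeOption.symm (none, τ))) (some t))
      = (Perm.sign τ : ℤ) • Φ w (y ∘ τ) := by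
    intro τ
    rw [Perm.decomposeOption_symm_sign]
    simp [z, Perm.decomposeOption]
    rfl
  have h3 : ∀ (t : Y) (τ : Perm Y), (Perm.sign (Perm.decomposeOption.symm (some t, τ)) : ℤ) •
      Φ ((z ∘ ⇑(Perm.decomposeOption.symm (some t, τ))) none)
        (fun r => (z ∘ ⇑(Perm.decomposeOption.symm (some t, τ))) (some r))
      = -((Perm.sign τ : ℤ) • Φ (y t) (Function.update y t w ∘ τ)) := by
    intro t τ
    have e0 : Perm.sign (Perm.decomposeOption.symm (some t, τ)) = - Perm.sign τ := by
      show Perm.sign (swap none (some t) * optionCongr τ) = - Perm.sign τ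
      rw [Perm.sign_mul, Perm.sign_swap (by simp), Equiv.optionCongr_sign, neg_one_mul]
    rw [e0]
    have e1 : (z ∘ ⇑(Perm.decomposeOption.symm (some t, τ))) none = y t := by
      simp [z, Perm.decomposeOption]
    have e2 : (fun r => (z ∘ ⇑(Perm.decomposeOption.symm (some t, τ))) (some r))
        = Function.update y t w ∘ τ := by
      funext r
      by_cases hr : τ r = t
      · simp [z, Perm.decomposeOption, hr]
      · have : (Perm.decomposeOption.symm (some t, τ)) (some r) = some (τ r) := by
          simp only [Perm.decomposeOption, Equiv.coe_fn_symm_mk, Perm.mul_apply,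
            Equiv.optionCongr_apply, Option.map_some]
          exact Equiv.swap_apply_of_ne_of_ne (by simp) (by simpa using hr)
        simp only [Function.comp_apply, this, z, Option.elim_some]
        rw [Function.update_of_ne hr]
    rw [e1, e2]
    simp
  rw [Finset.sum_congr rfl (fun τ _ => h2 τ)] at h1
  rw [Finset.sum_congr rfl (fun t _ => Finset.sum_congr rfl (fun τ _ => h3 t τ))] at h1
  simp only [Finset.sum_neg_distrib] at h1
  exact eq_of_sub_eq_zero (by rw [sub_eq_add_neg]; exact h1)

end Pool.Agent.Q11.Cap
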