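import Pool.Agent.Q11.CapB

/-!
The trace-like operators and their commutation property.
-/

namespace Pool.Agent.Q11.Cap

open Equiv

universe u

variable {U : Type u} [Ring U]

/-- the derivation-like operator -/
def trS {X : Type} [Fintype X] [DecidableEq X] (f : (X → U) → U) (T : U → U) (x : X → U) : U :=
  ∑ σ : Perm X, ∑ s : X, (Perm.sign σ : ℤ) • f (Function.update (x ∘ σ) s (T (x (σ s))))

/-- alternation in the `Y`-variables -/
def altY {X Y : Type} [Fintype Y] [DecidableEq Y] (F : (X ⊕ Y → U) → U) (y : Y → U)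
    (x : X → U) : U :=
  ∑ τ : Perm Y, (Perm.sign τ : ℤ) • F (Sum.elim x (y ∘ τ))

theorem P.altY {X Y : Type} [Fintype Y] [DecidableEq Y] {F : (X ⊕ Y → U) → U}
    (hF : P (Set.univ : Set (X ⊕ Y)) F) (y : Y → U) :
    P (Set.univ : Set X) (altY F y) := by
  refine P.sum Finset.univ (fun (τ : Perm Y) (x : X → U) =>
    (Perm.sign τ : ℤ) • F (Sum.elim x (y ∘ τ))) (fun τ _ => P.smul_units ?_ _)
  have hG : ∀ i : X ⊕ Y, P {k : X | (Sum.inl k : X ⊕ Y) = i}
      (fun z : X → U => Sum.elim z (y ∘ τ) i) := by
    intro i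
    cases i with
    | inl k =>
      refine P.var' k ?_
      ext j
      simp
    | inr k =>
      refine P.const' _ ?_
      ext j
      simp
  exact hF.substU (fun k : X => (Sum.inl k : X ⊕ Y)) (fun i z => Sum.elim z (y ∘ τ) i) hG

theorem trS_add {X : Type} [Fintype X] [DecidableEq X] {f : (X → U) → U}
    (hf : P (Set.univ : Set X) f) (T S : U → U) (x : X → U) :
    trS f (T + S) x = trS f T x + trS f S x := by
  unfold trS
  simp only [Pi.add_apply]
  rw [← Finset.sum_add_distrib]
  refine Finset.sum_congr rfl (fun σ _ => ?_)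
  rw [← Finset.sum_add_distrib]
  refine Finset.sum_congr rfl (fun s _ => ?_)
  rw [hf.update_add _ (Set.mem_univ s), smul_add]

theorem trS_zero {X : Type} [Fintype X] [DecidableEq X] {f : (X → U) → U}
    (hf : P (Set.univ : Set X) f) (x : X → U) :
    trS f 0 x = 0 := by
  have := trS_add hf 0 0 x
  rw [add_zero] at this
  exact (left_eq_add.mp this)

theorem trS_neg {X : Type} [Fintype X] [DecidableEq X] {f : (X → U) → U}
    (hf : P (Set.univ : Set X) f) (T : U → U) (x : X → U) :
    trS f (-T) x = - trS f T x := by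
  have := trS_add hf (-T) T x
  rw [neg_add_cancel, trS_zero hf] at this
  exact (neg_eq_of_add_eq_zero_left this.symm).symm

/-- the operator `u ↦ p u q` -/
def op (p q : U) : U → U := fun u => p * u * q

/-- one half of the commutation property -/
theorem half {I : Ideal U} [hI : I.IsTwoSided] {d : ℕ} (hPC : PC I (d + 1)) {X Y : Type}
    [Fintype X] [DecidableEq X] [Fintype Y] [DecidableEq Y] (hY : Fintype.card Y = d)
    {F : (X ⊕ Y → U) → U} (hF : P (Set.univ : Set (X ⊕ Y)) F) (x : X → U) (hx : ∀ i, x i ∈ I)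
    (y : Y → U) (hy : ∀ i, y i ∈ I) (p q p' q' : U) :
    trS (altY F y) (op p q ∘ op p' q') x =
      ∑ σ : Perm X, ∑ s : X, ∑ t : Y, ∑ τ : Perm Y, (Perm.sign σ : ℤ) • (Perm.sign τ : ℤ) •
        F (Sum.elim (Function.update x s (op p q (y t)) ∘ σ)
          (Function.update y t (op p' q' (x s)) ∘ τ)) := by
  unfold trS altY
  refine Finset.sum_congr rfl (fun σ _ => ?_)
  rw [← Equiv.sum_comp σ (fun s => ∑ t : Y, ∑ τ : Perm Y, (Perm.sign σ : ℤ) •
    (Perm.sign τ : ℤ) • F (Sum.elim (Function.update x s (op p q (y t)) ∘ σ)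
          (Function.update y t (op p' q' (x s)) ∘ τ)))]
  refine Finset.sum_congr rfl (fun s _ => ?_)
  have hΦ : P (Set.univ : Set (Option Y)) (fun z =>
      (fun (w : U) (y : Y → U) => F (Sum.elim (Function.update (x ∘ σ) s (op p q w)) y))
        (z none) (fun t => z (some t))) := by
    refine hF.substU (fun o : Option Y => o.elim (Sum.inl s) Sum.inr)
      (fun i z => Sum.elim (Function.update (x ∘ σ) s (op p q (z none)))
        (fun t => z (some t)) i) ?_
    intro i
    cases i with
    | inl r =>
      by_cases hr : r = s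
      · subst hr
        have h1 : (fun z : Option Y → U =>
            Sum.elim (Function.update (x ∘ σ) r (op p q (z none))) (fun t => z (some t))
              (Sum.inl r : X ⊕ Y)) = fun z => p * z none * q := by
          funext z
          simp [op]
        rw [h1]
        refine P.mul_const (P.const_mul (P.var' none ?_) p) q
        ext o
        cases o <;> simp
      · have h1 : (fun z : Option Y → U =>
            Sum.elim (Function.update (x ∘ σ) s (op p q (z none))) (fun t => z (some t))
              (Sum.inl r : X ⊕ Y)) = fun z => x (σ r) := by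
          funext z
          simp [Function.update_of_ne hr]
        rw [h1]
        refine P.const' _ ?_
        ext o
        cases o
        · simpa using fun h => hr h.symm
        · simp
    | inr t =>
      refine P.var' (some t) ?_
      ext o
      cases o <;> simp
  have h2 := hPC.exchange hY (Φ := fun (w : U) (y : Y → U) =>
    F (Sum.elim (Function.update (x ∘ σ) s (op p q w)) y)) hΦ (op p' q' (x (σ s)))
    (I.mul_mem_right _ (I.mul_mem_left _ (hx _))) y hy
  simp only [Function.comp_apply]
  rw [h2, Finset.smul_sum]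
  refine Finset.sum_congr rfl (fun t _ => ?_)
  rw [Finset.smul_sum]
  refine Finset.sum_congr rfl (fun τ _ => ?_)
  have h3 : Function.update (x ∘ σ) s (op p q (y t)) =
      Function.update x (σ s) (op p q (y t)) ∘ σ := by
    funext r
    by_cases hr : r = s
    · subst hr
      simp
    · rw [Function.update_of_ne hr, Function.comp_apply, Function.comp_apply,
        Function.update_of_ne (fun h => hr (σ.injective h))]
  rw [h3]

/-- the flipped function -/
def flipF {X Y : Type} (F : (X ⊕ Y → U) → U) : (Y ⊕ X → U) → U :=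
  fun z => F (z ∘ Equiv.sumComm X Y)

omit [Ring U] in
theorem flipF_elim {X Y : Type} (F : (X ⊕ Y → U) → U) (x : X → U) (y : Y → U) :
    flipF F (Sum.elim y x) = F (Sum.elim x y) := by
  unfold flipF
  congr 1
  funext i
  cases i <;> rfl

theorem P.flipF {X Y : Type} {F : (X ⊕ Y → U) → U} (hF : P (Set.univ : Set (X ⊕ Y)) F) :
    P (Set.univ : Set (Y ⊕ X)) (flipF F) :=
  hF.reindex (Equiv.sumComm X Y)

theorem tr_comm {I : Ideal U} [hI : I.IsTwoSided] {d : ℕ} (hPC : PC I (d + 1)) {X Y : Type}
    [Fintype X] [DecidableEq X] [Fintype Y] [DecidableEq Y] (hX : Fintype.card X = d)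
    (hY : Fintype.card Y = d)
    {F : (X ⊕ Y → U) → U} (hF : P (Set.univ : Set (X ⊕ Y)) F) (x : X → U) (hx : ∀ i, x i ∈ I)
    (y : Y → U) (hy : ∀ i, y i ∈ I) (p q p' q' : U) :
    trS (altY F y) (op p q ∘ op p' q') x =
      trS (altY (flipF F) x) (op p' q' ∘ op p q) y := by
  rw [half hPC hY hF x hx y hy, half hPC hX hF.flipF y hy x hx]
  simp only [flipF_elim]
  have e1 : ∀ g : Perm X → X → Y → Perm Y → U,
      ∑ σ : Perm X, ∑ s : X, ∑ t : Y, ∑ τ : Perm Y, g σ s t τ =
      ∑ τ : Perm Y, ∑ t : Y, ∑ s : X, ∑ σ : Perm X, g σ s t τ := by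
    intro g
    have a1 : ∀ σ : Perm X, ∑ s : X, ∑ t : Y, ∑ τ : Perm Y, g σ s t τ =
        ∑ τ : Perm Y, ∑ t : Y, ∑ s : X, g σ s t τ := by
      intro σ
      rw [Finset.sum_comm]
      rw [Finset.sum_congr rfl (fun t _ => Finset.sum_comm)]
      rw [Finset.sum_comm]
    rw [Finset.sum_congr rfl (fun σ _ => a1 σ), Finset.sum_comm]
    refine Finset.sum_congr rfl (fun τ _ => ?_)
    rw [Finset.sum_comm]
    refine Finset.sum_congr rfl (fun t _ => ?_)
    rw [Finset.sum_comm]
  rw [e1]
  refine Finset.sum_congr rfl (fun τ _ => Finset.sum_congr rfl (fun t _ =>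
    Finset.sum_congr rfl (fun s _ => Finset.sum_congr rfl (fun σ _ => ?_))))
  rw [smul_comm]

theorem op_one : (op (1 : U) 1) = id := by
  funext u
  simp [op]

theorem op_comp (p q p' q' : U) : op p q ∘ op p' q' = op (p * p') (q' * q) := by
  funext u
  simp [op, mul_assoc]

theorem tr_flip {I : Ideal U} [hI : I.IsTwoSided] {d : ℕ} (hPC : PC I (d + 1)) {X Y : Type}
    [Fintype X] [DecidableEq X] [Fintype Y] [DecidableEq Y] (hX : Fintype.card X = d)
    (hY : Fintype.card Y = d)
    {F : (X ⊕ Y → U) → U} (hF : P (Set.univ : Set (X ⊕ Y)) F) (x : X → U) (hx : ∀ i, x i ∈ I)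
    (y : Y → U) (hy : ∀ i, y i ∈ I) (p q : U) :
    trS (altY F y) (op p q) x = trS (altY (flipF F) x) (op p q) y := by
  have h := tr_comm hPC hX hY hF x hx y hy 1 1 p q
  rw [op_one] at h
  exact h

theorem tr_swap {I : Ideal U} [hI : I.IsTwoSided] {d : ℕ} (hPC : PC I (d + 1)) {X Y : Type}
    [Fintype X] [DecidableEq X] [Fintype Y] [DecidableEq Y] (hX : Fintype.card X = d)
    (hY : Fintype.card Y = d)
    {F : (X ⊕ Y → U) → U} (hF : P (Set.univ : Set (X ⊕ Y)) F) (x : X → U) (hx : ∀ i, x i ∈ I)
    (y : Y → U) (hy : ∀ i, y i ∈ I) (p q p' q' : U) :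
    trS (altY F y) (op (p * p') (q' * q)) x = trS (altY F y) (op (p' * p) (q * q')) x := by
  rw [← op_comp, tr_comm hPC hX hY hF x hx y hy, op_comp,
    tr_flip hPC hX hY hF x hx y hy]

/-- `I` is spanned by its commutators -/
def Comm (I : Ideal U) : Prop :=
  ∀ a ∈ I, a ∈ AddSubgroup.closure {c : U | ∃ a ∈ I, ∃ b ∈ I, c = a * b - b * a}

theorem tr_T1 {I : Ideal U} [hI : I.IsTwoSided] (hcomm : Comm I) {d : ℕ} (hPC : PC I (d + 1))
    {X Y : Type}
    [Fintype X] [DecidableEq X] [Fintype Y] [DecidableEq Y] (hX : Fintype.card X = d)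
    (hY : Fintype.card Y = d)
    {F : (X ⊕ Y → U) → U} (hF : P (Set.univ : Set (X ⊕ Y)) F) (x : X → U) (hx : ∀ i, x i ∈ I)
    (y : Y → U) (hy : ∀ i, y i ∈ I) (T : U → U) (hT : T ∈ T1 I) :
    trS (altY F y) T x = 0 := by
  have hf := hF.altY y
  refine AddSubgroup.closure_induction (p := fun T _ => trS (altY F y) T x = 0) ?_ ?_ ?_ ?_ hT
  · rintro T ⟨p, q, hpq, rfl⟩
    change trS (altY F y) (op p q) x = 0
    rcases hpq with h | h
    · refine AddSubgroup.closure_induction (p := fun p _ => trS (altY F y) (op p q) x = 0)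
        ?_ ?_ ?_ ?_ (hcomm p h)
      · rintro c ⟨a, -, b, -, rfl⟩
        have e : op (a * b - b * a) q = op (a * b) q + (- op (b * a) q) := by
          funext u
          simp [op, sub_eq_add_neg, add_mul]
        have h1 := tr_swap hPC hX hY hF x hx y hy a 1 b q
        rw [one_mul, mul_one] at h1
        rw [e, trS_add hf, trS_neg hf, h1, add_neg_cancel]
      · have e : op (0 : U) q = 0 := by
          funext u
          simp [op]
        rw [e, trS_zero hf]
      · intro a b _ _ ha hb
        have e : op (a + b) q = op a q + op b q := by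
          funext u
          simp [op, add_mul]
        rw [e, trS_add hf, ha, hb, add_zero]
      · intro a _ ha
        have e : op (-a) q = -op a q := by
          funext u
          simp [op]
        rw [e, trS_neg hf, ha, neg_zero]
    · refine AddSubgroup.closure_induction (p := fun q _ => trS (altY F y) (op p q) x = 0)
        ?_ ?_ ?_ ?_ (hcomm q h)
      · rintro c ⟨a, -, b, -, rfl⟩
        have e : op p (a * b - b * a) = op p (a * b) + (- op p (b * a)) := by
          funext u
          simp [op, sub_eq_add_neg, mul_add]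
        have h1 := tr_swap hPC hX hY hF x hx y hy 1 b p a
        rw [one_mul, mul_one] at h1
        rw [e, trS_add hf, trS_neg hf, h1, add_neg_cancel]
      · have e : op p (0 : U) = 0 := by
          funext u
          simp [op]
        rw [e, trS_zero hf]
      · intro a b _ _ ha hb
        have e : op p (a + b) = op p a + op p b := by
          funext u
          simp [op, mul_add]
        rw [e, trS_add hf, ha, hb, add_zero]
      · intro a _ ha
        have e : op p (-a) = -op p a := by
          funext u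
          simp [op]
        rw [e, trS_neg hf, ha, neg_zero]
  · exact trS_zero hf x
  · intro T S _ _ hT hS
    rw [trS_add hf, hT, hS, add_zero]
  · intro T _ hT
    rw [trS_neg hf, hT, neg_zero]

end Pool.Agent.Q11.Cap
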