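import Pool.Agent.Q11.CapC

/-!
The inclusion-exclusion step.
-/

namespace Pool.Agent.Q11.Cap

open Equiv

universe u

variable {U : Type u} [Ring U]

/-- the element `u` in slot `none`, and `o` in the others -/
def cons {W : Type} (u : U) (o : W → U) : Option W → U := fun p => p.elim u o

/-- the composite monomial -/
def KK {W : Type} [DecidableEq W] (f G : (Option W → U) → U) (s : Option W)
    (v : W ⊕ Option W → U) : U :=
  f (cons (G (v ∘ Sum.inr)) (v ∘ Sum.inl) ∘ swap none s)

theorem KK_P {W : Type} [DecidableEq W] {f G : (Option W → U) → U}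
    (hf : P (Set.univ : Set (Option W)) f) (hG : P (Set.univ : Set (Option W)) G)
    (s : Option W) : P (Set.univ : Set (W ⊕ Option W)) (KK f G s) := by
  refine (hf.reindex (swap none s)).substU
    (fun k : W ⊕ Option W => Sum.elim some (fun _ => none) k)
    (fun i v => cons (G (v ∘ Sum.inr)) (v ∘ Sum.inl) i) ?_
  intro i
  cases i with
  | none =>
    have h1 : P (⋃ i ∈ (Set.univ : Set (Option W)), ({Sum.inr i} : Set (W ⊕ Option W)))
        (fun v : W ⊕ Option W → U => G (fun i => v (Sum.inr i))) :=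
      hG.subst (fun i => {Sum.inr i}) (fun i v => v (Sum.inr i)) (fun i _ => P.var _)
        (fun i _ j _ hij => by simpa using hij)
    refine h1.cast ?_
    ext k
    cases k <;> simp
  | some w =>
    refine P.var' (Sum.inl w) ?_
    ext k
    cases k <;> simp

/-- indicator that the value `inl l` is placed in a slot `inl` -/
def al {W : Type} (γ : Perm (W ⊕ Option W)) (l : W) : ℤ :=
  if (γ.symm (Sum.inl l)).isLeft then 1 else 0

theorem card_left {W : Type} [Fintype W] [DecidableEq W] (L : Finset W) :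
    Fintype.card {k : W ⊕ Option W // ∀ l ∈ L, k ≠ Sum.inl l} =
      (Fintype.card W + (Fintype.card W + 1)) - L.card := by
  rw [Fintype.card_subtype]
  have h1 : (Finset.univ.filter fun k : W ⊕ Option W => ∀ l ∈ L, k ≠ Sum.inl l) =
      (L.map ⟨Sum.inl, Sum.inl_injective⟩)ᶜ := by
    ext k
    simp only [Finset.mem_filter, Finset.mem_univ, true_and, Finset.mem_compl, Finset.mem_map,
      Function.Embedding.coeFn_mk, not_exists, not_and]
    constructor
    · intro h l hl e
      exact h l hl e.symm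
    · intro h l hl e
      exact h l hl e.symm
  rw [h1, Finset.card_compl, Finset.card_map, Fintype.card_sum, Fintype.card_option]

/-- `N_L = 0` for proper `L` -/
theorem N_zero {I : Ideal U} {W : Type} [Fintype W] [DecidableEq W]
    (hPC : PC I (Fintype.card W + 1 + 1))
    {K : (W ⊕ Option W → U) → U} (hK : P (Set.univ : Set (W ⊕ Option W)) K)
    (v : W ⊕ Option W → U) (hv : ∀ i, v i ∈ I) (L : Finset W) (hL : L ≠ Finset.univ) :
    ∑ γ : Perm (W ⊕ Option W), (∏ l ∈ L, al γ l) • ((Perm.sign γ : ℤ) • K (v ∘ γ)) = 0 := by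
  have hlt : L.card < Fintype.card W := by
    rw [← Finset.card_univ]
    exact Finset.card_lt_card (Finset.ssubset_univ_iff.mpr hL)
  have hPC' : PC I (Fintype.card {k : W ⊕ Option W // ∀ l ∈ L, k ≠ Sum.inl l}) := by
    refine hPC.mono ?_
    rw [card_left]
    omega
  refine sum_coset (Perm.ofSubtype (p := fun k : W ⊕ Option W => ∀ l ∈ L, k ≠ Sum.inl l))
    Perm.ofSubtype_injective _ ?_
  intro b
  have h2 := hPC'.sub_alt hK v hv (fun k : W ⊕ Option W => ∀ l ∈ L, k ≠ Sum.inl l) rfl b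
  have h3 : ∀ (h : Perm {k : W ⊕ Option W // ∀ l ∈ L, k ≠ Sum.inl l}), ∀ l ∈ L,
      al (Perm.ofSubtype h * b) l = al b l := by
    intro h l hl
    unfold al
    have h4 : (Perm.ofSubtype h * b).symm (Sum.inl l) = b.symm (Sum.inl l) := by
      show ((Perm.ofSubtype h * b)⁻¹ : Perm _) (Sum.inl l) = b.symm (Sum.inl l)
      rw [mul_inv_rev, ← map_inv, Perm.mul_apply,
        Perm.ofSubtype_apply_of_not_mem h⁻¹ (by
          intro h5
          exact h5 l hl rfl)]
      rfl
    rw [h4]
  have h5 : ∀ h : Perm {k : W ⊕ Option W // ∀ l ∈ L, k ≠ Sum.inl l},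
      (∏ l ∈ L, al (Perm.ofSubtype h * b) l) • ((Perm.sign (Perm.ofSubtype h * b) : ℤ) •
        K (v ∘ ⇑(Perm.ofSubtype h * b))) =
      ((∏ l ∈ L, al b l) * (Perm.sign b : ℤ)) •
        ((Perm.sign h : ℤ) • K (v ∘ (Perm.ofSubtype h) ∘ b)) := by
    intro h
    rw [Finset.prod_congr rfl (fun l hl => h3 h l hl), Perm.sign_mul, Perm.sign_ofSubtype,
      smul_smul, smul_smul, Units.val_mul]
    congr 1
    ring
  rw [Finset.sum_congr rfl (fun h _ => h5 h), ← Finset.smul_sum]
  refine (congrArg _ ?_).trans (smul_zero _)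
  exact h2

/-- inclusion-exclusion -/
theorem incl_excl {I : Ideal U} {W : Type} [Fintype W] [DecidableEq W]
    (hPC : PC I (Fintype.card W + 1 + 1))
    {K : (W ⊕ Option W → U) → U} (hK : P (Set.univ : Set (W ⊕ Option W)) K)
    (v : W ⊕ Option W → U) (hv : ∀ i, v i ∈ I) :
    ∑ γ : Perm (W ⊕ Option W), (∏ l : W, (1 - al γ l)) • ((Perm.sign γ : ℤ) • K (v ∘ γ)) =
      ((-1 : ℤ) ^ (Fintype.card W)) •
        ∑ γ : Perm (W ⊕ Option W), (∏ l : W, al γ l) • ((Perm.sign γ : ℤ) • K (v ∘ γ)) := by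
  have h1 : ∀ γ : Perm (W ⊕ Option W), (∏ l : W, (1 - al γ l)) =
      ∑ L ∈ (Finset.univ : Finset W).powerset, (-1 : ℤ) ^ L.card * ∏ l ∈ L, al γ l := by
    intro γ
    have h2 := Finset.prod_one_add (f := fun l => - al γ l) (Finset.univ : Finset W)
    simp only [← sub_eq_add_neg] at h2
    rw [h2]
    refine Finset.sum_congr rfl (fun L _ => ?_)
    rw [Finset.prod_neg]
  simp only [h1, Finset.sum_smul]
  rw [Finset.sum_comm, Finset.sum_eq_single (Finset.univ : Finset W)]
  · rw [Finset.smul_sum]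
    refine Finset.sum_congr rfl (fun γ _ => ?_)
    rw [mul_smul, Finset.card_univ]
  · intro L _ hL
    have h3 := N_zero hPC hK v hv L hL
    simp only [mul_smul, ← Finset.smul_sum, h3, smul_zero]
  · intro h
    exact absurd (Finset.mem_powerset.mpr (Finset.subset_univ _)) h

theorem al_prod_one {W : Type} [Fintype W] [DecidableEq W] (γ : Perm (W ⊕ Option W))
    (h : ∏ l : W, al γ l ≠ 0) : γ ∈ (Perm.sumCongrHom W (Option W)).range := by
  have h1 : ∀ l : W, (γ.symm (Sum.inl l)).isLeft := by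
    intro l
    by_contra h2
    apply h
    refine Finset.prod_eq_zero (Finset.mem_univ l) ?_
    unfold al
    rw [if_neg h2]
  have h2 : γ⁻¹ ∈ (Perm.sumCongrHom W (Option W)).range := by
    apply Perm.mem_sumCongrHom_range_of_perm_mapsTo_inl
    rintro _ ⟨l, rfl⟩
    have := h1 l
    rw [Sum.isLeft_iff] at this
    obtain ⟨y, hy⟩ := this
    exact ⟨y, hy.symm⟩
  have h3 := Subgroup.inv_mem _ h2
  rwa [inv_inv] at h3

theorem al_sumCongr {W : Type} [Fintype W] (ρ : Perm W) (β : Perm (Option W)) :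
    ∏ l : W, al (sumCongr ρ β) l = 1 := by
  refine Finset.prod_eq_one (fun l _ => ?_)
  simp [al]

theorem all_outer {W : Type} [Fintype W] [DecidableEq W]
    (K : (W ⊕ Option W → U) → U) (z : W → U) (x : Option W → U) :
    ∑ ρ : Perm W, ∑ β : Perm (Option W), (Perm.sign ρ : ℤ) • (Perm.sign β : ℤ) •
      K (Sum.elim (z ∘ ρ) (x ∘ β)) =
    ∑ γ : Perm (W ⊕ Option W), (∏ l : W, al γ l) • ((Perm.sign γ : ℤ) •
      K (Sum.elim z x ∘ γ)) := by
  rw [← Fintype.sum_prod_type' (f := fun (ρ : Perm W) (β : Perm (Option W)) =>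
    (Perm.sign ρ : ℤ) • (Perm.sign β : ℤ) • K (Sum.elim (z ∘ ρ) (x ∘ β)))]
  refine Fintype.sum_of_injective (Perm.sumCongrHom W (Option W)) Perm.sumCongrHom_injective
    _ _ ?_ ?_
  · intro γ hγ
    by_cases h : ∏ l : W, al γ l = 0
    · rw [h, zero_smul]
    · exact absurd (al_prod_one γ h) (by
        rintro ⟨a, ha⟩
        exact hγ ⟨a, ha⟩)
  · rintro ⟨ρ, β⟩
    show _ = (∏ l : W, al (sumCongr ρ β) l) • ((Perm.sign (sumCongr ρ β) : ℤ) •
      K (Sum.elim z x ∘ (sumCongr ρ β)))
    rw [al_sumCongr, one_smul, Perm.sign_sumCongr, Units.val_mul, mul_smul]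
    congr 3
    funext k
    cases k <;> rfl

end Pool.Agent.Q11.Cap
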