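import Pool.Agent.Q11.CapD

/-!
The key identity.
-/

namespace Pool.Agent.Q11.Cap

open Equiv

universe u

variable {U : Type u} [Ring U]

theorem al_left {W : Type} (h : Perm (Option W)) (b : Perm (W ⊕ Option W)) (l : W) :
    al (sumCongr 1 h * b) l = al b l := by
  unfold al
  have h4 : (sumCongr 1 h * b).symm (Sum.inl l) = b.symm (Sum.inl l) := by
    show ((sumCongr 1 h * b)⁻¹ : Perm _) (Sum.inl l) = b.symm (Sum.inl l)
    rw [mul_inv_rev, Perm.mul_apply]
    rfl
  rw [h4]

theorem all_inner {I : Ideal U} [hI : I.IsTwoSided] {W : Type} [Fintype W] [DecidableEq W]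
    [Nonempty W]
    {f G : (Option W → U) → U} (hG : P (Set.univ : Set (Option W)) G)
    (x : Option W → U) (z : W → U) (hz : ∀ i, z i ∈ I)
    (hTr : ∀ T ∈ T1 I, trS f T x = 0) :
    ∑ γ : Perm (W ⊕ Option W), ∑ s : Option W, (∏ l : W, (1 - al γ l)) •
      ((Perm.sign γ : ℤ) • ((Perm.sign (swap none s) : ℤ) • KK f G s (Sum.elim z x ∘ γ))) = 0 := by
  refine sum_coset ((Perm.sumCongrHom W (Option W)).comp (MonoidHom.inr _ _)) ?_ _ ?_
  · intro a b hab
    have h1 := Perm.sumCongrHom_injective (α := W) (β := Option W) hab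
    simpa using h1
  intro b
  have hφ : ∀ h : Perm (Option W),
      ((Perm.sumCongrHom W (Option W)).comp (MonoidHom.inr _ _)) h = sumCongr 1 h := fun _ => rfl
  simp only [hφ, al_left]
  by_cases hb : ∏ l : W, (1 - al b l) = 0
  · simp [hb]
  have hb1 : ∀ l : W, ¬ (b.symm (Sum.inl l)).isLeft := by
    intro l h2
    apply hb
    refine Finset.prod_eq_zero (Finset.mem_univ l) ?_
    unfold al
    rw [if_pos h2, sub_self]
  have hb2 : ∀ l : W, ∃ c : Option W, b.symm (Sum.inl l) = Sum.inr c := by
    intro l
    have := hb1 l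
    rw [Sum.not_isLeft, Sum.isRight_iff] at this
    exact this
  choose c0 hc0 using hb2
  have hb3 : ∀ w : W, ∃ e : Option W, b (Sum.inl w) = Sum.inr e := by
    intro w
    rcases hbw : b (Sum.inl w) with l | e
    · exfalso
      have h1 : b.symm (Sum.inl l) = Sum.inl w := by
        rw [Equiv.symm_apply_eq, hbw]
      rw [hc0 l] at h1
      exact Sum.inr_ne_inl h1
    · exact ⟨e, rfl⟩
  choose b0 hb0 using hb3
  obtain ⟨r0, hr0⟩ : ∃ r : Option W, ∀ l, c0 l ≠ r := by
    by_contra hcon
    push Not at hcon
    have h1 : Function.Surjective c0 := hcon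
    have h2 := Fintype.card_le_of_surjective c0 h1
    rw [Fintype.card_option] at h2
    omega
  obtain ⟨e0, he0⟩ : ∃ e : Option W, b (Sum.inr r0) = Sum.inr e := by
    rcases hbw : b (Sum.inr r0) with l | e
    · exfalso
      have h1 : b.symm (Sum.inl l) = Sum.inr r0 := by
        rw [Equiv.symm_apply_eq, hbw]
      rw [hc0 l] at h1
      exact hr0 l (Sum.inr_injective h1)
    · exact ⟨e, rfl⟩
  let bh : Option W → Option W := cons e0 b0
  have hbh : Function.Injective bh := by
    intro i j hij
    cases i with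
    | none =>
      cases j with
      | none => rfl
      | some j =>
        exfalso
        have h1 : e0 = b0 j := hij
        have h2 : b (Sum.inr r0) = b (Sum.inl j) := by rw [he0, hb0, h1]
        exact Sum.inr_ne_inl (b.injective h2)
    | some i =>
      cases j with
      | none =>
        exfalso
        have h1 : b0 i = e0 := hij
        have h2 : b (Sum.inl i) = b (Sum.inr r0) := by rw [he0, hb0, h1]
        exact Sum.inl_ne_inr (b.injective h2)
      | some j =>
        have h1 : b0 i = b0 j := hij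
        have h2 : b (Sum.inl i) = b (Sum.inl j) := by rw [hb0, hb0, h1]
        rw [Sum.inl_injective (b.injective h2)]
  let B : Perm (Option W) := Equiv.ofBijective bh (Finite.injective_iff_bijective.mp hbh)
  have hB : ∀ i, B i = bh i := fun i => rfl
  have hr : ∀ r : Option W, r ≠ r0 → ∃ l : W, b (Sum.inr r) = Sum.inl l := by
    intro r hrr
    rcases hbw : b (Sum.inr r) with l | e
    · exact ⟨l, rfl⟩
    · exfalso
      obtain ⟨i, hi⟩ := B.surjective e
      rw [hB] at hi
      cases i with
      | none =>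
        have h1 : e0 = e := hi
        have h2 : b (Sum.inr r) = b (Sum.inr r0) := by rw [he0, hbw, h1]
        exact hrr (Sum.inr_injective (b.injective h2))
      | some i =>
        have h1 : b0 i = e := hi
        have h2 : b (Sum.inr r) = b (Sum.inl i) := by rw [hb0, hbw, h1]
        exact Sum.inr_ne_inl (b.injective h2)
  let zz : Option W → U := fun r => Sum.elim z (fun _ => 0) (b (Sum.inr r))
  let T : U → U := fun u => G (Function.update zz r0 u)
  have hT : T ∈ T1 I := by
    have w0 : W := Classical.arbitrary W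
    have hne : c0 w0 ≠ r0 := hr0 w0
    obtain ⟨l, hl⟩ := hr (c0 w0) hne
    refine hG.slot1 I zz (Set.mem_univ r0) (Set.mem_univ (c0 w0)) hne ?_
    show Sum.elim z (fun _ => 0) (b (Sum.inr (c0 w0))) ∈ I
    rw [hl]
    exact hz l
  have key := hTr T hT
  unfold trS at key
  -- rewrite the sum
  have h1 : ∀ (h : Perm (Option W)) (s : Option W),
      KK f G s (Sum.elim z x ∘ ⇑((sumCongr 1 h : Perm (W ⊕ Option W)) * b)) =
        f (Function.update (x ∘ ⇑(h * (B * swap none s))) s
          (T (x ((h * (B * swap none s)) s)))) := by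
    intro h s
    unfold KK
    congr 1
    funext p
    by_cases hp : p = s
    · subst hp
      simp only [Function.comp_apply, swap_apply_right, Function.update_self, Perm.mul_apply]
      show G ((Sum.elim z x ∘ ⇑((sumCongr 1 h : Perm (W ⊕ Option W)) * b)) ∘ Sum.inr) = T (x (h (B none)))
      show _ = G (Function.update zz r0 (x (h (B none))))
      congr 1
      funext r
      by_cases hrr : r = r0
      · subst hrr
        simp only [Function.comp_apply, Perm.mul_apply, he0, Function.update_self]
        rfl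
      · rw [Function.update_of_ne hrr]
        obtain ⟨l, hl⟩ := hr r hrr
        simp only [Function.comp_apply, Perm.mul_apply, hl, zz]
        rfl
    · rw [Function.update_of_ne hp]
      simp only [Function.comp_apply, Perm.mul_apply]
      have hq : swap none s p ≠ none := by
        intro h2
        rw [Equiv.swap_apply_eq_iff, swap_apply_left] at h2
        exact hp h2
      obtain ⟨w, hw⟩ := Option.ne_none_iff_exists'.mp hq
      rw [hw]
      show Sum.elim z x ((sumCongr 1 h) (b (Sum.inl w))) = x (h (b0 w))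
      rw [hb0]
      rfl
  have h2 : ∀ (s : Option W), ∑ h : Perm (Option W),
      ((Perm.sign ((sumCongr 1 h : Perm (W ⊕ Option W)) * b) : ℤ) • ((Perm.sign (swap none s) : ℤ) •
        KK f G s (Sum.elim z x ∘ ⇑((sumCongr 1 h : Perm (W ⊕ Option W)) * b)))) =
      ((Perm.sign b : ℤ) * (Perm.sign B : ℤ)) • ∑ σ : Perm (Option W),
        (Perm.sign σ : ℤ) • f (Function.update (x ∘ σ) s (T (x (σ s)))) := by
    intro s
    rw [← Equiv.sum_comp (Equiv.mulRight (B * swap none s)) (fun σ : Perm (Option W) =>
      (Perm.sign σ : ℤ) • f (Function.update (x ∘ σ) s (T (x (σ s))))), Finset.smul_sum]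
    refine Finset.sum_congr rfl (fun h _ => ?_)
    rw [h1]
    simp only [Equiv.coe_mulRight]
    rw [Perm.sign_mul, Perm.sign_sumCongr, Perm.sign_one, one_mul, Perm.sign_mul, Perm.sign_mul]
    rw [smul_smul, smul_smul]
    congr 1
    have hBB : (Perm.sign B : ℤ) * (Perm.sign B : ℤ) = 1 := by
      rw [← Units.val_mul, Int.units_mul_self, Units.val_one]
    push_cast
    linear_combination (-(Perm.sign h : ℤ) * (Perm.sign b : ℤ) * (Perm.sign (swap none s) : ℤ)) * hBB
  rw [Finset.sum_comm]
  simp only [← Finset.smul_sum]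
  rw [Finset.sum_congr rfl (fun s _ => h2 s), ← Finset.smul_sum, Finset.sum_comm, key,
    smul_zero, smul_zero]

theorem sum_option_perm {A : Type*} [AddCommGroup A] {W : Type} [Fintype W] [DecidableEq W]
    (g : Perm (Option W) → A) :
    ∑ σ : Perm (Option W), g σ =
      ∑ s : Option W, ∑ ρ : Perm W, g (optionCongr ρ * swap none s) := by
  rw [← Equiv.sum_comp (Equiv.inv (Perm (Option W))),
    ← Equiv.sum_comp (Perm.decomposeOption (α := W)).symm, Fintype.sum_prod_type]
  refine Finset.sum_congr rfl (fun s _ => ?_)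
  rw [← Equiv.sum_comp (Equiv.inv (Perm W))]
  refine Finset.sum_congr rfl (fun ρ _ => ?_)
  congr 1

/-- the key identity (IV) -/
theorem four {I : Ideal U} [hI : I.IsTwoSided] {W : Type} [Fintype W] [DecidableEq W]
    [Nonempty W] (hPC : PC I (Fintype.card W + 1 + 1))
    {f G : (Option W → U) → U} (hf : P (Set.univ : Set (Option W)) f)
    (hG : P (Set.univ : Set (Option W)) G)
    (x : Option W → U) (hx : ∀ i, x i ∈ I) (z : W → U) (hz : ∀ i, z i ∈ I)
    (hTr : ∀ T ∈ T1 I, trS f T x = 0) :
    altS f (cons (altS G x) z) = 0 := by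
  have hv : ∀ i, Sum.elim z x i ∈ I := by
    intro i
    cases i with
    | inl i => exact hz i
    | inr i => exact hx i
  -- Step A and B
  have h1 : altS f (cons (altS G x) z) = ∑ s : Option W, (Perm.sign (swap none s) : ℤ) •
      ∑ ρ : Perm W, ∑ β : Perm (Option W), (Perm.sign ρ : ℤ) • (Perm.sign β : ℤ) •
        KK f G s (Sum.elim (z ∘ ρ) (x ∘ β)) := by
    unfold altS
    rw [sum_option_perm]
    refine Finset.sum_congr rfl (fun s _ => ?_)
    rw [Finset.smul_sum]
    refine Finset.sum_congr rfl (fun ρ _ => ?_)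
    have e1 : ∀ u : U, cons u z ∘ ⇑(optionCongr ρ * swap none s) =
        Function.update (cons 0 (z ∘ ρ) ∘ swap none s) s u := by
      intro u
      funext p
      by_cases hp : p = s
      · subst hp
        simp [cons]
      · rw [Function.update_of_ne hp]
        have hq : swap none s p ≠ none := by
          intro h2
          rw [Equiv.swap_apply_eq_iff, swap_apply_left] at h2
          exact hp h2
        obtain ⟨w, hw⟩ := Option.ne_none_iff_exists'.mp hq
        simp [cons, hw]
    have e2 : ∀ u : U, f (cons u z ∘ ⇑(optionCongr ρ * swap none s)) =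
        hf.slotHom (cons 0 (z ∘ ρ) ∘ swap none s) (Set.mem_univ s) u := by
      intro u
      rw [e1, hf.slotHom_apply]
    rw [e2, map_sum, Perm.sign_mul, Equiv.optionCongr_sign, Units.val_mul,
      mul_comm ((Perm.sign ρ : ℤˣ) : ℤ), mul_smul, Finset.smul_sum]
    congr 1
    refine Finset.sum_congr rfl (fun β _ => ?_)
    rw [map_zsmul, ← e2]
    congr 2
    unfold KK
    congr 1
    rw [e1]
    funext p
    by_cases hp : p = s
    · subst hp
      simp [cons]
    · rw [Function.update_of_ne hp]
      have hq : swap none s p ≠ none := by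
        intro h2
        rw [Equiv.swap_apply_eq_iff, swap_apply_left] at h2
        exact hp h2
      obtain ⟨w, hw⟩ := Option.ne_none_iff_exists'.mp hq
      simp [cons, hw]
  have h2 : ∀ s : Option W, ∑ ρ : Perm W, ∑ β : Perm (Option W),
      (Perm.sign ρ : ℤ) • (Perm.sign β : ℤ) • KK f G s (Sum.elim (z ∘ ρ) (x ∘ β)) =
      ((-1 : ℤ) ^ (Fintype.card W)) • ∑ γ : Perm (W ⊕ Option W), (∏ l : W, (1 - al γ l)) •
        ((Perm.sign γ : ℤ) • KK f G s (Sum.elim z x ∘ γ)) := by
    intro s
    rw [incl_excl hPC (KK_P hf hG s) (Sum.elim z x) hv, smul_smul, ← mul_pow, neg_one_mul,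
      neg_neg, one_pow, one_smul]
    exact all_outer (KK f G s) z x
  rw [h1, Finset.sum_congr rfl (fun s _ => by rw [h2 s])]
  have h3 := all_inner (f := f) hG x z hz hTr
  rw [Finset.sum_comm] at h3
  have h4 : ∀ s : Option W, (Perm.sign (swap none s) : ℤ) • ((-1 : ℤ) ^ (Fintype.card W)) •
      ∑ γ : Perm (W ⊕ Option W), (∏ l : W, (1 - al γ l)) •
        ((Perm.sign γ : ℤ) • KK f G s (Sum.elim z x ∘ γ)) =
      ((-1 : ℤ) ^ (Fintype.card W)) • ∑ γ : Perm (W ⊕ Option W), (∏ l : W, (1 - al γ l)) •
        ((Perm.sign γ : ℤ) • ((Perm.sign (swap none s) : ℤ) •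
          KK f G s (Sum.elim z x ∘ γ))) := by
    intro s
    rw [smul_comm]
    congr 1
    rw [Finset.smul_sum]
    refine Finset.sum_congr rfl (fun γ _ => ?_)
    rw [smul_comm]
    congr 1
    rw [smul_comm]
  rw [Finset.sum_congr rfl (fun s _ => h4 s), ← Finset.smul_sum, h3, smul_zero]

end Pool.Agent.Q11.Cap
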