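import Pool.Agent.Q11.CapE

/-!
The induction on the rank.
-/

namespace Pool.Agent.Q11.Cap

open Equiv

universe u

section
variable {U : Type u} [Ring U]

theorem altS_reindex {D E : Type} [Fintype D] [DecidableEq D] [Fintype E] [DecidableEq E]
    (e : E ≃ D) (f : (D → U) → U) (x : D → U) :
    altS f x = altS (fun z : E → U => f (z ∘ e.symm)) (x ∘ e) := by
  unfold altS
  rw [← Equiv.sum_comp e.permCongr]
  refine Finset.sum_congr rfl (fun ρ _ => ?_)
  rw [Equiv.Perm.sign_permCongr]
  congr 1

theorem altS_mem {I : Ideal U} [hI : I.IsTwoSided] {D : Type} [Fintype D] [DecidableEq D]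
    [Nonempty D] {G : (D → U) → U} (hG : P (Set.univ : Set D) G) (x : D → U)
    (hx : ∀ i, x i ∈ I) : altS G x ∈ I := by
  unfold altS
  refine I.sum_mem (fun σ _ => ?_)
  refine zsmul_mem ?_ _
  exact hG.mem I _ (Set.mem_univ (Classical.arbitrary D)) (hx _)

theorem triple {I : Ideal U} [hI : I.IsTwoSided] (hcomm : Comm I) {d : ℕ}
    (hPC : PC I (d + 1)) (hd : 2 ≤ d) {D : Type} [Fintype D] [DecidableEq D]
    (hD : Fintype.card D = d) {G H J : (D → U) → U} (hG : P (Set.univ : Set D) G)
    (hH : P (Set.univ : Set D) H) (hJ : P (Set.univ : Set D) J)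
    (x z y : D → U) (hx : ∀ i, x i ∈ I) (hz : ∀ i, z i ∈ I) (hy : ∀ i, y i ∈ I) :
    altS G x * altS H z * altS J y = 0 := by
  have hne : Nonempty D := by
    rw [← Fintype.card_pos_iff]
    omega
  set v : U := altS G x with hv
  have hvI : v ∈ I := altS_mem hG x hx
  have hΦ : P (Set.univ : Set (Option D))
      (fun o => (fun (w : U) (z : D → U) => w * H z) (o none) (fun t => o (some t))) := by
    have h1 : P (⋃ i ∈ (Set.univ : Set D), ({some i} : Set (Option D)))
        (fun o : Option D → U => H (fun i => o (some i))) :=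
      hH.subst (fun i => {some i}) (fun i v => v (some i)) (fun i _ => P.var _)
        (fun i _ j _ hij => by simpa using hij)
    refine (P.mul ?_ (P.var none) h1).cast ?_
    · rw [Set.disjoint_left]
      intro k hk hk'
      have : k = none := hk
      subst this
      simp at hk'
    · ext k
      cases k <;> simp
  have h1 := hPC.exchange hD (Φ := fun (w : U) (z : D → U) => w * H z) hΦ v hvI z hz
  have h2 : v * altS H z * altS J y = ∑ t : D,
      (∑ τ : Perm D, (Perm.sign τ : ℤ) • (z t * H (Function.update z t v ∘ τ))) * altS J y := by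
    rw [← Finset.sum_mul, ← h1]
    congr 1
    unfold altS
    rw [Finset.mul_sum]
    refine Finset.sum_congr rfl (fun τ _ => ?_)
    rw [mul_smul_comm]
  rw [h2]
  refine Finset.sum_eq_zero (fun t _ => ?_)
  -- reindex
  let W : Type := {b : D // b ≠ t}
  let e : Option W ≃ D := Equiv.optionSubtypeNe t
  have he0 : e none = t := Equiv.optionSubtypeNe_none t
  have hcW : Fintype.card W + 1 = d := by
    rw [← hD, ← Fintype.card_congr e, Fintype.card_option]
  have hW : Nonempty W := by
    rw [← Fintype.card_pos_iff]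
    omega
  let F' : (Option W ⊕ D → U) → U := fun w =>
    z t * (H (fun i => w (Sum.inl (e.symm i))) * J (fun i => w (Sum.inr i)))
  have hF' : P (Set.univ : Set (Option W ⊕ D)) F' := by
    have h3 : P (⋃ i ∈ (Set.univ : Set D), ({Sum.inl (e.symm i)} : Set (Option W ⊕ D)))
        (fun w : Option W ⊕ D → U => H (fun i => w (Sum.inl (e.symm i)))) :=
      hH.subst (fun i => {Sum.inl (e.symm i)}) (fun i v => v (Sum.inl (e.symm i)))
        (fun i _ => P.var _) (fun i _ j _ hij => by simpa using hij)
    have h4 : P (⋃ i ∈ (Set.univ : Set D), ({Sum.inr i} : Set (Option W ⊕ D)))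
        (fun w : Option W ⊕ D → U => J (fun i => w (Sum.inr i))) :=
      hJ.subst (fun i => {Sum.inr i}) (fun i v => v (Sum.inr i))
        (fun i _ => P.var _) (fun i _ j _ hij => by simpa using hij)
    refine (P.const_mul (P.mul ?_ h3 h4) (z t)).cast ?_
    · rw [Set.disjoint_left]
      intro k hk hk'
      simp only [Set.mem_univ, Set.iUnion_true, Set.mem_iUnion, Set.mem_singleton_iff] at hk hk'
      obtain ⟨i, rfl⟩ := hk
      obtain ⟨j, hj⟩ := hk'
      exact Sum.inl_ne_inr hj
    · ext k
      simp only [Set.mem_univ, Set.iUnion_true, Set.mem_union, Set.mem_iUnion,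
        Set.mem_singleton_iff, iff_true]
      cases k with
      | inl o => exact Or.inl ⟨e o, by simp⟩
      | inr i => exact Or.inr ⟨i, rfl⟩
  have hPC' : PC I (Fintype.card W + 1 + 1) := by rw [hcW]; exact hPC
  have hG' : P (Set.univ : Set (Option W)) (fun z : Option W → U => G (z ∘ e.symm)) :=
    hG.reindex e.symm
  have hxe : ∀ i, (x ∘ e) i ∈ I := fun i => hx _
  have key := four hPC' (hF'.altY y) hG' (x ∘ e) hxe (fun w : W => z (e (some w)))
    (fun w => hz _) (fun T hT => tr_T1 hcomm hPC (by rw [Fintype.card_option, hcW]) hD hF'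
      (x ∘ e) hxe y hy T hT)
  rw [← altS_reindex e G x, ← hv] at key
  have hcons : cons v (fun w : W => z (e (some w))) = Function.update z t v ∘ e := by
    funext o
    cases o with
    | none => simp [cons, he0]
    | some w =>
      have : e (some w) ≠ t := by
        rw [← he0]
        intro h5
        have := e.injective h5
        simp at this
      simp [cons, Function.update_of_ne this]
  rw [hcons] at key
  rw [← key, Finset.sum_mul]
  unfold altS
  rw [← Equiv.sum_comp e.permCongr]
  refine Finset.sum_congr rfl (fun ρ _ => ?_)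
  rw [Equiv.Perm.sign_permCongr]
  unfold altY
  rw [smul_mul_assoc, Finset.mul_sum]
  congr 1
  refine Finset.sum_congr rfl (fun τ _ => ?_)
  rw [mul_smul_comm]
  congr 1
  show _ = z t * (H _ * J _)
  rw [mul_assoc]
  congr 3

/-- The generators of the ideal `V`. -/
def gens (I : Ideal U) (d : ℕ) : Set U :=
  {v | ∃ G : (Fin d → U) → U, P (Set.univ : Set (Fin d)) G ∧ ∃ x : Fin d → U,
    (∀ i, x i ∈ I) ∧ v = altS G x}

theorem gens_mul {I : Ideal U} {d : ℕ} {v : U} (hv : v ∈ gens I d) (a : U) :
    v * a ∈ gens I d := by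
  obtain ⟨G, hG, x, hx, rfl⟩ := hv
  refine ⟨_, hG.mul_const a, x, hx, ?_⟩
  unfold altS
  rw [Finset.sum_mul]
  refine Finset.sum_congr rfl (fun σ _ => ?_)
  rw [smul_mul_assoc]

theorem mul_gens {I : Ideal U} {d : ℕ} {v : U} (hv : v ∈ gens I d) (a : U) :
    a * v ∈ gens I d := by
  obtain ⟨G, hG, x, hx, rfl⟩ := hv
  refine ⟨_, hG.const_mul a, x, hx, ?_⟩
  unfold altS
  rw [Finset.mul_sum]
  refine Finset.sum_congr rfl (fun σ _ => ?_)
  rw [mul_smul_comm]

/-- the ideal `V` -/
def VV (I : Ideal U) (d : ℕ) : Ideal U := Ideal.span (gens I d)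

theorem VV_closure {I : Ideal U} {d : ℕ} {v : U} (hv : v ∈ VV I d) :
    v ∈ AddSubgroup.closure (gens I d) := by
  refine Submodule.span_induction (p := fun v _ => v ∈ AddSubgroup.closure (gens I d))
    ?_ ?_ ?_ ?_ hv
  · intro v hv
    exact AddSubgroup.subset_closure hv
  · exact AddSubgroup.zero_mem _
  · intro a b _ _ ha hb
    exact AddSubgroup.add_mem _ ha hb
  · intro a v _ hv
    refine AddSubgroup.closure_induction
      (p := fun v _ => a • v ∈ AddSubgroup.closure (gens I d)) ?_ ?_ ?_ ?_ hv
    · intro v hv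
      exact AddSubgroup.subset_closure (mul_gens hv a)
    · rw [smul_zero]
      exact AddSubgroup.zero_mem _
    · intro b c _ _ hb hc
      rw [smul_add]
      exact AddSubgroup.add_mem _ hb hc
    · intro b _ hb
      rw [smul_neg]
      exact AddSubgroup.neg_mem _ hb

instance VV_twoSided (I : Ideal U) (d : ℕ) : (VV I d).IsTwoSided := by
  refine ⟨?_⟩
  intro v b hv
  refine AddSubgroup.closure_induction
    (p := fun v _ => v * b ∈ VV I d) ?_ ?_ ?_ ?_ (VV_closure hv)
  · intro v hv
    exact Ideal.subset_span (gens_mul hv b)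
  · rw [zero_mul]
    exact (VV I d).zero_mem
  · intro a c _ _ ha hc
    rw [add_mul]
    exact (VV I d).add_mem ha hc
  · intro a _ ha
    rw [neg_mul]
    exact (VV I d).neg_mem ha

theorem VV_triple {I : Ideal U} [hI : I.IsTwoSided] (hcomm : Comm I) {d : ℕ}
    (hPC : PC I (d + 1)) (hd : 2 ≤ d) {a b c : U} (ha : a ∈ VV I d) (hb : b ∈ VV I d)
    (hc : c ∈ VV I d) : a * b * c = 0 := by
  refine AddSubgroup.closure_induction (p := fun a _ => a * b * c = 0) ?_ ?_ ?_ ?_
    (VV_closure ha)
  · intro a ha
    refine AddSubgroup.closure_induction (p := fun b _ => a * b * c = 0) ?_ ?_ ?_ ?_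
      (VV_closure hb)
    · intro b hb
      refine AddSubgroup.closure_induction (p := fun c _ => a * b * c = 0) ?_ ?_ ?_ ?_
        (VV_closure hc)
      · intro c hc
        obtain ⟨G, hG, x, hx, rfl⟩ := ha
        obtain ⟨H, hH, z, hz, rfl⟩ := hb
        obtain ⟨J, hJ, y, hy, rfl⟩ := hc
        exact triple hcomm hPC hd (Fintype.card_fin d) hG hH hJ x z y hx hz hy
      · rw [mul_zero]
      · intro s t _ _ hs ht
        rw [mul_add, hs, ht, add_zero]
      · intro s _ hs
        rw [mul_neg, hs, neg_zero]
    · rw [mul_zero, zero_mul]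
    · intro s t _ _ hs ht
      rw [mul_add, add_mul, hs, ht, add_zero]
    · intro s _ hs
      rw [mul_neg, neg_mul, hs, neg_zero]
  · rw [zero_mul, zero_mul]
  · intro s t _ _ hs ht
    rw [add_mul, add_mul, hs, ht, add_zero]
  · intro s _ hs
    rw [neg_mul, neg_mul, hs, neg_zero]

theorem P_ofFn {n : ℕ} (a : Fin n → U) :
    P (Set.univ : Set (Fin n)) (fun x : Fin n → U => (List.ofFn fun i => x i * a i).prod) := by
  have h1 : ∀ l : List (Fin n × U), (l.map Prod.fst).Nodup →
      P {i | i ∈ l.map Prod.fst} (fun x : Fin n → U => (l.map fun p => x p.1 * p.2).prod) := by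
    intro l
    induction l with
    | nil =>
      intro _
      have : (fun x : Fin n → U => (([] : List (Fin n × U)).map fun p => x p.1 * p.2).prod) =
          fun _ => 1 := by
        funext x
        simp
      rw [this]
      exact P.const' _ (by ext; simp)
    | cons p l ih =>
      intro hl
      rw [List.map_cons, List.nodup_cons] at hl
      refine (P.mul ?_ (P.mul_const (P.var p.1) p.2) (ih hl.2)).cast ?_
      · rw [Set.disjoint_left]
        intro k hk hk'
        have : k = p.1 := hk
        subst this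
        exact hl.1 hk'
      · ext k
        simp
  have h2 := h1 (List.ofFn fun i => (i, a i)) (by
    rw [List.map_ofFn]
    exact List.nodup_ofFn.mpr (fun i j h => h))
  have h3 : (fun x : Fin n → U => ((List.ofFn fun i => (i, a i)).map
      fun p => x p.1 * p.2).prod) = (fun x : Fin n → U => (List.ofFn fun i => x i * a i).prod) := by
    funext x
    rw [List.map_ofFn]
    rfl
  rw [h3] at h2
  refine h2.cast ?_
  ext k
  simp

end

/-- the main induction -/
theorem main (d : ℕ) : ∀ {U : Type u} [Ring U] (I : Ideal U) [I.IsTwoSided], Comm I →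
    HCap I (d + 1) → ∀ a ∈ I, a = 0 := by
  induction d with
  | zero =>
    intro U _ I _ _ hc a ha
    have h := hc (fun _ => a) (fun _ => 1) (fun _ => ha)
    simpa using h
  | succ d ih =>
    intro U _ I _ hcomm hc a ha
    have fin : (∀ a ∈ I, ∀ b ∈ I, ∀ c ∈ I, a * b * c = 0) → a = 0 := by
      intro h3
      have h2 : ∀ a ∈ I, ∀ b ∈ I, a * b = 0 := by
        intro a ha b hb
        refine AddSubgroup.closure_induction (p := fun a _ => a * b = 0) ?_ ?_ ?_ ?_
          (hcomm a ha)
        · rintro c ⟨s, hs, t, ht, rfl⟩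
          rw [sub_mul, h3 s hs t ht b hb, h3 t ht s hs b hb, sub_zero]
        · rw [zero_mul]
        · intro s t _ _ hs ht
          rw [add_mul, hs, ht, add_zero]
        · intro s _ hs
          rw [neg_mul, hs, neg_zero]
      refine AddSubgroup.closure_induction (p := fun a _ => a = 0) ?_ ?_ ?_ ?_ (hcomm a ha)
      · rintro c ⟨s, hs, t, ht, rfl⟩
        rw [h2 s hs t ht, h2 t ht s hs, sub_zero]
      · rfl
      · intro s t _ _ hs ht
        rw [hs, ht, add_zero]
      · intro s _ hs
        rw [hs, neg_zero]
    have hPC : PC I (d + 1 + 1) := hc.pc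
    rcases Nat.eq_zero_or_pos d with rfl | hdpos
    · -- commutative case
      have hcm : ∀ a ∈ I, ∀ b ∈ I, a * b = b * a := by
        intro a ha b hb
        have h1 : P (Set.univ : Set (Fin 2)) (fun x : Fin 2 → U => x 0 * x 1) :=
          (P.mul (by simp) (P.var 0) (P.var 1)).cast (by
            ext i
            fin_cases i <;> simp)
        have h2 := hPC (Fin 2) (by simp) _ h1 ![a, b] (by
          intro i
          fin_cases i <;> simp [ha, hb])
        unfold altS at h2
        rw [Fintype.sum_eq_add (1 : Perm (Fin 2)) (swap 0 1) (by decide)] at h2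
        · simpa [Perm.sign_swap, sub_eq_add_neg, ← sub_eq_add_neg, sub_eq_zero] using h2
        · intro σ hσ
          exfalso
          revert hσ
          revert σ
          decide
      refine AddSubgroup.closure_induction (p := fun a _ => a = 0) ?_ ?_ ?_ ?_ (hcomm a ha)
      · rintro c ⟨s, hs, t, ht, rfl⟩
        rw [hcm s hs t ht, sub_self]
      · rfl
      · intro s t _ _ hs ht
        rw [hs, ht, add_zero]
      · intro s _ hs
        rw [hs, neg_zero]
    · -- the general case
      let V : Ideal U := VV I (d + 1)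
      let π : U →+* (U ⧸ V) := Ideal.Quotient.mk V
      have hπ : Function.Surjective π := Ideal.Quotient.mk_surjective
      let I' : Ideal (U ⧸ V) := I.map π
      have hmem : ∀ y, y ∈ I' ↔ ∃ x, x ∈ I ∧ π x = y := fun y =>
        Ideal.mem_map_iff_of_surjective π hπ
      have hI' : I'.IsTwoSided := by
        refine ⟨?_⟩
        intro a b ha
        obtain ⟨x, hx, rfl⟩ := (hmem a).mp ha
        obtain ⟨y, rfl⟩ := hπ b
        rw [← map_mul]
        exact (hmem _).mpr ⟨x * y, I.mul_mem_right y hx, rfl⟩
      have hcomm' : Comm I' := by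
        intro a ha
        obtain ⟨x, hx, rfl⟩ := (hmem a).mp ha
        refine AddSubgroup.closure_induction (p := fun x _ => π x ∈
          AddSubgroup.closure {c : U ⧸ V | ∃ a ∈ I', ∃ b ∈ I', c = a * b - b * a}) ?_ ?_ ?_ ?_
          (hcomm x hx)
        · rintro c ⟨s, hs, t, ht, rfl⟩
          refine AddSubgroup.subset_closure ⟨π s, (hmem _).mpr ⟨s, hs, rfl⟩, π t,
            (hmem _).mpr ⟨t, ht, rfl⟩, ?_⟩
          rw [map_sub, map_mul, map_mul]
        · rw [map_zero]
          exact AddSubgroup.zero_mem _
        · intro s t _ _ hs ht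
          rw [map_add]
          exact AddSubgroup.add_mem _ hs ht
        · intro s _ hs
          rw [map_neg]
          exact AddSubgroup.neg_mem _ hs
      have hc' : HCap I' (d + 1) := by
        intro x a hx
        have h1 : ∀ i, ∃ s, s ∈ I ∧ π s = x i := fun i => (hmem _).mp (hx i)
        choose xs hxs hxs' using h1
        choose as has using fun i => hπ (a i)
        have h2 : altS (fun x : Fin (d + 1) → U => (List.ofFn fun i => x i * as i).prod) xs
            ∈ V := Ideal.subset_span ⟨_, P_ofFn as, xs, hxs, rfl⟩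
        have h3 : π (altS (fun x : Fin (d + 1) → U =>
            (List.ofFn fun i => x i * as i).prod) xs) = 0 := Ideal.Quotient.eq_zero_iff_mem.mpr h2
        rw [← h3]
        unfold altS
        rw [map_sum]
        refine Finset.sum_congr rfl (fun σ _ => ?_)
        rw [map_zsmul, map_list_prod, List.map_ofFn]
        congr 3
        funext i
        simp [hxs', has]
      have h0 := ih I' hcomm' hc'
      have hIV : ∀ b ∈ I, b ∈ V := by
        intro b hb
        have := h0 (π b) ((hmem _).mpr ⟨b, hb, rfl⟩)
        exact Ideal.Quotient.eq_zero_iff_mem.mp this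
      refine fin (fun a ha b hb c hc => ?_)
      exact VV_triple hcomm hPC (by omega) (hIV a ha) (hIV b hb) (hIV c hc)

end Pool.Agent.Q11.Cap
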