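import Pool.Agent.Q11.CapF

/-!
From the Capelli identity with coefficients in the ring to the one with coefficients in the
unitization, and the theorem for rings without unit.
-/

namespace Pool.Agent.Q11.Cap

open Equiv

universe u v w

section
variable {U : Type u} [Ring U]

/-- the Capelli identity with coefficients in `I` only -/
def WCap (I : Ideal U) (n : ℕ) : Prop :=
  ∀ (x a : Fin n → U), (∀ i, x i ∈ I) → (∀ i, a i ∈ I) →
    ∑ σ : Perm (Fin n), (Perm.sign σ : ℤ) • (List.ofFn fun i => x (σ i) * a i).prod = 0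

theorem sum_coset' {G K A : Type*} [Group G] [Fintype G] [Group K] [Fintype K]
    [AddCommGroup A] (φ : K →* G) (hφ : Function.Injective φ) (g : G → A)
    (h : ∀ b : G, ∑ k : K, g (b * φ k) = 0) : ∑ x : G, g x = 0 := by
  rw [← Equiv.sum_comp (Equiv.inv G)]
  refine sum_coset φ hφ _ (fun b => ?_)
  rw [← Equiv.sum_comp (Equiv.inv K)]
  simpa using h b⁻¹

theorem prod_blocks {n : ℕ} (f : Fin (n * 2) → U) :
    (List.ofFn f).prod = (List.ofFn fun i : Fin n =>
      f (finProdFinEquiv (i, 0)) * f (finProdFinEquiv (i, 1))).prod := by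
  rw [List.ofFn_mul, List.prod_flatten, List.map_ofFn]
  congr 2
  funext i
  simp only [Function.comp_apply, List.ofFn_succ, List.ofFn_zero, List.prod_cons, List.prod_nil,
    mul_one]
  congr 1
  · congr 1
    apply Fin.ext
    simp [finProdFinEquiv, mul_comm]
  · congr 1
    apply Fin.ext
    simp [finProdFinEquiv, mul_comm, add_comm]

theorem altS_monomial_weak {I : Ideal U} [hI : I.IsTwoSided] {n : ℕ} (hc : WCap I n)
    {ι : Type} [Fintype ι]
    [DecidableEq ι] (hn : Fintype.card ι = n * 2) {F : (ι → U) → U}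
    (hF : F ∈ Mo U (Set.univ : Set ι))
    (x : ι → U) (hx : ∀ i, x i ∈ I) : altS F x = 0 := by
  obtain ⟨a, l, h1, h2, rfl⟩ := hF
  have hinj : Function.Injective (fun i : Fin l.length => (l.get i).1) := by
    have h3 := List.nodup_iff_injective_get.mp h1
    intro i j hij
    have h4 := @h3 (i.cast (by simp)) (j.cast (by simp)) (by simpa using hij)
    simpa [Fin.ext_iff] using h4
  have hsurj : Function.Surjective (fun i : Fin l.length => (l.get i).1) := by
    intro i
    have h3 := (h2 i).mpr (Set.mem_univ i)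
    rw [List.mem_map] at h3
    obtain ⟨p, hp, rfl⟩ := h3
    obtain ⟨k, hk⟩ := List.get_of_mem hp
    exact ⟨k, congrArg Prod.fst hk⟩
  have hl : l.length = n * 2 := by
    rw [← hn, ← Fintype.card_congr (Equiv.ofBijective _ ⟨hinj, hsurj⟩), Fintype.card_fin]
  let e : Fin n × Fin 2 ≃ ι :=
    (finProdFinEquiv.trans (finCongr hl.symm)).trans (Equiv.ofBijective _ ⟨hinj, hsurj⟩)
  let c : Fin n × Fin 2 → U := fun q => (l.get ((finCongr hl.symm) (finProdFinEquiv q))).2
  have hM : ∀ y : ι → U, (l.map fun p => y p.1 * p.2).prod =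
      (List.ofFn fun j : Fin n => y (e (j, 0)) * (c (j, 0) * y (e (j, 1)) * c (j, 1))).prod := by
    intro y
    have hgen : ∀ f : ι × U → U, l.map f =
        List.ofFn (fun i : Fin (n * 2) => f (l.get ((finCongr hl.symm) i))) := by
      intro f
      have h5 : List.map f (List.ofFn l.get) = List.ofFn (f ∘ l.get) := List.map_ofFn
      rw [List.ofFn_get] at h5
      rw [h5]
      exact List.ofFn_congr hl _
    rw [hgen, prod_blocks]
    congr 2
    funext j
    show (y (e (j, 0)) * c (j, 0)) * (y (e (j, 1)) * c (j, 1)) = _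
    noncomm_ring
  let ψ : Perm (Fin n) →* Perm (Fin n × Fin 2) :=
    { toFun := fun τ => Equiv.prodShear (Equiv.refl _) (fun _ => Equiv.refl _) |>.trans
        { toFun := fun q => if q.2 = 0 then (τ q.1, q.2) else q
          invFun := fun q => if q.2 = 0 then (τ⁻¹ q.1, q.2) else q
          left_inv := by
            rintro ⟨i, b⟩
            by_cases hb : b = 0 <;> simp [hb]
          right_inv := by
            rintro ⟨i, b⟩
            by_cases hb : b = 0 <;> simp [hb] }
      map_one' := by
        ext ⟨i, b⟩ <;> by_cases hb : b = 0 <;> simp [hb]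
      map_mul' := by
        intro s t
        ext ⟨i, b⟩ <;> by_cases hb : b = 0 <;> simp [hb] }
  have hψ : ∀ (τ : Perm (Fin n)) (q : Fin n × Fin 2),
      ψ τ q = if q.2 = 0 then (τ q.1, q.2) else q := fun _ _ => rfl
  have hψ1 : Function.Injective ψ := by
    intro s t hst
    ext i
    have := congrArg (fun g : Perm (Fin n × Fin 2) => (g (i, 0)).1) hst
    simpa [hψ] using congrArg Fin.val this
  have hsign : ∀ τ : Perm (Fin n), Perm.sign (ψ τ) = Perm.sign τ := by
    intro τ
    have h3 : ψ τ = (Equiv.prodComm (Fin n) (Fin 2)).symm.permCongr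
        (Perm.prodExtendRight 0 τ) := by
      ext ⟨i, b⟩ <;> by_cases hb : b = 0 <;>
        simp [hb, hψ, Perm.prodExtendRight, Equiv.permCongr_apply]
    rw [h3, Perm.sign_permCongr, Perm.sign_prodExtendRight]
  let φ : Perm (Fin n) →* Perm ι := (e.permCongrHom : Perm (Fin n × Fin 2) →* Perm ι).comp ψ
  have hφ : ∀ τ, φ τ = e.permCongr (ψ τ) := fun _ => rfl
  unfold altS
  refine sum_coset' φ ?_ _ ?_
  · intro s t hst
    rw [hφ, hφ] at hst
    exact hψ1 (e.permCongr.injective hst)
  intro b
  have key := hc (fun j => x (b (e (j, 0)))) (fun j => c (j, 0) * x (b (e (j, 1))) * c (j, 1))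
    (fun j => hx _) (fun j => I.mul_mem_right _ (I.mul_mem_left _ (hx _)))
  have h4 : ∀ τ : Perm (Fin n), (Perm.sign (b * φ τ) : ℤ) •
      (a * (l.map fun p => (x ∘ ⇑(b * φ τ)) p.1 * p.2).prod) =
      (Perm.sign b : ℤ) • (a * ((Perm.sign τ : ℤ) • (List.ofFn fun j : Fin n =>
        x (b (e (τ j, 0))) * (c (j, 0) * x (b (e (j, 1))) * c (j, 1))).prod)) := by
    intro τ
    rw [hM, Perm.sign_mul, hφ, Perm.sign_permCongr, hsign, Units.val_mul, mul_smul,
      mul_smul_comm]
    congr 6
    funext j
    simp [Equiv.permCongr_apply, hψ]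
  rw [Finset.sum_congr rfl (fun τ _ => h4 τ), ← Finset.smul_sum, ← Finset.mul_sum, key, mul_zero,
    smul_zero]

theorem WCap.pc {I : Ideal U} [hI : I.IsTwoSided] {n : ℕ} (hc : WCap I n) : PC I (n * 2) := by
  intro ι _ _ hn F hF x hx
  refine AddSubgroup.closure_induction
    (p := fun F _ => altS F x = 0) ?_ ?_ ?_ ?_ hF.mem_closure
  · intro F hF
    exact altS_monomial_weak hc hn hF x hx
  · simp [altS]
  · intro F G _ _ h1 h2
    unfold altS at *
    simp only [Pi.add_apply, smul_add, Finset.sum_add_distrib, h1, h2, add_zero]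
  · intro F _ h1
    unfold altS at *
    simp only [Pi.neg_apply, smul_neg, Finset.sum_neg_distrib, h1, neg_zero]

theorem PC.hcap {I : Ideal U} {n : ℕ} (hc : PC I n) : HCap I n := by
  intro x a hx
  exact hc (Fin n) (Fintype.card_fin n) _ (P_ofFn a) x hx

/-- the main theorem for ideals, with coefficients in the ideal only -/
theorem main_weak {I : Ideal U} [I.IsTwoSided] (hcomm : Comm I) {n : ℕ}
    (hc : WCap I n) : ∀ a ∈ I, a = 0 := by
  have h1 : PC I (n * 2 + 1) := hc.pc.mono (Nat.le_succ _)
  exact main (n * 2) I hcomm h1.hcap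

end

end Pool.Agent.Q11.Cap
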