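import Pool.Agent.Q11.CapG

/-!
The theorem for rings without unit, and module-finite algebras.
-/

namespace Pool.Agent.Q11.Cap

open Equiv

universe u v w

/-- `R` satisfies the Capelli identity `∑ sign σ x_{σ 1} a_1 x_{σ 2} a_2 ⋯ x_{σ n} a_n = 0` for
all `x_i, a_i ∈ R`.  (The product of the elements `x_{σ i} a_i ∈ R` is computed in the ring
`ℤ ⊕ R` obtained from `R` by adjoining a unit element.) -/
def SatisfiesCapelli (R : Type u) [NonUnitalRing R] (n : ℕ) : Prop :=
  ∀ x a : Fin n → R, ∑ σ : Perm (Fin n), (Perm.sign σ : ℤ) •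
    (List.ofFn fun i => ((x (σ i) * a i : R) : Unitization ℤ R)).prod = 0

/-- `R` coincides with the additive subgroup generated by all commutators. -/
def EqualsDerived (R : Type u) [NonUnitalRing R] : Prop :=
  AddSubgroup.closure {c : R | ∃ a b : R, c = a * b - b * a} = ⊤

/-- the ideal `R` of `ℤ ⊕ R` -/
def idl (R : Type u) [NonUnitalRing R] :
    @Ideal (Unitization ℤ R) (@Ring.toSemiring _ Unitization.instRing) :=
  RingHom.ker (Unitization.fstHom ℤ R : Unitization ℤ R →ₐ[ℤ] ℤ)

instance (R : Type u) [NonUnitalRing R] : (idl R).IsTwoSided := by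
  unfold idl
  infer_instance

theorem mem_idl {R : Type u} [NonUnitalRing R] (u : Unitization ℤ R) :
    u ∈ idl R ↔ ∃ r : R, (r : Unitization ℤ R) = u := by
  constructor
  · intro h
    have h1 : u.fst = 0 := h
    exact ⟨u.snd, Unitization.ext (by simp [h1]) (by simp)⟩
  · rintro ⟨r, rfl⟩
    show (r : Unitization ℤ R).fst = 0
    simp

theorem comm_idl {R : Type u} [NonUnitalRing R] (h : EqualsDerived R) : Comm (U := Unitization ℤ R) (idl R) := by
  intro u hu
  obtain ⟨r, rfl⟩ := (mem_idl u).mp hu
  have hr : r ∈ AddSubgroup.closure {c : R | ∃ a b : R, c = a * b - b * a} := by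
    unfold EqualsDerived at h
    rw [h]
    exact AddSubgroup.mem_top r
  refine AddSubgroup.closure_induction (p := fun (r : R) _ => (r : Unitization ℤ R) ∈
    AddSubgroup.closure {c : Unitization ℤ R | ∃ a ∈ idl R, ∃ b ∈ idl R, c = a * b - b * a})
    ?_ ?_ ?_ ?_ hr
  · rintro c ⟨a, b, rfl⟩
    refine AddSubgroup.subset_closure ⟨a, (mem_idl _).mpr ⟨a, rfl⟩, b, (mem_idl _).mpr ⟨b, rfl⟩,
      ?_⟩
    rw [Unitization.inr_sub, Unitization.inr_mul, Unitization.inr_mul]
  · rw [Unitization.inr_zero]
    exact AddSubgroup.zero_mem _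
  · intro a b _ _ ha hb
    rw [Unitization.inr_add]
    exact AddSubgroup.add_mem _ ha hb
  · intro a _ ha
    rw [Unitization.inr_neg]
    exact AddSubgroup.neg_mem _ ha

theorem wcap_idl {R : Type u} [NonUnitalRing R] {n : ℕ} (h : SatisfiesCapelli R n) :
    WCap (U := Unitization ℤ R) (idl R) n := by
  intro x a hx ha
  choose xs hxs using fun i => (mem_idl (x i)).mp (hx i)
  choose as has using fun i => (mem_idl (a i)).mp (ha i)
  have h1 := h xs as
  rw [← h1]
  refine Finset.sum_congr rfl (fun σ _ => ?_)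
  congr 3
  funext i
  rw [Unitization.inr_mul, hxs, has]

theorem capelli_zero {R : Type u} [NonUnitalRing R] {n : ℕ} (hc : SatisfiesCapelli R n)
    (hd : EqualsDerived R) (r : R) : r = 0 := by
  have h1 := main_weak (comm_idl hd) (wcap_idl hc) (r : Unitization ℤ R)
    ((mem_idl _).mpr ⟨r, rfl⟩)
  have h2 : (r : Unitization ℤ R) = ((0 : R) : Unitization ℤ R) := by
    rw [h1, Unitization.inr_zero]
  exact Unitization.inr_injective h2

/-- Capelli identities of module-finite algebras -/
theorem finite_capelli {C : Type v} [CommRing C] {B : Type w} [Ring B] [Algebra C B] (m : ℕ)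
    (g : (Fin m → C) →ₗ[C] B) (hg : Function.Surjective g) (x a : Fin (m + 1) → B) :
    ∑ σ : Perm (Fin (m + 1)), (Perm.sign σ : ℤ) •
      (List.ofFn fun i => x (σ i) * a i).prod = 0 := by
  let M : MultilinearMap C (fun _ : Fin (m + 1) => B) B :=
    (MultilinearMap.mkPiAlgebraFin C (m + 1) B).compLinearMap
      (fun i => LinearMap.mulRight C (a i))
  let A : AlternatingMap C B B (Fin (m + 1)) := MultilinearMap.alternatization M
  have hA : A.compLinearMap g = 0 := by
    refine (Pi.basisFun C (Fin m)).ext_alternating (fun v hv => ?_)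
    exfalso
    have := Fintype.card_le_of_injective v hv
    simp at this
  choose s hs using fun i => hg (x i)
  have h1 : A x = 0 := by
    have h2 : A x = (A.compLinearMap g) s := by
      simp only [AlternatingMap.compLinearMap_apply]
      congr 1
      funext i
      exact (hs i).symm
    rw [h2, hA]
    rfl
  have h3 : A x = ∑ σ : Perm (Fin (m + 1)), (Perm.sign σ : ℤ) •
      (List.ofFn fun i => x (σ i) * a i).prod := by
    show MultilinearMap.alternatization M x = _
    rw [MultilinearMap.alternatization_apply]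
    refine Finset.sum_congr rfl (fun σ _ => ?_)
    rw [Units.smul_def]
    congr 1
  rw [← h3, h1]

/-- the ring homomorphism `ℤ ⊕ S → B` -/
def liftB {S : Type u} [NonUnitalRing S] {B : Type w} [Ring B] (f : S →ₙ+* B) :
    Unitization ℤ S →ₐ[ℤ] B :=
  Unitization.lift { f with map_smul' := fun n s => by simp }

theorem liftB_inr {S : Type u} [NonUnitalRing S] {B : Type w} [Ring B] (f : S →ₙ+* B) (s : S) :
    liftB f (s : Unitization ℤ S) = f s := by
  simp [liftB]

theorem liftB_prod {S : Type u} [NonUnitalRing S] {B : Type w} [Ring B] (f : S →ₙ+* B)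
    (l : List (Unitization ℤ S)) : liftB f l.prod = (l.map (liftB f)).prod := by
  induction l with
  | nil =>
    rw [List.prod_nil, List.map_nil, List.prod_nil]
    exact (liftB f).map_one'
  | cons a l ih => rw [List.prod_cons, map_mul, ih, List.map_cons, List.prod_cons]

theorem sub_capelli {B : Type w} [Ring B] {n : ℕ} (hn : n ≠ 0)
    (hB : ∀ x a : Fin n → B, ∑ σ : Perm (Fin n), (Perm.sign σ : ℤ) •
      (List.ofFn fun i => x (σ i) * a i).prod = 0)
    {S : Type v} [NonUnitalRing S] (ι : S →ₙ+* B) (hι : Function.Injective ι) :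
    SatisfiesCapelli S n := by
  intro x a
  set z : Unitization ℤ S := ∑ σ : Perm (Fin n), (Perm.sign σ : ℤ) •
    (List.ofFn fun i => ((x (σ i) * a i : S) : Unitization ℤ S)).prod with hz
  have h1 : z ∈ idl S := by
    rw [hz]
    refine (idl S).sum_mem (fun σ _ => ?_)
    have h0 : (List.ofFn fun i => ((x (σ i) * a i : S) : Unitization ℤ S)).prod ∈ idl S := by
      obtain ⟨m, rfl⟩ := Nat.exists_eq_succ_of_ne_zero hn
      rw [List.ofFn_succ, List.prod_cons]
      exact (idl S).mul_mem_right _ ((mem_idl _).mpr ⟨_, rfl⟩)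
    rcases Int.units_eq_one_or (Perm.sign σ) with h | h
    · rw [h]
      simpa using h0
    · rw [h]
      simpa using (idl S).neg_mem h0
  obtain ⟨s, hs⟩ := (mem_idl z).mp h1
  have h2 : liftB ι z = 0 := by
    rw [hz, map_sum]
    rw [← hB (fun i => ι (x i)) (fun i => ι (a i))]
    refine Finset.sum_congr rfl (fun σ _ => ?_)
    rw [map_zsmul]
    congr 1
    refine (liftB_prod ι _).trans ?_
    rw [List.map_ofFn]
    congr 2
    funext i
    simp [liftB_inr]
  rw [← hs, liftB_inr] at h2
  have h3 : s = 0 := hι (by rw [h2, map_zero])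
  rw [← hs, h3, Unitization.inr_zero]

theorem quot_capelli {n : ℕ} {S : Type v} [NonUnitalRing S] (hS : SatisfiesCapelli S n)
    {R : Type u} [NonUnitalRing R] (f : S →ₙ+* R) (hf : Function.Surjective f) :
    SatisfiesCapelli R n := by
  intro x a
  choose xs hxs using fun i => hf (x i)
  choose as has using fun i => hf (a i)
  let inrR : @NonUnitalRingHom R (Unitization ℤ R) _
      (@NonUnitalNonAssocRing.toNonUnitalNonAssocSemiring _
        (@NonAssocRing.toNonUnitalNonAssocRing _ Ring.toNonAssocRing)) :=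
    { toFun := fun r => (r : Unitization ℤ R)
      map_mul' := Unitization.inr_mul ℤ
      map_zero' := Unitization.inr_zero ℤ
      map_add' := Unitization.inr_add ℤ }
  have h1 := congrArg (liftB (B := Unitization ℤ R) (inrR.comp f)) (hS xs as)
  rw [map_zero, map_sum] at h1
  rw [← h1]
  refine Finset.sum_congr rfl (fun σ _ => ?_)
  rw [map_zsmul]
  congr 1
  refine ((liftB_prod (B := Unitization ℤ R) (inrR.comp f) _).trans ?_).symm
  rw [List.map_ofFn]
  congr 2
  funext i
  simp only [liftB_inr, inrR, Function.comp_apply, NonUnitalRingHom.comp_apply, map_mul, hxs, has]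
  exact (Unitization.inr_mul ℤ _ _).symm

theorem module_finite_zero {C : Type v} [CommRing C] {B : Type w} [Ring B] [Algebra C B]
    [Module.Finite C B] {S : Type u} [NonUnitalRing S] (ι : S →ₙ+* B)
    (hι : Function.Injective ι) {R : Type u} [NonUnitalRing R] (f : S →ₙ+* R)
    (hf : Function.Surjective f) (hd : EqualsDerived R) (r : R) : r = 0 := by
  obtain ⟨m, g, hg⟩ := Module.Finite.exists_fin' C B
  exact capelli_zero (quot_capelli (sub_capelli (Nat.succ_ne_zero m)
    (fun x a => finite_capelli m g hg x a) ι hι) f hf) hd r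

end Pool.Agent.Q11.Cap
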