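import Mathlib

/-!
Generalized multilinear polynomials over a ring, substitution, additivity, and the
Capelli identities for index sets of size at least `n`.
-/

namespace Pool.Agent.Q11.Cap

open Equiv

universe u

/-- generalized multilinear polynomial functions using exactly the variables in `s` -/
inductive P {U : Type u} [Ring U] {ι : Type} : Set ι → ((ι → U) → U) → Prop
  | const (a : U) : P ∅ (fun _ => a)
  | var (i : ι) : P {i} (fun x => x i)
  | mul {s t : Set ι} {F G : (ι → U) → U} (hd : Disjoint s t) (hF : P s F) (hG : P t G) :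
      P (s ∪ t) (fun x => F x * G x)
  | add {s : Set ι} {F G : (ι → U) → U} (hF : P s F) (hG : P s G) : P s (fun x => F x + G x)
  | neg {s : Set ι} {F : (ι → U) → U} (hF : P s F) : P s (fun x => - F x)
  | zero (s : Set ι) : P s (fun _ => 0)

variable {U : Type u} [Ring U]

theorem P.cast {ι : Type} {s t : Set ι} {F : (ι → U) → U} (h : P s F) (e : s = t) : P t F :=
  e ▸ h

theorem P.const' {ι : Type} {s : Set ι} (a : U) (e : s = ∅) : P s (fun _ : ι → U => a) :=
  (P.const a).cast e.symm

theorem P.var' {ι : Type} {s : Set ι} (i : ι) (e : s = {i}) : P s (fun x : ι → U => x i) :=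
  (P.var i).cast e.symm

theorem P.mul_const {ι : Type} {s : Set ι} {F : (ι → U) → U} (h : P s F) (a : U) :
    P s (fun x => F x * a) :=
  (P.mul (Set.disjoint_empty s) h (P.const a)).cast (Set.union_empty s)

theorem P.const_mul {ι : Type} {s : Set ι} {F : (ι → U) → U} (h : P s F) (a : U) :
    P s (fun x => a * F x) :=
  (P.mul (Set.empty_disjoint s) (P.const a) h).cast (Set.empty_union s)

theorem P.sum {ι : Type} {s : Set ι} {J : Type*} (S : Finset J) (F : J → (ι → U) → U)
    (h : ∀ j ∈ S, P s (F j)) : P s (fun x => ∑ j ∈ S, F j x) := by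
  classical
  induction S using Finset.induction_on with
  | empty => simpa using P.zero s
  | insert j S hj ih =>
    have h1 := (h j (Finset.mem_insert_self _ _)).add
      (ih (fun k hk => h k (Finset.mem_insert_of_mem hk)))
    simpa [Finset.sum_insert hj] using h1

theorem P.smul_units {ι : Type} {s : Set ι} {F : (ι → U) → U} (h : P s F) (e : ℤˣ) :
    P s (fun x => ((e : ℤˣ) : ℤ) • F x) := by
  rcases Int.units_eq_one_or e with rfl | rfl
  · simpa using h
  · simpa using h.neg

theorem P.subst {ι κ : Type} {s : Set ι} {F : (ι → U) → U}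
    (hF : P s F) (t : ι → Set κ) (G : ι → (κ → U) → U)
    (hG : ∀ i ∈ s, P (t i) (G i))
    (hd : ∀ i ∈ s, ∀ j ∈ s, i ≠ j → Disjoint (t i) (t j)) :
    P (⋃ i ∈ s, t i) (fun z => F (fun i => G i z)) := by
  induction hF with
  | const a => exact P.const' a (by simp)
  | var i =>
    have := hG i (Set.mem_singleton i)
    simpa using this
  | @mul s1 s2 F1 F2 hd12 h1 h2 ih1 ih2 =>
    have e1 := ih1 (fun i hi => hG i (Or.inl hi))
      (fun i hi j hj => hd i (Or.inl hi) j (Or.inl hj))
    have e2 := ih2 (fun i hi => hG i (Or.inr hi))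
      (fun i hi j hj => hd i (Or.inr hi) j (Or.inr hj))
    refine (P.mul ?_ e1 e2).cast (Set.biUnion_union s1 s2 t).symm
    rw [Set.disjoint_iUnion₂_left]
    intro i hi
    rw [Set.disjoint_iUnion₂_right]
    intro j hj
    refine hd i (Or.inl hi) j (Or.inr hj) ?_
    rintro rfl
    exact (Set.disjoint_left.mp hd12) hi hj
  | add h1 h2 ih1 ih2 => exact P.add (ih1 hG hd) (ih2 hG hd)
  | neg h1 ih1 => exact P.neg (ih1 hG hd)
  | zero s => exact P.zero _

theorem P.substU {ι κ : Type} {F : (ι → U) → U} (hF : P Set.univ F) (own : κ → ι)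
    (G : ι → (κ → U) → U) (hG : ∀ i, P {k | own k = i} (G i)) :
    P Set.univ (fun z => F (fun i => G i z)) := by
  refine (hF.subst (fun i => {k | own k = i}) G (fun i _ => hG i) ?_).cast ?_
  · intro i _ j _ hij
    rw [Set.disjoint_left]
    intro k hk hk'
    exact hij (hk.symm.trans hk')
  · ext k
    simp

theorem P.reindex {ι κ : Type} {F : (ι → U) → U} (hF : P Set.univ F) (e : ι ≃ κ) :
    P Set.univ (fun z : κ → U => F (z ∘ e)) :=
  hF.substU (fun k => e.symm k) (fun i z => z (e i)) (fun i => P.var' (e i) (by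
    ext k
    simp only [Set.mem_ofPred_eq, Set.mem_singleton_iff]
    rw [Equiv.symm_apply_eq]))

theorem P.congr {ι : Type} {s : Set ι} {F : (ι → U) → U} (hF : P s F) {x y : ι → U}
    (h : ∀ i ∈ s, x i = y i) : F x = F y := by
  induction hF with
  | const a => rfl
  | var i => exact h i rfl
  | mul hd h1 h2 ih1 ih2 =>
    show _ * _ = _ * _
    rw [ih1 (fun i hi => h i (Or.inl hi)), ih2 (fun i hi => h i (Or.inr hi))]
  | add h1 h2 ih1 ih2 =>
    show _ + _ = _ + _
    rw [ih1 h, ih2 h]
  | neg h1 ih1 =>
    show - _ = - _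
    rw [ih1 h]
  | zero s => rfl

theorem P.update_of_notMem {ι : Type} [DecidableEq ι] {s : Set ι} {F : (ι → U) → U} (hF : P s F)
    (x : ι → U) {i : ι} (hi : i ∉ s) (a : U) : F (Function.update x i a) = F x :=
  hF.congr (fun j hj => by
    rw [Function.update_of_ne]
    rintro rfl
    exact hi hj)

theorem P.update_add {ι : Type} [DecidableEq ι] {s : Set ι} {F : (ι → U) → U} (hF : P s F)
    (x : ι → U) {i : ι} (hi : i ∈ s) (a b : U) :
    F (Function.update x i (a + b)) = F (Function.update x i a) + F (Function.update x i b) := by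
  induction hF with
  | const a => exact absurd hi (by simp)
  | var j =>
    have : i = j := hi
    subst this
    simp
  | @mul s t F G hd h1 h2 ih1 ih2 =>
    show F _ * G _ = F _ * G _ + F _ * G _
    rcases hi with hi | hi
    · have hi' : i ∉ t := fun h => (Set.disjoint_left.mp hd) hi h
      rw [ih1 hi, h2.update_of_notMem x hi', h2.update_of_notMem x hi',
        h2.update_of_notMem x hi', add_mul]
    · have hi' : i ∉ s := fun h => (Set.disjoint_left.mp hd) h hi
      rw [ih2 hi, h1.update_of_notMem x hi', h1.update_of_notMem x hi',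
        h1.update_of_notMem x hi', mul_add]
  | add h1 h2 ih1 ih2 =>
    show _ + _ = _ + _ + (_ + _)
    rw [ih1 hi, ih2 hi]
    abel
  | neg h1 ih1 =>
    show - _ = - _ + - _
    rw [ih1 hi]
    abel
  | zero s => simp

/-- the additive map obtained by letting one slot vary -/
def P.slotHom {ι : Type} [DecidableEq ι] {s : Set ι} {F : (ι → U) → U} (hF : P s F)
    (x : ι → U) {i : ι} (hi : i ∈ s) : U →+ U :=
  AddMonoidHom.mk' (fun a => F (Function.update x i a)) (fun a b => hF.update_add x hi a b)

theorem P.slotHom_apply {ι : Type} [DecidableEq ι] {s : Set ι} {F : (ι → U) → U} (hF : P s F)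
    (x : ι → U) {i : ι} (hi : i ∈ s) (a : U) :
    hF.slotHom x hi a = F (Function.update x i a) := rfl

theorem P.mem {ι : Type} {s : Set ι} {F : (ι → U) → U} (hF : P s F) (I : Ideal U)
    [hI : I.IsTwoSided] (x : ι → U) {i : ι} (hi : i ∈ s) (hx : x i ∈ I) : F x ∈ I := by
  induction hF with
  | const a => exact absurd hi (by simp)
  | var j =>
    have : i = j := hi
    subst this
    exact hx
  | @mul s t F G hd h1 h2 ih1 ih2 =>
    show F _ * G _ ∈ I
    rcases hi with hi | hi
    · exact I.mul_mem_right _ (ih1 hi)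
    · exact I.mul_mem_left _ (ih2 hi)
  | add h1 h2 ih1 ih2 => exact I.add_mem (ih1 hi) (ih2 hi)
  | neg h1 ih1 => exact I.neg_mem (ih1 hi)
  | zero s => exact I.zero_mem

/-- operators of the form `u ↦ p u q` -/
def T0 (U : Type u) [Ring U] : AddSubgroup (U → U) :=
  AddSubgroup.closure {T | ∃ p q : U, T = fun u => p * u * q}

/-- operators of the form `u ↦ p u q` with `p ∈ I` or `q ∈ I` -/
def T1 (I : Ideal U) : AddSubgroup (U → U) :=
  AddSubgroup.closure {T | ∃ p q : U, (p ∈ I ∨ q ∈ I) ∧ T = fun u => p * u * q}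

theorem T0_mul {T : U → U} (h : T ∈ T0 U) (a b : U) : (fun u => a * T u * b) ∈ T0 U := by
  refine AddSubgroup.closure_induction
    (p := fun T _ => (fun u => a * T u * b) ∈ T0 U) ?_ ?_ ?_ ?_ h
  · rintro T ⟨p, q, rfl⟩
    refine AddSubgroup.subset_closure ⟨a * p, q * b, ?_⟩
    funext u
    noncomm_ring
  · have : (fun u : U => a * (0 : U → U) u * b) = 0 := by
      funext u
      simp
    rw [this]
    exact (T0 U).zero_mem
  · intro T S _ _ hT hS
    have : (fun u => a * (T + S) u * b) = (fun u => a * T u * b) + (fun u => a * S u * b) := by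
      funext u
      simp [mul_add, add_mul]
    rw [this]
    exact (T0 U).add_mem hT hS
  · intro T _ hT
    have : (fun u => a * (-T) u * b) = -(fun u => a * T u * b) := by
      funext u
      simp
    rw [this]
    exact (T0 U).neg_mem hT

theorem T1_mul {I : Ideal U} [hI : I.IsTwoSided] {T : U → U} (h : T ∈ T1 I) (a b : U) :
    (fun u => a * T u * b) ∈ T1 I := by
  refine AddSubgroup.closure_induction
    (p := fun T _ => (fun u => a * T u * b) ∈ T1 I) ?_ ?_ ?_ ?_ h
  · rintro T ⟨p, q, hpq, rfl⟩
    refine AddSubgroup.subset_closure ⟨a * p, q * b, ?_, ?_⟩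
    · rcases hpq with h | h
      · exact Or.inl (I.mul_mem_left _ h)
      · exact Or.inr (I.mul_mem_right _ h)
    · funext u
      noncomm_ring
  · have : (fun u : U => a * (0 : U → U) u * b) = 0 := by
      funext u
      simp
    rw [this]
    exact (T1 I).zero_mem
  · intro T S _ _ hT hS
    have : (fun u => a * (T + S) u * b) = (fun u => a * T u * b) + (fun u => a * S u * b) := by
      funext u
      simp [mul_add, add_mul]
    rw [this]
    exact (T1 I).add_mem hT hS
  · intro T _ hT
    have : (fun u => a * (-T) u * b) = -(fun u => a * T u * b) := by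
      funext u
      simp
    rw [this]
    exact (T1 I).neg_mem hT

theorem T01_mul {I : Ideal U} [hI : I.IsTwoSided] {T : U → U} (h : T ∈ T0 U) (a b : U)
    (hab : a ∈ I ∨ b ∈ I) :
    (fun u => a * T u * b) ∈ T1 I := by
  refine AddSubgroup.closure_induction
    (p := fun T _ => (fun u => a * T u * b) ∈ T1 I) ?_ ?_ ?_ ?_ h
  · rintro T ⟨p, q, rfl⟩
    refine AddSubgroup.subset_closure ⟨a * p, q * b, ?_, ?_⟩
    · rcases hab with h | h
      · exact Or.inl (I.mul_mem_right _ h)
      · exact Or.inr (I.mul_mem_left _ h)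
    · funext u
      noncomm_ring
  · have : (fun u : U => a * (0 : U → U) u * b) = 0 := by
      funext u
      simp
    rw [this]
    exact (T1 I).zero_mem
  · intro T S _ _ hT hS
    have : (fun u => a * (T + S) u * b) = (fun u => a * T u * b) + (fun u => a * S u * b) := by
      funext u
      simp [mul_add, add_mul]
    rw [this]
    exact (T1 I).add_mem hT hS
  · intro T _ hT
    have : (fun u => a * (-T) u * b) = -(fun u => a * T u * b) := by
      funext u
      simp
    rw [this]
    exact (T1 I).neg_mem hT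

theorem P.slot0 {ι : Type} [DecidableEq ι] {s : Set ι} {F : (ι → U) → U} (hF : P s F)
    (x : ι → U) {i : ι} (hi : i ∈ s) : (fun u => F (Function.update x i u)) ∈ T0 U := by
  induction hF with
  | const a => exact absurd hi (by simp)
  | var j =>
    have : i = j := hi
    subst this
    refine AddSubgroup.subset_closure ⟨1, 1, ?_⟩
    funext u
    simp
  | @mul s t F G hd h1 h2 ih1 ih2 =>
    rcases hi with hi | hi
    · have hi' : i ∉ t := fun h => (Set.disjoint_left.mp hd) hi h
      have := T0_mul (ih1 hi) 1 (G x)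
      simpa [h2.update_of_notMem x hi'] using this
    · have hi' : i ∉ s := fun h => (Set.disjoint_left.mp hd) h hi
      have := T0_mul (ih2 hi) (F x) 1
      simpa [h1.update_of_notMem x hi'] using this
  | add h1 h2 ih1 ih2 => exact (T0 U).add_mem (ih1 hi) (ih2 hi)
  | neg h1 ih1 => exact (T0 U).neg_mem (ih1 hi)
  | zero s => exact (T0 U).zero_mem

theorem P.slot1 {ι : Type} [DecidableEq ι] {s : Set ι} {F : (ι → U) → U} (hF : P s F)
    (I : Ideal U) [hI : I.IsTwoSided]
    (x : ι → U) {i : ι} (hi : i ∈ s) {j : ι} (hj : j ∈ s) (hji : j ≠ i) (hxj : x j ∈ I) :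
    (fun u => F (Function.update x i u)) ∈ T1 I := by
  induction hF with
  | const a => exact absurd hi (by simp)
  | var k =>
    exact absurd ((show j = k from hj).trans (show i = k from hi).symm) hji
  | @mul s t F G hd h1 h2 ih1 ih2 =>
    rcases hi with hi | hi
    · have hi' : i ∉ t := fun h => (Set.disjoint_left.mp hd) hi h
      rcases hj with hj | hj
      · have := T1_mul (ih1 hi hj) 1 (G x)
        simpa [h2.update_of_notMem x hi'] using this
      · have := T01_mul (I := I) (h1.slot0 x hi) 1 (G x) (Or.inr (h2.mem I x hj hxj))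
        simpa [h2.update_of_notMem x hi'] using this
    · have hi' : i ∉ s := fun h => (Set.disjoint_left.mp hd) h hi
      rcases hj with hj | hj
      · have := T01_mul (I := I) (h2.slot0 x hi) (F x) 1 (Or.inl (h1.mem I x hj hxj))
        simpa [h1.update_of_notMem x hi'] using this
      · have := T1_mul (ih2 hi hj) (F x) 1
        simpa [h1.update_of_notMem x hi'] using this
  | add h1 h2 ih1 ih2 => exact (T1 I).add_mem (ih1 hi hj) (ih2 hi hj)
  | neg h1 ih1 => exact (T1 I).neg_mem (ih1 hi hj)
  | zero s => exact (T1 I).zero_mem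

end Pool.Agent.Q11.Cap
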