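import Mathlib

set_option autoImplicit false
set_option linter.unusedSectionVars false

/-!
The ring of differential operators of `k[x]`, its Bernstein filtration and holonomic modules
(the case `n = 1`).
-/

namespace Q11.DMod

open Polynomial
open Finset.HasAntidiagonal (antidiagonal mem_antidiagonal)

noncomputable section

universe u v

/-- The ring `𝒟` of `k`-linear differential operators of `R = k[x]`: the `k`-subalgebra of
`End_k R` generated by the multiplications by elements of `R` and the divided derivatives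
`D_t : x^v ↦ binom(v, t) x^(v-t)` (`Polynomial.hasseDeriv t`). -/
def diffOpsSub (k : Type u) [Field k] : Subalgebra k (Module.End k k[X]) :=
  Algebra.adjoin k (Set.range (fun f : k[X] => LinearMap.mulLeft k f) ∪
    Set.range (fun t : ℕ => (hasseDeriv t : Module.End k k[X])))

/-- The ring `𝒟`, as a type. -/
def DiffOps (k : Type u) [Field k] : Type u := diffOpsSub k

instance (k : Type u) [Field k] : Ring (DiffOps k) := inferInstanceAs (Ring (diffOpsSub k))
instance (k : Type u) [Field k] : Algebra k (DiffOps k) :=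
  inferInstanceAs (Algebra k (diffOpsSub k))

variable {k : Type u} [Field k]

/-- the underlying operator on `k[x]` -/
def toEnd : DiffOps k →ₐ[k] Module.End k k[X] := (diffOpsSub k).val

lemma toEnd_inj {P Q : DiffOps k} (h : toEnd P = toEnd Q) : P = Q := Subtype.ext h

/-- multiplication by `x^a`, as an element of `𝒟` -/
def mulX (k : Type u) [Field k] (a : ℕ) : DiffOps k :=
  ⟨LinearMap.mulLeft k (X ^ a), Algebra.subset_adjoin (Or.inl ⟨X ^ a, rfl⟩)⟩

/-- the divided derivative `D_t`, as an element of `𝒟` -/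
def hd (k : Type u) [Field k] (t : ℕ) : DiffOps k :=
  ⟨hasseDeriv t, Algebra.subset_adjoin (Or.inr ⟨t, rfl⟩)⟩

/-- The Bernstein filtration: `F_s` is the `k`-span of the `x^a D_t` with `a + t ≤ s`. -/
def bern (k : Type u) [Field k] (s : ℕ) : Submodule k (DiffOps k) :=
  Submodule.span k {P | ∃ a t : ℕ, a + t ≤ s ∧ P = mulX k a * hd k t}

section modules

variable {M : Type v} [AddCommGroup M] [Module k M] [Module (DiffOps k) M]
  [IsScalarTower k (DiffOps k) M]

/-- A `k`-filtration of the `𝒟`-module `M`. -/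
structure IsKFiltration (Fil : ℕ → Submodule k M) : Prop where
  mono : ∀ i, Fil i ≤ Fil (i + 1)
  exhaust : ∀ x : M, ∃ i, x ∈ Fil i
  smul_mem : ∀ i j, ∀ P ∈ bern k i, ∀ x ∈ Fil j, P • x ∈ Fil (i + j)

/-- `M` is holonomic (`n = 1`): it has a `k`-filtration with `dim_k M_i ≤ C i` for `i ≥ 1`. -/
def IsHolonomic (k : Type u) [Field k] (M : Type v) [AddCommGroup M] [Module k M]
    [Module (DiffOps k) M] [IsScalarTower k (DiffOps k) M] : Prop :=
  ∃ Fil : ℕ → Submodule k M, IsKFiltration Fil ∧
    ∃ C : ℕ, ∀ i, 1 ≤ i → Module.Finite k (Fil i) ∧ Module.finrank k (Fil i) ≤ C * i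

end modules

/-! ### Computations in `𝒟` -/

lemma mulX_apply (a : ℕ) (f : k[X]) : toEnd (mulX k a) f = X ^ a * f := rfl
lemma hd_apply (t : ℕ) (f : k[X]) : toEnd (hd k t) f = hasseDeriv t f := rfl

lemma hasseDeriv_X_pow (t b : ℕ) :
    hasseDeriv t (X ^ b : k[X]) = (b.choose t : k) • X ^ (b - t) := by
  rw [← monomial_one_right_eq_X_pow, hasseDeriv_monomial, mul_one, ← mul_one (b.choose t : k),
    ← smul_eq_mul, ← smul_monomial, monomial_one_right_eq_X_pow, smul_eq_mul, mul_one]

lemma mulX_mul_mulX (a b : ℕ) : mulX k a * mulX k b = mulX k (a + b) := by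
  apply toEnd_inj
  apply LinearMap.ext
  intro f
  show X ^ a * (X ^ b * f) = X ^ (a + b) * f
  ring

lemma hd_mul_hd (s t : ℕ) : hd k s * hd k t = ((s + t).choose s : k) • hd k (s + t) := by
  apply toEnd_inj
  have h := hasseDeriv_comp (R := k) s t
  apply LinearMap.ext
  intro f
  have h2 := LinearMap.congr_fun h f
  show hasseDeriv s (hasseDeriv t f) = ((s + t).choose s : k) • hasseDeriv (s + t) f
  rw [LinearMap.comp_apply] at h2
  rw [h2, LinearMap.smul_apply, Nat.cast_smul_eq_nsmul]

lemma mulX_zero : mulX k 0 = 1 := by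
  apply toEnd_inj
  apply LinearMap.ext
  intro f
  show X ^ 0 * f = f
  simp

lemma hd_zero : hd k 0 = 1 := by
  apply toEnd_inj
  apply LinearMap.ext
  intro f
  show hasseDeriv 0 f = f
  simp

lemma hd_mul_mulX (t b : ℕ) : hd k t * mulX k b =
    ∑ ij ∈ antidiagonal t, (b.choose ij.1 : k) • (mulX k (b - ij.1) * hd k ij.2) := by
  apply toEnd_inj
  apply LinearMap.ext
  intro f
  rw [map_sum, LinearMap.sum_apply]
  show hasseDeriv t (X ^ b * f) = _
  rw [hasseDeriv_mul]
  apply Finset.sum_congr rfl
  rintro ⟨i, j⟩ _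
  show hasseDeriv i (X ^ b) * hasseDeriv j f = (b.choose i : k) • (X ^ (b - i) * hasseDeriv j f)
  rw [hasseDeriv_X_pow, smul_mul_assoc]

lemma mem_bern (a t s : ℕ) (h : a + t ≤ s) : mulX k a * hd k t ∈ bern k s :=
  Submodule.subset_span ⟨a, t, h, rfl⟩

lemma bern_mono {s s' : ℕ} (h : s ≤ s') : bern k s ≤ bern k s' := by
  apply Submodule.span_mono
  rintro P ⟨a, t, hat, rfl⟩
  exact ⟨a, t, hat.trans h, rfl⟩

lemma bern_mul_basic (a t b u' : ℕ) :
    (mulX k a * hd k t) * (mulX k b * hd k u') ∈ bern k (a + t + (b + u')) := by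
  have h : (mulX k a * hd k t) * (mulX k b * hd k u') =
      mulX k a * (hd k t * mulX k b) * hd k u' := by simp only [mul_assoc]
  rw [h, hd_mul_mulX, Finset.mul_sum, Finset.sum_mul]
  apply Submodule.sum_mem
  rintro ⟨i, j⟩ hij
  rw [mem_antidiagonal] at hij
  have h2 : mulX k a * ((b.choose i : k) • (mulX k (b - i) * hd k j)) * hd k u' =
      ((b.choose i : k) * ((j + u').choose j : k)) • (mulX k (a + (b - i)) * hd k (j + u')) := by
    rw [mul_smul_comm, smul_mul_assoc, ← mul_assoc (mulX k a), mulX_mul_mulX, mul_assoc,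
      hd_mul_hd, mul_smul_comm, smul_smul]
  rw [h2]
  by_cases hib : i ≤ b
  · apply Submodule.smul_mem
    apply mem_bern
    simp only at hij
    omega
  · rw [Nat.choose_eq_zero_of_lt (by omega), Nat.cast_zero, zero_mul, zero_smul]
    exact zero_mem _

lemma bern_mul {i j : ℕ} {P Q : DiffOps k} (hP : P ∈ bern k i) (hQ : Q ∈ bern k j) :
    P * Q ∈ bern k (i + j) := by
  induction hP using Submodule.span_induction with
  | mem P hP =>
    obtain ⟨a, t, hat, rfl⟩ := hP
    induction hQ using Submodule.span_induction with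
    | mem Q hQ =>
      obtain ⟨b, u', hbu, rfl⟩ := hQ
      exact bern_mono (by omega) (bern_mul_basic a t b u')
    | zero => rw [mul_zero]; exact zero_mem _
    | add x y _ _ hx hy => rw [mul_add]; exact add_mem hx hy
    | smul c x _ hx => rw [mul_smul_comm]; exact Submodule.smul_mem _ _ hx
  | zero => rw [zero_mul]; exact zero_mem _
  | add x y _ _ hx hy => rw [add_mul]; exact add_mem hx hy
  | smul c x _ hx => rw [smul_mul_assoc]; exact Submodule.smul_mem _ _ hx

lemma one_mem_bern (s : ℕ) : (1 : DiffOps k) ∈ bern k s := by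
  have h : (1 : DiffOps k) = mulX k 0 * hd k 0 := by rw [mulX_zero, hd_zero, mul_one]
  rw [h]
  exact mem_bern _ _ _ (by omega)

lemma mulLeft_mem (f : k[X]) : ∃ P' : DiffOps k, toEnd P' = LinearMap.mulLeft k f ∧
    P' ∈ bern k f.natDegree := by
  refine ⟨∑ i ∈ Finset.range (f.natDegree + 1), f.coeff i • (mulX k i * hd k 0), ?_, ?_⟩
  · apply LinearMap.ext
    intro g
    rw [map_sum, LinearMap.sum_apply]
    show _ = f * g
    conv_rhs => rw [f.as_sum_range_C_mul_X_pow, Finset.sum_mul]
    apply Finset.sum_congr rfl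
    intro i _
    rw [hd_zero, mul_one]
    show f.coeff i • (X ^ i * g) = C (f.coeff i) * X ^ i * g
    rw [smul_eq_C_mul, mul_assoc]
  · apply Submodule.sum_mem
    intro i hi
    rw [Finset.mem_range] at hi
    exact Submodule.smul_mem _ _ (mem_bern _ _ _ (by omega))

lemma exists_mem_bern_aux (P : Module.End k k[X]) (hP : P ∈ diffOpsSub k) :
    ∃ P' : DiffOps k, toEnd P' = P ∧ ∃ s, P' ∈ bern k s := by
  unfold diffOpsSub at hP
  induction hP using Algebra.adjoin_induction with
  | mem P hP =>
    rcases hP with ⟨f, rfl⟩ | ⟨t, rfl⟩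
    · obtain ⟨P', h1, h2⟩ := mulLeft_mem f
      exact ⟨P', h1, f.natDegree, h2⟩
    · refine ⟨hd k t, rfl, t, ?_⟩
      have h2 := mem_bern (k := k) 0 t t (by omega)
      rwa [mulX_zero, one_mul] at h2
  | algebraMap r =>
    refine ⟨r • (1 : DiffOps k), ?_, 0, Submodule.smul_mem _ r (one_mem_bern (k := k) 0)⟩
    rw [map_smul, map_one]
    exact (Algebra.algebraMap_eq_smul_one r).symm
  | add P Q hP hQ h1 h2 =>
    obtain ⟨P', hP', s, hs⟩ := h1
    obtain ⟨Q', hQ', t, ht⟩ := h2
    exact ⟨P' + Q', by rw [map_add, hP', hQ'], s + t,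
      add_mem (bern_mono (by omega) hs) (bern_mono (by omega) ht)⟩
  | mul P Q hP hQ h1 h2 =>
    obtain ⟨P', hP', s, hs⟩ := h1
    obtain ⟨Q', hQ', t, ht⟩ := h2
    exact ⟨P' * Q', by rw [map_mul, hP', hQ'], s + t, bern_mul hs ht⟩

lemma exists_mem_bern (P : DiffOps k) : ∃ s, P ∈ bern k s := by
  obtain ⟨P', hP', s, hs⟩ := exists_mem_bern_aux P.1 P.2
  exact ⟨s, by rwa [toEnd_inj hP'] at hs⟩

section modules

variable {M : Type v} [AddCommGroup M] [Module k M] [Module (DiffOps k) M]
  [IsScalarTower k (DiffOps k) M]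

lemma hd_smul_mulX_smul (t b : ℕ) (m : M) (hm : ∀ t, 1 ≤ t → hd k t • m = 0) :
    hd k t • mulX k b • m = (b.choose t : k) • mulX k (b - t) • m := by
  rw [← mul_smul, hd_mul_mulX, Finset.sum_smul]
  rw [Finset.sum_eq_single (t, 0)]
  · simp only [hd_zero, mul_one]
    rw [smul_assoc]
  · rintro ⟨i, j⟩ hij hne
    rw [mem_antidiagonal] at hij
    have hj : 1 ≤ j := by
      rcases Nat.eq_zero_or_pos j with h | h
      · exfalso; apply hne; simp only at hij; rw [h] at hij ⊢; simp at hij; rw [hij]
      · exact h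
    rw [smul_assoc, mul_smul, hm j hj, smul_zero, smul_zero]
  · intro h
    exfalso; apply h; simp

/-- A module generated by one element killed by all `D_t`, `t ≥ 1`, is holonomic. -/
lemma holonomic_of_cyclic (m : M) (hm : ∀ t, 1 ≤ t → hd k t • m = 0)
    (hgen : Submodule.span (DiffOps k) {m} = ⊤) : IsHolonomic k M := by
  classical
  let Fil : ℕ → Submodule k M := fun i =>
    Submodule.span k ((Finset.range (i + 1)).image (fun a => mulX k a • m) : Finset M)
  have hmem : ∀ a i, a ≤ i → mulX k a • m ∈ Fil i := by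
    intro a i h
    apply Submodule.subset_span
    rw [Finset.coe_image]
    exact ⟨a, by simpa using Nat.lt_succ_of_le h, rfl⟩
  have hmono : ∀ i j, i ≤ j → Fil i ≤ Fil j := by
    intro i j hij
    apply Submodule.span_mono
    intro x hx
    rw [Finset.coe_image] at hx ⊢
    obtain ⟨a, ha, rfl⟩ := hx
    refine ⟨a, ?_, rfl⟩
    simp only [Finset.coe_range, Set.mem_Iio] at ha ⊢
    omega
  have hsmul : ∀ i j, ∀ P ∈ bern k i, ∀ x ∈ Fil j, P • x ∈ Fil (i + j) := by
    intro i j P hP x hx
    induction hP using Submodule.span_induction with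
    | mem P hP =>
      obtain ⟨a, t, hat, rfl⟩ := hP
      induction hx using Submodule.span_induction with
      | mem x hx =>
        rw [Finset.coe_image] at hx
        obtain ⟨b, hb, rfl⟩ := hx
        simp only [Finset.coe_range, Set.mem_Iio] at hb
        show (mulX k a * hd k t) • mulX k b • m ∈ Fil (i + j)
        rw [mul_smul, hd_smul_mulX_smul t b m hm]
        by_cases htb : t ≤ b
        · rw [smul_comm, ← mul_smul, mulX_mul_mulX]
          exact Submodule.smul_mem _ _ (hmem _ _ (by omega))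
        · rw [Nat.choose_eq_zero_of_lt (by omega), Nat.cast_zero, zero_smul, smul_zero]
          exact zero_mem _
      | zero => rw [smul_zero]; exact zero_mem _
      | add x y _ _ hx hy => rw [smul_add]; exact add_mem hx hy
      | smul c x _ hx => rw [smul_comm]; exact Submodule.smul_mem _ _ hx
    | zero => rw [zero_smul]; exact zero_mem _
    | add P Q _ _ hP hQ => rw [add_smul]; exact add_mem hP hQ
    | smul c P _ hP => rw [smul_assoc]; exact Submodule.smul_mem _ _ hP
  refine ⟨Fil, ⟨fun i => hmono i (i + 1) (by omega), ?_, hsmul⟩, 2, ?_⟩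
  · intro x
    have hx : x ∈ Submodule.span (DiffOps k) {m} := by rw [hgen]; trivial
    obtain ⟨P, rfl⟩ := Submodule.mem_span_singleton.1 hx
    obtain ⟨s, hs⟩ := exists_mem_bern P
    refine ⟨s, ?_⟩
    have h0 : m ∈ Fil 0 := by
      have := hmem 0 0 le_rfl
      rwa [mulX_zero, one_smul] at this
    exact hsmul s 0 P hs m h0
  · intro i hi
    refine ⟨Module.Finite.span_of_finite k (Finset.finite_toSet _), ?_⟩
    refine (finrank_span_finset_le_card _).trans (Finset.card_image_le.trans ?_)
    rw [Finset.card_range]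
    omega

end modules

end

end Q11.DMod
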