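import Mathlib
import Pool.Agent.Q11.DMod

set_option autoImplicit false
set_option linter.unusedSectionVars false

/-!
The `𝒟`-module of sequences of polynomials modulo eventually zero ones, and its element
`f = Σ_s x^(p^(2s) + p^(β s))` (represented by the sequence of partial sums).
-/

namespace Q11.DMod

open Polynomial
open Finset.HasAntidiagonal (antidiagonal mem_antidiagonal)

noncomputable section

universe u v

variable (k : Type u) [Field k]

instance : Module (DiffOps k) k[X] where
  smul P r := toEnd P r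
  one_smul r := by show toEnd 1 r = r; rw [map_one]; rfl
  mul_smul P Q r := by show toEnd (P * Q) r = toEnd P (toEnd Q r); rw [map_mul]; rfl
  smul_zero P := map_zero (toEnd P)
  smul_add P r s := map_add (toEnd P) r s
  add_smul P Q r := by show toEnd (P + Q) r = toEnd P r + toEnd Q r; rw [map_add]; rfl
  zero_smul r := by show toEnd 0 r = 0; rw [map_zero]; rfl

instance : IsScalarTower k (DiffOps k) k[X] :=
  ⟨by intro c P r; show toEnd (c • P) r = c • toEnd P r; rw [map_smul]; rfl⟩

/-- eventually zero sequences -/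
def Z : Submodule (DiffOps k) (ℕ → k[X]) where
  carrier := {g | ∃ n₀, ∀ n, n₀ ≤ n → g n = 0}
  zero_mem' := ⟨0, fun _ _ => rfl⟩
  add_mem' := by
    rintro g h ⟨n, hn⟩ ⟨m, hm⟩
    refine ⟨max n m, fun l hl => ?_⟩
    rw [Pi.add_apply, hn l (le_trans (le_max_left _ _) hl), hm l (le_trans (le_max_right _ _) hl),
      add_zero]
  smul_mem' := by
    rintro P g ⟨n, hn⟩
    refine ⟨n, fun l hl => ?_⟩
    rw [Pi.smul_apply, hn l hl, smul_zero]

/-- sequences modulo eventually zero sequences -/
abbrev E : Type u := (ℕ → k[X]) ⧸ Z k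

/-- the constant sequences -/
def diag : k[X] →ₗ[DiffOps k] E k :=
  (Z k).mkQ ∘ₗ
    { toFun := fun r _ => r
      map_add' := fun _ _ => rfl
      map_smul' := fun _ _ => rfl }

variable {k}

lemma diag_apply (r : k[X]) : diag k r = Submodule.Quotient.mk (fun _ => r) := rfl

lemma smul_poly (P : DiffOps k) (r : k[X]) : P • r = toEnd P r := rfl

lemma mulX_smul (a : ℕ) (r : k[X]) : mulX k a • r = X ^ a * r := rfl
lemma hd_smul (t : ℕ) (r : k[X]) : hd k t • r = hasseDeriv t r := rfl

lemma diag_smul (c : k) (r : k[X]) : diag k (c • r) = c • diag k r := rfl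

lemma diag_eq_zero {r : k[X]} (h : diag k r = 0) : r = 0 := by
  rw [diag_apply, Submodule.Quotient.mk_eq_zero] at h
  obtain ⟨n, hn⟩ := h
  exact hn n le_rfl

variable (k) in
/-- partial sums of the series -/
def fseq (p : ℕ) (β : ℕ → ℕ) (n : ℕ) : k[X] :=
  ∑ s ∈ Finset.range n, X ^ (p ^ (2 * s) + p ^ (β s))

variable (k) in
/-- the element `f` -/
def f (p : ℕ) (β : ℕ → ℕ) : E k := Submodule.Quotient.mk (fseq k p β)

variable {p : ℕ} [hp : Fact p.Prime] [CharP k p]

lemma one_add_X_pow (a b : ℕ) : (1 + X : k[X]) ^ (p ^ a + p ^ b) =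
    1 + X ^ (p ^ a) + X ^ (p ^ b) + X ^ (p ^ a + p ^ b) := by
  rw [pow_add, add_pow_char_pow, add_pow_char_pow, one_pow, one_pow]
  ring

lemma hasse_N (a b t : ℕ) (hab : a < b) : hasseDeriv t (X ^ (p ^ a + p ^ b) : k[X]) =
    (if t = 0 then X ^ (p ^ a + p ^ b) else 0) + (if t = p ^ a then X ^ (p ^ b) else 0) +
    (if t = p ^ b then X ^ (p ^ a) else 0) + (if t = p ^ a + p ^ b then 1 else 0) := by
  have h1 : ((p ^ a + p ^ b).choose t : k) = (if t = 0 then 1 else 0) +
      (if t = p ^ a then 1 else 0) + (if t = p ^ b then 1 else 0) +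
      (if t = p ^ a + p ^ b then 1 else 0) := by
    have h2 := coeff_one_add_X_pow k (p ^ a + p ^ b) t
    rw [one_add_X_pow] at h2
    rw [← h2]
    simp only [coeff_add, coeff_one, coeff_X_pow]
  have hpa : 0 < p ^ a := pow_pos hp.out.pos a
  have hpb : p ^ a < p ^ b := Nat.pow_lt_pow_right hp.out.one_lt hab
  rw [hasseDeriv_X_pow, h1]
  by_cases e0 : t = 0
  · subst e0
    rw [if_pos rfl, if_pos rfl, if_neg (by omega), if_neg (by omega), if_neg (by omega),
      if_neg (by omega), if_neg (by omega), if_neg (by omega)]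
    simp
  · rw [if_neg e0, if_neg e0]
    by_cases e1 : t = p ^ a
    · subst e1
      rw [if_pos rfl, if_pos rfl, if_neg (by omega), if_neg (by omega), if_neg (by omega),
        if_neg (by omega)]
      simp
    · rw [if_neg e1, if_neg e1]
      by_cases e2 : t = p ^ b
      · subst e2
        rw [if_pos rfl, if_pos rfl, if_neg (by omega), if_neg (by omega)]
        simp
      · rw [if_neg e2, if_neg e2]
        by_cases e3 : t = p ^ a + p ^ b
        · subst e3
          rw [if_pos rfl, if_pos rfl]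
          simp
        · rw [if_neg e3, if_neg e3]
          simp

variable {β : ℕ → ℕ}

variable (k p β) in
/-- `D_t f` for `t ≥ 1` -/
def g (t : ℕ) : k[X] := ∑ s ∈ Finset.range t,
  ((if t = p ^ (2 * s) then X ^ (p ^ (β s)) else 0) +
    (if t = p ^ (β s) then X ^ (p ^ (2 * s)) else 0) +
    (if t = p ^ (2 * s) + p ^ (β s) then 1 else 0))

lemma hd_fseq (hβ : ∀ s, 2 * s < β s) (t : ℕ) (ht : 1 ≤ t) (n : ℕ) (hn : t ≤ n) :
    hasseDeriv t (fseq k p β n) = g k p β t := by
  have h1 : hasseDeriv t (fseq k p β n) = ∑ s ∈ Finset.range n,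
      ((if t = p ^ (2 * s) then X ^ (p ^ (β s)) else 0) +
      (if t = p ^ (β s) then X ^ (p ^ (2 * s)) else 0) +
      (if t = p ^ (2 * s) + p ^ (β s) then 1 else 0) : k[X]) := by
    rw [fseq, map_sum]
    apply Finset.sum_congr rfl
    intro s _
    rw [hasse_N _ _ _ (hβ s), if_neg (by omega), zero_add]
  rw [h1, g]
  symm
  apply Finset.sum_subset (Finset.range_mono hn)
  intro s _ hs
  rw [Finset.mem_range, not_lt] at hs
  have h2 : 2 * s < p ^ (2 * s) := Nat.lt_pow_self hp.out.one_lt
  have h3 : p ^ (2 * s) < p ^ (β s) := Nat.pow_lt_pow_right hp.out.one_lt (hβ s)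
  rw [if_neg (by omega), if_neg (by omega), if_neg (by omega)]
  simp

lemma hd_f (hβ : ∀ s, 2 * s < β s) (t : ℕ) (ht : 1 ≤ t) :
    hd k t • f k p β = diag k (g k p β t) := by
  rw [f, diag_apply]
  rw [← Submodule.Quotient.mk_smul, Submodule.Quotient.eq]
  refine ⟨t, fun n hn => ?_⟩
  show hasseDeriv t (fseq k p β n) - g k p β t = 0
  rw [hd_fseq hβ t ht n hn, sub_self]

lemma not_pow (a b c : ℕ) (hab : a < b) : p ^ c ≠ p ^ a + p ^ b := by
  intro h
  have h1 : p ^ a < p ^ b := Nat.pow_lt_pow_right hp.out.one_lt hab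
  have h2 : 0 < p ^ a := pow_pos hp.out.pos a
  have h3 : p ^ b < p ^ c := by omega
  have h4 : b < c := (Nat.pow_lt_pow_iff_right hp.out.one_lt).1 h3
  have h5 : p ^ (b + 1) ≤ p ^ c := Nat.pow_le_pow_right hp.out.pos h4
  have h6 : 2 * p ^ b ≤ p ^ (b + 1) := by
    rw [pow_succ']
    exact Nat.mul_le_mul_right _ hp.out.two_le
  omega

lemma g_even (hβ : ∀ s, 2 * s < β s) (hodd : ∀ s, Odd (β s)) (v : ℕ) :
    g k p β (p ^ (2 * v)) = X ^ (p ^ (β v)) := by
  rw [g, Finset.sum_eq_single v]
  · have h1 : ¬ p ^ (2 * v) = p ^ (β v) :=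
      ne_of_lt (Nat.pow_lt_pow_right hp.out.one_lt (hβ v))
    rw [if_pos rfl, if_neg h1, if_neg (not_pow _ _ _ (hβ v))]
    simp
  · intro s _ hs
    have h1 : ¬ p ^ (2 * v) = p ^ (2 * s) := by
      intro h
      have := Nat.pow_right_injective hp.out.two_le h
      omega
    have h2 : ¬ p ^ (2 * v) = p ^ (β s) := by
      intro h
      have h3 := Nat.pow_right_injective hp.out.two_le h
      have h4 := hodd s
      rw [← h3] at h4
      exact (Nat.not_odd_iff_even.2 (even_two_mul v)) h4
    rw [if_neg h1, if_neg h2, if_neg (not_pow _ _ _ (hβ s))]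
    simp
  · intro h
    exfalso
    apply h
    rw [Finset.mem_range]
    have : 2 * v < p ^ (2 * v) := Nat.lt_pow_self hp.out.one_lt
    omega

variable (k p β) in
/-- the module `M = 𝒟 1 + 𝒟 f` -/
def M : Submodule (DiffOps k) (E k) := Submodule.span (DiffOps k) {diag k 1, f k p β}

variable (k p β) in
/-- `1` as an element of `M` -/
def m1 : M k p β := ⟨diag k 1, Submodule.subset_span (Or.inl rfl)⟩

variable (k p β) in
/-- `f` as an element of `M` -/
def mf : M k p β := ⟨f k p β, Submodule.subset_span (Or.inr rfl)⟩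

variable (k p β) in
/-- the submodule generated by `1` -/
def N : Submodule (DiffOps k) (M k p β) := Submodule.span (DiffOps k) {m1 k p β}

lemma hd_one_smul (t : ℕ) (ht : 1 ≤ t) : hd k t • diag k 1 = 0 := by
  rw [← map_smul]
  have h : hd k t • (1 : k[X]) = 0 := hasseDeriv_apply_one t ht
  rw [h, map_zero]

lemma diag_mem (r : k[X]) : ∃ P : DiffOps k, P • diag k 1 = diag k r := by
  obtain ⟨P, hP, -⟩ := mulLeft_mem r
  refine ⟨P, ?_⟩
  rw [← map_smul]
  congr 1
  show toEnd P 1 = r
  rw [hP]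
  show r * 1 = r
  rw [mul_one]

lemma span_pair_top (y : M k p β) : ∃ P Q : DiffOps k, P • m1 k p β + Q • mf k p β = y := by
  obtain ⟨y, hy⟩ := y
  obtain ⟨P, Q, h⟩ := Submodule.mem_span_pair.1 hy
  exact ⟨P, Q, Subtype.ext h⟩

lemma holonomic_N : IsHolonomic k (N k p β) := by
  refine holonomic_of_cyclic (⟨m1 k p β, Submodule.subset_span rfl⟩ : N k p β) ?_ ?_
  · intro t ht
    apply Subtype.ext
    apply Subtype.ext
    exact hd_one_smul t ht
  · rw [eq_top_iff]
    rintro ⟨y, hy⟩ _
    obtain ⟨P, hP⟩ := Submodule.mem_span_singleton.1 hy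
    rw [Submodule.mem_span_singleton]
    exact ⟨P, Subtype.ext hP⟩

lemma holonomic_quot (hβ : ∀ s, 2 * s < β s) : IsHolonomic k (M k p β ⧸ N k p β) := by
  refine holonomic_of_cyclic (Submodule.Quotient.mk (mf k p β)) ?_ ?_
  · intro t ht
    rw [← Submodule.Quotient.mk_smul, Submodule.Quotient.mk_eq_zero, N,
      Submodule.mem_span_singleton]
    obtain ⟨P, hP⟩ := diag_mem (k := k) (g k p β t)
    refine ⟨P, ?_⟩
    apply Subtype.ext
    show P • diag k 1 = hd k t • f k p β
    rw [hP, hd_f hβ t ht]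
  · rw [eq_top_iff]
    intro y _
    obtain ⟨y, rfl⟩ := Submodule.Quotient.mk_surjective _ y
    obtain ⟨P, Q, rfl⟩ := span_pair_top y
    rw [Submodule.mem_span_singleton]
    refine ⟨Q, ?_⟩
    rw [Submodule.Quotient.mk_add]
    have h : (Submodule.Quotient.mk (P • m1 k p β) : M k p β ⧸ N k p β) = 0 := by
      rw [Submodule.Quotient.mk_eq_zero, N]
      exact Submodule.smul_mem _ _ (Submodule.subset_span rfl)
    rw [h, zero_add, Submodule.Quotient.mk_smul]

lemma mulX_smul_diag (a e : ℕ) : mulX k a • diag k (X ^ e) = diag k (X ^ (a + e)) := by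
  rw [← map_smul, mulX_smul, ← pow_add]

/-- the constant sequences `x^e` are linearly independent -/
lemma linInd_diag : LinearIndependent k (fun e : ℕ => diag k (X ^ e)) := by
  have h1 : LinearIndependent k (fun e : ℕ => (X ^ e : k[X])) := by
    have h := (Polynomial.basisMonomials k).linearIndependent
    simpa [Polynomial.coe_basisMonomials, Polynomial.monomial_one_right_eq_X_pow] using h
  let D' : k[X] →ₗ[k] E k := (diag k).restrictScalars k
  exact h1.map' D' (LinearMap.ker_eq_bot'.2 (fun r hr => diag_eq_zero hr))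

/-- `M` is not holonomic when `β s = 4 s + 5`. -/
lemma not_holonomic : ¬ IsHolonomic k (M k p (fun s => 4 * s + 5)) := by
  set β : ℕ → ℕ := fun s => 4 * s + 5 with hβdef
  have hβ : ∀ s, 2 * s < β s := fun s => by simp only [hβdef]; omega
  have hodd : ∀ s, Odd (β s) := fun s => ⟨2 * s + 2, by simp only [hβdef]; ring⟩
  rintro ⟨Fil, hFil, C, hC⟩
  obtain ⟨j₀, hj₀⟩ := hFil.exhaust (mf k p β)
  -- the number of blocks
  set m : ℕ := 2 * C + C * j₀ + 1 with hm
  set q : ℕ := p ^ (4 * m) with hq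
  have hq1 : 1 ≤ q := Nat.one_le_iff_ne_zero.2 (pow_ne_zero _ hp.out.ne_zero)
  have hbound := hC (2 * q + j₀) (by omega)
  have hfin := hbound.1
  -- the elements
  have hval : ∀ v a : ℕ, ((mulX k a * hd k (p ^ (2 * v))) • mf k p β : M k p β).1 =
      diag k (X ^ (a + p ^ (β v))) := by
    intro v a
    show (mulX k a * hd k (p ^ (2 * v))) • f k p β = _
    rw [mul_smul, hd_f hβ _ (Nat.one_le_iff_ne_zero.2 (pow_ne_zero _ hp.out.ne_zero)),
      g_even hβ hodd, mulX_smul_diag]
  let w : Fin m × Fin (q + 1) → Fil (2 * q + j₀) := fun x =>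
    ⟨(mulX k x.2 * hd k (p ^ (2 * (m + x.1 : ℕ)))) • mf k p β, by
      apply hFil.smul_mem _ _ _ _ _ hj₀
      apply mem_bern
      have h1 : (x.2 : ℕ) ≤ q := Nat.lt_succ_iff.1 x.2.2
      have h2 : p ^ (2 * (m + x.1 : ℕ)) ≤ q := by
        apply Nat.pow_le_pow_right hp.out.pos
        have := x.1.2
        omega
      omega⟩
  have hw : LinearIndependent k w := by
    let I : Fil (2 * q + j₀) →ₗ[k] E k :=
      ((M k p β).subtype.restrictScalars k) ∘ₗ (Fil (2 * q + j₀)).subtype
    apply LinearIndependent.of_comp I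
    have hcomp : (I ∘ w) = (fun e : ℕ => diag k (X ^ e)) ∘
        (fun x : Fin m × Fin (q + 1) => (x.2 : ℕ) + p ^ (β (m + x.1))) := by
      funext x
      exact hval _ _
    rw [hcomp]
    apply linInd_diag.comp
    -- injectivity
    have key : ∀ v v' a a' : ℕ, m ≤ v → a ≤ q → v < v' →
        a + p ^ (β v) < a' + p ^ (β v') := by
      intro v v' a a' hv ha hvv
      have h1 : q < p ^ (β v) := Nat.pow_lt_pow_right hp.out.one_lt (by simp only [hβdef]; omega)
      have h2 : p ^ (β v + 1) ≤ p ^ (β v') :=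
        Nat.pow_le_pow_right hp.out.pos (by simp only [hβdef]; omega)
      have h3 : 2 * p ^ (β v) ≤ p ^ (β v + 1) := by
        rw [pow_succ' p (β v)]; exact Nat.mul_le_mul_right _ hp.out.two_le
      omega
    rintro ⟨v, a⟩ ⟨v', a'⟩ h
    simp only at h
    have ha := Nat.lt_succ_iff.1 a.2
    have ha' := Nat.lt_succ_iff.1 a'.2
    have hvv : (v : ℕ) = v' := by
      rcases lt_trichotomy (v : ℕ) v' with h1 | h1 | h1
      · have := key (m + v) (m + v') a a' (by omega) ha (by omega)
        omega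
      · exact h1
      · have := key (m + v') (m + v) a' a (by omega) ha' (by omega)
        omega
    have hv2 : v = v' := Fin.ext hvv
    subst hv2
    have : a = a' := Fin.ext (by omega)
    rw [this]
  have hcard := hw.fintype_card_le_finrank
  rw [Fintype.card_prod, Fintype.card_fin, Fintype.card_fin] at hcard
  have h1 : m * (q + 1) ≤ C * (2 * q + j₀) := hcard.trans hbound.2
  have h2 : C * (2 * q + j₀) ≤ (2 * C + C * j₀) * q := by
    have : C * j₀ ≤ C * j₀ * q := Nat.le_mul_of_pos_right _ hq1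
    nlinarith
  have h3 : (2 * C + C * j₀) * q < m * (q + 1) := by
    have h4 : m * (q + 1) = (2 * C + C * j₀) * q + (2 * C + C * j₀) + q + 1 := by
      rw [hm]; ring
    omega
  omega

end

end Q11.DMod
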