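import Mathlib
import Pool.Agent.Q11.DMod
import Pool.Agent.Q11.DModF

set_option autoImplicit false
set_option linter.unusedSectionVars false

/-!
Dimensions of `F_i M_0` for the module `M = 𝒟 1 + 𝒟 f`, `f = Σ_s x^(p^(2s) + p^(2s+1))`.
-/

namespace Q11.DMod

open Polynomial
open Finset.HasAntidiagonal (antidiagonal mem_antidiagonal)

noncomputable section

universe u v

/-- `F_i V`, for a `k`-subspace `V` of the `𝒟`-module `M`. -/
def genFil {k : Type u} [Field k] {M : Type v} [AddCommGroup M] [Module k M]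
    [Module (DiffOps k) M] (V : Submodule k M) (i : ℕ) : Submodule k M :=
  Submodule.span k {y | ∃ P ∈ bern k i, ∃ x ∈ V, y = P • x}

/-- `F_i V` is a `k`-filtration when `V` generates `M`. -/
lemma genFil_isKFiltration {k : Type u} [Field k] {M : Type v} [AddCommGroup M] [Module k M]
    [Module (DiffOps k) M] [IsScalarTower k (DiffOps k) M] (V : Submodule k M)
    (hV : Submodule.span (DiffOps k) (V : Set M) = ⊤) : IsKFiltration (k := k) (genFil V) := by
  refine ⟨?_, ?_, ?_⟩
  · intro i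
    apply Submodule.span_mono
    rintro y ⟨P, hP, x, hx, rfl⟩
    exact ⟨P, bern_mono (Nat.le_succ i) hP, x, hx, rfl⟩
  · have hmono : ∀ i j, i ≤ j → genFil V i ≤ genFil V j := by
      intro i j hij
      apply Submodule.span_mono
      rintro y ⟨P, hP, x, hx, rfl⟩
      exact ⟨P, bern_mono hij hP, x, hx, rfl⟩
    have hsm : ∀ (P : DiffOps k) (j : ℕ), ∀ x ∈ genFil V j, ∃ i, P • x ∈ genFil V i := by
      intro P j x hx
      obtain ⟨s, hs⟩ := exists_mem_bern P
      refine ⟨s + j, ?_⟩
      induction hx using Submodule.span_induction with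
      | mem x hx =>
        obtain ⟨Q, hQ, y, hy, rfl⟩ := hx
        rw [← mul_smul]
        exact Submodule.subset_span ⟨P * Q, bern_mul hs hQ, y, hy, rfl⟩
      | zero => rw [smul_zero]; exact zero_mem _
      | add x y _ _ hx hy => rw [smul_add]; exact add_mem hx hy
      | smul c x _ hx => rw [smul_comm]; exact Submodule.smul_mem _ _ hx
    intro x
    have hx : x ∈ Submodule.span (DiffOps k) (V : Set M) := by rw [hV]; trivial
    induction hx using Submodule.span_induction with
    | mem x hx => exact ⟨0, Submodule.subset_span ⟨1, one_mem_bern 0, x, hx, (one_smul _ _).symm⟩⟩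
    | zero => exact ⟨0, zero_mem _⟩
    | add x y _ _ hx hy =>
      obtain ⟨i, hi⟩ := hx
      obtain ⟨j, hj⟩ := hy
      exact ⟨i + j, add_mem (hmono i _ (by omega) hi) (hmono j _ (by omega) hj)⟩
    | smul P x _ hx =>
      obtain ⟨i, hi⟩ := hx
      exact hsm P i x hi
  · intro i j P hP x hx
    induction hx using Submodule.span_induction with
    | mem x hx =>
      obtain ⟨Q, hQ, y, hy, rfl⟩ := hx
      rw [← mul_smul]
      exact Submodule.subset_span ⟨P * Q, bern_mul hP hQ, y, hy, rfl⟩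
    | zero => rw [smul_zero]; exact zero_mem _
    | add x y _ _ hx hy => rw [smul_add]; exact add_mem hx hy
    | smul c x _ hx => rw [smul_comm]; exact Submodule.smul_mem _ _ hx

/-! ### the exponents -/

section exponents

open Classical in
/-- exponents of the monomials of `F_i M_0` -/
def Ei (p i : ℕ) : Finset ℕ := (Finset.range (i + p * i + 1)).filter (fun e => e ≤ i ∨
  ∃ s, p ^ (2 * s) ≤ i ∧ p ^ (2 * s + 1) ≤ e ∧ e + p ^ (2 * s) ≤ i + p ^ (2 * s + 1))

lemma mem_Ei (p i e : ℕ) : e ∈ Ei p i ↔ e ≤ i ∨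
    ∃ s, p ^ (2 * s) ≤ i ∧ p ^ (2 * s + 1) ≤ e ∧ e + p ^ (2 * s) ≤ i + p ^ (2 * s + 1) := by
  classical
  rw [Ei, Finset.mem_filter, Finset.mem_range]
  refine ⟨fun h => h.2, fun h => ⟨?_, h⟩⟩
  rcases h with h | ⟨s, h1, -, h3⟩
  · have : 0 ≤ p * i := Nat.zero_le _
    omega
  · have : p ^ (2 * s + 1) ≤ p * i := by
      rw [pow_succ']; exact Nat.mul_le_mul_left _ h1
    omega

variable {p : ℕ} (hp : 2 ≤ p)
include hp

lemma card_upper (i : ℕ) (hi : 1 ≤ i) : p ^ 2 * (Ei p i).card ≤ (2 * p ^ 2 - 1) * i + 2 * p ^ 2 := by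
  classical
  -- the block containing `i`
  obtain ⟨J, hJ1, hJ2⟩ : ∃ J, p ^ (2 * J) ≤ i ∧ i < p ^ (2 * (J + 1)) := by
    have h1 : 1 < p ^ 2 := Nat.one_lt_pow (by norm_num) (by omega)
    refine ⟨Nat.log (p ^ 2) i, ?_, ?_⟩
    · rw [pow_mul]; exact Nat.pow_log_le_self _ (by omega)
    · rw [pow_mul]; exact Nat.lt_pow_succ_log_self h1 _
  set q := p ^ (2 * J) with hq
  have hq0 : 1 ≤ q := Nat.one_le_iff_ne_zero.2 (pow_ne_zero _ (by omega))
  obtain ⟨r, hr1, hr2⟩ : ∃ r, p ^ 2 * r ≤ (p - 1) * q ∧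
      ∀ s, s < J → p ^ (2 * s + 1) ≤ p ^ (2 * s) + r := by
    cases J with
    | zero => exact ⟨0, by omega, fun s hs => absurd hs (by omega)⟩
    | succ J =>
      refine ⟨(p - 1) * p ^ (2 * J), ?_, ?_⟩
      · rw [hq]
        apply le_of_eq
        have : p ^ (2 * (J + 1)) = p ^ 2 * p ^ (2 * J) := by rw [← pow_add]; congr 1; ring
        rw [this]; ring
      · intro s hs
        have h1 : p ^ (2 * s) ≤ p ^ (2 * J) := Nat.pow_le_pow_right (by omega) (by omega)
        have h2 : p ^ (2 * s + 1) = p ^ (2 * s) + (p - 1) * p ^ (2 * s) := by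
          rw [pow_succ']
          obtain ⟨p', rfl⟩ : ∃ p', p = p' + 1 := ⟨p - 1, by omega⟩
          rw [Nat.add_sub_cancel]; ring
        have h3 : (p - 1) * p ^ (2 * s) ≤ (p - 1) * p ^ (2 * J) := Nat.mul_le_mul_left _ h1
        omega
  have hpq : p ^ (2 * J + 1) = p * q := by rw [pow_succ', hq]
  have hsub : Ei p i ⊆ Finset.range (i + r + 1) ∪
      Finset.Ico (max (i + 1) (p * q)) (i + p * q - q + 1) := by
    intro e he
    rw [mem_Ei] at he
    rw [Finset.mem_union, Finset.mem_range, Finset.mem_Ico]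
    rcases he with he | ⟨s, h1, h2, h3⟩
    · left; omega
    · have hsJ : s ≤ J := by
        by_contra hcon
        have : p ^ (2 * (J + 1)) ≤ p ^ (2 * s) := Nat.pow_le_pow_right (by omega) (by omega)
        omega
      rcases Nat.lt_or_eq_of_le hsJ with hlt | rfl
      · left
        have := hr2 s hlt
        omega
      · have h1' : q ≤ i := hJ1
        have h2' : p * q ≤ e := by rw [← hpq]; exact h2
        have h3' : e + q ≤ i + p * q := by rw [← hpq, hq]; exact h3
        by_cases hei : e ≤ i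
        · left; omega
        · right
          have : q ≤ p * q := Nat.le_mul_of_pos_left _ (by omega)
          constructor
          · apply max_le <;> omega
          · omega
  have hcard : (Ei p i).card ≤ (i + r + 1) + ((i + p * q - q + 1) - max (i + 1) (p * q)) := by
    refine (Finset.card_le_card hsub).trans ((Finset.card_union_le _ _).trans ?_)
    rw [Finset.card_range, Nat.card_Ico]
  -- the size of the last block
  set b := (i + p * q - q + 1) - max (i + 1) (p * q) with hb
  have hqle : q ≤ p * q := Nat.le_mul_of_pos_left _ (by omega)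
  have hbb : p * b ≤ (p - 1) * i + p := by
    obtain ⟨p', rfl⟩ : ∃ p', p = p' + 1 := ⟨p - 1, by omega⟩
    rw [Nat.add_sub_cancel]
    rcases le_or_gt ((p' + 1) * q) i with h | h
    · have h1 : b ≤ p' * q := by
        rw [hb, max_eq_left (by omega)]
        have : (p' + 1) * q = p' * q + q := by ring
        omega
      calc (p' + 1) * b ≤ (p' + 1) * (p' * q) := Nat.mul_le_mul_left _ h1
        _ = p' * ((p' + 1) * q) := by ring
        _ ≤ p' * i := Nat.mul_le_mul_left _ h
        _ ≤ p' * i + (p' + 1) := Nat.le_add_right _ _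
    · have h1 : b + q ≤ i + 1 := by
        rw [hb, max_eq_right (by omega)]
        omega
      have h2 : (p' + 1) * b + (p' + 1) * q ≤ (p' + 1) * (i + 1) := by
        rw [← mul_add]; exact Nat.mul_le_mul_left _ h1
      have h3 : (p' + 1) * (i + 1) = p' * i + (p' + 1) + i := by ring
      omega
  have h1 : p ^ 2 * (Ei p i).card ≤ p ^ 2 * ((i + r + 1) + b) := Nat.mul_le_mul_left _ hcard
  have h2 : p ^ 2 * ((i + r + 1) + b) = p ^ 2 * i + p ^ 2 * r + p ^ 2 + p * (p * b) := by ring
  have h3 : p * (p * b) ≤ p * ((p - 1) * i + p) := Nat.mul_le_mul_left _ hbb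
  have h4 : (p - 1) * q ≤ (p - 1) * i := Nat.mul_le_mul_left _ hJ1
  have h5 : p ^ 2 * i + (p - 1) * i + p ^ 2 + p * ((p - 1) * i + p) =
      (2 * p ^ 2 - 1) * i + 2 * p ^ 2 := by
    obtain ⟨p', rfl⟩ : ∃ p', p = p' + 1 := ⟨p - 1, by omega⟩
    have : 2 * (p' + 1) ^ 2 - 1 = 2 * p' ^ 2 + 4 * p' + 1 := by
      have : 2 * (p' + 1) ^ 2 = 2 * p' ^ 2 + 4 * p' + 2 := by ring
      omega
    rw [this, Nat.add_sub_cancel]
    ring
  omega

lemma card_lower (J : ℕ) : p ^ (2 * J + 1) + (p - 1) * p ^ (2 * J) + 1 ≤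
    (Ei p (p ^ (2 * J + 1))).card := by
  classical
  set q := p ^ (2 * J) with hq
  have hpq : p ^ (2 * J + 1) = p * q := by rw [pow_succ', hq]
  have hqle : q ≤ p * q := Nat.le_mul_of_pos_left _ (by omega)
  have hsplit : p * q = (p - 1) * q + q := by
    obtain ⟨p', rfl⟩ : ∃ p', p = p' + 1 := ⟨p - 1, by omega⟩
    rw [Nat.add_sub_cancel]; ring
  have hsub : Finset.range (p * q + (p - 1) * q + 1) ⊆ Ei p (p * q) := by
    intro e he
    rw [Finset.mem_range] at he
    rw [mem_Ei]
    by_cases h : e ≤ p * q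
    · exact Or.inl h
    · right
      refine ⟨J, hqle, ?_, ?_⟩
      · rw [hpq]; omega
      · rw [hpq, ← hq]; omega
  rw [hpq]
  calc p * q + (p - 1) * q + 1 = (Finset.range (p * q + (p - 1) * q + 1)).card := by
        rw [Finset.card_range]
    _ ≤ _ := Finset.card_le_card hsub

lemma card_upper2 (J : ℕ) : (Ei p (p ^ (2 * J + 2) - 1)).card ≤
    p ^ (2 * J + 2) + (p - 1) * p ^ (2 * J) := by
  classical
  set i := p ^ (2 * J + 2) - 1 with hi
  have hpos : 1 ≤ p ^ (2 * J + 2) := Nat.one_le_iff_ne_zero.2 (pow_ne_zero _ (by omega))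
  have hsub : Ei p i ⊆ Finset.range (p ^ (2 * J + 2) + (p - 1) * p ^ (2 * J)) := by
    intro e he
    rw [mem_Ei] at he
    rw [Finset.mem_range]
    rcases he with he | ⟨s, h1, h2, h3⟩
    · omega
    · have hsJ : s ≤ J := by
        by_contra hcon
        have : p ^ (2 * J + 2) ≤ p ^ (2 * s) := Nat.pow_le_pow_right (by omega) (by omega)
        omega
      have h4 : p ^ (2 * s) ≤ p ^ (2 * J) := Nat.pow_le_pow_right (by omega) (by omega)
      have h5 : p ^ (2 * s + 1) = p ^ (2 * s) + (p - 1) * p ^ (2 * s) := by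
        rw [pow_succ']
        obtain ⟨p', rfl⟩ : ∃ p', p = p' + 1 := ⟨p - 1, by omega⟩
        rw [Nat.add_sub_cancel]; ring
      have h6 : (p - 1) * p ^ (2 * s) ≤ (p - 1) * p ^ (2 * J) := Nat.mul_le_mul_left _ h4
      omega
  refine (Finset.card_le_card hsub).trans ?_
  rw [Finset.card_range]

end exponents

end

end Q11.DMod
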