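import Mathlib
import Pool.Agent.Q11.DMod
import Pool.Agent.Q11.DModF
import Pool.Agent.Q11.DModG

set_option autoImplicit false
set_option linter.unusedSectionVars false

/-!
The dimension of `F_i V`, for `M = 𝒟 1 + 𝒟 f`, `f = Σ_s x^(p^(2s) + p^(2s+1))`, `V = k 1 + k f`.
-/

namespace Q11.DMod

open Polynomial
open Finset.HasAntidiagonal (antidiagonal mem_antidiagonal)

noncomputable section

universe u v

/-- the exponents `β` -/
def bt (s : ℕ) : ℕ := 2 * s + 1

lemma bt_lt (s : ℕ) : 2 * s < bt s := by unfold bt; omega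
lemma bt_odd (s : ℕ) : Odd (bt s) := ⟨s, rfl⟩

variable {k : Type u} [Field k] {p : ℕ} [hp : Fact p.Prime] [CharP k p]

variable (k p) in
/-- `b ↦ b f` -/
def Psi : k[X] →ₗ[k] E k where
  toFun b := Submodule.Quotient.mk (fun n => b * fseq k p bt n)
  map_add' b c := by
    rw [← Submodule.Quotient.mk_add]
    congr 1
    funext n
    exact add_mul _ _ _
  map_smul' c b := by
    show _ = c • _
    rw [← Submodule.Quotient.mk_smul]
    congr 1
    funext n
    exact smul_mul_assoc _ _ _

omit [CharP k p] in
lemma Psi_X (a : ℕ) : Psi k p (X ^ a) = mulX k a • f k p bt := rfl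

omit [CharP k p] in
lemma Psi_eq_diag {b c : k[X]} (h : Psi k p b = diag k c) : b = 0 := by
  rw [diag_apply] at h
  change Submodule.Quotient.mk _ = _ at h
  rw [Submodule.Quotient.eq] at h
  obtain ⟨n, hn⟩ := h
  have h1 : b * fseq k p bt n - c = 0 := hn n le_rfl
  have h2 : b * fseq k p bt (n + 1) - c = 0 := hn (n + 1) (Nat.le_succ _)
  have h3 : fseq k p bt (n + 1) = fseq k p bt n + X ^ (p ^ (2 * n) + p ^ (bt n)) := by
    rw [fseq, Finset.sum_range_succ]; rfl
  rw [h3] at h2
  have h4 : b * X ^ (p ^ (2 * n) + p ^ (bt n)) = 0 := by linear_combination h2 - h1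
  rcases mul_eq_zero.1 h4 with h5 | h5
  · exact h5
  · exact absurd h5 (pow_ne_zero _ X_ne_zero)

omit [CharP k p] in
lemma linInd_f : LinearIndependent k (fun a : ℕ => mulX k a • f k p bt) := by
  have h1 : LinearIndependent k (fun e : ℕ => (X ^ e : k[X])) := by
    have h := (Polynomial.basisMonomials k).linearIndependent
    simpa [Polynomial.coe_basisMonomials, Polynomial.monomial_one_right_eq_X_pow] using h
  refine h1.map' (Psi k p) (LinearMap.ker_eq_bot'.2 (fun r hr => ?_))
  refine Psi_eq_diag (p := p) (c := 0) ?_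
  rw [hr, map_zero]

omit [CharP k p] in
lemma linInd_sum : LinearIndependent k
    (Sum.elim (fun a : ℕ => mulX k a • f k p bt) (fun e : ℕ => diag k (X ^ e))) := by
  refine linInd_f.sum_type linInd_diag ?_
  rw [Submodule.disjoint_def]
  intro x hx hx'
  have h1 : Submodule.span k (Set.range (fun a : ℕ => mulX k a • f k p bt)) ≤
      LinearMap.range (Psi k p) := by
    rw [Submodule.span_le]
    rintro _ ⟨a, rfl⟩
    exact ⟨X ^ a, Psi_X a⟩
  have h2 : Submodule.span k (Set.range (fun e : ℕ => diag k (X ^ e))) ≤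
      LinearMap.range ((diag k).restrictScalars k) := by
    rw [Submodule.span_le]
    rintro _ ⟨a, rfl⟩
    exact ⟨X ^ a, rfl⟩
  obtain ⟨b, rfl⟩ := h1 hx
  obtain ⟨c, hc⟩ := h2 hx'
  have : b = 0 := Psi_eq_diag (c := c) hc.symm
  rw [this, map_zero]

variable (k p) in
/-- the generating space `V = k 1 + k f` -/
def VV : Submodule k (M k p bt) := Submodule.span k {m1 k p bt, mf k p bt}

variable (k p) in
/-- the basis of `F_i V` -/
def ww (i : ℕ) : Fin (i + 1) ⊕ (Ei p i) → M k p bt :=
  Sum.elim (fun a => mulX k (a : ℕ) • mf k p bt) (fun e => mulX k (e : ℕ) • m1 k p bt)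

omit [CharP k p] in
lemma linInd_ww (i : ℕ) : LinearIndependent k (ww k p i) := by
  apply LinearIndependent.of_comp ((M k p bt).subtype.restrictScalars k)
  have h : (((M k p bt).subtype.restrictScalars k) ∘ ww k p i) =
      (Sum.elim (fun a : ℕ => mulX k a • f k p bt) (fun e : ℕ => diag k (X ^ e))) ∘
        (Sum.map (fun a : Fin (i + 1) => (a : ℕ)) (fun e : Ei p i => (e : ℕ))) := by
    funext x
    rcases x with a | e
    · rfl
    · show mulX k (e : ℕ) • diag k 1 = diag k (X ^ (e : ℕ))
      have := mulX_smul_diag (k := k) (e : ℕ) 0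
      rwa [pow_zero, add_zero] at this
  rw [h]
  apply linInd_sum.comp
  apply Function.Injective.sumMap
  · exact Fin.val_injective
  · exact Subtype.val_injective

lemma mulX_m1_eq (a t e : ℕ) (ht : 1 ≤ t) (hg : g k p bt t = X ^ e) :
    (mulX k a * hd k t) • mf k p bt = mulX k (a + e) • m1 k p bt := by
  apply Subtype.ext
  show (mulX k a * hd k t) • f k p bt = mulX k (a + e) • diag k 1
  rw [mul_smul, hd_f bt_lt t ht, hg, mulX_smul_diag]
  have := mulX_smul_diag (k := k) (a + e) 0
  rw [pow_zero, add_zero] at this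
  rw [this]

lemma genFil_le (i : ℕ) : genFil (VV k p) i ≤ Submodule.span k (Set.range (ww k p i)) := by
  have hf : ∀ a, a ≤ i → mulX k a • mf k p bt ∈ Submodule.span k (Set.range (ww k p i)) := by
    intro a ha
    apply Submodule.subset_span
    exact ⟨Sum.inl ⟨a, by omega⟩, rfl⟩
  have h1 : ∀ e, e ∈ Ei p i → mulX k e • m1 k p bt ∈
      Submodule.span k (Set.range (ww k p i)) := by
    intro e he
    apply Submodule.subset_span
    exact ⟨Sum.inr ⟨e, he⟩, rfl⟩
  rw [genFil, Submodule.span_le]
  rintro y ⟨P, hP, x, hx, rfl⟩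
  show P • x ∈ Submodule.span k (Set.range (ww k p i))
  induction hP using Submodule.span_induction with
  | mem P hP =>
    obtain ⟨a, t, hat, rfl⟩ := hP
    unfold VV at hx
    induction hx using Submodule.span_induction with
    | mem x hx =>
      rcases hx with rfl | rfl
      · rcases Nat.eq_zero_or_pos t with rfl | ht
        · rw [hd_zero, mul_one]
          exact h1 a ((mem_Ei _ _ _).2 (Or.inl (by omega)))
        · have h0 : (mulX k a * hd k t) • m1 k p bt = 0 := by
            rw [mul_smul]
            have : hd k t • m1 k p bt = 0 := Subtype.ext (hd_one_smul t ht)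
            rw [this, smul_zero]
          rw [h0]
          exact zero_mem _
      · rcases Nat.eq_zero_or_pos t with rfl | ht
        · rw [hd_zero, mul_one]
          exact hf a (by omega)
        · -- `D_t f = g t`
          have hval : ∀ r : k[X], ∃ y : M k p bt, y.1 = diag k r := by
            intro r
            obtain ⟨P, hP⟩ := diag_mem r
            exact ⟨P • m1 k p bt, hP⟩
          have key : ∀ S : Finset ℕ, ∀ y : M k p bt, y.1 = mulX k a • diag k (∑ s ∈ S,
              ((if t = p ^ (2 * s) then X ^ (p ^ (bt s)) else 0) +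
              (if t = p ^ (bt s) then X ^ (p ^ (2 * s)) else 0) +
              (if t = p ^ (2 * s) + p ^ (bt s) then 1 else 0) : k[X])) →
              y ∈ Submodule.span k (Set.range (ww k p i)) := by
            intro S
            induction S using Finset.induction_on with
            | empty =>
              intro y hy
              rw [Finset.sum_empty, map_zero, smul_zero] at hy
              have : y = 0 := Subtype.ext hy
              rw [this]
              exact zero_mem _
            | insert s S hs ih =>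
              intro y hy
              rw [Finset.sum_insert hs, map_add, map_add, map_add, smul_add, smul_add,
                smul_add] at hy
              -- the three terms
              have e1 : ∃ z : M k p bt, z.1 = mulX k a • diag k
                  (if t = p ^ (2 * s) then X ^ (p ^ (bt s)) else 0) ∧
                  z ∈ Submodule.span k (Set.range (ww k p i)) := by
                by_cases hc : t = p ^ (2 * s)
                · rw [if_pos hc]
                  refine ⟨mulX k (a + p ^ (bt s)) • m1 k p bt, ?_, ?_⟩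
                  · show mulX k (a + p ^ (bt s)) • diag k 1 = _
                    rw [mulX_smul_diag]
                    have := mulX_smul_diag (k := k) (a + p ^ (bt s)) 0
                    rwa [pow_zero, add_zero] at this
                  · apply h1
                    rw [mem_Ei]
                    right
                    refine ⟨s, by omega, ?_, ?_⟩
                    · show p ^ (bt s) ≤ _
                      omega
                    · show _ ≤ i + p ^ (bt s)
                      omega
                · rw [if_neg hc, map_zero, smul_zero]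
                  exact ⟨0, rfl, zero_mem _⟩
              have e2 : ∃ z : M k p bt, z.1 = mulX k a • diag k
                  (if t = p ^ (bt s) then X ^ (p ^ (2 * s)) else 0) ∧
                  z ∈ Submodule.span k (Set.range (ww k p i)) := by
                by_cases hc : t = p ^ (bt s)
                · rw [if_pos hc]
                  refine ⟨mulX k (a + p ^ (2 * s)) • m1 k p bt, ?_, ?_⟩
                  · show mulX k (a + p ^ (2 * s)) • diag k 1 = _
                    rw [mulX_smul_diag]
                    have := mulX_smul_diag (k := k) (a + p ^ (2 * s)) 0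
                    rwa [pow_zero, add_zero] at this
                  · apply h1
                    rw [mem_Ei]
                    left
                    have : p ^ (2 * s) < p ^ (bt s) :=
                      Nat.pow_lt_pow_right hp.out.one_lt (bt_lt s)
                    omega
                · rw [if_neg hc, map_zero, smul_zero]
                  exact ⟨0, rfl, zero_mem _⟩
              have e3 : ∃ z : M k p bt, z.1 = mulX k a • diag k
                  (if t = p ^ (2 * s) + p ^ (bt s) then 1 else 0) ∧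
                  z ∈ Submodule.span k (Set.range (ww k p i)) := by
                by_cases hc : t = p ^ (2 * s) + p ^ (bt s)
                · rw [if_pos hc]
                  refine ⟨mulX k a • m1 k p bt, rfl, ?_⟩
                  apply h1
                  rw [mem_Ei]
                  left
                  omega
                · rw [if_neg hc, map_zero, smul_zero]
                  exact ⟨0, rfl, zero_mem _⟩
              obtain ⟨z1, hz1, hz1'⟩ := e1
              obtain ⟨z2, hz2, hz2'⟩ := e2
              obtain ⟨z3, hz3, hz3'⟩ := e3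
              have hy4 : (y - (z1 + z2 + z3)).1 = mulX k a • diag k (∑ s ∈ S,
                  ((if t = p ^ (2 * s) then X ^ (p ^ (bt s)) else 0) +
                  (if t = p ^ (bt s) then X ^ (p ^ (2 * s)) else 0) +
                  (if t = p ^ (2 * s) + p ^ (bt s) then 1 else 0) : k[X])) := by
                show y.1 - (z1.1 + z2.1 + z3.1) = _
                rw [hy, hz1, hz2, hz3, add_sub_cancel_left]
              have h4 := ih _ hy4
              have h5 : y = (y - (z1 + z2 + z3)) + (z1 + z2 + z3) := (sub_add_cancel _ _).symm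
              rw [h5]
              exact add_mem h4 (add_mem (add_mem hz1' hz2') hz3')
          apply key (Finset.range t)
          show (mulX k a * hd k t) • f k p bt = _
          rw [mul_smul, hd_f bt_lt t ht]
          rfl
    | zero => rw [smul_zero]; exact zero_mem _
    | add x y _ _ hx hy => rw [smul_add]; exact add_mem hx hy
    | smul c x _ hx => rw [smul_comm]; exact Submodule.smul_mem _ _ hx
  | zero => rw [zero_smul]; exact zero_mem _
  | add P Q _ _ hP hQ => rw [add_smul]; exact add_mem hP hQ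
  | smul c P _ hP => rw [smul_assoc]; exact Submodule.smul_mem _ _ hP

lemma le_genFil (i : ℕ) : Submodule.span k (Set.range (ww k p i)) ≤ genFil (VV k p) i := by
  have hf : mf k p bt ∈ VV k p := Submodule.subset_span (Or.inr rfl)
  have h1 : m1 k p bt ∈ VV k p := Submodule.subset_span (Or.inl rfl)
  rw [Submodule.span_le]
  rintro _ ⟨x, rfl⟩
  rcases x with a | e
  · apply Submodule.subset_span
    refine ⟨mulX k a * hd k 0, mem_bern _ _ _ (by omega), mf k p bt, hf, ?_⟩
    rw [hd_zero, mul_one]; rfl
  · obtain ⟨e, he⟩ := e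
    show mulX k e • m1 k p bt ∈ _
    apply Submodule.subset_span
    rw [mem_Ei] at he
    rcases he with he | ⟨s, h2, h3, h4⟩
    · refine ⟨mulX k e * hd k 0, mem_bern _ _ _ (by omega), m1 k p bt, h1, ?_⟩
      rw [hd_zero, mul_one]
    · refine ⟨mulX k (e - p ^ (bt s)) * hd k (p ^ (2 * s)), mem_bern _ _ _ ?_, mf k p bt, hf, ?_⟩
      · have h5 : p ^ (2 * s + 1) = p ^ (bt s) := rfl
        omega
      · rw [mulX_m1_eq _ _ (p ^ (bt s)) (Nat.one_le_iff_ne_zero.2 (pow_ne_zero _ hp.out.ne_zero))
          (g_even bt_lt bt_odd s)]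
        congr 2
        have h5 : p ^ (2 * s + 1) = p ^ (bt s) := rfl
        omega

lemma genFil_eq (i : ℕ) : genFil (VV k p) i = Submodule.span k (Set.range (ww k p i)) :=
  le_antisymm (genFil_le i) (le_genFil i)

lemma finrank_genFil (i : ℕ) :
    Module.finrank k (genFil (VV k p) i) = (i + 1) + (Ei p i).card := by
  classical
  rw [genFil_eq, finrank_span_eq_card (linInd_ww i), Fintype.card_sum, Fintype.card_fin,
    Fintype.card_coe]

lemma finite_genFil (i : ℕ) : Module.Finite k (genFil (VV k p) i) := by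
  rw [genFil_eq]
  exact Module.Finite.span_of_finite k (Set.finite_range _)

lemma VV_span : Submodule.span (DiffOps k) (VV k p : Set (M k p bt)) = ⊤ := by
  rw [eq_top_iff]
  intro y _
  obtain ⟨P, Q, rfl⟩ := span_pair_top y
  refine add_mem (Submodule.smul_mem _ _ (Submodule.subset_span ?_))
    (Submodule.smul_mem _ _ (Submodule.subset_span ?_))
  · exact Submodule.subset_span (Or.inl rfl)
  · exact Submodule.subset_span (Or.inr rfl)

omit [CharP k p] in
lemma VV_fg : (VV k p).FG := Submodule.fg_span (by simp)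

lemma holonomic_M : IsHolonomic k (M k p bt) := by
  refine ⟨genFil (VV k p), genFil_isKFiltration _ VV_span, 6, ?_⟩
  intro i hi
  refine ⟨finite_genFil i, ?_⟩
  rw [finrank_genFil]
  have h1 := card_upper hp.out.two_le i hi
  have h2 : 0 < p ^ 2 := pow_pos hp.out.pos 2
  have h3 : p ^ 2 * (Ei p i).card ≤ p ^ 2 * (4 * i) := by
    have h4 : (2 * p ^ 2 - 1) * i ≤ 2 * p ^ 2 * i := Nat.mul_le_mul_right _ (by omega)
    have h5 : 2 * p ^ 2 ≤ 2 * p ^ 2 * i := Nat.le_mul_of_pos_right _ hi
    calc p ^ 2 * (Ei p i).card ≤ (2 * p ^ 2 - 1) * i + 2 * p ^ 2 := h1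
      _ ≤ 2 * p ^ 2 * i + 2 * p ^ 2 * i := by omega
      _ = p ^ 2 * (4 * i) := by ring
  have h4 := Nat.le_of_mul_le_mul_left h3 h2
  omega

/-! ### the ratios -/

variable (k p) in
/-- `dim_k (F_i V) / i` -/
def ratio (i : ℕ) : ℝ := (Module.finrank k (genFil (VV k p) i) : ℝ) / i

lemma ratio_upper (i : ℕ) (hi : 6 * p ^ 2 ≤ i) :
    ratio k p i ≤ 3 - 1 / (2 * (p : ℝ) ^ 2) := by
  have hp2 : (0 : ℝ) < (p : ℝ) ^ 2 := by
    have := hp.out.pos
    positivity
  have hi1 : 1 ≤ i := by
    have : 0 < p ^ 2 := pow_pos hp.out.pos 2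
    omega
  have hi0 : (0 : ℝ) < i := by exact_mod_cast hi1
  have h1 := card_upper hp.out.two_le i hi1
  have h1' : ((p ^ 2 * (Ei p i).card : ℕ) : ℝ) ≤ (((2 * p ^ 2 - 1) * i + 2 * p ^ 2 : ℕ) : ℝ) := by
    exact_mod_cast h1
  have h2 : ((2 * p ^ 2 - 1 : ℕ) : ℝ) = 2 * (p : ℝ) ^ 2 - 1 := by
    rw [Nat.cast_sub]
    · push_cast; ring
    · have : 0 < p ^ 2 := pow_pos hp.out.pos 2
      omega
  push_cast at h1'
  rw [h2] at h1'
  have hi' : 6 * (p : ℝ) ^ 2 ≤ i := by exact_mod_cast hi
  rw [ratio, finrank_genFil, div_le_iff₀ hi0]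
  push_cast
  have h3 : (p : ℝ) ^ 2 * (((i : ℝ) + 1) + ((Ei p i).card : ℝ)) ≤
      (p : ℝ) ^ 2 * ((3 - 1 / (2 * (p : ℝ) ^ 2)) * i) := by
    have h4 : (p : ℝ) ^ 2 * ((3 - 1 / (2 * (p : ℝ) ^ 2)) * i) =
        3 * (p : ℝ) ^ 2 * i - i / 2 := by
      have h5 : (p : ℝ) ^ 2 * (1 / (2 * (p : ℝ) ^ 2)) = 1 / 2 := by
        have hp0 : (p : ℝ) ≠ 0 := by
          exact_mod_cast hp.out.ne_zero
        field_simp
      calc (p : ℝ) ^ 2 * ((3 - 1 / (2 * (p : ℝ) ^ 2)) * i)
          = 3 * (p : ℝ) ^ 2 * i - ((p : ℝ) ^ 2 * (1 / (2 * (p : ℝ) ^ 2))) * i := by ring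
        _ = 3 * (p : ℝ) ^ 2 * i - i / 2 := by rw [h5]; ring
    rw [h4]
    nlinarith
  exact le_of_mul_le_mul_left h3 hp2

lemma ratio_lower (J : ℕ) : 5 / 2 ≤ ratio k p (p ^ (2 * J + 1)) := by
  have h1 := card_lower hp.out.two_le J
  have hpos : 0 < p ^ (2 * J + 1) := pow_pos hp.out.pos _
  have hi0 : (0 : ℝ) < ((p ^ (2 * J + 1) : ℕ) : ℝ) := by exact_mod_cast hpos
  rw [ratio, finrank_genFil, le_div_iff₀ hi0]
  have h2 : p ^ (2 * J + 1) ≤ 2 * ((p - 1) * p ^ (2 * J)) := by
    rw [pow_succ', ← mul_assoc]
    apply Nat.mul_le_mul_right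
    have := hp.out.two_le
    omega
  have h3 : 5 * p ^ (2 * J + 1) ≤ 2 * ((p ^ (2 * J + 1) + 1) + (Ei p (p ^ (2 * J + 1))).card) := by
    omega
  have h4 : (5 : ℝ) * ((p ^ (2 * J + 1) : ℕ) : ℝ) ≤
      2 * (((p ^ (2 * J + 1) + 1) + (Ei p (p ^ (2 * J + 1))).card : ℕ) : ℝ) := by
    exact_mod_cast h3
  linarith

lemma ratio_upper2 (J : ℕ) :
    ratio k p (p ^ (2 * J + 2) - 1) ≤ 9 / 4 + 9 / 4 / ((p ^ (2 * J + 2) - 1 : ℕ) : ℝ) := by
  have h1 := card_upper2 hp.out.two_le J
  have h2 : 4 * ((p - 1) * p ^ (2 * J)) ≤ p ^ (2 * J + 2) := by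
    rw [pow_add, ← mul_assoc, mul_comm (p ^ (2 * J))]
    apply Nat.mul_le_mul_right
    obtain ⟨q, hq⟩ : ∃ q, p = q + 2 := ⟨p - 2, by have := hp.out.two_le; omega⟩
    rw [hq]
    have : (q + 2) ^ 2 = q ^ 2 + 4 * (q + 2 - 1) := by
      have : q + 2 - 1 = q + 1 := by omega
      rw [this]; ring
    omega
  have hbig : 4 ≤ p ^ (2 * J + 2) := by
    calc 4 = 2 ^ 2 := by norm_num
      _ ≤ p ^ 2 := Nat.pow_le_pow_left hp.out.two_le 2
      _ ≤ p ^ (2 * J + 2) := Nat.pow_le_pow_right hp.out.pos (by omega)
  set i := p ^ (2 * J + 2) - 1 with hi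
  have hi1 : p ^ (2 * J + 2) = i + 1 := by omega
  have hi0 : (0 : ℝ) < (i : ℝ) := by
    have : 0 < i := by omega
    exact_mod_cast this
  rw [ratio, finrank_genFil]
  have h3 : 4 * ((i + 1) + (Ei p i).card) ≤ 9 * (i + 1) := by omega
  have h4 : (4 : ℝ) * (((i + 1) + (Ei p i).card : ℕ) : ℝ) ≤ 9 * ((i : ℝ) + 1) := by
    exact_mod_cast h3
  rw [div_le_iff₀ hi0]
  have h5 : (9 / 4 + 9 / 4 / (i : ℝ)) * (i : ℝ) = 9 / 4 * (i + 1) := by
    field_simp
  rw [h5]
  linarith

end

end Q11.DMod
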