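import Mathlib

/-!
A finitely generated algebra of polynomial growth with nilpotent two-sided ideals of unbounded
nilpotency index: generators `X, Y`, relations `Y X^a Y X^b Y = 0` for `a ≠ b` and
`(Y X^i)^(i+1) Y = 0`.
-/

set_option autoImplicit false

namespace Q11.GapAlgebra

section abstract

variable {k : Type} [Field k] {A : Type} [Ring A] [Algebra k A] (X Y : A)

/-- normal form element `X^a (Y X^i)^r Y X^b` -/
def nf (a i r b : ℕ) : A := X ^ a * (Y * X ^ i) ^ r * Y * X ^ b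

variable {X Y}

lemma X_mul_nf (a i r b : ℕ) : X * nf X Y a i r b = nf X Y (a + 1) i r b := by
  simp only [nf, pow_succ' X a, mul_assoc]

lemma nf_mul_X (a i r b : ℕ) : nf X Y a i r b * X = nf X Y a i r (b + 1) := by
  simp only [nf, pow_succ, mul_assoc]

lemma Y_mul_nf_zero (a i b : ℕ) : Y * nf X Y a i 0 b = nf X Y 0 a 1 b := by
  simp only [nf, pow_zero, mul_assoc, one_mul, pow_one]

lemma Y_mul_nf_self (i r b : ℕ) : Y * nf X Y i i r b = nf X Y 0 i (r + 1) b := by
  simp only [nf, pow_zero, mul_assoc, one_mul, pow_succ' (Y * X ^ i) r]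

lemma Y_mul_nf_ne (h1 : ∀ a b : ℕ, a ≠ b → Y * X ^ a * Y * X ^ b * Y = 0)
    (a i r b : ℕ) (hai : a ≠ i) : Y * nf X Y a i (r + 1) b = 0 := by
  have h : Y * X ^ a * Y * X ^ i * (Y * X ^ i) ^ r * Y = 0 := by
    cases r with
    | zero => simpa using h1 a i hai
    | succ r =>
      have := h1 a i hai
      calc Y * X ^ a * Y * X ^ i * (Y * X ^ i) ^ (r + 1) * Y
          = (Y * X ^ a * Y * X ^ i * Y) * (X ^ i * (Y * X ^ i) ^ r * Y) := by
            simp only [pow_succ' (Y * X ^ i) r, mul_assoc]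
        _ = 0 := by rw [this, zero_mul]
  calc Y * nf X Y a i (r + 1) b
      = (Y * X ^ a * Y * X ^ i * (Y * X ^ i) ^ r * Y) * X ^ b := by
        simp only [nf, pow_succ' (Y * X ^ i) r, mul_assoc]
    _ = 0 := by rw [h, zero_mul]

lemma comm_pow (i r : ℕ) : (Y * X ^ i) ^ r * Y = Y * (X ^ i * Y) ^ r := by
  induction r with
  | zero => simp
  | succ r ih =>
    rw [pow_succ' (Y * X ^ i) r, pow_succ' (X ^ i * Y) r, mul_assoc, ih]
    simp only [mul_assoc]

lemma nf_mul_Y_self (a i r : ℕ) : nf X Y a i r i * Y = nf X Y a i (r + 1) 0 := by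
  simp only [nf, pow_zero, mul_one]
  rw [pow_succ (Y * X ^ i) r]
  simp only [mul_assoc]

lemma nf_mul_Y_ne (h1 : ∀ a b : ℕ, a ≠ b → Y * X ^ a * Y * X ^ b * Y = 0)
    (a i r b : ℕ) (hib : i ≠ b) : nf X Y a i (r + 1) b * Y = 0 := by
  calc nf X Y a i (r + 1) b * Y
      = X ^ a * (Y * X ^ i) ^ r * (Y * X ^ i * Y * X ^ b * Y) := by
        simp only [nf, pow_succ (Y * X ^ i) r, mul_assoc]
    _ = 0 := by rw [h1 i b hib, mul_zero]

lemma nf_eq_zero (h2 : ∀ i : ℕ, (Y * X ^ i) ^ (i + 1) * Y = 0) (a i r b : ℕ) (hr : i < r) :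
    nf X Y a i r b = 0 := by
  obtain ⟨s, rfl⟩ := Nat.exists_eq_add_of_lt hr
  calc nf X Y a i (i + s + 1) b
      = X ^ a * (Y * X ^ i) ^ s * ((Y * X ^ i) ^ (i + 1) * Y) * X ^ b := by
        have : i + s + 1 = s + (i + 1) := by ring
        rw [this]
        simp only [nf, pow_add (Y * X ^ i) s (i + 1), mul_assoc]
    _ = 0 := by rw [h2 i, mul_zero, zero_mul]

lemma nf_mul_nf (h1 : ∀ a b : ℕ, a ≠ b → Y * X ^ a * Y * X ^ b * Y = 0)
    (a i r b a' r' b' : ℕ) :
    nf X Y a i (r + 1) b * nf X Y a' i r' b' = 0 ∨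
    nf X Y a i (r + 1) b * nf X Y a' i r' b' = nf X Y a i (r + 1 + 1 + r') b' := by
  by_cases h : i = b + a'
  · right
    calc nf X Y a i (r + 1) b * nf X Y a' i r' b'
        = X ^ a * ((Y * X ^ i) ^ (r + 1) * (Y * X ^ (b + a')) * (Y * X ^ i) ^ r') * Y * X ^ b' := by
          simp only [nf, pow_add X b a', mul_assoc]
      _ = nf X Y a i (r + 1 + 1 + r') b' := by
          rw [← h, ← pow_succ (Y * X ^ i) (r + 1), ← pow_add]
          simp only [nf]
  · left
    calc nf X Y a i (r + 1) b * nf X Y a' i r' b'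
        = X ^ a * (Y * X ^ i) ^ (r + 1) * Y * X ^ (b + a') * ((Y * X ^ i) ^ r' * Y) * X ^ b' := by
          simp only [nf, pow_add X b a', mul_assoc]
      _ = X ^ a * (Y * X ^ i) ^ (r + 1) * Y * X ^ (b + a') * Y * (X ^ i * Y) ^ r' * X ^ b' := by
          rw [comm_pow]
          simp only [mul_assoc]
      _ = X ^ a * (Y * X ^ i) ^ r * (Y * X ^ i * Y * X ^ (b + a') * Y) * (X ^ i * Y) ^ r'
            * X ^ b' := by
          simp only [pow_succ (Y * X ^ i) r, mul_assoc]
      _ = 0 := by rw [h1 i (b + a') h, mul_zero, zero_mul, zero_mul]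

variable (k X Y) in
/-- the span of all `X^a (Y X^i)^r Y X^b` with `r ≥ c` -/
def P (i c : ℕ) : Submodule k A :=
  Submodule.span k {z | ∃ a r b, c ≤ r ∧ z = nf X Y a i r b}

lemma nf_mem (a i r b c : ℕ) (h : c ≤ r) : nf X Y a i r b ∈ P k X Y i c :=
  Submodule.subset_span ⟨a, r, b, h, rfl⟩

lemma X_mul_mem (i c : ℕ) (z : A) (hz : z ∈ P k X Y i c) : X * z ∈ P k X Y i c := by
  induction hz using Submodule.span_induction with
  | mem z hz =>
    obtain ⟨a, r, b, h, rfl⟩ := hz
    rw [X_mul_nf]; exact nf_mem _ _ _ _ _ h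
  | zero => rw [mul_zero]; exact zero_mem _
  | add z w _ _ hz hw => rw [mul_add]; exact add_mem hz hw
  | smul t z _ hz => rw [mul_smul_comm]; exact Submodule.smul_mem _ _ hz

lemma mul_X_mem (i c : ℕ) (z : A) (hz : z ∈ P k X Y i c) : z * X ∈ P k X Y i c := by
  induction hz using Submodule.span_induction with
  | mem z hz =>
    obtain ⟨a, r, b, h, rfl⟩ := hz
    rw [nf_mul_X]; exact nf_mem _ _ _ _ _ h
  | zero => rw [zero_mul]; exact zero_mem _
  | add z w _ _ hz hw => rw [add_mul]; exact add_mem hz hw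
  | smul t z _ hz => rw [smul_mul_assoc]; exact Submodule.smul_mem _ _ hz

lemma Y_mul_mem (h1 : ∀ a b : ℕ, a ≠ b → Y * X ^ a * Y * X ^ b * Y = 0)
    (i c : ℕ) (z : A) (hz : z ∈ P k X Y i (c + 1)) : Y * z ∈ P k X Y i (c + 1) := by
  induction hz using Submodule.span_induction with
  | mem z hz =>
    obtain ⟨a, r, b, h, rfl⟩ := hz
    by_cases hai : a = i
    · subst hai
      rw [Y_mul_nf_self]; exact nf_mem _ _ _ _ _ (by omega)
    · obtain ⟨s, rfl⟩ : ∃ s, r = s + 1 := ⟨r - 1, by omega⟩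
      rw [Y_mul_nf_ne h1 _ _ _ _ hai]; exact zero_mem _
  | zero => rw [mul_zero]; exact zero_mem _
  | add z w _ _ hz hw => rw [mul_add]; exact add_mem hz hw
  | smul t z _ hz => rw [mul_smul_comm]; exact Submodule.smul_mem _ _ hz

lemma mul_Y_mem (h1 : ∀ a b : ℕ, a ≠ b → Y * X ^ a * Y * X ^ b * Y = 0)
    (i c : ℕ) (z : A) (hz : z ∈ P k X Y i (c + 1)) : z * Y ∈ P k X Y i (c + 1) := by
  induction hz using Submodule.span_induction with
  | mem z hz =>
    obtain ⟨a, r, b, h, rfl⟩ := hz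
    by_cases hai : i = b
    · subst hai
      rw [nf_mul_Y_self]; exact nf_mem _ _ _ _ _ (by omega)
    · obtain ⟨s, rfl⟩ : ∃ s, r = s + 1 := ⟨r - 1, by omega⟩
      rw [nf_mul_Y_ne h1 _ _ _ _ hai]; exact zero_mem _
  | zero => rw [zero_mul]; exact zero_mem _
  | add z w _ _ hz hw => rw [add_mul]; exact add_mem hz hw
  | smul t z _ hz => rw [smul_mul_assoc]; exact Submodule.smul_mem _ _ hz

lemma mul_mem_P (h1 : ∀ a b : ℕ, a ≠ b → Y * X ^ a * Y * X ^ b * Y = 0)
    (i c d : ℕ) (z w : A) (hz : z ∈ P k X Y i (c + 1)) (hw : w ∈ P k X Y i (d + 1)) :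
    z * w ∈ P k X Y i (c + d + 2) := by
  induction hz using Submodule.span_induction with
  | mem z hz =>
    obtain ⟨a, r, b, h, rfl⟩ := hz
    obtain ⟨s, rfl⟩ : ∃ s, r = s + 1 := ⟨r - 1, by omega⟩
    induction hw using Submodule.span_induction with
    | mem w hw =>
      obtain ⟨a', r', b', h', rfl⟩ := hw
      rcases nf_mul_nf h1 a i s b a' r' b' with h0 | h0
      · rw [h0]; exact zero_mem _
      · rw [h0]; exact nf_mem _ _ _ _ _ (by omega)
    | zero => rw [mul_zero]; exact zero_mem _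
    | add z w _ _ hz hw => rw [mul_add]; exact add_mem hz hw
    | smul t z _ hz => rw [mul_smul_comm]; exact Submodule.smul_mem _ _ hz
  | zero => rw [zero_mul]; exact zero_mem _
  | add z w _ _ hz hw => rw [add_mul]; exact add_mem hz hw
  | smul t z _ hz => rw [smul_mul_assoc]; exact Submodule.smul_mem _ _ hz

lemma P_eq_bot (h2 : ∀ i : ℕ, (Y * X ^ i) ^ (i + 1) * Y = 0) (i c : ℕ) (hc : i < c) :
    P k X Y i c = ⊥ := by
  rw [P, Submodule.span_eq_bot]
  rintro z ⟨a, r, b, h, rfl⟩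
  exact nf_eq_zero h2 _ _ _ _ (by omega)

/-- The two-sided ideal generated by `Y X^i Y`. -/
def J (htop : Algebra.adjoin k ({X, Y} : Set A) = ⊤)
    (h1 : ∀ a b : ℕ, a ≠ b → Y * X ^ a * Y * X ^ b * Y = 0) (i : ℕ) : TwoSidedIdeal A :=
  TwoSidedIdeal.mk' (P k X Y i 1 : Set A) (zero_mem _) (fun hx hy => add_mem hx hy)
    (fun hx => neg_mem hx)
    (by
      intro x y hy
      have hx : x ∈ Algebra.adjoin k ({X, Y} : Set A) := by rw [htop]; trivial
      induction hx using Algebra.adjoin_induction generalizing y with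
      | mem x hx =>
        rcases hx with rfl | hx
        · exact X_mul_mem _ _ _ hy
        · rw [Set.mem_singleton_iff] at hx
          subst hx
          exact Y_mul_mem h1 _ _ _ hy
      | algebraMap r => rw [← Algebra.smul_def]; exact Submodule.smul_mem _ _ hy
      | add x x' _ _ hx hx' => rw [add_mul]; exact add_mem (hx hy) (hx' hy)
      | mul x x' _ _ hx hx' => rw [mul_assoc]; exact hx (hx' hy))
    (by
      intro y x hy
      have hx : x ∈ Algebra.adjoin k ({X, Y} : Set A) := by rw [htop]; trivial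
      induction hx using Algebra.adjoin_induction generalizing y with
      | mem x hx =>
        rcases hx with rfl | hx
        · exact mul_X_mem _ _ _ hy
        · rw [Set.mem_singleton_iff] at hx
          subst hx
          exact mul_Y_mem h1 _ _ _ hy
      | algebraMap r =>
        rw [← Algebra.commutes, ← Algebra.smul_def]; exact Submodule.smul_mem _ _ hy
      | add x x' _ _ hx hx' => rw [mul_add]; exact add_mem (hx hy) (hx' hy)
      | mul x x' _ _ hx hx' => rw [← mul_assoc]; exact hx' (hx hy))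

lemma mem_J (htop : Algebra.adjoin k ({X, Y} : Set A) = ⊤)
    (h1 : ∀ a b : ℕ, a ≠ b → Y * X ^ a * Y * X ^ b * Y = 0) (i : ℕ) (z : A) :
    z ∈ J htop h1 i ↔ z ∈ P k X Y i 1 := by
  rw [J, TwoSidedIdeal.mem_mk']
  rfl

lemma list_prod_mem (htop : Algebra.adjoin k ({X, Y} : Set A) = ⊤)
    (h1 : ∀ a b : ℕ, a ≠ b → Y * X ^ a * Y * X ^ b * Y = 0) (i : ℕ) (l : List A)
    (hl : ∀ z ∈ l, z ∈ J htop h1 i) (hne : l ≠ []) : l.prod ∈ P k X Y i l.length := by
  induction l with
  | nil => exact absurd rfl hne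
  | cons z l ih =>
    have hz : z ∈ P k X Y i (0 + 1) := (mem_J htop h1 i z).1 (hl z (by simp))
    cases l with
    | nil => simpa using hz
    | cons w l =>
      have h3 := ih (fun z hz => hl z (by simp [hz])) (by simp)
      rw [List.prod_cons]
      have h4 := mul_mem_P h1 i 0 l.length z (w :: l).prod hz (by simpa using h3)
      simpa using h4

lemma J_nilpotent (htop : Algebra.adjoin k ({X, Y} : Set A) = ⊤)
    (h1 : ∀ a b : ℕ, a ≠ b → Y * X ^ a * Y * X ^ b * Y = 0)
    (h2 : ∀ i : ℕ, (Y * X ^ i) ^ (i + 1) * Y = 0) (i : ℕ) :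
    ∀ f : Fin (i + 1) → A, (∀ j, f j ∈ J htop h1 i) → (List.ofFn f).prod = 0 := by
  intro f hf
  have h := list_prod_mem htop h1 i (List.ofFn f)
    (by intro z hz; rw [List.mem_ofFn] at hz; obtain ⟨j, rfl⟩ := hz; exact hf j)
    (by simp)
  rw [List.length_ofFn, P_eq_bot h2 i (i + 1) (by omega)] at h
  simpa using h

/-- The nilpotency indices are unbounded: no nilpotent ideal contains all of them. -/
lemma no_greatest (htop : Algebra.adjoin k ({X, Y} : Set A) = ⊤)
    (h1 : ∀ a b : ℕ, a ≠ b → Y * X ^ a * Y * X ^ b * Y = 0)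
    (h2 : ∀ i : ℕ, (Y * X ^ i) ^ (i + 1) * Y = 0)
    (h3 : ∀ i : ℕ, (Y * X ^ i) ^ i * Y ≠ 0) :
    ¬ ∃ N : TwoSidedIdeal A,
        (∃ m : ℕ, ∀ f : Fin m → A, (∀ i, f i ∈ N) → (List.ofFn f).prod = 0) ∧
        ∀ I : TwoSidedIdeal A,
          (∃ m : ℕ, ∀ f : Fin m → A, (∀ i, f i ∈ I) → (List.ofFn f).prod = 0) → I ≤ N := by
  rintro ⟨N, ⟨m, hm⟩, hN⟩
  have hle := hN (J htop h1 (2 * m)) ⟨2 * m + 1, J_nilpotent htop h1 h2 (2 * m)⟩
  have hmem : (Y * X ^ (2 * m)) ^ 2 ∈ N := by
    apply hle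
    rw [mem_J]
    have : (Y * X ^ (2 * m)) ^ 2 = nf X Y 0 (2 * m) 1 (2 * m) := by
      simp only [nf, pow_zero, one_mul, pow_one, pow_two (Y * X ^ (2 * m)), mul_assoc]
    rw [this]
    exact nf_mem _ _ _ _ _ le_rfl
  have hz := hm (fun _ => (Y * X ^ (2 * m)) ^ 2) (fun _ => hmem)
  rw [List.ofFn_const, List.prod_replicate, ← pow_mul] at hz
  exact h3 (2 * m) (by rw [hz, zero_mul])

/-- the finite set of normal forms with all parameters `≤ n` -/
noncomputable def F (X Y : A) (n : ℕ) : Finset A := by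
  classical
  exact (Finset.range (n + 1)).image (fun a => X ^ a) ∪
    ((Finset.range (n + 1)) ×ˢ (Finset.range (n + 1)) ×ˢ (Finset.range (n + 1)) ×ˢ
      (Finset.range (n + 1))).image (fun p => nf X Y p.1 p.2.1 p.2.2.1 p.2.2.2)

lemma mem_F (n : ℕ) (z : A) : z ∈ F X Y n ↔ (∃ a, a ≤ n ∧ X ^ a = z) ∨
    ∃ a i r b, (a ≤ n ∧ i ≤ n ∧ r ≤ n ∧ b ≤ n) ∧ nf X Y a i r b = z := by
  classical
  simp only [F, Finset.mem_union, Finset.mem_image, Finset.mem_range, Finset.mem_product,
    Prod.exists, Nat.lt_succ_iff]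

lemma card_F (n : ℕ) : (F X Y n).card ≤ 2 * (n + 1) ^ 4 := by
  classical
  have h1 : (F X Y n).card ≤ (n + 1) + (n + 1) ^ 4 := by
    unfold F
    refine (Finset.card_union_le _ _).trans (Nat.add_le_add ?_ ?_)
    · refine Finset.card_image_le.trans ?_
      simp
    · refine Finset.card_image_le.trans ?_
      simp only [Finset.card_product, Finset.card_range]
      apply le_of_eq; ring
  have h2 : n + 1 ≤ (n + 1) ^ 4 := Nat.le_self_pow (by norm_num) _
  omega

lemma F_mono {n m : ℕ} (h : n ≤ m) : (F X Y n : Set A) ⊆ F X Y m := by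
  intro z hz
  rw [Finset.mem_coe, mem_F] at hz ⊢
  rcases hz with ⟨a, ha, rfl⟩ | ⟨a, i, r, b, ⟨h1, h2, h3, h4⟩, rfl⟩
  · exact Or.inl ⟨a, by omega, rfl⟩
  · exact Or.inr ⟨a, i, r, b, ⟨by omega, by omega, by omega, by omega⟩, rfl⟩

lemma pow_le_span (h1 : ∀ a b : ℕ, a ≠ b → Y * X ^ a * Y * X ^ b * Y = 0) (n : ℕ) :
    (Submodule.span k ({1, X, Y} : Set A)) ^ n ≤ Submodule.span k (F X Y n : Set A) := by
  induction n with
  | zero =>
    rw [pow_zero]
    rw [Submodule.one_le]
    apply Submodule.subset_span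
    rw [Finset.mem_coe, mem_F]
    exact Or.inl ⟨0, le_rfl, pow_zero _⟩
  | succ n ih =>
    rw [pow_succ']
    refine (mul_le_mul' le_rfl ih).trans ?_
    rw [Submodule.span_mul_span, Submodule.span_le]
    rintro _ ⟨v, hv, z, hz, rfl⟩
    simp only [SetLike.mem_coe]
    have hz' := hz
    rw [Finset.mem_coe, mem_F] at hz'
    simp only [Set.mem_insert_iff, Set.mem_singleton_iff] at hv
    rcases hv with hv | hv | hv
    · subst hv
      simp only [one_mul]
      exact Submodule.subset_span (F_mono (Nat.le_succ n) hz)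
    · subst hv
      apply Submodule.subset_span
      rw [Finset.mem_coe, mem_F]
      rcases hz' with ⟨a, ha, rfl⟩ | ⟨a, i, r, b, ⟨h1, h2, h3, h4⟩, rfl⟩
      · exact Or.inl ⟨a + 1, by omega, by simp only [pow_succ']⟩
      · exact Or.inr ⟨a + 1, i, r, b, ⟨by omega, by omega, by omega, by omega⟩,
          (X_mul_nf _ _ _ _).symm⟩
    · subst hv
      rcases hz' with ⟨a, ha, rfl⟩ | ⟨a, i, r, b, ⟨h1', h2, h3, h4⟩, rfl⟩
      · apply Submodule.subset_span
        rw [Finset.mem_coe, mem_F]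
        exact Or.inr ⟨0, 0, 0, a, ⟨by omega, by omega, by omega, by omega⟩, by simp [nf]⟩
      · rcases Nat.eq_zero_or_pos r with rfl | hr
        · apply Submodule.subset_span
          rw [Finset.mem_coe, mem_F]
          exact Or.inr ⟨0, a, 1, b, ⟨by omega, by omega, by omega, by omega⟩,
            (Y_mul_nf_zero _ _ _).symm⟩
        · by_cases hai : a = i
          · subst hai
            apply Submodule.subset_span
            rw [Finset.mem_coe, mem_F]
            exact Or.inr ⟨0, a, r + 1, b, ⟨by omega, by omega, by omega, by omega⟩,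
              (Y_mul_nf_self _ _ _).symm⟩
          · obtain ⟨s, rfl⟩ : ∃ s, r = s + 1 := ⟨r - 1, by omega⟩
            simp only [Y_mul_nf_ne h1 _ _ _ _ hai]
            exact zero_mem _

lemma growth (h1 : ∀ a b : ℕ, a ≠ b → Y * X ^ a * Y * X ^ b * Y = 0) (n : ℕ) :
    Module.finrank k ↥((Submodule.span k ({1, X, Y} : Set A)) ^ n) ≤ 2 * (n + 1) ^ 4 := by
  have h := pow_le_span (k := k) h1 n
  have : Module.Finite k ↥(Submodule.span k (F X Y n : Set A)) :=
    Module.Finite.span_of_finite k (Finset.finite_toSet _)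
  exact (Submodule.finrank_mono h).trans
    ((finrank_span_finset_le_card (F X Y n)).trans (card_F n))

end abstract

section model

variable (k : Type) [Field k]

/-- basis of the model: `(i, r, a)` -/
abbrev M := (ℕ × ℕ × ℕ) →₀ k

/-- `X e_(i,r,a) = e_(i,r,a+1)` if `a < i`, else `0`. -/
noncomputable def opX : Module.End k (M k) :=
  Finsupp.linearCombination k (fun s : ℕ × ℕ × ℕ =>
    if s.2.2 < s.1 then Finsupp.single (s.1, s.2.1, s.2.2 + 1) (1 : k) else 0)

/-- `Y e_(i,r,a) = e_(i,r+1,0)` if `a = i` and `r ≤ i`, else `0`. -/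
noncomputable def opY : Module.End k (M k) :=
  Finsupp.linearCombination k (fun s : ℕ × ℕ × ℕ =>
    if s.2.2 = s.1 ∧ s.2.1 ≤ s.1 then Finsupp.single (s.1, s.2.1 + 1, 0) (1 : k) else 0)

lemma opX_single (i r a : ℕ) : opX k (Finsupp.single (i, r, a) 1) =
    if a < i then Finsupp.single (i, r, a + 1) 1 else 0 := by
  simp [opX]

lemma opY_single (i r a : ℕ) : opY k (Finsupp.single (i, r, a) 1) =
    if a = i ∧ r ≤ i then Finsupp.single (i, r + 1, 0) 1 else 0 := by
  simp [opY]

lemma opX_pow_single (i r a : ℕ) : (opX k ^ a) (Finsupp.single (i, r, 0) 1) =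
    if a ≤ i then Finsupp.single (i, r, a) 1 else 0 := by
  induction a with
  | zero => simp
  | succ a ih =>
    rw [pow_succ', Module.End.mul_apply, ih]
    by_cases h : a ≤ i
    · rw [if_pos h, opX_single]
      by_cases h' : a < i
      · rw [if_pos h', if_pos (by omega)]
      · rw [if_neg h', if_neg (by omega)]
    · rw [if_neg h, map_zero, if_neg (by omega)]

lemma rel1 (a b : ℕ) (hab : a ≠ b) :
    opY k * opX k ^ a * opY k * opX k ^ b * opY k = 0 := by
  apply Finsupp.lhom_ext'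
  rintro ⟨i, r, c⟩
  apply LinearMap.ext_ring
  simp only [LinearMap.comp_apply, Finsupp.lsingle_apply, Module.End.mul_apply,
    LinearMap.zero_apply]
  rw [opY_single]
  split_ifs with h
  · rw [opX_pow_single]
    split_ifs with h2
    · rw [opY_single]
      split_ifs with h3
      · rw [opX_pow_single]
        split_ifs with h4
        · rw [opY_single, if_neg]
          rintro ⟨h5, _⟩
          exact hab (h5.trans h3.1.symm)
        · rw [map_zero]
      · rw [map_zero, map_zero]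
    · rw [map_zero, map_zero, map_zero]
  · simp only [map_zero]

lemma powYX (i m j r c : ℕ) : ((opY k * opX k ^ i) ^ m * opY k) (Finsupp.single (j, r, c) 1) =
    if c = j ∧ (m = 0 ∨ i = j) ∧ r + m ≤ j then Finsupp.single (j, r + 1 + m, 0) 1 else 0 := by
  induction m with
  | zero =>
    simp only [pow_zero, one_mul, true_or, true_and, add_zero]
    rw [opY_single]
  | succ m ih =>
    rw [pow_succ', mul_assoc, Module.End.mul_apply, ih, Module.End.mul_apply]
    by_cases h1 : c = j ∧ (m = 0 ∨ i = j) ∧ r + m ≤ j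
    · rw [if_pos h1, opX_pow_single]
      by_cases h3 : i ≤ j
      · rw [if_pos h3, opY_single]
        by_cases h4 : i = j ∧ r + 1 + m ≤ j
        · rw [if_pos h4, if_pos (by omega)]
          have h5 : r + 1 + m + 1 = r + 1 + (m + 1) := by ring
          rw [h5]
        · rw [if_neg h4, if_neg (by omega)]
      · rw [if_neg h3, map_zero, if_neg (by omega)]
    · rw [if_neg h1, map_zero, map_zero, if_neg (by omega)]

lemma rel2 (i : ℕ) : (opY k * opX k ^ i) ^ (i + 1) * opY k = 0 := by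
  apply Finsupp.lhom_ext'
  rintro ⟨j, r, c⟩
  apply LinearMap.ext_ring
  simp only [LinearMap.comp_apply, Finsupp.lsingle_apply, LinearMap.zero_apply]
  rw [powYX, if_neg (by omega)]

lemma nonvanish (i : ℕ) : (opY k * opX k ^ i) ^ i * opY k ≠ 0 := by
  intro h
  have h2 := powYX k i i i 0 i
  rw [h, if_pos (by omega), LinearMap.zero_apply] at h2
  have h3 := congrArg (fun f : M k => f (i, 0 + 1 + i, 0)) h2
  simp at h3

end model

end Q11.GapAlgebra
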