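import Mathlib

set_option autoImplicit false
set_option linter.unusedSectionVars false
set_option linter.unusedSimpArgs false

/-!
The 8-dimensional pointed Hopf algebra generated by a group-like `g` of order 4 and `x` with
`x² = 0`, `x g = - g x`, `Δ x = x ⊗ 1 + g ⊗ x`, over any field.
-/

namespace Q11.HopfEight

open TensorProduct

universe u v

variable (k : Type u) [Field k]

/-- the group algebra of the cyclic group of order 4 -/
abbrev K : Type u := AddMonoidAlgebra k (ZMod 4)

/-- the sign character -/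
def s (i : ZMod 4) : k := (-1) ^ i.val

lemma s_zero : s k 0 = 1 := by simp [s]

lemma s_one : s k 1 = -1 := by
  have : (1 : ZMod 4).val = 1 := rfl
  rw [s, this, pow_one]

lemma s_add (i j : ZMod 4) : s k (i + j) = s k i * s k j := by
  have h : ∀ i j : ZMod 4, (i + j).val % 2 = (i.val + j.val) % 2 := by decide
  rw [s, s, s, ← pow_add, neg_one_pow_eq_pow_mod_two, h i j, ← neg_one_pow_eq_pow_mod_two]

lemma s_mul_self (i : ZMod 4) : s k i * s k i = 1 := by
  rw [s, ← pow_add, ← two_mul, pow_mul]; simp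

/-- the sign automorphism `g^i ↦ (-1)^i g^i` -/
noncomputable def phi : K k →ₐ[k] K k :=
  AddMonoidAlgebra.lift k (K k) (ZMod 4)
    { toFun := fun i => AddMonoidAlgebra.single (Multiplicative.toAdd i)
        (s k (Multiplicative.toAdd i))
      map_one' := by
        rw [toAdd_one, s_zero]; rfl
      map_mul' := by
        intro i j
        rw [toAdd_mul, s_add, AddMonoidAlgebra.single_mul_single] }

lemma phi_single (i : ZMod 4) (c : k) :
    phi k (AddMonoidAlgebra.single i c) = AddMonoidAlgebra.single i (s k i * c) := by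
  rw [phi, AddMonoidAlgebra.lift_single]
  simp [mul_comm]

/-- the underlying space -/
def H : Type u := K k × K k

noncomputable instance : AddCommGroup (H k) := inferInstanceAs (AddCommGroup (K k × K k))
noncomputable instance : Module k (H k) := inferInstanceAs (Module k (K k × K k))

variable {k}

lemma extH {a b : H k} (h1 : a.1 = b.1) (h2 : a.2 = b.2) : a = b := Prod.ext h1 h2

noncomputable instance : Mul (H k) := ⟨fun a b => (a.1 * b.1, a.1 * b.2 + a.2 * phi k b.1)⟩
noncomputable instance : One (H k) := ⟨((1 : K k), (0 : K k))⟩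

@[simp] lemma add_fst (a b : H k) : (a + b).1 = a.1 + b.1 := rfl
@[simp] lemma add_snd (a b : H k) : (a + b).2 = a.2 + b.2 := rfl
@[simp] lemma zero_fst : (0 : H k).1 = 0 := rfl
@[simp] lemma zero_snd : (0 : H k).2 = 0 := rfl
@[simp] lemma smul_fst (c : k) (b : H k) : (c • b).1 = c • b.1 := rfl
@[simp] lemma smul_snd (c : k) (b : H k) : (c • b).2 = c • b.2 := rfl
@[simp] lemma one_fst : (1 : H k).1 = 1 := rfl
@[simp] lemma one_snd : (1 : H k).2 = 0 := rfl
@[simp] lemma mul_fst (a b : H k) : (a * b).1 = a.1 * b.1 := rfl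
@[simp] lemma mul_snd (a b : H k) : (a * b).2 = a.1 * b.2 + a.2 * phi k b.1 := rfl

noncomputable instance : Ring (H k) :=
  { (inferInstance : AddCommGroup (H k)) with
    mul := (· * ·)
    one := 1
    left_distrib := by intro a b c; apply extH <;> simp <;> ring
    right_distrib := by intro a b c; apply extH <;> simp <;> ring
    zero_mul := by intro a; apply extH <;> simp
    mul_zero := by intro a; apply extH <;> simp
    one_mul := by intro a; apply extH <;> simp
    mul_one := by intro a; apply extH <;> simp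
    mul_assoc := by intro a b c; apply extH <;> simp <;> ring }

noncomputable instance : Algebra k (H k) :=
  Algebra.ofModule (by intro r a b; apply extH <;> simp [smul_add])
    (by intro r a b; apply extH <;> simp [smul_add])

/-- pairs as elements -/
def mkH (a b : K k) : H k := (a, b)
@[simp] lemma mkH_fst (a b : K k) : (mkH a b).1 = a := rfl
@[simp] lemma mkH_snd (a b : K k) : (mkH a b).2 = b := rfl

/-- the inclusion of the group algebra -/
noncomputable def iota : K k →ₐ[k] H k :=
  AlgHom.ofLinearMap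
    { toFun := fun a => mkH a 0
      map_add' := by intro a b; apply extH <;> simp
      map_smul' := by intro a b; apply extH <;> simp }
    rfl (by intro a b; show mkH (a * b) 0 = mkH a 0 * mkH b 0; apply extH <;> simp)

@[simp] lemma iota_fst (a : K k) : (iota a : H k).1 = a := rfl
@[simp] lemma iota_snd (a : K k) : (iota a : H k).2 = 0 := rfl

/-- the skew primitive generator -/
noncomputable def x : H k := ((0 : K k), (1 : K k))

@[simp] lemma x_fst : (x : H k).1 = 0 := rfl
@[simp] lemma x_snd : (x : H k).2 = 1 := rfl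

/-- `T i = g^i` -/
noncomputable def T (i : ZMod 4) : H k := iota (AddMonoidAlgebra.single i 1)

/-- `U i = g^i x` -/
noncomputable def U (i : ZMod 4) : H k := T i * x

@[simp] lemma T_fst (i : ZMod 4) : (T i : H k).1 = AddMonoidAlgebra.single i 1 := rfl
@[simp] lemma T_snd (i : ZMod 4) : (T i : H k).2 = 0 := rfl
@[simp] lemma U_fst (i : ZMod 4) : (U i : H k).1 = 0 := by simp [U]
@[simp] lemma U_snd (i : ZMod 4) : (U i : H k).2 = AddMonoidAlgebra.single i 1 := by simp [U]

lemma T_zero : (T 0 : H k) = 1 := by apply extH <;> simp [AddMonoidAlgebra.one_def]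
lemma U_zero : (U 0 : H k) = x := by rw [U, T_zero, one_mul]

lemma T_mul_T (i j : ZMod 4) : (T i * T j : H k) = T (i + j) := by
  apply extH <;> simp [AddMonoidAlgebra.single_mul_single]
lemma T_mul_U (i j : ZMod 4) : (T i * U j : H k) = U (i + j) := by
  apply extH <;> simp [AddMonoidAlgebra.single_mul_single]
lemma U_mul_T (i j : ZMod 4) : (U i * T j : H k) = s k j • U (i + j) := by
  apply extH <;> simp [AddMonoidAlgebra.single_mul_single, phi_single]
lemma U_mul_U (i j : ZMod 4) : (U i * U j : H k) = 0 := by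
  apply extH <;> simp

lemma x_mul_x : (x * x : H k) = 0 := by apply extH <;> simp

lemma eq_comb (a : H k) : a = iota a.1 + iota a.2 * x := by apply extH <;> simp

lemma lin_ext {M : Type v} [AddCommGroup M] [Module k M] {f g : H k →ₗ[k] M}
    (hT : ∀ i, f (T i) = g (T i)) (hU : ∀ i, f (U i) = g (U i)) : f = g := by
  have h1 : f ∘ₗ iota.toLinearMap = g ∘ₗ iota.toLinearMap := by
    ext i
    simpa [T] using hT i
  have h2 : f ∘ₗ (LinearMap.mulRight k x) ∘ₗ iota.toLinearMap =
      g ∘ₗ (LinearMap.mulRight k x) ∘ₗ iota.toLinearMap := by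
    ext i
    simpa [U, T] using hU i
  apply LinearMap.ext
  intro a
  rw [eq_comb a, map_add, map_add]
  exact congrArg₂ (· + ·) (LinearMap.congr_fun h1 a.1) (LinearMap.congr_fun h2 a.2)

section lift

variable {B : Type v} [Ring B] [Algebra k B]

/-- universal property -/
noncomputable def lift (f0 : K k →ₐ[k] B) (X : B) (hX : X * X = 0)
    (hc : ∀ c, X * f0 c = f0 (phi k c) * X) : H k →ₐ[k] B :=
  AlgHom.ofLinearMap
    { toFun := fun a => f0 a.1 + f0 a.2 * X
      map_add' := by intro a b; simp [add_mul]; abel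
      map_smul' := by intro a b; simp }
    (by simp)
    (by
      intro a b
      show f0 (a * b).1 + f0 (a * b).2 * X = (f0 a.1 + f0 a.2 * X) * (f0 b.1 + f0 b.2 * X)
      have e1 : f0 a.2 * X * (f0 b.2 * X) = 0 := by
        rw [mul_assoc, ← mul_assoc X, hc, mul_assoc, hX, mul_zero, mul_zero]
      have e2 : f0 a.2 * X * f0 b.1 = f0 a.2 * f0 (phi k b.1) * X := by
        rw [mul_assoc, hc, mul_assoc]
      rw [mul_fst, mul_snd, mul_add, add_mul, add_mul, e1, e2, map_mul, map_add, map_mul, map_mul,
        add_mul, add_zero, mul_assoc (f0 a.1) (f0 b.2)]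
      abel)

lemma lift_T (f0 : K k →ₐ[k] B) (X : B) (hX : X * X = 0)
    (hc : ∀ c, X * f0 c = f0 (phi k c) * X) (i : ZMod 4) :
    lift f0 X hX hc (T i) = f0 (AddMonoidAlgebra.single i 1) := by
  show f0 _ + f0 _ * X = _
  simp

lemma lift_x (f0 : K k →ₐ[k] B) (X : B) (hX : X * X = 0)
    (hc : ∀ c, X * f0 c = f0 (phi k c) * X) : lift f0 X hX hc x = X := by
  show f0 _ + f0 _ * X = _
  simp

lemma hom_ext {f g : H k →ₐ[k] B} (hT : ∀ i, f (T i) = g (T i)) (hx : f x = g x) : f = g := by
  apply AlgHom.ext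
  intro a
  have h : f.toLinearMap = g.toLinearMap := by
    apply lin_ext
    · exact hT
    · intro i
      show f (T i * x) = g (T i * x)
      rw [map_mul, map_mul, hT, hx]
  exact LinearMap.congr_fun h a

/-- to check the commutation relation it is enough to check it on the group -/
lemma comm_of (f0 : K k →ₐ[k] B) (X : B)
    (h : ∀ i, X * f0 (AddMonoidAlgebra.single i 1) =
      s k i • (f0 (AddMonoidAlgebra.single i 1) * X)) (c : K k) :
    X * f0 c = f0 (phi k c) * X := by
  induction c using AddMonoidAlgebra.induction_linear with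
  | zero => simp
  | add a b ha hb => rw [map_add, mul_add, ha, hb, map_add, map_add, add_mul]
  | single i c =>
    have e : (AddMonoidAlgebra.single i c : K k) = c • AddMonoidAlgebra.single i 1 := by
      simp
    rw [e, map_smul, map_smul, map_smul, mul_smul_comm, h, phi_single, mul_one]
    have e2 : (AddMonoidAlgebra.single i (s k i) : K k) =
        s k i • AddMonoidAlgebra.single i 1 := by simp
    rw [e2, map_smul, smul_mul_assoc, smul_mul_assoc]

end lift

variable (k)

/-- comultiplication -/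
noncomputable def com : H k →ₐ[k] H k ⊗[k] H k :=
  lift ((Algebra.TensorProduct.map iota iota).comp (Bialgebra.comulAlgHom k (K k)))
    ((x : H k) ⊗ₜ[k] (1 : H k) + (T 1 : H k) ⊗ₜ[k] (x : H k))
    (by
      have h : (x : H k) * T 1 = - (T 1 * x) := by
        rw [← U_zero, U_mul_T, T_mul_U, s_one, zero_add, add_zero]; simp
      simp only [mul_add, add_mul, Algebra.TensorProduct.tmul_mul_tmul, mul_one, one_mul,
        x_mul_x, h, zero_tmul, tmul_zero, neg_tmul, zero_add, add_zero]
      abel)
    (by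
      apply comm_of
      intro i
      have e1 : ((Algebra.TensorProduct.map iota iota).comp (Bialgebra.comulAlgHom k (K k)))
          (AddMonoidAlgebra.single i 1) = (T i : H k) ⊗ₜ[k] (T i : H k) := by
        simp [T]
      have e2 : (x : H k) * T i = s k i • (T i * x) := by
        rw [← U_zero, U_mul_T, T_mul_U, zero_add, add_zero]
      have e3 : (T 1 : H k) * T i = T i * T 1 := by rw [T_mul_T, T_mul_T, add_comm]
      rw [e1]
      simp only [mul_add, add_mul, Algebra.TensorProduct.tmul_mul_tmul, mul_one, one_mul, e2, e3,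
        smul_add]
      rw [smul_tmul', tmul_smul])

lemma com_T (i : ZMod 4) : com k (T i) = (T i : H k) ⊗ₜ[k] (T i : H k) := by
  rw [com, lift_T]
  simp [T]

lemma com_x : com k x = (x : H k) ⊗ₜ[k] (1 : H k) + (T 1 : H k) ⊗ₜ[k] (x : H k) := lift_x _ _ _ _

lemma com_U (i : ZMod 4) : com k (U i) = (U i : H k) ⊗ₜ[k] (T i : H k) +
    (T (i + 1) : H k) ⊗ₜ[k] (U i : H k) := by
  rw [U, map_mul, com_T, com_x, mul_add, Algebra.TensorProduct.tmul_mul_tmul,
    Algebra.TensorProduct.tmul_mul_tmul, mul_one, T_mul_T]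

/-- counit -/
noncomputable def cou : H k →ₐ[k] k :=
  lift (Bialgebra.counitAlgHom k (K k)) 0 (by simp) (by simp)

lemma cou_T (i : ZMod 4) : cou k (T i) = 1 := by
  rw [cou, lift_T]; simp
lemma cou_x : cou k x = 0 := lift_x _ _ _ _
lemma cou_U (i : ZMod 4) : cou k (U i) = 0 := by rw [U, map_mul, cou_x, mul_zero]

noncomputable instance instBialgebra : Bialgebra k (H k) :=
  Bialgebra.ofAlgHom (com k) (cou k)
    (by
      apply hom_ext
      · intro i; simp [com_T]
      · simp [com_x, com_T, add_tmul, tmul_add, Algebra.TensorProduct.one_def, add_assoc])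
    (by apply hom_ext <;> simp [com_T, com_x, cou_T, cou_x])
    (by apply hom_ext <;> simp [com_T, com_x, cou_T, cou_x])

lemma comul_eq (a : H k) : Coalgebra.comul (R := k) a = com k a := rfl
lemma counit_eq (a : H k) : Coalgebra.counit (R := k) a = cou k a := rfl

/-- linear map prescribed on the basis -/
noncomputable def mkLin {M : Type v} [AddCommGroup M] [Module k M] (p q : ZMod 4 → M) :
    H k →ₗ[k] M where
  toFun a := ∑ i, a.1.coeff i • p i + ∑ i, a.2.coeff i • q i
  map_add' a b := by
    simp only [add_fst, add_snd, AddMonoidAlgebra.coeff_add, Finsupp.add_apply, add_smul,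
      Finset.sum_add_distrib]
    abel
  map_smul' c a := by
    simp only [smul_fst, smul_snd, AddMonoidAlgebra.coeff_smul, Finsupp.smul_apply, smul_add,
      Finset.smul_sum, RingHom.id_apply, smul_eq_mul, mul_smul]

lemma mkLin_T {M : Type v} [AddCommGroup M] [Module k M] (p q : ZMod 4 → M) (i : ZMod 4) :
    mkLin k p q (T i) = p i := by
  simp [mkLin, Finsupp.single_apply]

lemma mkLin_U {M : Type v} [AddCommGroup M] [Module k M] (p q : ZMod 4 → M) (i : ZMod 4) :
    mkLin k p q (U i) = q i := by
  simp [mkLin, Finsupp.single_apply]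

/-- antipode -/
noncomputable def anti : H k →ₗ[k] H k :=
  mkLin k (fun i => T (-i)) (fun i => -(s k (-i)) • U (-1 - i))

lemma anti_T (i : ZMod 4) : anti k (T i) = T (-i) := mkLin_T k _ _ i
lemma anti_U (i : ZMod 4) : anti k (U i) = -(s k (-i)) • U (-1 - i) := mkLin_U k _ _ i

noncomputable instance instHopf : HopfAlgebra k (H k) where
  antipode := anti k
  mul_antipode_rTensor_comul := by
    apply lin_ext
    · intro i
      simp [comul_eq, counit_eq, com_T, cou_T, anti_T, T_mul_T, T_zero]
    · intro i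
      have h : s k (-i) * s k i = 1 := by rw [← s_add, neg_add_cancel, s_zero]
      simp only [LinearMap.comp_apply, comul_eq, counit_eq, com_U, map_add,
        LinearMap.rTensor_tmul, LinearMap.mul'_apply, anti_T, anti_U, cou_U, map_zero,
        smul_mul_assoc, U_mul_T, T_mul_U, smul_smul]
      rw [neg_mul, h, neg_smul, one_smul, neg_add_rev, sub_add_cancel,
        neg_add_cancel_right, neg_add_cancel]
  mul_antipode_lTensor_comul := by
    apply lin_ext
    · intro i
      simp [comul_eq, counit_eq, com_T, cou_T, anti_T, T_mul_T, T_zero]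
    · intro i
      simp only [LinearMap.comp_apply, comul_eq, counit_eq, com_U, map_add,
        LinearMap.lTensor_tmul, LinearMap.mul'_apply, anti_T, anti_U, cou_U, map_zero,
        mul_smul_comm, U_mul_T, T_mul_U, smul_smul]
      have h : i + 1 + (-1 - i) = 0 := by ring
      rw [h, add_neg_cancel, neg_smul, add_neg_cancel]

/-- the cocycle with parameter `c` -/
noncomputable def sig2 (c : k) : H k →ₗ[k] H k →ₗ[k] k :=
  mkLin k (fun _ => mkLin k (fun _ => 1) (fun _ => 0))
    (fun _ => mkLin k (fun _ => 0) (fun j => c * s k j))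

noncomputable def sig (c : k) : H k ⊗[k] H k →ₗ[k] k := TensorProduct.lift (sig2 k c)

lemma sig_TT (c : k) (i j : ZMod 4) : sig k c (T i ⊗ₜ T j) = 1 := by
  simp [sig, sig2, mkLin_T, mkLin_U]
lemma sig_TU (c : k) (i j : ZMod 4) : sig k c (T i ⊗ₜ U j) = 0 := by
  simp [sig, sig2, mkLin_T, mkLin_U]
lemma sig_UT (c : k) (i j : ZMod 4) : sig k c (U i ⊗ₜ T j) = 0 := by
  simp [sig, sig2, mkLin_T, mkLin_U]
lemma sig_UU (c : k) (i j : ZMod 4) : sig k c (U i ⊗ₜ U j) = c * s k j := by
  simp [sig, sig2, mkLin_T, mkLin_U]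

lemma finrankH : Module.finrank k (H k) = 8 := by
  show Module.finrank k (K k × K k) = 8
  have e : Module.finrank k (K k) = 4 := by
    rw [(AddMonoidAlgebra.coeffLinearEquiv k : K k ≃ₗ[k] (ZMod 4 →₀ k)).finrank_eq]
    simp
  rw [Module.finrank_prod, e]

lemma comul_TT (i j : ZMod 4) : Coalgebra.comul (R := k) ((T i : H k) ⊗ₜ[k] (T j : H k)) =
    ((T i : H k) ⊗ₜ[k] (T j : H k)) ⊗ₜ[k] ((T i : H k) ⊗ₜ[k] (T j : H k)) := by
  rw [TensorProduct.comul_tmul, comul_eq, comul_eq, com_T, com_T]
  simp

lemma comul_TU (i j : ZMod 4) : Coalgebra.comul (R := k) ((T i : H k) ⊗ₜ[k] (U j : H k)) =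
    ((T i : H k) ⊗ₜ[k] (U j : H k)) ⊗ₜ[k] ((T i : H k) ⊗ₜ[k] (T j : H k)) +
    ((T i : H k) ⊗ₜ[k] (T (j + 1) : H k)) ⊗ₜ[k] ((T i : H k) ⊗ₜ[k] (U j : H k)) := by
  rw [TensorProduct.comul_tmul, comul_eq, comul_eq, com_T, com_U]
  simp [tmul_add]

lemma comul_UT (i j : ZMod 4) : Coalgebra.comul (R := k) ((U i : H k) ⊗ₜ[k] (T j : H k)) =
    ((U i : H k) ⊗ₜ[k] (T j : H k)) ⊗ₜ[k] ((T i : H k) ⊗ₜ[k] (T j : H k)) +
    ((T (i + 1) : H k) ⊗ₜ[k] (T j : H k)) ⊗ₜ[k] ((U i : H k) ⊗ₜ[k] (T j : H k)) := by
  rw [TensorProduct.comul_tmul, comul_eq, comul_eq, com_T, com_U]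
  simp [add_tmul]

lemma comul_UU (i j : ZMod 4) : Coalgebra.comul (R := k) ((U i : H k) ⊗ₜ[k] (U j : H k)) =
    ((U i : H k) ⊗ₜ[k] (U j : H k)) ⊗ₜ[k] ((T i : H k) ⊗ₜ[k] (T j : H k)) +
    ((U i : H k) ⊗ₜ[k] (T (j + 1) : H k)) ⊗ₜ[k] ((T i : H k) ⊗ₜ[k] (U j : H k)) +
    ((T (i + 1) : H k) ⊗ₜ[k] (U j : H k)) ⊗ₜ[k] ((U i : H k) ⊗ₜ[k] (T j : H k)) +
    ((T (i + 1) : H k) ⊗ₜ[k] (T (j + 1) : H k)) ⊗ₜ[k] ((U i : H k) ⊗ₜ[k] (U j : H k)) := by
  rw [TensorProduct.comul_tmul, comul_eq, comul_eq, com_U, com_U]
  simp [add_tmul, tmul_add]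
  abel

/-- bilinear extensionality -/
lemma bilin_ext {M : Type v} [AddCommGroup M] [Module k M] {f g : H k ⊗[k] H k →ₗ[k] M}
    (h1 : ∀ i j, f (T i ⊗ₜ T j) = g (T i ⊗ₜ T j)) (h2 : ∀ i j, f (T i ⊗ₜ U j) = g (T i ⊗ₜ U j))
    (h3 : ∀ i j, f (U i ⊗ₜ T j) = g (U i ⊗ₜ T j)) (h4 : ∀ i j, f (U i ⊗ₜ U j) = g (U i ⊗ₜ U j)) :
    f = g := by
  apply TensorProduct.ext
  apply lin_ext
  · intro i
    apply lin_ext
    · intro j; exact h1 i j
    · intro j; exact h2 i j
  · intro i
    apply lin_ext
    · intro j; exact h3 i j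
    · intro j; exact h4 i j

/-- induction principle -/
lemma ind {p : H k → Prop} (h0 : p 0) (hadd : ∀ a b, p a → p b → p (a + b))
    (hsmul : ∀ (c : k) a, p a → p (c • a)) (hT : ∀ i, p (T i)) (hU : ∀ i, p (U i)) (a : H k) :
    p a := by
  let S : Submodule k (H k) :=
    { carrier := {a | p a}
      zero_mem' := h0
      add_mem' := fun ha hb => hadd _ _ ha hb
      smul_mem' := fun c a ha => hsmul c a ha }
  have hS : S.mkQ = 0 := by
    apply lin_ext
    · intro i
      rw [LinearMap.zero_apply, Submodule.mkQ_apply, Submodule.Quotient.mk_eq_zero]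
      exact hT i
    · intro i
      rw [LinearMap.zero_apply, Submodule.mkQ_apply, Submodule.Quotient.mk_eq_zero]
      exact hU i
  have h1 := LinearMap.congr_fun hS a
  rw [LinearMap.zero_apply, Submodule.mkQ_apply, Submodule.Quotient.mk_eq_zero] at h1
  exact h1

/-- commutators square to zero -/
lemma comm_sq (a b : H k) : (a * b - b * a) * (a * b - b * a) = 0 := by
  have h1 : (a * b - b * a).1 = 0 := by
    show a.1 * b.1 - b.1 * a.1 = 0
    ring
  apply extH
  · simp [h1]
  · simp [h1]

/-- cocentral unitary maps are trivial -/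
lemma cocentral_trivial {A : Type v} [AddCommGroup A] [Module k A] (r : H k →ₗ[k] A)
    (hr : ∀ h, TensorProduct.map r LinearMap.id (com k h) =
      TensorProduct.map r LinearMap.id ((TensorProduct.comm k (H k) (H k)) (com k h)))
    (h : H k) : r h = cou k h • r 1 := by
  have key : ∀ i, r (U i) = 0 ∧ r (T (i + 1)) = r (T i) := by
    intro i
    have h1 := hr (U i)
    rw [com_U] at h1
    simp only [map_add, TensorProduct.map_tmul, LinearMap.id_apply, TensorProduct.comm_tmul] at h1
    constructor
    · have h2 := congrArg (fun t => TensorProduct.rid k A (LinearMap.lTensor A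
        (mkLin k (Pi.single i 1) (fun _ => 0)) t)) h1
      have hne : i + 1 ≠ i := by
        intro e
        have : (1 : ZMod 4) = 0 := by simpa using e
        exact absurd this (by decide)
      simpa [mkLin_T, mkLin_U, hne] using h2
    · have h2 := congrArg (fun t => TensorProduct.rid k A (LinearMap.lTensor A
        (mkLin k (fun _ => 0) (Pi.single i 1)) t)) h1
      simpa [mkLin_T, mkLin_U] using h2
  have hT : ∀ i, r (T i) = r 1 := by
    have h0 : r (T 0) = r 1 := by rw [T_zero]
    have h1 : r (T 1) = r 1 := by have := (key 0).2; rw [zero_add] at this; rw [this, h0]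
    have h2 : r (T 2) = r 1 := by
      have := (key 1).2
      have e : (1 : ZMod 4) + 1 = 2 := by decide
      rw [e] at this; rw [this, h1]
    have h3 : r (T 3) = r 1 := by
      have := (key 2).2
      have e : (2 : ZMod 4) + 1 = 3 := by decide
      rw [e] at this; rw [this, h2]
    intro i
    fin_cases i
    · exact h0
    · exact h1
    · exact h2
    · exact h3
  have hlin : r = (cou k).toLinearMap.smulRight (r 1) := by
    apply lin_ext
    · intro i
      simp [cou_T, hT]
    · intro i
      simp [cou_U, (key i).1]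
  exact LinearMap.congr_fun hlin h

end Q11.HopfEight
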