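import Mathlib

set_option autoImplicit false
set_option linter.unusedSectionVars false

/-!
The 4-dimensional restricted enveloping algebra of the 2-dimensional restricted Lie algebra
`[t, x] = x`, `t^[2] = t`, `x^[2] = 0` over a field of characteristic 2, as a Hopf algebra.
-/

namespace Q11.HopfFour

open TensorProduct

universe u v

/-- coordinates with respect to `t, t x, x t, 1 - t` -/
def H (k : Type u) : Type u := Fin 4 → k

variable {k : Type u} [Field k]

instance : AddCommGroup (H k) := inferInstanceAs (AddCommGroup (Fin 4 → k))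
instance : Module k (H k) := inferInstanceAs (Module k (Fin 4 → k))
instance : Module.Finite k (H k) := inferInstanceAs (Module.Finite k (Fin 4 → k))

/-- the product -/
def mulH (a b : Fin 4 → k) : Fin 4 → k :=
  ![a 0 * b 0, a 0 * b 1 + a 1 * b 3, a 2 * b 0 + a 3 * b 2, a 3 * b 3]

instance : Mul (H k) := ⟨fun a b => mulH a b⟩
instance : One (H k) := ⟨(![1, 0, 0, 1] : Fin 4 → k)⟩

omit [Field k] in
lemma extH {a b : H k} (h0 : a 0 = b 0) (h1 : a 1 = b 1) (h2 : a 2 = b 2) (h3 : a 3 = b 3) :
    a = b := by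
  funext i
  fin_cases i <;> assumption

@[simp] lemma add_ap (a b : H k) (i : Fin 4) : (a + b) i = a i + b i := rfl
@[simp] lemma neg_ap (a : H k) (i : Fin 4) : (-a) i = -(a i) := rfl
@[simp] lemma sub_ap (a b : H k) (i : Fin 4) : (a - b) i = a i - b i := rfl
@[simp] lemma zero_ap (i : Fin 4) : (0 : H k) i = 0 := rfl
@[simp] lemma smul_ap (c : k) (b : H k) (i : Fin 4) : (c • b) i = c * b i := rfl
@[simp] lemma one_ap0 : (1 : H k) 0 = 1 := rfl
@[simp] lemma one_ap1 : (1 : H k) 1 = 0 := rfl
@[simp] lemma one_ap2 : (1 : H k) 2 = 0 := rfl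
@[simp] lemma one_ap3 : (1 : H k) 3 = 1 := rfl
@[simp] lemma mul_ap0 (a b : H k) : (a * b) 0 = a 0 * b 0 := rfl
@[simp] lemma mul_ap1 (a b : H k) : (a * b) 1 = a 0 * b 1 + a 1 * b 3 := rfl
@[simp] lemma mul_ap2 (a b : H k) : (a * b) 2 = a 2 * b 0 + a 3 * b 2 := rfl
@[simp] lemma mul_ap3 (a b : H k) : (a * b) 3 = a 3 * b 3 := rfl

instance : Ring (H k) :=
  { (inferInstance : AddCommGroup (H k)) with
    mul := (· * ·)
    one := 1
    left_distrib := by intro a b c; apply extH <;> simp <;> ring
    right_distrib := by intro a b c; apply extH <;> simp <;> ring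
    zero_mul := by intro a; apply extH <;> simp
    mul_zero := by intro a; apply extH <;> simp
    one_mul := by intro a; apply extH <;> simp
    mul_one := by intro a; apply extH <;> simp
    mul_assoc := by intro a b c; apply extH <;> simp <;> ring }

instance : Algebra k (H k) :=
  Algebra.ofModule (by intro r a b; apply extH <;> simp <;> ring)
    (by intro r a b; apply extH <;> simp <;> ring)

/-- vectors -/
def vec (a b c d : k) : H k := (![a, b, c, d] : Fin 4 → k)
@[simp] lemma vec0 (a b c d : k) : vec a b c d 0 = a := rfl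
@[simp] lemma vec1 (a b c d : k) : vec a b c d 1 = b := rfl
@[simp] lemma vec2 (a b c d : k) : vec a b c d 2 = c := rfl
@[simp] lemma vec3 (a b c d : k) : vec a b c d 3 = d := rfl

/-- the generators -/
def t : H k := vec 1 0 0 0
def x : H k := vec 0 1 1 0

lemma tt : (t : H k) * t = t := by apply extH <;> simp [t]
lemma xx : (x : H k) * x = 0 := by apply extH <;> simp [x]
lemma txxt : (t : H k) * x + x * t = x := by apply extH <;> simp [t, x]

lemma eq_comb (a : H k) : a = a 0 • t + a 1 • (t * x) + a 2 • (x * t) + a 3 • (1 - t) := by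
  apply extH <;> simp [t, x]

section lift

variable {B : Type v} [Ring B] [Algebra k B] (T X : B)

/-- the linear map with `t ↦ T`, `t x ↦ T X`, `x t ↦ X T`, `1 - t ↦ 1 - T` -/
def liftLin : H k →ₗ[k] B where
  toFun a := a 0 • T + a 1 • (T * X) + a 2 • (X * T) + a 3 • (1 - T)
  map_add' a b := by simp only [add_ap]; module
  map_smul' c a := by simp only [smul_ap, RingHom.id_apply]; module

lemma liftLin_apply (a : H k) :
    liftLin T X a = a 0 • T + a 1 • (T * X) + a 2 • (X * T) + a 3 • (1 - T) := rfl

variable {T X}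

lemma rTXT (hT : T * T = T) (hTX : T * X + X * T = X) : T * X * T = 0 := by
  have h1 : T * (T * X + X * T) = T * X := by rw [hTX]
  rw [mul_add, ← mul_assoc, hT, ← mul_assoc] at h1
  simpa using h1

lemma rXTX (hX : X * X = 0) (hTX : T * X + X * T = X) : X * T * X = 0 := by
  have h1 : X * (T * X + X * T) = X * X := by rw [hTX]
  rw [mul_add, ← mul_assoc, ← mul_assoc, hX, zero_mul, add_zero] at h1
  exact h1

/-- the algebra map given by the universal property -/
def lift (hT : T * T = T) (hX : X * X = 0) (hTX : T * X + X * T = X) : H k →ₐ[k] B :=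
  AlgHom.ofLinearMap (liftLin T X)
    (by simp only [liftLin_apply, one_ap0, one_ap1, one_ap2, one_ap3]; module)
    (by
      intro a b
      have hTXT := rTXT hT hTX
      have hXTX := rXTX hX hTX
      have e1 : T * (T * X) = T * X := by rw [← mul_assoc, hT]
      have e2 : T * (X * T) = 0 := by rw [← mul_assoc, hTXT]
      have e3 : T * (1 - T) = 0 := by rw [mul_sub, mul_one, hT, sub_self]
      have e4 : T * X * T = 0 := hTXT
      have e5 : T * X * (T * X) = 0 := by rw [← mul_assoc, hTXT, zero_mul]
      have e6 : T * X * (X * T) = 0 := by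
        rw [mul_assoc, ← mul_assoc X X T, hX, zero_mul, mul_zero]
      have e7 : T * X * (1 - T) = T * X := by rw [mul_sub, mul_one, hTXT, sub_zero]
      have e8 : X * T * T = X * T := by rw [mul_assoc, hT]
      have e9 : X * T * (T * X) = 0 := by rw [mul_assoc, e1, ← mul_assoc, hXTX]
      have e10 : X * T * (X * T) = 0 := by rw [← mul_assoc, hXTX, zero_mul]
      have e11 : X * T * (1 - T) = 0 := by rw [mul_sub, mul_one, e8, sub_self]
      have e12 : (1 - T) * T = 0 := by rw [sub_mul, one_mul, hT, sub_self]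
      have e13 : (1 - T) * (T * X) = 0 := by rw [sub_mul, one_mul, e1, sub_self]
      have e14 : (1 - T) * (X * T) = X * T := by rw [sub_mul, one_mul, e2, sub_zero]
      have e15 : (1 - T) * (1 - T) = 1 - T := by
        rw [mul_sub, mul_one, e12, sub_zero]
      simp only [liftLin_apply, mul_ap0, mul_ap1, mul_ap2, mul_ap3, add_mul, mul_add,
        smul_mul_assoc, mul_smul_comm, hT, e1, e2, e3, e4, e5, e6, e7, e8, e9, e10, e11, e12,
        e13, e14, e15, smul_zero, add_zero, zero_add]
      module)

lemma lift_t (hT : T * T = T) (hX : X * X = 0) (hTX : T * X + X * T = X) :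
    lift (k := k) hT hX hTX t = T := by
  show liftLin T X t = T
  simp [liftLin_apply, t]

lemma lift_x (hT : T * T = T) (hX : X * X = 0) (hTX : T * X + X * T = X) :
    lift (k := k) hT hX hTX x = X := by
  show liftLin T X x = X
  simp [liftLin_apply, x, hTX]

lemma hom_ext {f g : H k →ₐ[k] B} (ht : f t = g t) (hx : f x = g x) : f = g := by
  apply AlgHom.ext
  intro a
  rw [eq_comb a]
  simp only [map_add, map_smul, map_mul, map_sub, map_one, ht, hx]

lemma lin_ext {f g : H k →ₗ[k] B} (ht : f t = g t) (h1 : f 1 = g 1)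
    (htx : f (t * x) = g (t * x)) (hxt : f (x * t) = g (x * t)) : f = g := by
  apply LinearMap.ext
  intro a
  rw [eq_comb a]
  simp only [map_add, map_smul, map_sub, ht, h1, htx, hxt]

end lift

section hopf

variable [CharP k 2]

lemma add_self {M : Type v} [AddCommGroup M] [Module k M] (y : M) : y + y = 0 := by
  have h : (2 : k) • y = 0 := by
    have h2 : (2 : k) = 0 := by exact_mod_cast CharP.cast_eq_zero k 2
    rw [h2, zero_smul]
  rwa [two_smul] at h

variable (k)

/-- comultiplication -/
noncomputable def com : H k →ₐ[k] H k ⊗[k] H k :=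
  lift (T := (t : H k) ⊗ₜ[k] (1 : H k) + (1 : H k) ⊗ₜ[k] (t : H k))
    (X := (x : H k) ⊗ₜ[k] (1 : H k) + (1 : H k) ⊗ₜ[k] (x : H k))
    (by
      simp only [mul_add, add_mul, Algebra.TensorProduct.tmul_mul_tmul, mul_one, one_mul, tt]
      have h := add_self (k := k) ((t : H k) ⊗ₜ[k] (t : H k))
      calc _ = (t : H k) ⊗ₜ[k] (1 : H k) + (1 : H k) ⊗ₜ[k] (t : H k)
            + ((t : H k) ⊗ₜ[k] (t : H k) + (t : H k) ⊗ₜ[k] (t : H k)) := by abel
        _ = _ := by rw [h, add_zero])
    (by
      simp only [mul_add, add_mul, Algebra.TensorProduct.tmul_mul_tmul, mul_one, one_mul, xx,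
        zero_tmul, tmul_zero, add_zero, zero_add]
      exact add_self (k := k) ((x : H k) ⊗ₜ[k] (x : H k)))
    (by
      simp only [mul_add, add_mul, Algebra.TensorProduct.tmul_mul_tmul, mul_one, one_mul]
      have h := add_self (k := k) ((x : H k) ⊗ₜ[k] (t : H k) + (t : H k) ⊗ₜ[k] (x : H k))
      calc _ = ((t * x + x * t : H k) ⊗ₜ[k] (1 : H k)) + ((1 : H k) ⊗ₜ[k] (t * x + x * t : H k))
            + (((x : H k) ⊗ₜ[k] (t : H k) + (t : H k) ⊗ₜ[k] (x : H k)) +
              ((x : H k) ⊗ₜ[k] (t : H k) + (t : H k) ⊗ₜ[k] (x : H k))) := by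
            rw [add_tmul, tmul_add]; abel
        _ = _ := by rw [h, add_zero, txxt])

lemma com_t : com k t = (t : H k) ⊗ₜ[k] (1 : H k) + (1 : H k) ⊗ₜ[k] (t : H k) := lift_t _ _ _
lemma com_x : com k x = (x : H k) ⊗ₜ[k] (1 : H k) + (1 : H k) ⊗ₜ[k] (x : H k) := lift_x _ _ _

/-- counit -/
noncomputable def cou : H k →ₐ[k] k :=
  lift (T := (0 : k)) (X := (0 : k)) (by simp) (by simp) (by simp)

lemma cou_t : cou k t = 0 := lift_t _ _ _
lemma cou_x : cou k x = 0 := lift_x _ _ _

noncomputable instance instBialgebra : Bialgebra k (H k) :=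
  Bialgebra.ofAlgHom (com k) (cou k)
    (by
      apply hom_ext
      · simp [com_t, add_tmul, tmul_add, Algebra.TensorProduct.one_def, add_assoc]
      · simp [com_x, add_tmul, tmul_add, Algebra.TensorProduct.one_def, add_assoc])
    (by apply hom_ext <;> simp [com_t, com_x, cou_t, cou_x])
    (by apply hom_ext <;> simp [com_t, com_x, cou_t, cou_x])

lemma comul_eq (a : H k) : Coalgebra.comul (R := k) a = com k a := rfl
lemma counit_eq (a : H k) : Coalgebra.counit (R := k) a = cou k a := rfl

/-- antipode -/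
def anti : H k →ₗ[k] H k where
  toFun a := vec (a 0) (a 2) (a 1) (a 3)
  map_add' a b := by apply extH <;> simp
  map_smul' c a := by apply extH <;> simp

lemma anti_apply (a : H k) : anti k a = vec (a 0) (a 2) (a 1) (a 3) := rfl
lemma anti_one : anti k 1 = 1 := by apply extH <;> simp [anti_apply]
lemma anti_t : anti k t = t := by apply extH <;> simp [anti_apply, t]
lemma anti_x : anti k x = x := by apply extH <;> simp [anti_apply, x]
lemma anti_tx : anti k (t * x) = x * t := by apply extH <;> simp [anti_apply, x, t]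
lemma anti_xt : anti k (x * t) = t * x := by apply extH <;> simp [anti_apply, x, t]

lemma com_tx : com k (t * x) = (t * x : H k) ⊗ₜ[k] (1 : H k) + (t : H k) ⊗ₜ[k] (x : H k)
    + (x : H k) ⊗ₜ[k] (t : H k) + (1 : H k) ⊗ₜ[k] (t * x : H k) := by
  rw [map_mul, com_t, com_x]
  simp only [mul_add, add_mul, Algebra.TensorProduct.tmul_mul_tmul, mul_one, one_mul]
  abel

lemma com_xt : com k (x * t) = (x * t : H k) ⊗ₜ[k] (1 : H k) + (t : H k) ⊗ₜ[k] (x : H k)
    + (x : H k) ⊗ₜ[k] (t : H k) + (1 : H k) ⊗ₜ[k] (x * t : H k) := by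
  rw [map_mul, com_t, com_x]
  simp only [mul_add, add_mul, Algebra.TensorProduct.tmul_mul_tmul, mul_one, one_mul]
  abel

noncomputable instance instHopf : HopfAlgebra k (H k) where
  antipode := anti k
  mul_antipode_rTensor_comul := by
    apply lin_ext
    · have h := add_self (k := k) (t : H k)
      simpa [comul_eq, counit_eq, com_t, cou_t, anti_t, anti_one] using h
    · simp [comul_eq, counit_eq, Algebra.TensorProduct.one_def, anti_one]
    · have h := add_self (k := k) (t * x + x * t : H k)
      simp only [LinearMap.comp_apply, comul_eq, counit_eq]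
      rw [com_tx, map_mul, cou_t, cou_x]
      simp only [map_add, LinearMap.rTensor_tmul, anti_tx, anti_t, anti_x, anti_one,
        LinearMap.mul'_apply, mul_one, one_mul, mul_zero, map_zero]
      rw [← h]; abel
    · have h := add_self (k := k) (t * x + x * t : H k)
      simp only [LinearMap.comp_apply, comul_eq, counit_eq]
      rw [com_xt, map_mul, cou_t, cou_x]
      simp only [map_add, LinearMap.rTensor_tmul, anti_xt, anti_t, anti_x, anti_one,
        LinearMap.mul'_apply, mul_one, one_mul, mul_zero, map_zero]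
      rw [← h]; abel
  mul_antipode_lTensor_comul := by
    apply lin_ext
    · have h := add_self (k := k) (t : H k)
      simpa [comul_eq, counit_eq, com_t, cou_t, anti_t, anti_one] using h
    · simp [comul_eq, counit_eq, Algebra.TensorProduct.one_def, anti_one]
    · have h := add_self (k := k) (t * x + x * t : H k)
      simp only [LinearMap.comp_apply, comul_eq, counit_eq]
      rw [com_tx, map_mul, cou_t, cou_x]
      simp only [map_add, LinearMap.lTensor_tmul, anti_tx, anti_t, anti_x, anti_one,
        LinearMap.mul'_apply, mul_one, one_mul, mul_zero, map_zero]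
      rw [← h]; abel
    · have h := add_self (k := k) (t * x + x * t : H k)
      simp only [LinearMap.comp_apply, comul_eq, counit_eq]
      rw [com_xt, map_mul, cou_t, cou_x]
      simp only [map_add, LinearMap.lTensor_tmul, anti_xt, anti_t, anti_x, anti_one,
        LinearMap.mul'_apply, mul_one, one_mul, mul_zero, map_zero]
      rw [← h]; abel

/-- the primitive idempotent-like element `T_c = t + c x` -/
def Tc (c : k) : H k := t + c • x

lemma Tc_sq (c : k) : Tc k c * Tc k c = Tc k c := by
  have h : Tc k c * Tc k c = t * t + c • (t * x + x * t) + (c * c) • (x * x) := by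
    simp only [Tc, mul_add, add_mul, smul_mul_assoc, mul_smul_comm, smul_add, smul_smul]
    abel
  rw [h, tt, txxt, xx, smul_zero, add_zero, Tc]

lemma com_Tc (c : k) : com k (Tc k c) = Tc k c ⊗ₜ[k] (1 : H k) + (1 : H k) ⊗ₜ[k] Tc k c := by
  simp only [Tc, map_add, map_smul, com_t, com_x, add_tmul, tmul_add, smul_tmul', tmul_smul,
    smul_add]
  abel

/-- the projection -/
def P (c : k) : H k := 1 + Tc k c

lemma Tc_P (c : k) : Tc k c * P k c = 0 := by
  rw [P, mul_add, mul_one, Tc_sq]; exact add_self (k := k) _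
lemma P_Tc (c : k) : P k c * Tc k c = 0 := by
  rw [P, add_mul, one_mul, Tc_sq]; exact add_self (k := k) _
lemma P_sq (c : k) : P k c * P k c = P k c := by
  conv_lhs => rw [P, add_mul, one_mul, ← P, Tc_P, add_zero]

lemma com_P (c : k) : com k (P k c) = P k c ⊗ₜ[k] (1 : H k) + (1 : H k) ⊗ₜ[k] Tc k c := by
  rw [P, map_add, map_one, com_Tc, Algebra.TensorProduct.one_def, add_tmul]
  abel

lemma com_P' (c : k) : com k (P k c) = (1 : H k) ⊗ₜ[k] P k c + Tc k c ⊗ₜ[k] (1 : H k) := by
  rw [P, map_add, map_one, com_Tc, Algebra.TensorProduct.one_def, tmul_add]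
  abel

lemma right1 (c : k) : com k (P k c) * ((1 : H k) ⊗ₜ[k] P k c) = P k c ⊗ₜ[k] P k c := by
  rw [com_P, add_mul]
  simp only [Algebra.TensorProduct.tmul_mul_tmul, mul_one, one_mul, Tc_P, tmul_zero, add_zero]

lemma right2 (c : k) : ((1 : H k) ⊗ₜ[k] P k c) * com k (P k c) = P k c ⊗ₜ[k] P k c := by
  rw [com_P, mul_add]
  simp only [Algebra.TensorProduct.tmul_mul_tmul, mul_one, one_mul, P_Tc, tmul_zero, add_zero]

lemma left1 (c : k) : com k (P k c) * (P k c ⊗ₜ[k] (1 : H k)) = P k c ⊗ₜ[k] P k c := by
  rw [com_P', add_mul]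
  simp only [Algebra.TensorProduct.tmul_mul_tmul, mul_one, one_mul, Tc_P, zero_tmul, add_zero]

lemma left2 (c : k) : (P k c ⊗ₜ[k] (1 : H k)) * com k (P k c) = P k c ⊗ₜ[k] P k c := by
  rw [com_P', mul_add]
  simp only [Algebra.TensorProduct.tmul_mul_tmul, mul_one, one_mul, P_Tc, zero_tmul, add_zero]

lemma P_inj : Function.Injective (P k) := by
  intro c d h
  have h1 := congrFun h 1
  simpa [P, Tc, t, x] using h1

lemma P_ne (c : k) : P k c ≠ 0 := by
  intro h
  have h1 := congrFun h 3
  simp [P, Tc, t, x] at h1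

lemma finrankH : Module.finrank k (H k) = 4 := by
  show Module.finrank k (Fin 4 → k) = 4
  simp

end hopf

end Q11.HopfFour
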