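import Pool.Agent.Q20.PI.Good

/-!
Straightening of products in an algebra with a multilinear identity (Latyshev, Regev).
-/

namespace Pool.Agent.Q11.Kem

open Equiv

/-- decomposition of a list along a sublist -/
theorem sublist_blocks {α : Type*} {l L : List α} (h : l.Sublist L) :
    ∃ (A : List α) (B : List (List α)), L = A ++ B.flatten ∧ B.map List.head? = l.map some := by
  induction h with
  | slnil => exact ⟨[], [], rfl, rfl⟩
  | cons a _ ih =>
    obtain ⟨A, B, rfl, h2⟩ := ih
    exact ⟨a :: A, B, rfl, h2⟩
  | cons_cons a _ ih =>
    obtain ⟨A, B, rfl, h2⟩ := ih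
    exact ⟨[], (a :: A) :: B, rfl, by simp [h2]⟩

theorem lt_append_left {α : Type*} [LinearOrder α] (A : List α) {X Y : List α} (h : X < Y) :
    A ++ X < A ++ Y := by
  induction A with
  | nil => exact h
  | cons a A ih => exact List.Lex.cons ih

/-- permuting blocks with strictly decreasing heads gives a smaller list -/
theorem flatten_lt {α : Type*} [LinearOrder α] {B : List (List α)} {l : List α}
    (hB : B.map List.head? = l.map some) (hl : l.Pairwise (· > ·)) :
    ∀ B' : List (List α), B'.Perm B → B' ≠ B → B'.flatten < B.flatten := by
  induction B generalizing l with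
  | nil =>
    intro B' hp hne
    exact absurd hp.eq_nil hne
  | cons b T ih =>
    intro B' hp hne
    cases l with
    | nil => simp at hB
    | cons x l =>
      simp only [List.map_cons, List.cons.injEq] at hB
      obtain ⟨hb, hT⟩ := hB
      rw [List.pairwise_cons] at hl
      cases B' with
      | nil => exact absurd hp.symm.eq_nil (by simp)
      | cons b' T' =>
        by_cases hbb : b' = b
        · subst hbb
          rw [List.flatten_cons, List.flatten_cons]
          refine lt_append_left b' (ih hT hl.2 T' ((List.perm_cons b').mp hp) ?_)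
          intro h
          exact hne (by rw [h])
        · have hmem : b' ∈ T := by
            have := hp.mem_iff.mp (List.mem_cons_self (a := b') (l := T'))
            rcases List.mem_cons.mp this with h | h
            · exact absurd h hbb
            · exact h
          have h1 : b'.head? ∈ l.map some := by
            rw [← hT]
            exact List.mem_map_of_mem hmem
          rw [List.mem_map] at h1
          obtain ⟨y, hy, hy'⟩ := h1
          have hyx : y < x := hl.1 y hy
          obtain ⟨b1, rfl⟩ : ∃ b1, b' = y :: b1 := by
            cases b' with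
            | nil => simp at hy'
            | cons z b1 =>
              simp only [List.head?_cons, Option.some.injEq] at hy'
              exact ⟨b1, by rw [hy']⟩
          obtain ⟨b2, rfl⟩ : ∃ b2, b = x :: b2 := by
            cases b with
            | nil => simp at hb
            | cons z b1 =>
              simp only [List.head?_cons, Option.some.injEq] at hb
              exact ⟨b1, by rw [hb]⟩
          exact List.Lex.rel hyx

variable {k : Type*} [Field k] {U : Type*} [Ring U] [Algebra k U]

/-- the monomial of a list of letters -/
def mon {m : ℕ} (r : Fin m → U) (L : List (Fin m)) : U := (L.map r).prod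

theorem mon_append {m : ℕ} (r : Fin m → U) (L M : List (Fin m)) :
    mon r (L ++ M) = mon r L * mon r M := by
  simp [mon]

theorem mon_flatten {m : ℕ} (r : Fin m → U) (B : List (List (Fin m))) :
    mon r B.flatten = (B.map (mon r)).prod := by
  induction B with
  | nil => simp [mon]
  | cons b B ih => rw [List.flatten_cons, mon_append, ih, List.map_cons, List.prod_cons]

theorem mon_mem {m : ℕ} (r : Fin m → U) (S : Set U) (hS : ∀ a ∈ S, ∀ b ∈ S, a * b ∈ S)
    (hr : ∀ i, r i ∈ S) (L : List (Fin m)) (hL : L ≠ []) : mon r L ∈ S := by
  induction L with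
  | nil => exact absurd rfl hL
  | cons a L ih =>
    by_cases h : L = []
    · subst h
      simpa [mon] using hr a
    · have := hS _ (hr a) _ (ih h)
      simpa [mon] using this

/-- A permutation of `Fin m` gives a monomial. -/
def pmon {m : ℕ} (r : Fin m → U) (π : Perm (Fin m)) : U := mon r (List.ofFn π)

theorem exists_perm {m : ℕ} (L : List (Fin m)) (hL : L.Perm (List.finRange m)) :
    ∃ π : Perm (Fin m), L = List.ofFn π := by
  have hnd : L.Nodup := hL.nodup_iff.mpr (List.nodup_finRange m)
  have hlen : L.length = m := by rw [hL.length_eq, List.length_finRange]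
  have hinj : Function.Injective (fun i : Fin m => L.get (i.cast hlen.symm)) := by
    intro i j hij
    have := List.nodup_iff_injective_get.mp hnd hij
    simpa [Fin.ext_iff] using this
  refine ⟨Equiv.ofBijective _ (Finite.injective_iff_bijective.mp hinj), ?_⟩
  refine List.ext_get (by simp [hlen]) ?_
  intro i h1 h2
  simp

theorem ofFn_perm_finRange {m : ℕ} (π : Perm (Fin m)) :
    (List.ofFn π).Perm (List.finRange m) := by
  rw [List.perm_ext_iff_of_nodup (List.nodup_ofFn.mpr π.injective) (List.nodup_finRange m)]
  intro a
  simp only [List.mem_ofFn, List.mem_finRange, iff_true]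
  exact π.surjective a

/-- The straightening. -/
theorem span_good {N m : ℕ} (z : Perm (Fin (N + 1)) → k) (hz : z 1 ≠ 0) (S : Set U)
    (hS : ∀ a ∈ S, ∀ b ∈ S, a * b ∈ S)
    (hid : ∀ y : Fin (N + 1) → U, (∀ i, y i ∈ S) →
      ∑ τ : Perm (Fin (N + 1)), z τ • (List.ofFn fun i => y (τ i)).prod = 0)
    (r : Fin m → U) (hr : ∀ i, r i ∈ S) (π : Perm (Fin m)) :
    pmon r π ∈ Submodule.span k (pmon r '' {π | Pool.Agent.Q20.PI.Good (N + 1) π}) := by
  have hwf : WellFounded (fun π π' : Perm (Fin m) => List.ofFn π < List.ofFn π') :=
    haveI : IsTrans (Perm (Fin m)) (fun π π' => List.ofFn π < List.ofFn π') :=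
      ⟨fun _ _ _ h1 h2 => lt_trans h1 h2⟩
    haveI : Std.Irrefl (fun π π' : Perm (Fin m) => List.ofFn π < List.ofFn π') :=
      ⟨fun _ h => lt_irrefl _ h⟩
    Finite.wellFounded_of_trans_of_irrefl _
  induction π using hwf.induction with
  | _ π ih =>
    by_cases hg : Pool.Agent.Q20.PI.Good (N + 1) π
    · exact Submodule.subset_span ⟨π, hg, rfl⟩
    · simp only [Pool.Agent.Q20.PI.Good] at hg
      push Not at hg
      obtain ⟨e, he, he'⟩ := hg
      have hsub : (List.ofFn fun a => π (e a)).Sublist (List.ofFn π) := by
        rw [List.sublist_iff_exists_fin_orderEmbedding_get_eq]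
        have hl1 : (List.ofFn fun a => π (e a)).length = N + 1 := List.length_ofFn
        have hl2 : (List.ofFn π).length = m := List.length_ofFn
        refine ⟨OrderEmbedding.ofStrictMono (fun i => (e (i.cast hl1)).cast hl2.symm) ?_, ?_⟩
        · intro i j hij
          exact he hij
        · intro i
          simp [-List.ofFn_succ]
          rfl
      obtain ⟨A, B, hAB, hB⟩ := sublist_blocks hsub
      have hpw : (List.ofFn fun a => π (e a)).Pairwise (· > ·) := by
        rw [List.pairwise_ofFn]
        intro i j hij
        exact he' hij
      have hBl : B.length = N + 1 := by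
        have := congrArg List.length hB
        simpa using this
      let y : Fin (N + 1) → U := fun i => mon r (B.get (i.cast hBl.symm))
      have hne : ∀ b ∈ B, b ≠ [] := by
        intro b hb h
        subst h
        have h1 : (none : Option (Fin m)) ∈ B.map List.head? := by
          have := List.mem_map_of_mem (f := List.head?) hb
          simpa using this
        rw [hB, List.mem_map] at h1
        obtain ⟨_, _, h2⟩ := h1
        exact absurd h2 (by simp)
      have hy : ∀ i, y i ∈ S := fun i =>
        mon_mem r S hS hr _ (hne _ (List.get_mem _ _))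
      have key := hid y hy
      let Bτ : Perm (Fin (N + 1)) → List (List (Fin m)) := fun τ =>
        List.ofFn fun i => B.get ((τ i).cast hBl.symm)
      have hBτ : ∀ τ, (Bτ τ).Perm B := by
        intro τ
        have h1 : B = List.ofFn fun i : Fin (N + 1) => B.get (i.cast hBl.symm) := by
          refine List.ext_get (by simp [hBl]) ?_
          intro i h1 h2
          simp [-List.ofFn_succ]
        conv_rhs => rw [h1]
        exact (Equiv.Perm.ofFn_comp_perm τ fun i : Fin (N + 1) => B.get (i.cast hBl.symm))
      have hB1 : Bτ 1 = B := by
        refine List.ext_get (by simp [Bτ, hBl]) ?_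
        intro i h1 h2
        simp [Bτ, -List.ofFn_succ]
        rfl
      have hBinj : ∀ τ, τ ≠ 1 → Bτ τ ≠ B := by
        intro τ hτ h
        apply hτ
        ext i
        have h1 : (Bτ τ).map List.head? = B.map List.head? := by rw [h]
        rw [hB] at h1
        have h2 : (Bτ τ).map List.head? = List.ofFn fun i => some (π (e (τ i))) := by
          simp only [Bτ, List.map_ofFn]
          congr 1
          funext i
          have h3 : (B.map List.head?)[((τ i).cast hBl.symm : Fin B.length).1]'(by
              rw [List.length_map]; exact ((τ i).cast hBl.symm).2) = some (π (e (τ i))) := by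
            have h4 : (B.map List.head?) = List.ofFn fun a => some (π (e a)) := by
              rw [hB, List.map_ofFn]
              rfl
            simp [h4, -List.ofFn_succ]
          rw [List.getElem_map] at h3
          exact h3
        rw [h2, List.map_ofFn] at h1
        have h5 := List.ofFn_injective h1
        have h6 := congrFun h5 i
        simp only [Function.comp_apply, Option.some.injEq] at h6
        have h7 := he.injective (π.injective h6)
        rw [h7]
        rfl
      have hmon : ∀ τ, mon r A * (List.ofFn fun i => y (τ i)).prod =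
          mon r (A ++ (Bτ τ).flatten) := by
        intro τ
        rw [mon_append, mon_flatten, List.map_ofFn]
        rfl
      have h1 : ∑ τ : Perm (Fin (N + 1)), z τ • mon r (A ++ (Bτ τ).flatten) = 0 := by
        have h2 := congrArg (fun u => mon r A * u) key
        simp only [Finset.mul_sum, mul_smul_comm, hmon, mul_zero] at h2
        exact h2
      rw [← Finset.add_sum_erase _ _ (Finset.mem_univ (1 : Perm (Fin (N + 1))))] at h1
      rw [hB1, ← hAB] at h1
      have h3 : pmon r π = -(z 1)⁻¹ • ∑ τ ∈ Finset.univ.erase (1 : Perm (Fin (N + 1))),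
          z τ • mon r (A ++ (Bτ τ).flatten) := by
        have h4 := eq_neg_of_add_eq_zero_left h1
        calc pmon r π = (z 1)⁻¹ • (z 1 • mon r (List.ofFn π)) := by
              rw [smul_smul, inv_mul_cancel₀ hz, one_smul]
              rfl
          _ = _ := by rw [h4, smul_neg, neg_smul]
      rw [h3]
      refine Submodule.smul_mem _ _ (Submodule.sum_mem _ fun τ hτ => Submodule.smul_mem _ _ ?_)
      have hτ1 : τ ≠ 1 := Finset.ne_of_mem_erase hτ
      have hperm : (A ++ (Bτ τ).flatten).Perm (List.finRange m) := by
        refine List.Perm.trans ?_ (ofFn_perm_finRange π)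
        rw [hAB]
        exact List.Perm.append_left A (hBτ τ).flatten
      obtain ⟨π', hπ'⟩ := exists_perm _ hperm
      rw [hπ']
      refine ih π' ?_
      rw [← hπ', hAB]
      exact lt_append_left A (flatten_lt hB hpw (Bτ τ) (hBτ τ) (hBinj τ hτ1))

/-- The dimension of the span. -/
theorem finrank_span {N m : ℕ} (z : Perm (Fin (N + 1)) → k) (hz : z 1 ≠ 0) (S : Set U)
    (hS : ∀ a ∈ S, ∀ b ∈ S, a * b ∈ S)
    (hid : ∀ y : Fin (N + 1) → U, (∀ i, y i ∈ S) →
      ∑ τ : Perm (Fin (N + 1)), z τ • (List.ofFn fun i => y (τ i)).prod = 0)
    (r : Fin m → U) (hr : ∀ i, r i ∈ S) :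
    Module.finrank k (Submodule.span k (Set.range (pmon r))) ≤ N ^ (2 * m) := by
  classical
  have h0 : Submodule.span k (Set.range (pmon r)) =
      Submodule.span k (pmon r '' {π | Pool.Agent.Q20.PI.Good (N + 1) π}) := by
    refine le_antisymm ?_ (Submodule.span_mono (Set.image_subset_range _ _))
    rw [Submodule.span_le]
    rintro _ ⟨π, rfl⟩
    exact span_good z hz S hS hid r hr π
  rw [h0]
  have h1 : (Set.toFinite (pmon r '' {π | Pool.Agent.Q20.PI.Good (N + 1) π})).toFinset.card ≤
      N ^ (2 * m) := by
    refine le_trans ?_ (Pool.Agent.Q20.PI.card_good N m)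
    rw [← Set.ncard_eq_toFinset_card _ (Set.toFinite _)]
    refine (Set.ncard_image_le (Set.toFinite _)).trans ?_
    rw [← Nat.card_coe_set_eq]
    rfl
  have h2 := finrank_span_finset_le_card (R := k)
    (Set.toFinite (pmon r '' {π | Pool.Agent.Q20.PI.Good (N + 1) π})).toFinset
  rw [Set.Finite.coe_toFinset] at h2
  exact h2.trans h1

end Pool.Agent.Q11.Kem
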