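import Mathlib

/-!
The rank of a group matrix over `F_p` and integral representations with an invariant vector
modulo `p`.
-/

namespace Pool.Agent.Q11.Kem

open Polynomial

theorem rootMultiplicity_pow' {f : ℂ[X]} (hf : f ≠ 0) (θ : ℂ) (m : ℕ) :
    (f ^ m).rootMultiplicity θ = m * f.rootMultiplicity θ := by
  induction m with
  | zero => simp
  | succ m ih =>
    rw [pow_succ, rootMultiplicity_mul (mul_ne_zero (pow_ne_zero _ hf) hf), ih]
    ring

/-- transfer of multiplicities -/
theorem pow_dvd_of_rootMultiplicity {χ g : ℤ[X]} (hχ : χ.Monic) (hg : g.Monic)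
    (hgi : Irreducible g) {θ : ℂ} (hθ : (g.map (Int.castRingHom ℂ)).IsRoot θ) {D : ℕ}
    (hD : D ≤ (χ.map (Int.castRingHom ℂ)).rootMultiplicity θ) : g ^ D ∣ χ := by
  have hgq : Irreducible (g.map (Int.castRingHom ℚ)) :=
    (IsPrimitive.Int.irreducible_iff_irreducible_map_cast hg.isPrimitive).mp hgi
  have hχq : (χ.map (Int.castRingHom ℚ)) ≠ 0 := (hχ.map _).ne_zero
  obtain ⟨m, q, hq, hχm⟩ := WfDvdMonoid.max_power_factor hχq hgq
  have hcomp : (algebraMap ℚ ℂ).comp (Int.castRingHom ℚ) = Int.castRingHom ℂ :=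
    RingHom.ext_int _ _
  have hmapg : (g.map (Int.castRingHom ℚ)).map (algebraMap ℚ ℂ) = g.map (Int.castRingHom ℂ) := by
    rw [Polynomial.map_map, hcomp]
  have hmapχ : (χ.map (Int.castRingHom ℚ)).map (algebraMap ℚ ℂ) =
      χ.map (Int.castRingHom ℂ) := by
    rw [Polynomial.map_map, hcomp]
  have hgC0 : g.map (Int.castRingHom ℂ) ≠ 0 := (hg.map _).ne_zero
  have hq0 : q ≠ 0 := by
    rintro rfl
    exact hq (dvd_zero _)
  have hqC0 : q.map (algebraMap ℚ ℂ) ≠ 0 := by
    rwa [Ne, Polynomial.map_eq_zero]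
  -- minimal polynomial
  have haev : aeval θ (g.map (Int.castRingHom ℚ)) = 0 := by
    rw [Polynomial.aeval_def, ← Polynomial.eval_map, hmapg]
    exact hθ
  have hmin : minpoly ℚ θ = g.map (Int.castRingHom ℚ) := by
    refine (minpoly.eq_of_irreducible_of_monic hgq haev (hg.map _)).symm
  have hqθ : ¬ (q.map (algebraMap ℚ ℂ)).IsRoot θ := by
    intro h
    apply hq
    rw [← hmin]
    refine minpoly.dvd ℚ θ ?_
    rw [Polynomial.aeval_def, ← Polynomial.eval_map]
    exact h
  have hrm : (g.map (Int.castRingHom ℂ)).rootMultiplicity θ ≤ 1 := by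
    have hsep : (g.map (Int.castRingHom ℂ)).Separable := by
      rw [← hmapg]
      exact hgq.separable.map
    exact rootMultiplicity_le_one_of_separable hsep θ
  have hmul : (χ.map (Int.castRingHom ℂ)).rootMultiplicity θ ≤ m := by
    rw [← hmapχ, hχm, Polynomial.map_mul, Polynomial.map_pow, hmapg,
      rootMultiplicity_mul (mul_ne_zero (pow_ne_zero _ hgC0) hqC0),
      rootMultiplicity_eq_zero hqθ, add_zero, rootMultiplicity_pow' hgC0]
    calc m * _ ≤ m * 1 := Nat.mul_le_mul_left _ hrm
      _ = m := mul_one m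
  have h1 : (g ^ D).map (Int.castRingHom ℚ) ∣ χ.map (Int.castRingHom ℚ) := by
    rw [Polynomial.map_pow, hχm]
    exact Dvd.dvd.mul_right (pow_dvd_pow _ (hD.trans hmul)) _
  exact (IsPrimitive.Int.dvd_iff_map_cast_dvd_map_cast _ _ (hg.pow D).isPrimitive).mpr h1

/-- the main rank estimate -/
theorem core {G : Type*} [Group G] [Fintype G] [DecidableEq G] {Y : Type*} [Fintype Y]
    [DecidableEq Y] (p : ℕ) [Fact p.Prime] (A : G →* Matrix Y Y ℤ) (v : Y → ZMod p) (hv : v ≠ 0)
    (hA : ∀ g, ((A g).map (Int.castRingHom (ZMod p))).mulVec v = v)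
    (hirr : ∀ w : Y → ℂ, w ≠ 0 → Submodule.span ℂ
      (Set.range fun g => ((A g).map (Int.castRingHom ℂ)).mulVec w) = ⊤)
    (φ : G → ZMod p) (hφ : ∑ g, φ g ≠ 0) :
    Fintype.card Y ≤ (Matrix.of fun x g : G => φ (x⁻¹ * g)).rank := by
  classical
  -- integral lift
  let φh : G → ℤ := fun g => ((φ g).val : ℤ)
  have hφh : ∀ g, ((φh g : ℤ) : ZMod p) = φ g := by
    intro g
    simp [φh]
  let R : Matrix G G ℤ := Matrix.of fun x g => φh (x⁻¹ * g)
  let As : Matrix Y Y ℤ := ∑ k, φh k • A k⁻¹
  set s : ZMod p := ∑ g, φ g with hs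
  -- eigenvalue modulo p
  have hAsp : (As.map (Int.castRingHom (ZMod p))).mulVec v = s • v := by
    have h1 : As.map (Int.castRingHom (ZMod p)) =
        ∑ k, φ k • (A k⁻¹).map (Int.castRingHom (ZMod p)) := by
      ext i j
      simp only [As, Matrix.map_apply, Matrix.sum_apply, Matrix.smul_apply, map_sum, smul_eq_mul,
        map_mul, eq_intCast, hφh]
    rw [h1, Matrix.sum_mulVec, hs, Finset.sum_smul]
    refine Finset.sum_congr rfl (fun k _ => ?_)
    rw [Matrix.smul_mulVec, hA]
  have hroot : ((As.charpoly).map (Int.castRingHom (ZMod p))).IsRoot s := by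
    rw [← Matrix.charpoly_map, ← Matrix.charpoly_mulVecLin,
      ← Module.End.hasEigenvalue_iff_isRoot_charpoly]
    exact Module.End.hasEigenvalue_of_hasEigenvector (x := v)
      ⟨Module.End.mem_eigenspace_iff.mpr hAsp, hv⟩
  -- an irreducible factor
  have hmonic : As.charpoly.Monic := Matrix.charpoly_monic _
  obtain ⟨g, hgm, hgi, hgd, hgs⟩ : ∃ g : ℤ[X], g.Monic ∧ Irreducible g ∧ g ∣ As.charpoly ∧
      (g.map (Int.castRingHom (ZMod p))).IsRoot s := by
    have main : ∀ f : ℤ[X], f ≠ 0 → f ∣ As.charpoly →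
        (f.map (Int.castRingHom (ZMod p))).IsRoot s → ∃ g : ℤ[X], Irreducible g ∧
        g ∣ As.charpoly ∧ (g.map (Int.castRingHom (ZMod p))).IsRoot s := by
      intro f
      induction f using UniqueFactorizationMonoid.induction_on_prime with
      | h₁ => intro h; exact absurd rfl h
      | h₂ x hx =>
        intro _ _ hr
        exfalso
        obtain ⟨r, hr', rfl⟩ := Polynomial.isUnit_iff.mp hx
        rw [Polynomial.map_C, Polynomial.IsRoot, Polynomial.eval_C] at hr
        have := (hr'.map (Int.castRingHom (ZMod p))).ne_zero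
        exact this hr
      | h₃ a q ha hq ih =>
        intro _ hd hr
        rw [Polynomial.map_mul, Polynomial.root_mul] at hr
        rcases hr with hr | hr
        · exact ⟨q, hq.irreducible, (dvd_mul_right _ _).trans hd, hr⟩
        · exact ih ha ((dvd_mul_left _ _).trans hd) hr
    obtain ⟨g, h1, h2, h3⟩ := main _ hmonic.ne_zero dvd_rfl hroot
    have hlc : IsUnit g.leadingCoeff := by
      obtain ⟨q, hq⟩ := h2
      have h4 : g.leadingCoeff * q.leadingCoeff = 1 := by
        rw [← leadingCoeff_mul, ← hq]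
        exact hmonic
      exact IsUnit.of_mul_eq_one _ h4
    rcases Int.isUnit_iff.mp hlc with h | h
    · exact ⟨g, h, h1, h2, h3⟩
    · refine ⟨-g, ?_, (Associated.irreducible_iff (Associated.neg_left (Associated.refl g))).mpr h1,
        (neg_dvd).mpr h2, ?_⟩
      · show (-g).leadingCoeff = 1
        rw [leadingCoeff_neg, h, neg_neg]
      · rw [Polynomial.map_neg, Polynomial.IsRoot, Polynomial.eval_neg, h3, neg_zero]
  -- a complex root
  have hdeg : (g.map (Int.castRingHom ℂ)).degree ≠ 0 := by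
    rw [hgm.degree_map]
    intro h0
    have h1 : g = 1 := (Monic.natDegree_eq_zero hgm).mp (natDegree_eq_of_degree_eq_some h0)
    exact hgi.not_isUnit (by rw [h1]; exact isUnit_one)
  obtain ⟨θ, hθ⟩ := IsAlgClosed.exists_root _ hdeg
  have hθA : (As.map (Int.castRingHom ℂ)).mulVecLin.charpoly.IsRoot θ := by
    rw [Matrix.charpoly_mulVecLin, Matrix.charpoly_map]
    exact hθ.dvd (Polynomial.map_dvd _ hgd)
  obtain ⟨w, hw⟩ := ((Module.End.hasEigenvalue_iff_isRoot_charpoly _ _).mpr
    hθA).exists_hasEigenvector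
  have hw1 : (As.map (Int.castRingHom ℂ)).mulVec w = θ • w := hw.apply_eq_smul
  have hw0 : w ≠ 0 := hw.2
  -- the intertwining operator
  let T : (G → ℂ) →ₗ[ℂ] (Y → ℂ) :=
    Fintype.linearCombination ℂ (fun g => ((A g).map (Int.castRingHom ℂ)).mulVec w)
  have hTs : LinearMap.range T = ⊤ := by
    rw [Fintype.range_linearCombination]
    exact hirr w hw0
  have hT : ∀ α : G → ℂ, T ((R.map (Int.castRingHom ℂ)).mulVec α) = θ • T α := by
    intro α
    have e1 : ∀ g : G, ∑ x, (φh (x⁻¹ * g) : ℂ) • ((A x).map (Int.castRingHom ℂ)).mulVec w =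
        θ • ((A g).map (Int.castRingHom ℂ)).mulVec w := by
      intro g
      rw [← Equiv.sum_comp ((Equiv.inv G).trans (Equiv.mulLeft g))]
      have h2 : ∀ k : G, (φh ((((Equiv.inv G).trans (Equiv.mulLeft g)) k)⁻¹ * g) : ℂ) •
          ((A (((Equiv.inv G).trans (Equiv.mulLeft g)) k)).map (Int.castRingHom ℂ)).mulVec w =
          ((A g).map (Int.castRingHom ℂ)).mulVec
            ((φh k : ℂ) • ((A k⁻¹).map (Int.castRingHom ℂ)).mulVec w) := by
        intro k
        have h3 : ((Equiv.inv G).trans (Equiv.mulLeft g)) k = g * k⁻¹ := rfl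
        have h4 : (g * k⁻¹)⁻¹ * g = k := by group
        rw [h3, h4, map_mul, Matrix.map_mul, ← Matrix.mulVec_mulVec, Matrix.mulVec_smul]
      rw [Finset.sum_congr rfl (fun k _ => h2 k), ← Matrix.mulVec_sum, ← Matrix.mulVec_smul,
        ← hw1]
      congr 1
      have h5 : As.map (Int.castRingHom ℂ) =
          ∑ k, (φh k : ℂ) • (A k⁻¹).map (Int.castRingHom ℂ) := by
        ext i j
        simp only [As, Matrix.map_apply, Matrix.sum_apply, Matrix.smul_apply, map_sum,
          smul_eq_mul, map_mul, eq_intCast]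
      rw [h5, Matrix.sum_mulVec]
      refine Finset.sum_congr rfl (fun k _ => ?_)
      rw [Matrix.smul_mulVec]
    simp only [T, Fintype.linearCombination_apply]
    have e2 : ∀ x : G, (R.map (Int.castRingHom ℂ)).mulVec α x =
        ∑ g, α g * (φh (x⁻¹ * g) : ℂ) := by
      intro x
      simp only [Matrix.mulVec, dotProduct, Matrix.map_apply, R, Matrix.of_apply, eq_intCast]
      exact Finset.sum_congr rfl (fun g _ => mul_comm _ _)
    simp only [e2, Finset.sum_smul]
    rw [Finset.sum_comm, Finset.smul_sum]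
    refine Finset.sum_congr rfl (fun g _ => ?_)
    rw [smul_comm, ← e1 g, Finset.smul_sum]
    refine Finset.sum_congr rfl (fun x _ => ?_)
    rw [mul_smul]
  -- multiplicity of θ
  have hmult : Fintype.card Y ≤ ((R.charpoly).map (Int.castRingHom ℂ)).rootMultiplicity θ := by
    rw [← Matrix.charpoly_map, ← Matrix.charpoly_mulVecLin]
    refine le_trans ?_ (LinearMap.finrank_eigenspace_le _ θ)
    set Φ := (R.map (Int.castRingHom ℂ)).mulVecLin with hΦ
    have h1 : LinearMap.range (Φ - θ • (1 : Module.End ℂ (G → ℂ))) ≤ LinearMap.ker T := by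
      rintro _ ⟨α, rfl⟩
      rw [LinearMap.mem_ker, LinearMap.sub_apply, map_sub, LinearMap.smul_apply, map_smul]
      rw [hΦ, Matrix.mulVecLin_apply, hT]
      simp
    have h2 := LinearMap.finrank_range_add_finrank_ker T
    rw [hTs, finrank_top, Module.finrank_fintype_fun_eq_card] at h2
    have h3 := LinearMap.finrank_range_add_finrank_ker (Φ - θ • (1 : Module.End ℂ (G → ℂ)))
    have h4 := Submodule.finrank_mono h1
    rw [Module.End.eigenspace_def]
    omega
  have hRm : R.charpoly.Monic := Matrix.charpoly_monic _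
  have hpow := pow_dvd_of_rootMultiplicity hRm hgm hgi hθ hmult
  -- modulo p
  have hpow2 : (X - C s) ^ Fintype.card Y ∣ (R.charpoly).map (Int.castRingHom (ZMod p)) := by
    refine dvd_trans ?_ (Polynomial.map_dvd (Int.castRingHom (ZMod p)) hpow)
    rw [Polynomial.map_pow]
    exact pow_dvd_pow_of_dvd (dvd_iff_isRoot.mpr hgs) _
  have hRp : R.map (Int.castRingHom (ZMod p)) = Matrix.of fun x g : G => φ (x⁻¹ * g) := by
    ext x g
    simp only [R, Matrix.map_apply, Matrix.of_apply, eq_intCast, hφh]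
  set Rp : Matrix G G (ZMod p) := Matrix.of fun x g : G => φ (x⁻¹ * g) with hRpdef
  have hX : X ^ (Fintype.card G - Rp.rank) ∣ (R.charpoly).map (Int.castRingHom (ZMod p)) := by
    rw [← Matrix.charpoly_map, hRp, ← Matrix.charpoly_mulVecLin]
    have h1 := LinearMap.finrank_eigenspace_le Rp.mulVecLin 0
    rw [Module.End.eigenspace_zero] at h1
    have h2 := LinearMap.finrank_range_add_finrank_ker Rp.mulVecLin
    rw [Module.finrank_fintype_fun_eq_card] at h2
    have h3 : Rp.rank = Module.finrank (ZMod p) (LinearMap.range Rp.mulVecLin) := rfl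
    have h4 : Fintype.card G - Rp.rank ≤ (Rp.mulVecLin.charpoly).rootMultiplicity 0 := by
      omega
    have h5 := pow_rootMultiplicity_dvd (Rp.mulVecLin.charpoly) 0
    rw [C_0, sub_zero] at h5
    exact (pow_dvd_pow _ h4).trans h5
  have hcop : IsCoprime ((X - C s) ^ Fintype.card Y) ((X : (ZMod p)[X]) ^
      (Fintype.card G - Rp.rank)) := by
    refine IsCoprime.pow ?_
    have : IsCoprime (X - C s) (X - C (0 : ZMod p)) :=
      isCoprime_X_sub_C_of_isUnit_sub (by rw [sub_zero]; exact isUnit_iff_ne_zero.mpr hφ)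
    rwa [C_0, sub_zero] at this
  have hprod := hcop.mul_dvd hpow2 hX
  have hdeg2 := natDegree_le_of_dvd hprod (hRm.map _).ne_zero
  have hm1 : ((X - C s) ^ Fintype.card Y).Monic := (monic_X_sub_C s).pow _
  have hm2 : ((X : (ZMod p)[X]) ^ (Fintype.card G - Rp.rank)).Monic := monic_X_pow _
  rw [hm1.natDegree_mul hm2, natDegree_pow, natDegree_X_sub_C, natDegree_X_pow,
    hRm.natDegree_map, Matrix.charpoly_natDegree_eq_dim] at hdeg2
  have hrank : Rp.rank ≤ Fintype.card G := Matrix.rank_le_card_width Rp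
  omega

end Pool.Agent.Q11.Kem
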