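import Mathlib

/-!
Words with `w` letters of each kind, lattice words, and the relations between them.
-/

namespace Pool.Agent.Q11.Kem

open Finset

variable {n h : ℕ}

/-- balanced words: each letter occurs `w` times -/
def Bal (w : ℕ) (c : Fin n → Fin h) : Prop :=
  ∀ i, (univ.filter fun t => c t = i).card = w

instance (w : ℕ) (c : Fin n → Fin h) : Decidable (Bal w c) := by
  unfold Bal
  infer_instance

/-- number of letters `i` before position `m` -/
def pre (c : Fin n → Fin h) (i : Fin h) (m : ℕ) : ℕ :=
  (univ.filter fun t : Fin n => t.val < m ∧ c t = i).card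

/-- lattice words -/
def Yam (w : ℕ) (c : Fin n → Fin h) : Prop :=
  Bal w c ∧ ∀ (i i' : Fin h), i'.val = i.val + 1 → ∀ m : ℕ, pre c i' m ≤ pre c i m

/-- change the letters at the positions in `A` to `i` -/
def upd (c : Fin n → Fin h) (A : Finset (Fin n)) (i : Fin h) : Fin n → Fin h :=
  fun t => if t ∈ A then i else c t

/-- the space of functions satisfying the relations -/
structure UU (w : ℕ) {F : Type*} [CommRing F] (u : (Fin n → Fin h) → F) : Prop where
  r1 : ∀ c, ¬ Bal w c → u c = 0
  r2 : ∀ (i i' : Fin h), i'.val = i.val + 1 → ∀ (c : Fin n → Fin h) (k : ℕ), 0 < k →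
    ∑ A ∈ (univ.filter fun t => c t = i).powersetCard k, u (upd c A i') = 0

/-- the key of a word (compare at the last position where they differ) -/
def key (c : Fin n → Fin h) : Lex (Fin n → Fin h) := toLex fun t => c (Fin.rev t)

theorem key_lt {c c' : Fin n → Fin h} (t : Fin n) (h1 : ∀ t', t < t' → c t' = c' t')
    (h2 : c t < c' t) : key c < key c' := by
  refine ⟨Fin.rev t, ?_, ?_⟩
  · intro j hj
    refine h1 _ ?_
    have := Fin.rev_lt_rev.mpr hj
    simpa using this
  · simpa [key] using h2

theorem key_inj : Function.Injective (key (n := n) (h := h)) := by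
  intro c c' hcc
  funext t
  have := congrFun (toLex.injective hcc) (Fin.rev t)
  simpa using this

/-- the inclusion-exclusion relation -/
theorem garnir {w : ℕ} {F : Type*} [CommRing F] {u : (Fin n → Fin h) → F} (hu : UU w u)
    {i i' : Fin h} (hi : i'.val = i.val + 1) (c : Fin n → Fin h) (B : Finset (Fin n))
    (hB : ∀ t ∈ B, c t = i) :
    (-1) ^ B.card * u (upd c B i') =
      ∑ Y ∈ (((univ.filter fun t => c t = i).powersetCard B.card).filter fun Y => B ∩ Y = ∅),
        u (upd c Y i') := by
  set Z : Finset (Fin n) := univ.filter fun t => c t = i with hZ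
  have hBZ : B ⊆ Z := fun t ht => by simp [hZ, hB t ht]
  have hne : i' ≠ i := by
    intro h0
    rw [h0] at hi
    omega
  -- the relation for `B₀ ⊂ B`
  have hR : ∀ B0 ∈ B.powerset, B0 ≠ B →
      ∑ Y ∈ (Z.powersetCard B.card).filter (fun Y => B0 ⊆ Y), u (upd c Y i') = 0 := by
    intro B0 hB0 hne0
    have hB0' := Finset.mem_powerset.mp hB0
    have hlt : B0.card < B.card := Finset.card_lt_card (Finset.ssubset_iff_subset_ne.mpr
      ⟨hB0', hne0⟩)
    have h1 := hu.r2 i i' hi (upd c B0 i') (B.card - B0.card) (by omega)
    have hfil : (univ.filter fun t => upd c B0 i' t = i) = Z \ B0 := by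
      ext t
      rw [hZ, mem_sdiff, mem_filter, mem_filter]
      unfold upd
      by_cases ht : t ∈ B0
      · simp [ht, hne]
      · simp [ht]
    rw [hfil] at h1
    rw [← h1]
    refine Finset.sum_bij' (fun Y _ => Y \ B0) (fun A _ => B0 ∪ A) ?_ ?_ ?_ ?_ ?_
    · intro Y hY
      rw [mem_filter, mem_powersetCard] at hY
      rw [mem_powersetCard]
      refine ⟨Finset.sdiff_subset_sdiff hY.1.1 (Finset.Subset.refl _), ?_⟩
      rw [Finset.card_sdiff_of_subset hY.2, hY.1.2]
    · intro A hA
      rw [mem_powersetCard] at hA
      rw [mem_filter, mem_powersetCard]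
      have hdis : Disjoint B0 A := by
        rw [Finset.disjoint_left]
        intro t ht ht'
        exact (Finset.mem_sdiff.mp (hA.1 ht')).2 ht
      refine ⟨⟨Finset.union_subset (hB0'.trans hBZ) (hA.1.trans Finset.sdiff_subset), ?_⟩,
        Finset.subset_union_left⟩
      rw [Finset.card_union_of_disjoint hdis, hA.2]
      omega
    · intro Y hY
      rw [mem_filter] at hY
      exact Finset.union_sdiff_of_subset hY.2
    · intro A hA
      rw [mem_powersetCard] at hA
      ext t
      simp only [mem_sdiff, mem_union]
      constructor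
      · rintro ⟨h1 | h1, h2⟩
        · exact absurd h1 h2
        · exact h1
      · intro h1
        exact ⟨Or.inr h1, (Finset.mem_sdiff.mp (hA.1 h1)).2⟩
    · intro Y hY
      rw [mem_filter] at hY
      congr 1
      funext t
      simp only [upd, mem_sdiff]
      by_cases h1 : t ∈ Y
      · by_cases h2 : t ∈ B0 <;> simp [h1, h2]
      · have h2 : t ∉ B0 := fun h3 => h1 (hY.2 h3)
        simp [h1, h2]
  -- sum over B₀
  have hS1 : ∑ B0 ∈ B.powerset, (-1 : F) ^ B0.card *
      ∑ Y ∈ (Z.powersetCard B.card).filter (fun Y => B0 ⊆ Y), u (upd c Y i') =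
      (-1) ^ B.card * u (upd c B i') := by
    rw [Finset.sum_eq_single B]
    · congr 1
      have : (Z.powersetCard B.card).filter (fun Y => B ⊆ Y) = {B} := by
        ext Y
        rw [mem_filter, mem_powersetCard, mem_singleton]
        constructor
        · rintro ⟨⟨h1, h2⟩, h3⟩
          exact (Finset.eq_of_subset_of_card_le h3 h2.le).symm
        · rintro rfl
          exact ⟨⟨hBZ, rfl⟩, Finset.Subset.refl _⟩
      rw [this, Finset.sum_singleton]
    · intro B0 hB0 hne0
      rw [hR B0 hB0 hne0, mul_zero]
    · intro h1
      exact absurd (Finset.mem_powerset_self B) h1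
  rw [← hS1]
  simp only [Finset.mul_sum, Finset.sum_filter]
  rw [Finset.sum_comm]
  refine Finset.sum_congr rfl (fun Y _ => ?_)
  have h1' : ∑ B0 ∈ B.powerset, (-1 : F) ^ B0.card * (if B0 ⊆ Y then u (upd c Y i') else 0) =
      ∑ B0 ∈ B.powerset, (if B0 ⊆ Y then (-1 : F) ^ B0.card else 0) * u (upd c Y i') := by
    refine Finset.sum_congr rfl (fun B0 _ => ?_)
    split_ifs <;> simp
  rw [h1', ← Finset.sum_mul, ← Finset.sum_filter]
  have h2 : B.powerset.filter (fun B0 => B0 ⊆ Y) = (B ∩ Y).powerset := by
    ext B0
    rw [mem_filter, mem_powerset, mem_powerset, Finset.subset_inter_iff]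
  rw [h2]
  have h3 : ∑ m ∈ (B ∩ Y).powerset, (-1 : F) ^ m.card = if B ∩ Y = ∅ then 1 else 0 := by
    have := Finset.sum_powerset_neg_one_pow_card (x := B ∩ Y)
    have h4 := congrArg (Int.cast : ℤ → F) this
    push_cast at h4
    exact h4
  rw [h3]
  split_ifs <;> simp

/-- functions satisfying the relations are determined by their values on lattice words -/
theorem UU.eq_zero {w : ℕ} {F : Type*} [CommRing F] {u : (Fin n → Fin h) → F} (hu : UU w u)
    (hy : ∀ c, Yam w c → u c = 0) (c : Fin n → Fin h) : u c = 0 := by
  have main : ∀ K : Lex (Fin n → Fin h), ∀ c, key c = K → u c = 0 := by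
    intro K
    induction K using WellFoundedGT.induction with
    | ind K ih =>
      intro c hc
      by_cases hbal : Bal w c
      swap
      · exact hu.r1 c hbal
      by_cases hyam : ∀ (i i' : Fin h), i'.val = i.val + 1 → ∀ m : ℕ, pre c i' m ≤ pre c i m
      · exact hy c ⟨hbal, hyam⟩
      push Not at hyam
      obtain ⟨i, i', hii, m, hm⟩ := hyam
      have hne : i' ≠ i := by
        intro h0
        rw [h0] at hii
        omega
      set B : Finset (Fin n) := univ.filter fun t : Fin n => t.val < m ∧ c t = i' with hB
      set c0 := upd c B i with hc0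
      have hBi : ∀ t ∈ B, c0 t = i := by
        intro t ht
        simp [hc0, upd, ht]
      have hcB : upd c0 B i' = c := by
        funext t
        by_cases ht : t ∈ B
        · have : c t = i' := (Finset.mem_filter.mp ht).2.2
          simp [upd, ht, this]
        · simp [hc0, upd, ht]
      have hg := garnir hu hii c0 B hBi
      rw [hcB] at hg
      have hsum : ∑ Y ∈ (((univ.filter fun t => c0 t = i).powersetCard B.card).filter
          fun Y => B ∩ Y = ∅), u (upd c0 Y i') = 0 := by
        refine Finset.sum_eq_zero (fun Y hY => ?_)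
        rw [mem_filter, mem_powersetCard] at hY
        obtain ⟨⟨hYsub, hYcard⟩, hYdis⟩ := hY
        have hYB : ∀ t ∈ Y, t ∉ B := by
          intro t ht ht'
          have : t ∈ B ∩ Y := Finset.mem_inter.mpr ⟨ht', ht⟩
          rw [hYdis] at this
          simp at this
        have hYc : ∀ t ∈ Y, c t = i := by
          intro t ht
          have h1 := (Finset.mem_filter.mp (hYsub ht)).2
          simpa [hc0, upd, hYB t ht] using h1
        -- an element of `Y` beyond `m`
        obtain ⟨t0, ht0, ht0m⟩ : ∃ t ∈ Y, m ≤ t.val := by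
          by_contra hcon
          push Not at hcon
          have h1 : Y ⊆ univ.filter fun t : Fin n => t.val < m ∧ c t = i := by
            intro t ht
            simp [hcon t ht, hYc t ht]
          have h2 := Finset.card_le_card h1
          rw [hYcard] at h2
          exact absurd h2 (not_le.mpr hm)
        have hYne : Y.Nonempty := ⟨t0, ht0⟩
        refine ih (key (upd c0 Y i')) ?_ _ rfl
        rw [← hc]
        refine key_lt (Y.max' hYne) ?_ ?_
        · intro t' ht'
          have h1 : t' ∉ Y := fun h2 => absurd (Finset.le_max' Y t' h2) (not_le.mpr ht')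
          have h2 : t' ∉ B := by
            intro h3
            have h4 := (Finset.mem_filter.mp h3).2.1
            have h5 : t0 ≤ Y.max' hYne := Finset.le_max' Y t0 ht0
            have h6 : (t0 : ℕ) ≤ (Y.max' hYne : ℕ) := h5
            have h7 : ((Y.max' hYne : Fin n) : ℕ) < t' := ht'
            omega
          simp [hc0, upd, h1, h2]
        · have h1 := Finset.max'_mem Y hYne
          rw [hYc _ h1]
          simp only [upd, h1, if_true]
          exact Fin.lt_def.mpr (by omega)
      rw [hsum] at hg
      have hunit : IsUnit ((-1 : F) ^ B.card) := (isUnit_one.neg).pow _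
      exact (hunit.mul_right_eq_zero).mp hg
  exact main (key c) c rfl

end Pool.Agent.Q11.Kem
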