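import Pool.Agent.Q11.KemC

/-!
Polytabloids.
-/

namespace Pool.Agent.Q11.Kem

open Finset

variable {n h : ℕ}

/-- the polytabloid of a bijection `T` from the boxes to the positions -/
def et (F : Type*) [CommRing F] {w : ℕ} (T : Fin w × Fin h ≃ Fin n) (c : Fin n → Fin h) : F :=
  ∏ j : Fin w, (Matrix.of fun i i' : Fin h => if c (T (j, i)) = i' then (1 : F) else 0).det

theorem et_map {F F' : Type*} [CommRing F] [CommRing F'] (f : F →+* F') {w : ℕ}
    (T : Fin w × Fin h ≃ Fin n) (c : Fin n → Fin h) : f (et F T c) = et F' T c := by
  unfold et
  rw [map_prod]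
  refine Finset.prod_congr rfl (fun j _ => ?_)
  rw [RingHom.map_det]
  congr 1
  ext i i'
  simp only [RingHom.mapMatrix_apply, Matrix.map_apply, Matrix.of_apply]
  split_ifs <;> simp

theorem et_col {F : Type*} [CommRing F] {w : ℕ} (T : Fin w × Fin h ≃ Fin n) (c : Fin n → Fin h)
    (hc : et F T c ≠ 0) (j : Fin w) : Function.Injective fun i => c (T (j, i)) := by
  intro i1 i2 h12
  by_contra hne
  apply hc
  unfold et
  refine Finset.prod_eq_zero (Finset.mem_univ j) ?_
  refine Matrix.det_zero_of_row_eq hne ?_
  funext i'
  simp only [Matrix.of_apply]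
  simp only at h12
  rw [h12]

theorem bal_of_col {w : ℕ} (T : Fin w × Fin h ≃ Fin n) (c : Fin n → Fin h)
    (hc : ∀ j, Function.Injective fun i => c (T (j, i))) : Bal w c := by
  intro i'
  have h1 : ∀ j : Fin w, (univ.filter fun i : Fin h => c (T (j, i)) = i').card = 1 := by
    intro j
    obtain ⟨i, hi⟩ := (Finite.injective_iff_surjective.mp (hc j)) i'
    rw [Finset.card_eq_one]
    refine ⟨i, ?_⟩
    ext i2
    simp only [mem_filter, mem_univ, true_and, mem_singleton]
    constructor
    · intro h2
      exact hc j (h2.trans hi.symm)
    · rintro rfl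
      exact hi
  rw [Finset.card_filter]
  rw [← Equiv.sum_comp T, Fintype.sum_prod_type]
  have h2 : ∀ j : Fin w, ∑ i : Fin h, (if c (T (j, i)) = i' then 1 else 0) = 1 := by
    intro j
    rw [← Finset.card_filter]
    exact h1 j
  rw [Finset.sum_congr rfl (fun j _ => h2 j)]
  simp

/-- the multilinear function whose values on basis vectors are the values of `et` -/
noncomputable def psi {F : Type*} [CommRing F] {w : ℕ} (T : Fin w × Fin h ≃ Fin n) :
    MultilinearMap F (fun _ : Fin n => (Fin h → F)) F where
  toFun v := ∏ j : Fin w, (Matrix.of fun i : Fin h => v (T (j, i))).det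
  map_update_add' := by
    intro _ v t x y
    have hd : ∀ z : Fin h → F, ∀ j : Fin w, j ≠ (T.symm t).1 →
        (Matrix.of fun i : Fin h => (Function.update v t z) (T (j, i))) =
          Matrix.of fun i : Fin h => v (T (j, i)) := by
      intro z j hj
      ext i i'
      simp only [Matrix.of_apply]
      rw [Function.update_of_ne]
      rintro rfl
      exact hj (by simp)
    have he : ∀ z : Fin h → F,
        (Matrix.of fun i : Fin h => (Function.update v t z) (T ((T.symm t).1, i))) =
          (Matrix.of fun i : Fin h => v (T ((T.symm t).1, i))).updateRow (T.symm t).2 z := by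
      intro z
      ext i i'
      by_cases hi : i = (T.symm t).2
      · subst hi
        simp
      · rw [Matrix.updateRow_ne hi]
        simp only [Matrix.of_apply]
        rw [Function.update_of_ne]
        intro h1
        apply hi
        rw [← h1]
        simp
    have key : ∀ z : Fin h → F,
        ∏ j : Fin w, (Matrix.of fun i : Fin h => (Function.update v t z) (T (j, i))).det =
        ((Matrix.of fun i : Fin h => v (T ((T.symm t).1, i))).updateRow (T.symm t).2 z).det *
        ∏ j ∈ Finset.univ.erase (T.symm t).1, (Matrix.of fun i : Fin h => v (T (j, i))).det := by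
      intro z
      rw [← Finset.mul_prod_erase _ _ (Finset.mem_univ (T.symm t).1), he]
      congr 1
      refine Finset.prod_congr rfl (fun j hj => ?_)
      rw [hd z j (Finset.ne_of_mem_erase hj)]
    have i0 : ∀ (inst : DecidableEq (Fin n)) (z : Fin h → F),
        (@Function.update _ _ inst v t z) = Function.update v t z := by
      intro inst z
      rw [Subsingleton.elim inst (instDecidableEqFin n)]
    rw [i0, i0, i0, key, key, key, Matrix.det_updateRow_add, add_mul]
  map_update_smul' := by
    intro _ v t a x
    have hd : ∀ z : Fin h → F, ∀ j : Fin w, j ≠ (T.symm t).1 →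
        (Matrix.of fun i : Fin h => (Function.update v t z) (T (j, i))) =
          Matrix.of fun i : Fin h => v (T (j, i)) := by
      intro z j hj
      ext i i'
      simp only [Matrix.of_apply]
      rw [Function.update_of_ne]
      rintro rfl
      exact hj (by simp)
    have he : ∀ z : Fin h → F,
        (Matrix.of fun i : Fin h => (Function.update v t z) (T ((T.symm t).1, i))) =
          (Matrix.of fun i : Fin h => v (T ((T.symm t).1, i))).updateRow (T.symm t).2 z := by
      intro z
      ext i i'
      by_cases hi : i = (T.symm t).2
      · subst hi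
        simp
      · rw [Matrix.updateRow_ne hi]
        simp only [Matrix.of_apply]
        rw [Function.update_of_ne]
        intro h1
        apply hi
        rw [← h1]
        simp
    have key : ∀ z : Fin h → F,
        ∏ j : Fin w, (Matrix.of fun i : Fin h => (Function.update v t z) (T (j, i))).det =
        ((Matrix.of fun i : Fin h => v (T ((T.symm t).1, i))).updateRow (T.symm t).2 z).det *
        ∏ j ∈ Finset.univ.erase (T.symm t).1, (Matrix.of fun i : Fin h => v (T (j, i))).det := by
      intro z
      rw [← Finset.mul_prod_erase _ _ (Finset.mem_univ (T.symm t).1), he]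
      congr 1
      refine Finset.prod_congr rfl (fun j hj => ?_)
      rw [hd z j (Finset.ne_of_mem_erase hj)]
    have i0 : ∀ (inst : DecidableEq (Fin n)) (z : Fin h → F),
        (@Function.update _ _ inst v t z) = Function.update v t z := by
      intro inst z
      rw [Subsingleton.elim inst (instDecidableEqFin n)]
    rw [i0, i0, key, key, Matrix.det_updateRow_smul, smul_eq_mul, mul_assoc]

theorem psi_basis {F : Type*} [CommRing F] {w : ℕ} (T : Fin w × Fin h ≃ Fin n)
    (c : Fin n → Fin h) :
    psi T (fun t => (fun i' => if c t = i' then (1 : F) else 0)) = et F T c := rfl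

theorem row_single {P : Type*} [CommRing P] (i i' : Fin h) (x : P) (f : Fin h → Fin h)
    (l l' : Fin h) : ((Matrix.of fun l l' : Fin h => if f l = l' then (1 : P) else 0 :
          Matrix (Fin h) (Fin h) P) * (Matrix.single i i' x : Matrix (Fin h) (Fin h) P)) l l' =
      if f l = i then (if i' = l' then x else 0) else 0 := by
  rw [Matrix.mul_apply, Finset.sum_eq_single (f l)]
  · rw [Matrix.of_apply, if_pos rfl, one_mul, Matrix.single_apply]
    by_cases h1 : f l = i
    · simp [h1]
    · have h2 : i ≠ f l := fun h0 => h1 h0.symm
      simp [h1, h2]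
  · intro k _ hk
    rw [Matrix.of_apply, if_neg (fun h0 => hk h0.symm), zero_mul]
  · intro h0
    exact absurd (Finset.mem_univ _) h0

theorem et_r2 {F : Type*} [CommRing F] {w : ℕ} (T : Fin w × Fin h ≃ Fin n)
    (i i' : Fin h) (hne : i ≠ i') (c : Fin n → Fin h) (k : ℕ) (hk : 0 < k) :
    ∑ A ∈ (univ.filter fun t => c t = i).powersetCard k, et F T (upd c A i') = 0 := by
  classical
  let a : Fin n → (Fin h → Polynomial F) := fun t => fun l => if c t = l then 1 else 0
  let b : Fin n → (Fin h → Polynomial F) := fun t => fun l =>
    if c t = i then (if i' = l then Polynomial.X else 0) else 0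
  -- first evaluation
  have h1 : psi T (a + b) = Polynomial.C (et F T c) := by
    have h2 : ∀ j : Fin w, (Matrix.of fun l : Fin h => (a + b) (T (j, l))) =
        (Matrix.of fun l l' : Fin h => if c (T (j, l)) = l' then (1 : Polynomial F) else 0) *
          Matrix.transvection i i' Polynomial.X := by
      intro j
      ext1 l l'
      rw [Matrix.transvection, Matrix.mul_add, Matrix.mul_one, Matrix.add_apply]
      have h3 : ((Matrix.of fun l l' : Fin h => if c (T (j, l)) = l' then (1 : Polynomial F) else 0 :
          Matrix (Fin h) (Fin h) (Polynomial F)) *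
          (Matrix.single i i' (Polynomial.X : Polynomial F) : Matrix (Fin h) (Fin h) (Polynomial F))) l l' =
          b (T (j, l)) l' := row_single i i' _ (fun l => c (T (j, l))) l l'
      rw [h3]
      rfl
    show ∏ j : Fin w, (Matrix.of fun l : Fin h => (a + b) (T (j, l))).det = _
    rw [et_map Polynomial.C]
    unfold et
    refine Finset.prod_congr rfl (fun j _ => ?_)
    rw [h2, Matrix.det_mul, Matrix.det_transvection_of_ne i i' hne, mul_one]
  -- second evaluation
  have h4 : psi T (a + b) = ∑ A ∈ (univ.filter fun t => c t = i).powerset,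
      Polynomial.X ^ A.card * Polynomial.C (et F T (upd c A i')) := by
    rw [add_comm a b, MultilinearMap.map_add_univ]
    symm
    rw [← Finset.sum_subset (Finset.subset_univ (univ.filter fun t => c t = i).powerset)]
    · refine Finset.sum_congr rfl (fun A hA => ?_)
      rw [Finset.mem_powerset] at hA
      have h5 : A.piecewise b a = A.piecewise
          (fun t => (Polynomial.X : Polynomial F) • (fun l => if upd c A i' t = l then (1 : Polynomial F) else 0))
          (fun t => (fun l => if upd c A i' t = l then (1 : Polynomial F) else 0)) := by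
        funext t
        by_cases ht : t ∈ A
        · rw [Finset.piecewise_eq_of_mem _ _ _ ht, Finset.piecewise_eq_of_mem _ _ _ ht]
          have h6 : c t = i := (Finset.mem_filter.mp (hA ht)).2
          funext l
          simp only [b, h6, if_true, upd, ht, Pi.smul_apply, smul_eq_mul]
          split_ifs <;> simp
        · rw [Finset.piecewise_eq_of_notMem _ _ _ ht, Finset.piecewise_eq_of_notMem _ _ _ ht]
          funext l
          simp [a, upd, ht]
      rw [h5, MultilinearMap.map_piecewise_smul, Finset.prod_const, psi_basis, smul_eq_mul,
        et_map Polynomial.C]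
    · intro A _ hA
      rw [Finset.mem_powerset] at hA
      obtain ⟨t, ht, ht'⟩ := Finset.not_subset.mp hA
      have h6 : c t ≠ i := fun h => ht' (by simp [h])
      refine MultilinearMap.map_coord_zero _ t ?_
      rw [Finset.piecewise_eq_of_mem _ _ _ ht]
      funext l
      simp [b, h6]
  rw [h1] at h4
  have h7 := congrArg (fun q : Polynomial F => q.coeff k) h4
  simp only [Polynomial.coeff_C, hk.ne', if_false, Polynomial.finsetSum_coeff,
    Polynomial.coeff_X_pow_mul', Polynomial.coeff_C] at h7
  have h8 : ∑ A ∈ (univ.filter fun t => c t = i).powerset,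
      (if A.card ≤ k then (if k - A.card = 0 then et F T (upd c A i') else 0) else 0) =
      ∑ A ∈ (univ.filter fun t => c t = i).powersetCard k, et F T (upd c A i') := by
    rw [Finset.powersetCard_eq_filter, Finset.sum_filter]
    refine Finset.sum_congr rfl (fun A _ => ?_)
    by_cases hA : A.card = k
    · simp [hA]
    · by_cases hA2 : A.card ≤ k
      · rw [if_pos hA2, if_neg (by omega), if_neg hA]
      · rw [if_neg hA2, if_neg hA]
  rw [← h8, ← h7]

theorem et_UU {F : Type*} [CommRing F] {w : ℕ} (T : Fin w × Fin h ≃ Fin n) :
    UU w (et F T) := by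
  refine ⟨?_, ?_⟩
  · intro c hc
    by_contra h1
    exact hc (bal_of_col T c (fun j => et_col T c h1 j))
  · intro i i' hi c k hk
    refine et_r2 T i i' ?_ c k hk
    intro h0
    rw [h0] at hi
    omega

end Pool.Agent.Q11.Kem
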