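import Pool.Agent.Q11.KemD

/-!
The integral representation of the symmetric group on the functions satisfying the relations.
-/

namespace Pool.Agent.Q11.Kem

open Finset

variable {n h : ℕ}

theorem Ty_bij {w : ℕ} (y : Fin n → Fin h) (hy : Bal w y) :
    Function.Bijective (fun q : Fin w × Fin h =>
      (univ.filter fun t => y t = q.2).orderEmbOfFin (hy q.2) q.1) := by
  have hmem : ∀ q : Fin w × Fin h,
      y ((univ.filter fun t => y t = q.2).orderEmbOfFin (hy q.2) q.1) = q.2 := by
    intro q
    exact (Finset.mem_filter.mp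
      (Finset.orderEmbOfFin_mem (univ.filter fun t => y t = q.2) (hy q.2) q.1)).2
  constructor
  · rintro ⟨j, i⟩ ⟨j', i'⟩ hq
    have h1 : i = i' := by
      have h2 := hmem (j, i)
      have h3 := hmem (j', i')
      simp only at hq h2 h3
      rw [hq, h3] at h2
      exact h2.symm
    subst h1
    have h4 := ((univ.filter fun t => y t = i).orderEmbOfFin (hy i)).injective hq
    exact Prod.ext h4 rfl
  · intro t
    have h1 : t ∈ Set.range ((univ.filter fun s => y s = y t).orderEmbOfFin (hy (y t))) := by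
      rw [Finset.range_orderEmbOfFin]
      simp
    obtain ⟨j, hj⟩ := h1
    exact ⟨(j, y t), hj⟩

/-- the `j`-th occurrence of the letter `i` in `y` -/
noncomputable def Ty {w : ℕ} (y : Fin n → Fin h) (hy : Bal w y) : Fin w × Fin h ≃ Fin n :=
  Equiv.ofBijective _ (Ty_bij y hy)

theorem Ty_apply {w : ℕ} (y : Fin n → Fin h) (hy : Bal w y) (j : Fin w) (i : Fin h) :
    Ty y hy (j, i) = (univ.filter fun t => y t = i).orderEmbOfFin (hy i) j := rfl

theorem y_Ty {w : ℕ} (y : Fin n → Fin h) (hy : Bal w y) (j : Fin w) (i : Fin h) :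
    y (Ty y hy (j, i)) = i := by
  rw [Ty_apply]
  exact (Finset.mem_filter.mp
    (Finset.orderEmbOfFin_mem (univ.filter fun t => y t = i) (hy i) j)).2

theorem Ty_mono {w : ℕ} (y : Fin n → Fin h) (hy : Bal w y) (i : Fin h) {j j' : Fin w} :
    Ty y hy (j, i) < Ty y hy (j', i) ↔ j < j' := by
  rw [Ty_apply, Ty_apply]
  exact OrderEmbedding.lt_iff_lt _

/-- the columns are increasing -/
theorem Ty_step {w : ℕ} (y : Fin n → Fin h) (hy : Yam w y) (j : Fin w) (i i' : Fin h)
    (hi : i'.val = i.val + 1) : Ty y hy.1 (j, i) < Ty y hy.1 (j, i') := by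
  by_contra hcon
  rw [not_lt] at hcon
  have hne : Ty y hy.1 (j, i') ≠ Ty y hy.1 (j, i) := by
    intro h0
    have := (Ty y hy.1).injective h0
    simp only [Prod.mk.injEq, true_and] at this
    rw [this] at hi
    omega
  have hlt : Ty y hy.1 (j, i') < Ty y hy.1 (j, i) := lt_of_le_of_ne hcon hne
  set m : ℕ := (Ty y hy.1 (j, i')).val + 1 with hm
  have h1 := hy.2 i i' hi m
  -- at least `j + 1` letters `i'`
  have h2 : j.val + 1 ≤ pre y i' m := by
    have h3 : (Finset.univ : Finset (Fin (j.val + 1))).card ≤ pre y i' m := by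
      refine Finset.card_le_card_of_injOn
        (fun s => Ty y hy.1 (⟨s.val, by have := s.2; have := j.2; omega⟩, i')) ?_ ?_
      · intro s _
        simp only [Finset.coe_filter, Set.mem_ofPred_eq, Finset.mem_univ, true_and]
        refine ⟨?_, y_Ty y hy.1 _ i'⟩
        have h4 : (⟨s.val, by have := s.2; have := j.2; omega⟩ : Fin w) ≤ j :=
          Fin.le_def.mpr (by have := s.2; simp only; omega)
        have h5 : Ty y hy.1 (⟨s.val, by have := s.2; have := j.2; omega⟩, i') ≤
            Ty y hy.1 (j, i') := by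
          rw [← not_lt, Ty_mono]
          exact not_lt.mpr h4
        have h6 := Fin.le_def.mp h5
        omega
      · intro s _ s' _ hss
        have h4 := (Ty y hy.1).injective hss
        simp only [Prod.mk.injEq, and_true, Fin.mk.injEq] at h4
        exact Fin.ext h4
    simpa using h3
  -- at most `j` letters `i`
  have h3 : pre y i m ≤ j.val := by
    have h4 : pre y i m ≤ (Finset.univ.filter fun s : Fin w => s < j).card := by
      refine Finset.card_le_card_of_injOn (fun t => ((Ty y hy.1).symm t).1) ?_ ?_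
      · intro t ht
        simp only [Finset.coe_filter, Set.mem_ofPred_eq, Finset.mem_univ, true_and] at ht ⊢
        obtain ⟨⟨s, l⟩, rfl⟩ := (Ty y hy.1).surjective t
        rw [y_Ty y hy.1] at ht
        obtain ⟨h5, rfl⟩ := ht
        rw [Equiv.symm_apply_apply]
        rw [← Ty_mono y hy.1 l]
        have h6 := Fin.lt_def.mp hlt
        show (Ty y hy.1 (s, l)).val < (Ty y hy.1 (j, l)).val
        omega
      · intro t ht t' ht' htt
        simp only [Finset.coe_filter, Set.mem_ofPred_eq, Finset.mem_univ, true_and] at ht ht'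
        obtain ⟨⟨s, l⟩, rfl⟩ := (Ty y hy.1).surjective t
        obtain ⟨⟨s', l'⟩, rfl⟩ := (Ty y hy.1).surjective t'
        rw [y_Ty y hy.1] at ht ht'
        simp only [Equiv.symm_apply_apply] at htt
        rw [htt, ht.2, ht'.2]
    refine h4.trans ?_
    have : (Finset.univ.filter fun s : Fin w => s < j).card = j.val := by
      rw [← Fin.card_Iio j]
      congr 1
      ext s
      simp
    rw [this]
  omega

theorem Ty_col {w : ℕ} (y : Fin n → Fin h) (hy : Yam w y) (j : Fin w) {i i' : Fin h}
    (hi : i < i') : Ty y hy.1 (j, i) < Ty y hy.1 (j, i') := by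
  have main : ∀ (d : ℕ) (i i' : Fin h), i'.val = i.val + d + 1 →
      Ty y hy.1 (j, i) < Ty y hy.1 (j, i') := by
    intro d
    induction d with
    | zero => intro i i' h1; exact Ty_step y hy j i i' (by omega)
    | succ d ih =>
      intro i i' h1
      have h2 : i.val + 1 < h := by have := i'.2; omega
      exact (Ty_step y hy j i ⟨i.val + 1, h2⟩ rfl).trans (ih _ _ (by simp only; omega))
  have h1 := Fin.lt_def.mp hi
  exact main (i'.val - i.val - 1) i i' (by omega)

theorem et_self (F : Type*) [CommRing F] {w : ℕ} (y : Fin n → Fin h) (hy : Bal w y) :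
    et F (Ty y hy) y = 1 := by
  unfold et
  refine Finset.prod_eq_one (fun j _ => ?_)
  have : (Matrix.of fun i i' : Fin h => if y (Ty y hy (j, i)) = i' then (1 : F) else 0) = 1 := by
    ext i i'
    simp only [Matrix.of_apply, y_Ty, Matrix.one_apply]
  rw [this, Matrix.det_one]

theorem et_tri (F : Type*) [CommRing F] {w : ℕ} (y : Fin n → Fin h) (hy : Yam w y)
    (c : Fin n → Fin h) (hc : et F (Ty y hy.1) c ≠ 0) (hne : c ≠ y) : key c < key y := by
  classical
  set S : Finset (Fin n) := univ.filter fun t => c t ≠ y t with hS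
  have hSne : S.Nonempty := by
    by_contra h0
    rw [Finset.not_nonempty_iff_eq_empty] at h0
    apply hne
    funext t
    by_contra h1
    have : t ∈ S := by simp [hS, h1]
    rw [h0] at this
    simp at this
  refine key_lt (S.max' hSne) ?_ ?_
  · intro t' ht'
    by_contra h1
    have h2 : t' ∈ S := by simp [hS, h1]
    exact absurd (Finset.le_max' S t' h2) (not_le.mpr ht')
  · have hmem := Finset.max'_mem S hSne
    set t := S.max' hSne with ht
    obtain ⟨⟨j, i⟩, hq⟩ := (Ty y hy.1).surjective t
    have hcol := et_col (Ty y hy.1) c hc j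
    have hy' : y t = i := by rw [← hq, y_Ty y hy.1]
    have hct : c t ≠ y t := (Finset.mem_filter.mp hmem).2
    rw [hy'] at hct ⊢
    by_contra h1
    rw [not_lt] at h1
    have h2 : i < c t := lt_of_le_of_ne h1 (fun h => hct h.symm)
    have h3 := Ty_col y hy j h2
    rw [hq] at h3
    have h4 : c (Ty y hy.1 (j, c t)) = c t := by
      by_contra h5
      have h6 : Ty y hy.1 (j, c t) ∈ S := by
        rw [hS, Finset.mem_filter]
        refine ⟨Finset.mem_univ _, ?_⟩
        rw [y_Ty y hy.1]
        exact h5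
      exact absurd (Finset.le_max' S _ h6) (not_le.mpr h3)
    have h5 : c (Ty y hy.1 (j, i)) = c t := by rw [hq]
    have h6 := hcol (h4.trans h5.symm)
    rw [h6] at h2
    exact lt_irrefl _ h2

/-- lattice words -/
structure YT (n h w : ℕ) where
  /-- the word -/
  c : Fin n → Fin h
  hc : Yam w c

theorem YT.key_inj {w : ℕ} : Function.Injective (fun y : YT n h w => key y.c) := by
  intro y y' hyy
  have h1 := Kem.key_inj hyy
  cases y
  cases y'
  simp only at h1
  subst h1
  rfl

noncomputable instance {w : ℕ} : LinearOrder (YT n h w) := LinearOrder.lift' _ YT.key_inj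

noncomputable instance {w : ℕ} : Fintype (YT n h w) :=
  haveI : Finite (YT n h w) := Finite.of_injective _ YT.key_inj
  Fintype.ofFinite _

/-- the triangular matrix -/
noncomputable def Em (F : Type*) [CommRing F] (n h w : ℕ) : Matrix (YT n h w) (YT n h w) F :=
  Matrix.of fun y' y => et F (Ty y.c y.hc.1) y'.c

theorem Em_map {F F' : Type*} [CommRing F] [CommRing F'] (f : F →+* F') (n h w : ℕ) :
    (Em F n h w).map f = Em F' n h w := by
  ext y' y
  exact et_map f _ _

theorem Em_det (n h w : ℕ) : (Em ℤ n h w).det = 1 := by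
  rw [Matrix.det_of_isUpperTriangular]
  · refine Finset.prod_eq_one (fun y _ => ?_)
    exact et_self ℤ y.c y.hc.1
  · intro y' y hlt
    by_contra h0
    have hlt' : key y.c < key y'.c := hlt
    have h1 : y'.c ≠ y.c := by
      intro h2
      rw [h2] at hlt'
      exact lt_irrefl _ hlt'
    exact absurd (et_tri ℤ y.c y.hc y'.c h0 h1) (not_lt.mpr hlt'.le)

/-- the inverse matrix, over any ring -/
noncomputable def Lm (F : Type*) [CommRing F] (n h w : ℕ) : Matrix (YT n h w) (YT n h w) F :=
  ((Em ℤ n h w)⁻¹).map (Int.castRingHom F)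

theorem Em_mul_Lm (F : Type*) [CommRing F] (n h w : ℕ) : Em F n h w * Lm F n h w = 1 := by
  have h1 : Em ℤ n h w * (Em ℤ n h w)⁻¹ = 1 :=
    Matrix.mul_nonsing_inv _ (by rw [Em_det]; exact isUnit_one)
  have h2 := congrArg (fun M : Matrix (YT n h w) (YT n h w) ℤ => M.map (Int.castRingHom F)) h1
  simp only [Matrix.map_mul] at h2
  rw [Em_map] at h2
  rw [Lm, h2]
  exact Matrix.map_one _ (map_zero _) (map_one _)

theorem Lm_mul_Em (F : Type*) [CommRing F] (n h w : ℕ) : Lm F n h w * Em F n h w = 1 := by
  have h1 : (Em ℤ n h w)⁻¹ * Em ℤ n h w = 1 :=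
    Matrix.nonsing_inv_mul _ (by rw [Em_det]; exact isUnit_one)
  have h2 := congrArg (fun M : Matrix (YT n h w) (YT n h w) ℤ => M.map (Int.castRingHom F)) h1
  simp only [Matrix.map_mul] at h2
  rw [Em_map] at h2
  rw [Lm, h2]
  exact Matrix.map_one _ (map_zero _) (map_one _)

variable {F : Type*} [CommRing F] {w : ℕ}

/-- restriction to lattice words -/
def rho (u : (Fin n → Fin h) → F) : YT n h w → F := fun y => u y.c

/-- combination of polytabloids -/
noncomputable def comb (w : ℕ) (a : YT n h w → F) : (Fin n → Fin h) → F :=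
  fun c => ∑ y, a y * et F (Ty y.c y.hc.1) c

theorem UU.sum {J : Type*} (S : Finset J) (f : J → (Fin n → Fin h) → F)
    (hf : ∀ j ∈ S, UU w (f j)) : UU w (fun c => ∑ j ∈ S, f j c) := by
  refine ⟨?_, ?_⟩
  · intro c hc
    exact Finset.sum_eq_zero (fun j hj => (hf j hj).r1 c hc)
  · intro i i' hi c k hk
    rw [Finset.sum_comm]
    exact Finset.sum_eq_zero (fun j hj => (hf j hj).r2 i i' hi c k hk)

theorem UU.smul {u : (Fin n → Fin h) → F} (hu : UU w u) (a : F) : UU w (fun c => a * u c) := by
  refine ⟨?_, ?_⟩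
  · intro c hc
    rw [hu.r1 c hc, mul_zero]
  · intro i i' hi c k hk
    rw [← Finset.mul_sum, hu.r2 i i' hi c k hk, mul_zero]

theorem UU.sub {u v : (Fin n → Fin h) → F} (hu : UU w u) (hv : UU w v) :
    UU w (fun c => u c - v c) := by
  refine ⟨?_, ?_⟩
  · intro c hc
    rw [hu.r1 c hc, hv.r1 c hc, sub_zero]
  · intro i i' hi c k hk
    rw [Finset.sum_sub_distrib, hu.r2 i i' hi c k hk, hv.r2 i i' hi c k hk, sub_zero]

theorem comb_UU (a : YT n h w → F) : UU w (comb w a) :=
  UU.sum _ _ (fun y _ => (et_UU (Ty y.c y.hc.1)).smul (a y))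

theorem rho_comb (a : YT n h w → F) : rho (comb w a) = (Em F n h w).mulVec a := by
  funext y'
  simp only [rho, comb, Matrix.mulVec, dotProduct, Em, Matrix.of_apply]
  exact Finset.sum_congr rfl (fun y _ => mul_comm _ _)

theorem UU.expand {u : (Fin n → Fin h) → F} (hu : UU w u) :
    u = comb w ((Lm F n h w).mulVec (rho u)) := by
  have h1 := (hu.sub (comb_UU (w := w) ((Lm F n h w).mulVec (rho u))))
  have h2 : ∀ c, Yam w c → u c - comb w ((Lm F n h w).mulVec (rho u)) c = 0 := by
    intro c hc
    have h3 := congrFun (rho_comb (n := n) (h := h) (w := w) ((Lm F n h w).mulVec (rho u)))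
      ⟨c, hc⟩
    rw [Matrix.mulVec_mulVec, Em_mul_Lm, Matrix.one_mulVec] at h3
    have h4 : comb w ((Lm F n h w).mulVec (rho u)) c = u c := h3
    rw [h4, sub_self]
  funext c
  exact sub_eq_zero.mp (h1.eq_zero h2 c)

/-- the action of a permutation of the positions -/
def act (g : Equiv.Perm (Fin n)) (u : (Fin n → Fin h) → F) : (Fin n → Fin h) → F :=
  fun c => u (c ∘ g)

theorem Bal_comp (g : Equiv.Perm (Fin n)) (c : Fin n → Fin h) : Bal w (c ∘ g) ↔ Bal w c := by
  unfold Bal
  refine forall_congr' (fun i => ?_)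
  have : (univ.filter fun t => (c ∘ g) t = i).card = (univ.filter fun t => c t = i).card := by
    refine Finset.card_bij' (fun t _ => g t) (fun t _ => g.symm t) ?_ ?_ ?_ ?_
    · intro t ht
      simpa using ht
    · intro t ht
      simpa using ht
    · intro t _
      simp
    · intro t _
      simp
  rw [this]

theorem UU.act {u : (Fin n → Fin h) → F} (hu : UU w u) (g : Equiv.Perm (Fin n)) :
    UU w (act g u) := by
  refine ⟨?_, ?_⟩
  · intro c hc
    exact hu.r1 _ (fun h0 => hc ((Bal_comp g c).mp h0))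
  · intro i i' hi c k hk
    rw [← hu.r2 i i' hi (c ∘ g) k hk]
    refine Finset.sum_bij' (fun A _ => A.map g.symm.toEmbedding)
      (fun A _ => A.map g.toEmbedding) ?_ ?_ ?_ ?_ ?_
    · intro A hA
      rw [mem_powersetCard] at hA ⊢
      refine ⟨?_, by rw [Finset.card_map, hA.2]⟩
      intro t ht
      rw [Finset.mem_map] at ht
      obtain ⟨s, hs, rfl⟩ := ht
      have := (Finset.mem_filter.mp (hA.1 hs)).2
      simpa using this
    · intro A hA
      rw [mem_powersetCard] at hA ⊢
      refine ⟨?_, by rw [Finset.card_map, hA.2]⟩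
      intro t ht
      rw [Finset.mem_map] at ht
      obtain ⟨s, hs, rfl⟩ := ht
      have := (Finset.mem_filter.mp (hA.1 hs)).2
      simpa using this
    · intro A _
      ext t
      simp
    · intro A _
      ext t
      simp
    · intro A _
      unfold Kem.act
      congr 1
      funext t
      simp only [Function.comp_apply, upd, Finset.mem_map_equiv, Equiv.symm_symm]

/-- the matrix of the action -/
noncomputable def Am (n h w : ℕ) (g : Equiv.Perm (Fin n)) : Matrix (YT n h w) (YT n h w) ℤ :=
  (Matrix.of fun y' y => et ℤ (Ty y.c y.hc.1) (y'.c ∘ g)) * (Em ℤ n h w)⁻¹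

theorem Am_act {u : (Fin n → Fin h) → F} (hu : UU w u) (g : Equiv.Perm (Fin n)) :
    ((Am n h w g).map (Int.castRingHom F)).mulVec (rho u) = rho (act g u) := by
  have h1 : (Am n h w g).map (Int.castRingHom F) =
      (Matrix.of fun (y' y : YT n h w) => et F (Ty y.c y.hc.1) (y'.c ∘ g)) * Lm F n h w := by
    rw [Am, Matrix.map_mul]
    congr 1
    ext y' y
    exact et_map (Int.castRingHom F) _ _
  rw [h1, ← Matrix.mulVec_mulVec]
  funext y'
  have h2 : rho (w := w) (act g u) y' = u (y'.c ∘ g) := rfl
  rw [h2]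
  conv_rhs => rw [hu.expand]
  simp only [comb, Matrix.mulVec, dotProduct, Matrix.of_apply]
  exact Finset.sum_congr rfl (fun y _ => mul_comm _ _)

theorem exists_rho (b : YT n h w → F) : ∃ u : (Fin n → Fin h) → F, UU w u ∧ rho u = b := by
  refine ⟨comb w ((Lm F n h w).mulVec b), comb_UU _, ?_⟩
  rw [rho_comb, Matrix.mulVec_mulVec, Em_mul_Lm, Matrix.one_mulVec]

/-- the representation -/
noncomputable def Ah (n h w : ℕ) : Equiv.Perm (Fin n) →* Matrix (YT n h w) (YT n h w) ℤ where
  toFun := Am n h w
  map_one' := by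
    have h1 : (Matrix.of fun (y' y : YT n h w) => et ℤ (Ty y.c y.hc.1)
        (y'.c ∘ (1 : Equiv.Perm (Fin n)))) = Em ℤ n h w := by
      ext y' y
      rfl
    rw [Am, h1]
    exact Matrix.mul_nonsing_inv _ (by rw [Em_det]; exact isUnit_one)
  map_mul' := by
    intro g g'
    refine Matrix.ext_of_mulVec_single (fun y => ?_)
    obtain ⟨u, hu, hb⟩ := exists_rho (F := ℤ) (n := n) (h := h) (w := w) (Pi.single y 1)
    have hid : ∀ M : Matrix (YT n h w) (YT n h w) ℤ, M.map (Int.castRingHom ℤ) = M := by
      intro M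
      ext i j
      simp
    have h1 := Am_act hu (g * g')
    have h2 := Am_act hu g'
    have h3 := Am_act (hu.act g') g
    rw [hid] at h1 h2 h3
    rw [← hb, ← Matrix.mulVec_mulVec, h1, h2, h3]
    rfl

end Pool.Agent.Q11.Kem
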