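import Pool.Agent.Q11.KemE

/-!
The invariant vector modulo `p` and the irreducibility over the complex numbers.
-/

namespace Pool.Agent.Q11.Kem

open Finset Equiv

variable {n h : ℕ}

theorem dvd_choose {p M w k : ℕ} (hp : p.Prime) (hw : w + 1 = p ^ M) (hk : 0 < k) (hkw : k ≤ w) :
    p ∣ (w + k).choose k := by
  have h1 : w + k = p ^ M + (k - 1) := by omega
  rw [h1, Nat.add_choose_eq]
  refine Finset.dvd_sum (fun ij hij => ?_)
  rw [Finset.HasAntidiagonal.mem_antidiagonal] at hij
  by_cases h0 : ij.1 = 0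
  · have : (k - 1).choose ij.2 = 0 := Nat.choose_eq_zero_of_lt (by omega)
    rw [this, mul_zero]
    exact dvd_zero p
  · exact Dvd.dvd.mul_right (hp.dvd_choose_pow h0 (by omega)) _

/-- the function one on balanced words -/
def ones (w : ℕ) (F : Type*) [CommRing F] (c : Fin n → Fin h) : F := if Bal w c then 1 else 0

theorem Bal_upd {w k : ℕ} {i i' : Fin h} (hne : i ≠ i') (c : Fin n → Fin h) (A : Finset (Fin n))
    (hA : A ∈ (univ.filter fun t => c t = i).powersetCard k) :
    Bal w (upd c A i') ↔ ((univ.filter fun t => c t = i).card = w + k ∧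
      (univ.filter fun t => c t = i').card + k = w ∧
      ∀ l, l ≠ i → l ≠ i' → (univ.filter fun t => c t = l).card = w) := by
  rw [mem_powersetCard] at hA
  obtain ⟨hA1, hA2⟩ := hA
  have hAc : ∀ t ∈ A, c t = i := fun t ht => (Finset.mem_filter.mp (hA1 ht)).2
  have e1 : (univ.filter fun t => upd c A i' t = i).card + k =
      (univ.filter fun t => c t = i).card := by
    have h1 : (univ.filter fun t => upd c A i' t = i) = (univ.filter fun t => c t = i) \ A := by
      ext t
      rw [mem_sdiff, mem_filter, mem_filter]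
      unfold upd
      by_cases ht : t ∈ A
      · simp [ht, hne.symm]
      · simp [ht]
    rw [h1, Finset.card_sdiff_of_subset hA1, hA2]
    have := Finset.card_le_card hA1
    omega
  have e2 : (univ.filter fun t => upd c A i' t = i').card =
      (univ.filter fun t => c t = i').card + k := by
    have h1 : (univ.filter fun t => upd c A i' t = i') = (univ.filter fun t => c t = i') ∪ A := by
      ext t
      rw [mem_union, mem_filter, mem_filter]
      unfold upd
      by_cases ht : t ∈ A
      · simp [ht]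
      · simp [ht]
    rw [h1, Finset.card_union_of_disjoint, hA2]
    rw [Finset.disjoint_left]
    intro t ht ht'
    exact hne ((hAc t ht').symm.trans (Finset.mem_filter.mp ht).2)
  have e3 : ∀ l, l ≠ i → l ≠ i' → (univ.filter fun t => upd c A i' t = l).card =
      (univ.filter fun t => c t = l).card := by
    intro l hl hl'
    congr 1
    ext t
    rw [mem_filter, mem_filter]
    unfold upd
    by_cases ht : t ∈ A
    · simp [ht, hAc t ht, hl.symm, hl'.symm]
    · simp [ht]
  constructor
  · intro hb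
    refine ⟨?_, ?_, ?_⟩
    · rw [← e1, hb i]
    · rw [← e2, hb i']
    · intro l hl hl'
      rw [← e3 l hl hl', hb l]
  · rintro ⟨h1, h2, h3⟩ l
    by_cases hl : l = i
    · subst hl
      omega
    · by_cases hl' : l = i'
      · subst hl'
        omega
      · rw [e3 l hl hl', h3 l hl hl']

theorem ones_UU {p M w : ℕ} (hp : p.Prime) (hw : w + 1 = p ^ M) :
    UU w (ones (n := n) (h := h) w (ZMod p)) := by
  refine ⟨?_, ?_⟩
  · intro c hc
    rw [ones, if_neg hc]
  · intro i i' hi c k hk
    have hne : i ≠ i' := by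
      intro h0
      rw [h0] at hi
      omega
    by_cases hQ : ((univ.filter fun t => c t = i).card = w + k ∧
      (univ.filter fun t => c t = i').card + k = w ∧
      ∀ l, l ≠ i → l ≠ i' → (univ.filter fun t => c t = l).card = w)
    · have h1 : ∀ A ∈ (univ.filter fun t => c t = i).powersetCard k,
          ones w (ZMod p) (upd c A i') = 1 := by
        intro A hA
        rw [ones, if_pos ((Bal_upd hne c A hA).mpr hQ)]
      rw [Finset.sum_congr rfl h1, Finset.sum_const, Finset.card_powersetCard, hQ.1, nsmul_eq_mul,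
        mul_one]
      rw [ZMod.natCast_eq_zero_iff]
      exact dvd_choose hp hw hk (by omega)
    · refine Finset.sum_eq_zero (fun A hA => ?_)
      rw [ones, if_neg (fun h0 => hQ ((Bal_upd hne c A hA).mp h0))]

/-- the column permutations -/
def gT {w : ℕ} (T : Fin w × Fin h ≃ Fin n) (π : Fin w → Perm (Fin h)) : Perm (Fin n) :=
  T.permCongr (Equiv.prodCongrRight π)

theorem gT_apply {w : ℕ} (T : Fin w × Fin h ≃ Fin n) (π : Fin w → Perm (Fin h)) (j : Fin w)
    (i : Fin h) : gT T π (T (j, i)) = T (j, π j i) := by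
  simp [gT, Equiv.permCongr_apply]

theorem gT_mul {w : ℕ} (T : Fin w × Fin h ≃ Fin n) (π π' : Fin w → Perm (Fin h)) :
    gT T (π * π') = gT T π * gT T π' := by
  ext t
  obtain ⟨⟨j, i⟩, rfl⟩ := T.surjective t
  rw [Perm.mul_apply, gT_apply, gT_apply, gT_apply]
  rfl

/-- the basic word of `T` -/
def cT {w : ℕ} (T : Fin w × Fin h ≃ Fin n) : Fin n → Fin h := fun t => (T.symm t).2

theorem word_eq {w : ℕ} (T : Fin w × Fin h ≃ Fin n) (c : Fin n → Fin h)
    (hc : ∀ j, Function.Injective fun i => c (T (j, i))) :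
    c = cT T ∘ gT T (fun j => Equiv.ofBijective _ (Finite.injective_iff_bijective.mp (hc j))) := by
  funext t
  obtain ⟨⟨j, i⟩, rfl⟩ := T.surjective t
  rw [Function.comp_apply, gT_apply]
  simp [cT]

theorem et_cT {w : ℕ} (T : Fin w × Fin h ≃ Fin n) (π : Fin w → Perm (Fin h)) (F : Type*)
    [CommRing F] :
    et F T (cT T ∘ gT T π) = ∏ j, ((Perm.sign (π j) : ℤ) : F) := by
  unfold et
  refine Finset.prod_congr rfl (fun j _ => ?_)
  have h1 : (Matrix.of fun i i' : Fin h => if (cT T ∘ gT T π) (T (j, i)) = i' then (1 : F) else 0) =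
      (1 : Matrix (Fin h) (Fin h) F).submatrix (π j) id := by
    ext i i'
    simp only [Matrix.of_apply, Function.comp_apply, gT_apply, cT, Equiv.symm_apply_apply,
      Matrix.submatrix_apply, Matrix.one_apply, id]
  rw [h1, Matrix.det_permute, Matrix.det_one, mul_one]

/-- the column antisymmetrizer -/
theorem kappa {w : ℕ} (T : Fin w × Fin h ≃ Fin n) (u : (Fin n → Fin h) → ℂ)
    (c : Fin n → Fin h) :
    ∑ π : Fin w → Perm (Fin h), (∏ j, ((Perm.sign (π j) : ℤ) : ℂ)) * u (c ∘ gT T π) =
    (∑ π : Fin w → Perm (Fin h), (∏ j, ((Perm.sign (π j) : ℤ) : ℂ)) * u (cT T ∘ gT T π)) *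
      et ℂ T c := by
  by_cases hc : ∀ j, Function.Injective fun i => c (T (j, i))
  · set δ : Fin w → Perm (Fin h) :=
      fun j => Equiv.ofBijective _ (Finite.injective_iff_bijective.mp (hc j)) with hδ
    have h1 : c = cT T ∘ gT T δ := word_eq T c hc
    have h2 : et ℂ T c = ∏ j, ((Perm.sign (δ j) : ℤ) : ℂ) := by
      rw [h1]
      exact et_cT T δ ℂ
    rw [h2, ← Equiv.sum_comp (Equiv.mulLeft δ) (fun π : Fin w → Perm (Fin h) =>
      (∏ j, ((Perm.sign (π j) : ℤ) : ℂ)) * u (cT T ∘ gT T π)), Finset.sum_mul]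
    refine Finset.sum_congr rfl (fun π _ => ?_)
    have h3 : c ∘ gT T π = cT T ∘ gT T (δ * π) := by
      rw [gT_mul]
      conv_lhs => rw [h1]
      rfl
    have h4 : ∏ j, ((Perm.sign ((δ * π) j) : ℤ) : ℂ) =
        (∏ j, ((Perm.sign (δ j) : ℤ) : ℂ)) * ∏ j, ((Perm.sign (π j) : ℤ) : ℂ) := by
      rw [← Finset.prod_mul_distrib]
      refine Finset.prod_congr rfl (fun j _ => ?_)
      rw [Pi.mul_apply, Perm.sign_mul]
      push_cast
      ring
    have h5 : (∏ j, ((Perm.sign (δ j) : ℤ) : ℂ)) * (∏ j, ((Perm.sign (δ j) : ℤ) : ℂ)) = 1 := by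
      rw [← Finset.prod_mul_distrib]
      refine Finset.prod_eq_one (fun j _ => ?_)
      rcases Int.units_eq_one_or (Perm.sign (δ j)) with h | h <;> rw [h] <;> simp
    rw [h3]
    simp only [Equiv.coe_mulLeft]
    rw [h4]
    linear_combination (-(∏ j, ((Perm.sign (π j) : ℤ) : ℂ)) * u (cT T ∘ gT T (δ * π))) * h5
  · push Not at hc
    obtain ⟨j0, hj0⟩ := hc
    rw [Function.not_injective_iff] at hj0
    obtain ⟨i1, i2, h12, hne⟩ := hj0
    have h0 : et ℂ T c = 0 := by
      by_contra h0
      exact hne (et_col T c h0 j0 h12)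
    rw [h0, mul_zero]
    classical
    set τ : Fin w → Perm (Fin h) := Function.update 1 j0 (swap i1 i2) with hτ
    have h1 : c ∘ gT T τ = c := by
      funext t
      obtain ⟨⟨j, i⟩, rfl⟩ := T.surjective t
      rw [Function.comp_apply, gT_apply]
      by_cases hj : j = j0
      · subst hj
        rw [hτ, Function.update_self]
        by_cases hi1 : i = i1
        · subst hi1
          rw [swap_apply_left]
          exact h12.symm
        · by_cases hi2 : i = i2
          · subst hi2
            rw [swap_apply_right]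
            exact h12
          · rw [swap_apply_of_ne_of_ne hi1 hi2]
      · rw [hτ, Function.update_of_ne hj]
        rfl
    have h2 : ∏ j, ((Perm.sign (τ j) : ℤ) : ℂ) = -1 := by
      rw [Finset.prod_eq_single j0]
      · rw [hτ, Function.update_self, Perm.sign_swap hne]
        simp
      · intro j _ hj
        rw [hτ, Function.update_of_ne hj]
        simp
      · intro h3
        exact absurd (Finset.mem_univ _) h3
    have h3 : ∑ π : Fin w → Perm (Fin h), (∏ j, ((Perm.sign (π j) : ℤ) : ℂ)) * u (c ∘ gT T π) =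
        -∑ π : Fin w → Perm (Fin h), (∏ j, ((Perm.sign (π j) : ℤ) : ℂ)) * u (c ∘ gT T π) := by
      conv_lhs => rw [← Equiv.sum_comp (Equiv.mulLeft τ)]
      rw [← Finset.sum_neg_distrib]
      refine Finset.sum_congr rfl (fun π _ => ?_)
      simp only [Equiv.coe_mulLeft]
      have h4 : ∏ j, ((Perm.sign ((τ * π) j) : ℤ) : ℂ) =
          (∏ j, ((Perm.sign (τ j) : ℤ) : ℂ)) * ∏ j, ((Perm.sign (π j) : ℤ) : ℂ) := by
        rw [← Finset.prod_mul_distrib]
        refine Finset.prod_congr rfl (fun j _ => ?_)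
        rw [Pi.mul_apply, Perm.sign_mul]
        push_cast
        ring
      have h5 : c ∘ gT T (τ * π) = c ∘ gT T π := by
        rw [gT_mul]
        conv_rhs => rw [← h1]
        rfl
      rw [h4, h2, h5]
      ring
    exact self_eq_neg.mp h3

theorem kappa_sum {w : ℕ} (T : Fin w × Fin h ≃ Fin n) (u : (Fin n → Fin h) → ℂ) :
    ∑ π : Fin w → Perm (Fin h), (∏ j, ((Perm.sign (π j) : ℤ) : ℂ)) * u (cT T ∘ gT T π) =
      ∑ c, et ℂ T c * u c := by
  refine Fintype.sum_of_injective (fun π : Fin w → Perm (Fin h) => cT T ∘ gT T π) ?_ _ _ ?_ ?_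
  · intro π π' hπ
    funext j
    ext i
    have h1 := congrFun hπ (T (j, i))
    simp only [Function.comp_apply, gT_apply, cT, Equiv.symm_apply_apply] at h1
    rw [h1]
  · intro c hc
    have : et ℂ T c = 0 := by
      by_contra h0
      exact hc ⟨_, (word_eq T c (fun j => et_col T c h0 j)).symm⟩
    rw [this, zero_mul]
  · intro π
    rw [et_cT]

theorem act_et {w : ℕ} {F : Type*} [CommRing F] (T : Fin w × Fin h ≃ Fin n)
    (g : Perm (Fin n)) : act g (et F T) = et F (T.trans g) := rfl

/-- irreducibility -/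
theorem irr {w : ℕ} (b : YT n h w → ℂ) (hb : b ≠ 0) :
    Submodule.span ℂ (Set.range fun g =>
      ((Ah n h w g).map (Int.castRingHom ℂ)).mulVec b) = ⊤ := by
  obtain ⟨u, hu, rfl⟩ := exists_rho b
  set N : Submodule ℂ ((Fin n → Fin h) → ℂ) := Submodule.span ℂ (Set.range fun g => act g u)
    with hN
  -- the action preserves `N`
  let actL : Perm (Fin n) → ((Fin n → Fin h) → ℂ) →ₗ[ℂ] ((Fin n → Fin h) → ℂ) := fun g =>
    { toFun := act g
      map_add' := fun _ _ => rfl
      map_smul' := fun _ _ => rfl }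
  have hNact : ∀ g, ∀ v ∈ N, act g v ∈ N := by
    intro g v hv
    have h1 : N ≤ N.comap (actL g) := by
      conv_lhs => rw [hN]
      rw [Submodule.span_le]
      rintro _ ⟨g', rfl⟩
      show act g (act g' u) ∈ N
      exact Submodule.subset_span ⟨g * g', rfl⟩
    exact h1 hv
  -- some polytabloid is not orthogonal to `u`
  obtain ⟨T, hT⟩ : ∃ T : Fin w × Fin h ≃ Fin n, ∑ c, et ℂ T c * u c ≠ 0 := by
    by_contra hcon
    push Not at hcon
    apply hb
    have h1 : ∑ c, (starRingEnd ℂ (u c)) * u c = 0 := by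
      have h2 : ∀ c, starRingEnd ℂ (u c) = ∑ y : YT n h w,
          starRingEnd ℂ (((Lm ℂ n h w).mulVec (rho u)) y) * et ℂ (Ty y.c y.hc.1) c := by
        intro c
        conv_lhs => rw [hu.expand]
        rw [comb, map_sum]
        refine Finset.sum_congr rfl (fun y _ => ?_)
        rw [map_mul, et_map]
      simp only [h2, Finset.sum_mul]
      rw [Finset.sum_comm]
      refine Finset.sum_eq_zero (fun y _ => ?_)
      have h3 := hcon (Ty y.c y.hc.1)
      have h4 : ∀ c, starRingEnd ℂ (((Lm ℂ n h w).mulVec (rho u)) y) *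
          et ℂ (Ty y.c y.hc.1) c * u c = starRingEnd ℂ (((Lm ℂ n h w).mulVec (rho u)) y) *
          (et ℂ (Ty y.c y.hc.1) c * u c) := fun c => by ring
      rw [Finset.sum_congr rfl (fun c _ => h4 c), ← Finset.mul_sum, h3, mul_zero]
    have h2 : ∑ c, Complex.normSq (u c) = 0 := by
      have h3 : ((∑ c, Complex.normSq (u c) : ℝ) : ℂ) = 0 := by
        rw [← h1]
        push_cast
        refine Finset.sum_congr rfl (fun c _ => ?_)
        rw [mul_comm, Complex.mul_conj]
      exact_mod_cast h3
    have h3 := (Finset.sum_eq_zero_iff_of_nonneg (fun c _ => Complex.normSq_nonneg (u c))).mp h2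
    funext y
    have h4 := h3 y.c (Finset.mem_univ _)
    exact Complex.normSq_eq_zero.mp h4
  have hetN : et ℂ T ∈ N := by
    have h1 : (fun c => (∑ c, et ℂ T c * u c) * et ℂ T c) ∈ N := by
      have h2 : (fun c => (∑ c, et ℂ T c * u c) * et ℂ T c) =
          ∑ π : Fin w → Perm (Fin h), (∏ j, ((Perm.sign (π j) : ℤ) : ℂ)) • act (gT T π) u := by
        funext c
        rw [← kappa_sum, ← kappa, Finset.sum_apply]
        rfl
      rw [h2]
      refine Submodule.sum_mem _ (fun π _ => Submodule.smul_mem _ _ ?_)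
      exact Submodule.subset_span ⟨gT T π, rfl⟩
    have h3 := N.smul_mem (∑ c, et ℂ T c * u c)⁻¹ h1
    have h4 : (∑ c, et ℂ T c * u c)⁻¹ • (fun c => (∑ c, et ℂ T c * u c) * et ℂ T c) =
        et ℂ T := by
      funext c
      rw [Pi.smul_apply, smul_eq_mul, ← mul_assoc, inv_mul_cancel₀ hT, one_mul]
    rwa [h4] at h3
  have hall : ∀ T' : Fin w × Fin h ≃ Fin n, et ℂ T' ∈ N := by
    intro T'
    have h1 := hNact (T.symm.trans T') _ hetN
    rw [act_et] at h1
    have h2 : T.trans (T.symm.trans T') = T' := by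
      ext q
      simp
    rwa [h2] at h1
  -- restriction to the lattice words
  let rhoL : ((Fin n → Fin h) → ℂ) →ₗ[ℂ] (YT n h w → ℂ) :=
    { toFun := rho
      map_add' := fun _ _ => rfl
      map_smul' := fun _ _ => rfl }
  have hmap : Submodule.span ℂ (Set.range fun g =>
      ((Ah n h w g).map (Int.castRingHom ℂ)).mulVec (rho u)) = N.map rhoL := by
    rw [hN, Submodule.map_span, ← Set.range_comp]
    congr 1
    ext v
    constructor
    · rintro ⟨g, rfl⟩
      exact ⟨g, (Am_act hu g).symm⟩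
    · rintro ⟨g, rfl⟩
      exact ⟨g, Am_act hu g⟩
  rw [hmap, eq_top_iff]
  intro v _
  have h1 : v = ∑ y : YT n h w, ((Lm ℂ n h w).mulVec v) y • rhoL (et ℂ (Ty y.c y.hc.1)) := by
    have h2 : v = (Em ℂ n h w).mulVec ((Lm ℂ n h w).mulVec v) := by
      rw [Matrix.mulVec_mulVec, Em_mul_Lm, Matrix.one_mulVec]
    conv_lhs => rw [h2]
    rw [← rho_comb]
    funext y'
    rw [Finset.sum_apply]
    rfl
  rw [h1]
  refine Submodule.sum_mem _ (fun y _ => Submodule.smul_mem _ _ ?_)
  exact Submodule.mem_map_of_mem (hall _)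

end Pool.Agent.Q11.Kem
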