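import Pool.Agent.Q11.KemF
import Pool.Agent.Q11.KemB

/-!
The number of lattice words, and the codimension theorem.
-/

namespace Pool.Agent.Q11.Kem

open Finset Equiv

/-- sorting by a key -/
theorem exists_sort {α : Type*} [Fintype α] {n : ℕ} (hn : Fintype.card α = n) (K : α → ℕ)
    (hK : Function.Injective K) : ∃ T : α ≃ Fin n, ∀ q q', T q < T q' ↔ K q < K q' := by
  classical
  have hc : (Finset.univ.image K).card = n := by
    rw [Finset.card_image_of_injective _ hK, Finset.card_univ, hn]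
  let e := (Finset.univ.image K).orderIsoOfFin hc
  let f : α → Fin n := fun q => e.symm ⟨K q, Finset.mem_image_of_mem K (Finset.mem_univ q)⟩
  have hf : Function.Injective f := by
    intro q q' hq
    have h1 := e.symm.injective hq
    exact hK (congrArg Subtype.val h1)
  refine ⟨Equiv.ofBijective f ((Fintype.bijective_iff_injective_and_card f).mpr
    ⟨hf, by rw [hn, Fintype.card_fin]⟩), ?_⟩
  intro q q'
  show f q < f q' ↔ _
  simp only [f]
  rw [OrderIso.lt_iff_lt]
  rfl

/-- the key of a box -/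
def Kk {w h : ℕ} (τ : ℕ → Perm (Fin h)) (q : Fin w × Fin h) : ℕ :=
  h * (q.2.val + q.1.val) + (τ (q.2.val + q.1.val) q.2).val

theorem Kk_inj {w h : ℕ} (τ : ℕ → Perm (Fin h)) :
    Function.Injective (Kk (w := w) (h := h) τ) := by
  rintro ⟨j, i⟩ ⟨j', i'⟩ hq
  simp only [Kk] at hq
  have hh : 0 < h := Nat.pos_of_ne_zero (by rintro rfl; exact i.elim0)
  have h1 : (i.val + j.val) = (i'.val + j'.val) := by
    have h2 := congrArg (fun x => x / h) hq
    simp only [Nat.mul_add_div hh, Nat.div_eq_of_lt (τ (i.val + j.val) i).2,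
      Nat.div_eq_of_lt (τ (i'.val + j'.val) i').2, add_zero] at h2
    exact h2
  rw [h1] at hq
  have h2 := Nat.add_left_cancel hq
  have h3 := (τ (i'.val + j'.val)).injective (Fin.ext h2)
  subst h3
  have h4 : j = j' := Fin.ext (by omega)
  rw [h4]

variable {w h : ℕ}

/-- the bijection sorting the boxes -/
noncomputable def Tk (τ : ℕ → Perm (Fin h)) : Fin w × Fin h ≃ Fin (w * h) :=
  Classical.choose (exists_sort (by simp) (Kk (w := w) τ) (Kk_inj τ))

theorem Tk_lt (τ : ℕ → Perm (Fin h)) (q q' : Fin w × Fin h) :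
    Tk τ q < Tk τ q' ↔ Kk τ q < Kk τ q' :=
  Classical.choose_spec (exists_sort (by simp) (Kk (w := w) τ) (Kk_inj τ)) q q'

/-- the word -/
noncomputable def yk (w : ℕ) (τ : ℕ → Perm (Fin h)) : Fin (w * h) → Fin h :=
  fun t => ((Tk (w := w) τ).symm t).2

theorem yk_Tk (τ : ℕ → Perm (Fin h)) (q : Fin w × Fin h) : yk w τ (Tk τ q) = q.2 := by
  simp [yk]

theorem yk_Bal (τ : ℕ → Perm (Fin h)) : Bal w (yk w τ) := by
  intro i
  have h1 : (univ.filter fun t => yk w τ t = i).card = (univ : Finset (Fin w)).card := by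
    symm
    refine Finset.card_bij (fun j _ => Tk τ (j, i)) ?_ ?_ ?_
    · intro j _
      rw [mem_filter, yk_Tk]
      exact ⟨mem_univ _, rfl⟩
    · intro j _ j' _ hj
      have := (Tk τ).injective hj
      simpa using this
    · intro t ht
      obtain ⟨⟨j, i2⟩, rfl⟩ := (Tk τ).surjective t
      rw [mem_filter, yk_Tk] at ht
      obtain ⟨-, rfl⟩ := ht
      exact ⟨j, mem_univ _, rfl⟩
  rw [h1, Finset.card_univ, Fintype.card_fin]

theorem yk_Yam (τ : ℕ → Perm (Fin h)) : Yam w (yk w τ) := by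
  refine ⟨yk_Bal τ, ?_⟩
  intro i i' hi m
  refine Finset.card_le_card_of_injOn (fun t => Tk τ (((Tk (w := w) τ).symm t).1, i)) ?_ ?_
  · intro t ht
    simp only [Finset.coe_filter, Set.mem_ofPred_eq, Finset.mem_univ, true_and] at ht ⊢
    obtain ⟨⟨j, i2⟩, rfl⟩ := (Tk (w := w) τ).surjective t
    rw [yk_Tk] at ht
    obtain ⟨h1, rfl⟩ := ht
    rw [Equiv.symm_apply_apply, yk_Tk]
    refine ⟨?_, rfl⟩
    have h2 : Tk τ (j, i) < Tk τ (j, i2) := by
      rw [Tk_lt]
      simp only [Kk] at *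
      have h3 := (τ (i.val + j.val) i).2
      have h4 : i2.val + j.val = (i.val + j.val) + 1 := by omega
      have h5 : h * ((i.val + j.val) + 1) = h * (i.val + j.val) + h := by ring
      rw [h4, h5]
      omega
    have h3 := Fin.lt_def.mp h2
    show (Tk τ (j, i)).val < m
    omega
  · intro t ht t' ht' htt
    simp only [Finset.coe_filter, Set.mem_ofPred_eq, Finset.mem_univ, true_and] at ht ht'
    obtain ⟨⟨j, i2⟩, rfl⟩ := (Tk (w := w) τ).surjective t
    obtain ⟨⟨j', i2'⟩, rfl⟩ := (Tk (w := w) τ).surjective t'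
    rw [yk_Tk] at ht ht'
    have h1 := (Tk (w := w) τ).injective htt
    simp only [Equiv.symm_apply_apply, Prod.mk.injEq, and_true] at h1
    rw [h1]
    have h2 : i2 = i2' := ht.2.trans ht'.2.symm
    rw [h2]

theorem Tk_eq_Ty (τ : ℕ → Perm (Fin h)) (q : Fin w × Fin h) :
    Tk τ q = Ty (yk w τ) (yk_Bal τ) q := by
  obtain ⟨j, i⟩ := q
  rw [Ty_apply]
  have h1 : (fun j : Fin w => Tk τ (j, i)) =
      (univ.filter fun t => yk w τ t = i).orderEmbOfFin (yk_Bal τ i) := by
    refine Finset.orderEmbOfFin_unique _ ?_ ?_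
    · intro j
      rw [mem_filter, yk_Tk]
      exact ⟨mem_univ _, rfl⟩
    · intro j j' hj
      show Tk τ (j, i) < Tk τ (j', i)
      rw [Tk_lt]
      simp only [Kk]
      have h3 := (τ (i.val + j.val) i).2
      have h5 := Fin.lt_def.mp hj
      have h4 : h * ((i.val + j.val) + 1) ≤ h * (i.val + j'.val) :=
        Nat.mul_le_mul_left _ (by omega)
      rw [Nat.mul_add] at h4
      omega
  exact congrFun h1 j

theorem yk_inj {a r : ℕ} (hh : h = a + 1) (hw : w = r + a) (τ τ' : ℕ → Perm (Fin h))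
    (hy : yk w τ = yk w τ') (d : ℕ) (hd : a ≤ d) (hd' : d < a + r) : τ d = τ' d := by
  have h1 : ∀ q q' : Fin w × Fin h, Kk τ q < Kk τ q' ↔ Kk τ' q < Kk τ' q' := by
    intro q q'
    rw [← Tk_lt, ← Tk_lt, Tk_eq_Ty, Tk_eq_Ty, Tk_eq_Ty, Tk_eq_Ty]
    have h2 : ∀ (y y' : Fin (w * h) → Fin h) (hy1 : Bal w y) (hy2 : Bal w y') (q : Fin w × Fin h),
        y = y' → Ty y hy1 q = Ty y' hy2 q := by
      rintro y _ hy1 hy2 q rfl
      rfl
    rw [h2 _ _ (yk_Bal τ) (yk_Bal τ') q hy, h2 _ _ (yk_Bal τ) (yk_Bal τ') q' hy]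
  have hlt : ∀ i : Fin h, d - i.val < w := by
    intro i
    omega
  have hK : ∀ (τ : ℕ → Perm (Fin h)) (i : Fin h),
      Kk (w := w) τ (⟨d - i.val, hlt i⟩, i) = h * d + (τ d i).val := by
    intro τ i
    have h3 : i.val + (d - i.val) = d := by
      have := i.2
      omega
    simp only [Kk, h3]
  have h2 : ∀ i i' : Fin h, τ d i < τ d i' → τ' d i < τ' d i' := by
    intro i i' hii
    have h3 := h1 (⟨d - i.val, hlt i⟩, i) (⟨d - i'.val, hlt i'⟩, i')
    rw [hK, hK, hK, hK] at h3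
    have h4 := Fin.lt_def.mp hii
    have h5 := h3.mp (by omega)
    rw [Fin.lt_def]
    omega
  have h3 : StrictMono (fun x : Fin h => τ' d ((τ d).symm x)) := by
    intro x x' hx
    refine h2 _ _ ?_
    rwa [Equiv.apply_symm_apply, Equiv.apply_symm_apply]
  have h4 : (fun x : Fin h => τ' d ((τ d).symm x)) = id := by
    refine (StrictMono.range_inj h3 strictMono_id).mp ?_
    rw [Set.range_id]
    exact Set.range_eq_univ.mpr ((τ' d).surjective.comp (τ d).symm.surjective)
  ext i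
  have h5 := congrFun h4 (τ d i)
  simp only [Equiv.symm_apply_apply, id] at h5
  rw [h5]

/-- many lattice words -/
theorem card_YT {a r : ℕ} (hh : h = a + 1) (hw : w = r + a) :
    h.factorial ^ r ≤ Fintype.card (YT (w * h) h w) := by
  classical
  let ext : (Fin r → Perm (Fin h)) → (ℕ → Perm (Fin h)) := fun σ d =>
    if hd : a ≤ d ∧ d < a + r then σ ⟨d - a, by omega⟩ else 1
  let f : (Fin r → Perm (Fin h)) → YT (w * h) h w := fun σ => ⟨yk w (ext σ), yk_Yam (ext σ)⟩
  have hf : Function.Injective f := by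
    intro σ σ' hσ
    have h1 : yk w (ext σ) = yk w (ext σ') := congrArg YT.c hσ
    funext s
    have h2 := yk_inj hh hw (ext σ) (ext σ') h1 (a + s.val) (by omega) (by have := s.2; omega)
    have h3 : ∀ σ : Fin r → Perm (Fin h), ext σ (a + s.val) = σ s := by
      intro σ
      have h4 : a ≤ a + s.val ∧ a + s.val < a + r := ⟨by omega, by have := s.2; omega⟩
      simp only [ext]
      rw [dif_pos h4]
      congr 1
      exact Fin.ext (by simp)
    rw [h3, h3] at h2
    exact h2
  have h1 := Fintype.card_le_of_injective f hf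
  rw [Fintype.card_fun, Fintype.card_perm, Fintype.card_fin, Fintype.card_fin] at h1
  exact h1

theorem pow_bound (b s : ℕ) : b ^ s * (b + s + 1) ≤ (b + 1) ^ (s + 1) := by
  induction s with
  | zero => simp
  | succ s ih =>
    calc b ^ (s + 1) * (b + (s + 1) + 1) = b ^ s * (b * (b + s + 2)) := by ring
      _ ≤ b ^ s * ((b + s + 1) * (b + 1)) := Nat.mul_le_mul_left _ (by nlinarith)
      _ = (b ^ s * (b + s + 1)) * (b + 1) := by ring
      _ ≤ (b + 1) ^ (s + 1) * (b + 1) := Nat.mul_le_mul_right _ ih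
      _ = (b + 1) ^ (s + 1 + 1) := by ring

/-- choice of the parameters -/
theorem exists_param' (p C : ℕ) (hp : p.Prime) (hC : 0 < C) : ∃ h w M : ℕ, 0 < w * h ∧ w + 1 = p ^ M ∧
    C ^ (w * h) < Fintype.card (YT (w * h) h w) := by
  obtain ⟨h, hh1, hh2⟩ : ∃ h : ℕ, 0 < h ∧ C ^ h < h.factorial := by
    have h1 := Nat.eventually_pow_lt_factorial_sub C 0
    have h2 := Filter.eventually_gt_atTop 0
    obtain ⟨h, hh⟩ := (h1.and h2).exists
    exact ⟨h, hh.2, by simpa using hh.1⟩
  obtain ⟨a, rfl⟩ : ∃ a, h = a + 1 := ⟨h - 1, by omega⟩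
  set b := C ^ (a + 1) with hb
  set M := b ^ (a + 1) + a + 2 with hM
  have hpM : M < p ^ M := Nat.lt_pow_self hp.one_lt
  obtain ⟨s, hs⟩ : ∃ s, p ^ M - 1 = (s + 1) + a := ⟨p ^ M - 1 - a - 1, by omega⟩
  refine ⟨a + 1, p ^ M - 1, M, ?_, by omega, ?_⟩
  · exact Nat.mul_pos (by omega) (by omega)
  · refine lt_of_lt_of_le ?_ (card_YT (a := a) (r := s + 1) rfl hs)
    have h1 : C ^ ((p ^ M - 1) * (a + 1)) = b ^ (s + 1 + a) := by
      rw [hs, hb, ← pow_mul, mul_comm]
    rw [h1]
    have h2 : (b + 1) ^ (s + 1) ≤ (a + 1).factorial ^ (s + 1) := Nat.pow_le_pow_left hh2 _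
    refine lt_of_lt_of_le ?_ h2
    refine lt_of_lt_of_le ?_ (pow_bound b s)
    have hbpos : 0 < b := pow_pos hC _
    have h3 : b ^ (s + 1 + a) = b ^ s * b ^ (a + 1) := by
      rw [← pow_add]
      congr 1
      omega
    rw [h3]
    exact Nat.mul_lt_mul_of_pos_left (by omega) (pow_pos hbpos s)

theorem exists_param (p C : ℕ) (hp : p.Prime) : ∃ h w M : ℕ, 0 < w * h ∧ w + 1 = p ^ M ∧
    C ^ (w * h) < Fintype.card (YT (w * h) h w) := by
  obtain ⟨h, w, M, h1, h2, h3⟩ := exists_param' p (C + 1) hp (Nat.succ_pos C)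
  exact ⟨h, w, M, h1, h2, lt_of_le_of_lt (Nat.pow_le_pow_left (Nat.le_succ C) _) h3⟩

/-- The codimension theorem: alternating sums vanish. -/
theorem alt_zero {p : ℕ} [Fact p.Prime] {w h M : ℕ} (hpos : 0 < w * h) (hw : w + 1 = p ^ M)
    {V : Type*} [AddCommGroup V] [Module (ZMod p) V] (m : Perm (Fin (w * h)) → V)
    (hinv : ∀ α : Perm (Fin (w * h)) → ZMod p, ∑ σ, α σ • m σ = 0 →
      ∀ π, ∑ σ, α σ • m (π * σ) = 0)
    (hdim : Module.finrank (ZMod p) (Submodule.span (ZMod p) (Set.range m)) <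
      Fintype.card (YT (w * h) h w)) :
    ∑ σ, ((Perm.sign σ : ℤ) : ZMod p) • m σ = 0 := by
  classical
  by_contra hne
  set sg : Perm (Fin (w * h)) → ZMod p := fun σ => ((Perm.sign σ : ℤ) : ZMod p) with hsg
  have hsgmul : ∀ σ π, sg (π * σ) = sg π * sg σ := by
    intro σ π
    simp only [hsg, Perm.sign_mul, Units.val_mul, Int.cast_mul]
  obtain ⟨ψ, hψ⟩ : ∃ ψ : Module.Dual (ZMod p) V, ψ (∑ σ, sg σ • m σ) ≠ 0 := by
    by_contra hcon
    push Not at hcon
    exact hne ((Module.forall_dual_apply_eq_zero_iff (ZMod p) _).mp hcon)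
  set φ : Perm (Fin (w * h)) → ZMod p := fun σ => sg σ * ψ (m σ) with hφ
  have hsum : ∑ g, φ g ≠ 0 := by
    have h1 : ∑ g, φ g = ψ (∑ σ, sg σ • m σ) := by
      rw [map_sum]
      exact Finset.sum_congr rfl (fun g _ => by rw [map_smul, smul_eq_mul])
    rw [h1]
    exact hψ
  have hcard : 0 < Fintype.card (YT (w * h) h w) := lt_of_le_of_lt (Nat.zero_le _) hdim
  obtain ⟨y0⟩ := Fintype.card_pos_iff.mp hcard
  have hones : UU w (ones (n := w * h) (h := h) w (ZMod p)) := ones_UU (Fact.out) hw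
  have hv : rho (w := w) (ones (n := w * h) (h := h) w (ZMod p)) ≠ 0 := by
    intro h0
    have h1 := congrFun h0 y0
    simp only [rho, ones, if_pos y0.hc.1, Pi.zero_apply] at h1
    exact one_ne_zero h1
  have hact : ∀ g : Perm (Fin (w * h)), act g (ones (n := w * h) (h := h) w (ZMod p)) =
      ones (n := w * h) (h := h) w (ZMod p) := by
    intro g
    funext c
    simp only [act, ones, Bal_comp]
  have hA : ∀ g, ((Ah (w * h) h w g).map (Int.castRingHom (ZMod p))).mulVec
      (rho (w := w) (ones (n := w * h) (h := h) w (ZMod p))) =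
      rho (w := w) (ones (n := w * h) (h := h) w (ZMod p)) := by
    intro g
    have h1 := Am_act hones g
    rw [hact] at h1
    exact h1
  have hcore := core p (Ah (w * h) h w) _ hv hA (fun b hb => irr b hb) φ hsum
  refine absurd (lt_of_le_of_lt ?_ hdim) (not_lt.mpr hcore)
  -- the rank estimate
  set R : Matrix (Perm (Fin (w * h))) (Perm (Fin (w * h))) (ZMod p) :=
    Matrix.of fun x g => φ (x⁻¹ * g) with hR
  let Θ : (Perm (Fin (w * h)) → ZMod p) →ₗ[ZMod p] V :=
    Fintype.linearCombination (ZMod p) (fun g => sg g • m g)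
  have hΘ : ∀ α, Θ α = ∑ g, α g • sg g • m g := fun α => Fintype.linearCombination_apply _ _ _
  have hker : LinearMap.ker Θ ≤ LinearMap.ker R.mulVecLin := by
    intro α hα
    rw [LinearMap.mem_ker, hΘ] at hα
    rw [LinearMap.mem_ker, Matrix.mulVecLin_apply]
    funext x
    have h1 := hinv (fun g => α g * sg g) (by
      rw [← hα]
      exact Finset.sum_congr rfl (fun g _ => by rw [mul_smul])) x⁻¹
    have h2 := congrArg ψ h1
    rw [map_sum, map_zero] at h2
    simp only [Matrix.mulVec, dotProduct, hR, Matrix.of_apply, Pi.zero_apply, hφ]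
    have h3 : ∑ g, sg (x⁻¹ * g) * ψ (m (x⁻¹ * g)) * α g =
        sg x⁻¹ * ∑ g, ψ ((α g * sg g) • m (x⁻¹ * g)) := by
      rw [Finset.mul_sum]
      refine Finset.sum_congr rfl (fun g _ => ?_)
      rw [map_smul, hsgmul, smul_eq_mul]
      ring
    rw [h3, h2, mul_zero]
  have hrank : R.rank = Module.finrank (ZMod p) (LinearMap.range R.mulVecLin) := rfl
  rw [hrank]
  have e1 := LinearMap.finrank_range_add_finrank_ker R.mulVecLin
  have e2 := LinearMap.finrank_range_add_finrank_ker Θ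
  have e3 := Submodule.finrank_mono hker
  have e4 : Module.finrank (ZMod p) (LinearMap.range Θ) ≤
      Module.finrank (ZMod p) (Submodule.span (ZMod p) (Set.range m)) := by
    have : FiniteDimensional (ZMod p) (Submodule.span (ZMod p) (Set.range m)) :=
      FiniteDimensional.span_of_finite _ (Set.finite_range m)
    refine Submodule.finrank_mono ?_
    rintro _ ⟨α, rfl⟩
    rw [hΘ]
    refine Submodule.sum_mem _ (fun g _ => Submodule.smul_mem _ _ (Submodule.smul_mem _ _ ?_))
    exact Submodule.subset_span ⟨g, rfl⟩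
  omega

end Pool.Agent.Q11.Kem
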