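import Pool.Agent.Q11.KemG
import Pool.Agent.Q11.KemA

/-!
From a multilinear identity to a Capelli identity in characteristic `p`.
-/

namespace Pool.Agent.Q11.Kem

open Finset Equiv

section word

variable {k : Type*} [Field k] {U : Type*} [Ring U] [Algebra k U]

/-- the word `σ 0, 0, σ 1, 1, …` -/
def wd {n : ℕ} (σ : Perm (Fin n)) : List (Fin (n + n)) :=
  (List.finRange n).flatMap (fun i => [Fin.castAdd n (σ i), Fin.natAdd n i])

theorem wd_prod {n : ℕ} (X A : Fin n → U) (σ : Perm (Fin n)) (l : List (Fin n)) :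
    ((l.flatMap (fun i => [Fin.castAdd n (σ i), Fin.natAdd n i])).map (Fin.append X A)).prod =
      (l.map fun i => X (σ i) * A i).prod := by
  induction l with
  | nil => rfl
  | cons i l ih =>
    rw [List.flatMap_cons, List.map_append, List.prod_append, ih, List.map_cons, List.prod_cons]
    simp only [List.map_cons, List.map_nil, List.prod_cons, List.prod_nil, Fin.append_left,
      Fin.append_right, mul_one]

theorem wd_perm {n : ℕ} (σ : Perm (Fin n)) : (wd σ).Perm (List.finRange (n + n)) := by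
  have hmem : ∀ x, x ∈ wd σ := by
    intro x
    refine Fin.addCases (fun i => ?_) (fun i => ?_) x
    · refine List.mem_flatMap.mpr ⟨σ.symm i, List.mem_finRange _, ?_⟩
      simp
    · refine List.mem_flatMap.mpr ⟨i, List.mem_finRange _, ?_⟩
      simp
  have hlen : (wd σ).length = n + n := by
    simp [wd, List.length_flatMap, mul_two]
  have h1 : (List.finRange (n + n)).Subperm (wd σ) :=
    (List.subperm_of_subset (List.nodup_finRange _) (fun x _ => hmem x))
  exact (h1.perm_of_length_le (by rw [hlen, List.length_finRange])).symm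

theorem wd_mem {n : ℕ} (X A : Fin n → U) (σ : Perm (Fin n)) :
    (List.ofFn fun i => X (σ i) * A i).prod ∈ Set.range (pmon (Fin.append X A)) := by
  obtain ⟨π, hπ⟩ := exists_perm (wd σ) (wd_perm σ)
  refine ⟨π, ?_⟩
  rw [pmon, mon, ← hπ, wd, wd_prod, List.ofFn_eq_map]

end word

theorem finrank_cap {k : Type*} [Field k] {U : Type*} [Ring U] [Algebra k U]
    {N n : ℕ} (z : Perm (Fin (N + 1)) → k) (hz : z 1 ≠ 0) (S : Set U)
    (hS : ∀ a ∈ S, ∀ b ∈ S, a * b ∈ S)
    (hid : ∀ y : Fin (N + 1) → U, (∀ i, y i ∈ S) →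
      ∑ τ : Perm (Fin (N + 1)), z τ • (List.ofFn fun i => y (τ i)).prod = 0)
    (X A : Fin n → U) (hX : ∀ i, X i ∈ S) (hA : ∀ i, A i ∈ S) :
    Module.finrank k (Submodule.span k (Set.range fun σ : Perm (Fin n) =>
      (List.ofFn fun i => X (σ i) * A i).prod)) ≤ (N ^ 4) ^ n := by
  have h1 := finrank_span z hz S hS hid (Fin.append X A) (by
    intro i
    refine Fin.addCases (fun j => ?_) (fun j => ?_) i
    · rw [Fin.append_left]
      exact hX j
    · rw [Fin.append_right]
      exact hA j)
  have h2 : N ^ (2 * (n + n)) = (N ^ 4) ^ n := by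
    rw [← pow_mul]
    congr 1
    ring
  rw [h2] at h1
  refine le_trans ?_ h1
  have : FiniteDimensional k (Submodule.span k (Set.range (pmon (Fin.append X A)))) :=
    FiniteDimensional.span_of_finite _ (Set.finite_range _)
  refine Submodule.finrank_mono (Submodule.span_mono ?_)
  rintro _ ⟨σ, rfl⟩
  exact wd_mem X A σ

/-- A multilinear identity implies a Capelli identity in characteristic `p`. -/
theorem cap_of_id {p : ℕ} [Fact p.Prime] {U : Type*} [Ring U] [Algebra (ZMod p) U] (T : Set U)
    (hT : ∀ a ∈ T, ∀ b ∈ T, a * b ∈ T) {N : ℕ} (z : Perm (Fin (N + 1)) → ZMod p) (hz : z 1 ≠ 0)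
    (hid : ∀ y : Fin (N + 1) → U, (∀ i, y i ∈ T) →
      ∑ τ : Perm (Fin (N + 1)), z τ • (List.ofFn fun i => y (τ i)).prod = 0) :
    ∃ n : ℕ, 0 < n ∧ ∀ x a : Fin n → U, (∀ i, x i ∈ T) → (∀ i, a i ∈ T) →
      ∑ σ : Perm (Fin n), (Perm.sign σ : ℤ) • (List.ofFn fun i => x (σ i) * a i).prod = 0 := by
  classical
  obtain ⟨h, w, M, hpos, hw, hcard⟩ := exists_param p (N ^ 4) Fact.out
  refine ⟨w * h, hpos, ?_⟩
  set n := w * h with hn
  let Q := (Fin n → T) × (Fin n → T)
  let X : Fin n → (Q → U) := fun i q => (q.1 i : U)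
  let A : Fin n → (Q → U) := fun i q => (q.2 i : U)
  let S : Set (Q → U) := {f | ∀ q, f q ∈ T}
  let m : Perm (Fin n) → (Q → U) := fun σ => (List.ofFn fun i => X (σ i) * A i).prod
  have hev : ∀ (q : Q) (l : List (Q → U)), l.prod q = (l.map fun f => f q).prod := by
    intro q l
    induction l with
    | nil => rfl
    | cons f l ih => rw [List.prod_cons, Pi.mul_apply, ih, List.map_cons, List.prod_cons]
  have hm : ∀ σ q, m σ q = (List.ofFn fun i => (q.1 (σ i) : U) * (q.2 i : U)).prod := by
    intro σ q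
    show (List.ofFn fun i => X (σ i) * A i).prod q = _
    rw [hev, List.map_ofFn]
    rfl
  have h1 : ∑ σ, ((Perm.sign σ : ℤ) : ZMod p) • m σ = 0 := by
    refine alt_zero hpos hw m ?_ ?_
    · intro α hα π
      funext q
      have h2 := congrFun hα (fun i => q.1 (π i), q.2)
      rw [Finset.sum_apply] at h2 ⊢
      rw [Pi.zero_apply] at h2 ⊢
      rw [← h2]
      refine Finset.sum_congr rfl (fun σ _ => ?_)
      rw [Pi.smul_apply, Pi.smul_apply, hm, hm]
      rfl
    · refine lt_of_le_of_lt ?_ hcard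
      refine finrank_cap z hz S ?_ ?_ X A ?_ ?_
      · intro f hf g hg q
        exact hT _ (hf q) _ (hg q)
      · intro y hy
        funext q
        rw [Finset.sum_apply, Pi.zero_apply]
        rw [← hid (fun i => y i q) (fun i => hy i q)]
        refine Finset.sum_congr rfl (fun τ _ => ?_)
        rw [Pi.smul_apply, hev, List.map_ofFn]
        rfl
      · intro i q
        exact (q.1 i).2
      · intro i q
        exact (q.2 i).2
  intro x a hx ha
  have h2 := congrFun h1 (fun i => ⟨x i, hx i⟩, fun i => ⟨a i, ha i⟩)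
  rw [Finset.sum_apply, Pi.zero_apply] at h2
  rw [← h2]
  refine Finset.sum_congr rfl (fun σ _ => ?_)
  rw [Pi.smul_apply, hm]
  exact (Int.cast_smul_eq_zsmul (ZMod p) _ _).symm

end Pool.Agent.Q11.Kem
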