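import Mathlib

/-!
Linearization of a polynomial identity.
-/

namespace Pool.Agent.Q11.Kem

open Finset Equiv

/-- alternating sum over the sets containing the image -/
theorem alt_sets {k : Type*} [CommRing k] {d e : ℕ} (g : Fin e → Fin d) :
    ∑ S ∈ (univ : Finset (Fin d)).powerset, (-1 : k) ^ S.card * ∏ s, (if g s ∈ S then 1 else 0) =
      if Function.Surjective g then (-1) ^ d else 0 := by
  classical
  have h1 : ∀ S ∈ (univ : Finset (Fin d)).powerset,
      (-1 : k) ^ S.card * ∏ s, (if g s ∈ S then (1 : k) else 0) =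
      (∏ t ∈ S, (-1 : k)) * ∏ t ∈ univ \ S, (if t ∈ Set.range g then (0 : k) else 1) := by
    intro S _
    rw [Finset.prod_const]
    congr 1
    by_cases hS : ∀ s, g s ∈ S
    · rw [Finset.prod_eq_one (fun s _ => if_pos (hS s))]
      symm
      refine Finset.prod_eq_one (fun t ht => ?_)
      rw [if_neg]
      rintro ⟨s, rfl⟩
      exact (Finset.mem_sdiff.mp ht).2 (hS s)
    · push Not at hS
      obtain ⟨s, hs⟩ := hS
      rw [Finset.prod_eq_zero (Finset.mem_univ s) (if_neg hs)]
      symm
      refine Finset.prod_eq_zero (i := g s) ?_ (if_pos ⟨s, rfl⟩)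
      exact Finset.mem_sdiff.mpr ⟨Finset.mem_univ _, hs⟩
  rw [Finset.sum_congr rfl h1, ← Finset.prod_add]
  by_cases hg : Function.Surjective g
  · rw [if_pos hg]
    have h2 : ∀ t ∈ (univ : Finset (Fin d)),
        ((-1 : k) + if t ∈ Set.range g then (0 : k) else 1) = -1 := by
      intro t _
      rw [if_pos (show t ∈ Set.range g from hg t), add_zero]
    rw [Finset.prod_congr rfl h2, Finset.prod_const, Finset.card_univ, Fintype.card_fin]
  · rw [if_neg hg]
    obtain ⟨t, ht⟩ : ∃ t, t ∉ Set.range g := by
      by_contra hcon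
      push Not at hcon
      exact hg (fun t => hcon t)
    refine Finset.prod_eq_zero (Finset.mem_univ t) ?_
    rw [if_neg ht]
    ring

variable {k : Type*} [Field k] {U : Type*} [Ring U] [Algebra k U]

/-- the substitution -/
def sub {d : ℕ} (i : Fin d → ℕ) (Y : Fin d → U) (S : Finset (Fin d)) (j : ℕ) : U :=
  ∑ t, if t ∈ S ∧ i t = j then Y t else 0

theorem expand {d e : ℕ} (i : Fin d → ℕ) (Y : Fin d → U) (S : Finset (Fin d)) (u : Fin e → ℕ) :
    (List.ofFn fun s => sub i Y S (u s)).prod =
      ∑ g : Fin e → Fin d, (∏ s, (if g s ∈ S then (1 : k) else 0)) •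
        (List.ofFn fun s => if i (g s) = u s then Y (g s) else 0).prod := by
  classical
  have h1 : (List.ofFn fun s => sub i Y S (u s)).prod =
      MultilinearMap.mkPiAlgebraFin k e U (fun s => ∑ t : Fin d,
        (if t ∈ S then (1 : k) else 0) • (if i t = u s then Y t else 0)) := by
    rw [MultilinearMap.mkPiAlgebraFin_apply]
    congr 2
    funext s
    unfold sub
    refine Finset.sum_congr rfl (fun t _ => ?_)
    by_cases h1 : t ∈ S
    · by_cases h2 : i t = u s
      · rw [if_pos ⟨h1, h2⟩, if_pos h1, if_pos h2, one_smul]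
      · rw [if_neg (fun h => h2 h.2), if_neg h2, smul_zero]
    · rw [if_neg (fun h => h1 h.1), if_neg h1, zero_smul]
  rw [h1, MultilinearMap.map_sum]
  refine Finset.sum_congr rfl (fun g _ => ?_)
  rw [MultilinearMap.map_smul_univ, MultilinearMap.mkPiAlgebraFin_apply]

theorem list_prod_zero {e : ℕ} (f : Fin e → U) (s : Fin e) (hs : f s = 0) :
    (List.ofFn f).prod = 0 := by
  refine List.prod_eq_zero ?_
  rw [List.mem_ofFn]
  exact ⟨s, hs⟩

/-- the alternating sum of the values of a word -/
theorem alt_word {d : ℕ} (i : Fin d → ℕ) (Y : Fin d → U) (w : List ℕ) (hw : w.length ≤ d) :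
    ∑ S ∈ (univ : Finset (Fin d)).powerset, (-1 : k) ^ S.card • (w.map (sub i Y S)).prod =
      ∑ π : Perm (Fin d), if List.ofFn (fun s => i (π s)) = w then
        (-1 : k) ^ d • (List.ofFn fun s => Y (π s)).prod else 0 := by
  classical
  obtain ⟨e, u, rfl⟩ : ∃ (e : ℕ) (u : Fin e → ℕ), w = List.ofFn u :=
    ⟨w.length, w.get, (List.ofFn_get w).symm⟩
  rw [List.length_ofFn] at hw
  have h1 : ∀ S ∈ (univ : Finset (Fin d)).powerset,
      (-1 : k) ^ S.card • ((List.ofFn u).map (sub i Y S)).prod =
      ∑ g : Fin e → Fin d, ((-1 : k) ^ S.card * ∏ s, (if g s ∈ S then (1 : k) else 0)) •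
        (List.ofFn fun s => if i (g s) = u s then Y (g s) else 0).prod := by
    intro S _
    rw [List.map_ofFn]
    have h2 := expand (k := k) i Y S u
    rw [show (sub i Y S ∘ u) = fun s => sub i Y S (u s) from rfl, h2, Finset.smul_sum]
    exact Finset.sum_congr rfl (fun g _ => by rw [mul_smul])
  rw [Finset.sum_congr rfl h1, Finset.sum_comm]
  have h2 : ∀ g ∈ (univ : Finset (Fin e → Fin d)),
      ∑ S ∈ (univ : Finset (Fin d)).powerset,
        ((-1 : k) ^ S.card * ∏ s, (if g s ∈ S then (1 : k) else 0)) •
          (List.ofFn fun s => if i (g s) = u s then Y (g s) else 0).prod =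
      if Function.Surjective g then (-1 : k) ^ d •
          (List.ofFn fun s => if i (g s) = u s then Y (g s) else 0).prod else 0 := by
    intro g _
    rw [← Finset.sum_smul, alt_sets]
    split_ifs
    · rfl
    · rw [zero_smul]
  rw [Finset.sum_congr rfl h2]
  rcases Nat.lt_or_ge e d with hed | hed
  · rw [Finset.sum_eq_zero, Finset.sum_eq_zero]
    · intro π _
      rw [if_neg]
      intro h3
      have h4 := congrArg List.length h3
      rw [List.length_ofFn, List.length_ofFn] at h4
      omega
    · intro g _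
      rw [if_neg]
      intro hg
      have h4 := Fintype.card_le_of_surjective g hg
      rw [Fintype.card_fin, Fintype.card_fin] at h4
      omega
  · obtain rfl : e = d := le_antisymm hw hed
    symm
    have h5 : ∑ g : Fin e → Fin e, (if Function.Surjective g then (-1 : k) ^ e •
          (List.ofFn fun s => if i (g s) = u s then Y (g s) else 0).prod else 0) =
        ∑ g ∈ univ.filter (fun g : Fin e → Fin e => Function.Surjective g), (-1 : k) ^ e •
          (List.ofFn fun s => if i (g s) = u s then Y (g s) else 0).prod :=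
      (Finset.sum_filter _ _).symm
    rw [h5]
    refine Finset.sum_bij (fun (π : Perm (Fin e)) _ => (π : Fin e → Fin e)) ?_ ?_ ?_ ?_
    · intro π _
      exact Finset.mem_filter.mpr ⟨Finset.mem_univ _, π.surjective⟩
    · intro π _ π' _ hππ
      exact DFunLike.coe_injective hππ
    · intro g hg
      have hg2 := (Finset.mem_filter.mp hg).2
      exact ⟨Equiv.ofBijective g (Finite.surjective_iff_bijective.mp hg2), Finset.mem_univ _, rfl⟩
    · intro π _
      by_cases h6 : ∀ s, i (π s) = u s
      · rw [if_pos (congrArg List.ofFn (funext h6))]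
        congr 3
        funext s
        rw [if_pos (h6 s)]
      · rw [if_neg]
        · push Not at h6
          obtain ⟨s, hs⟩ := h6
          rw [list_prod_zero _ s (if_neg hs), smul_zero]
        · intro h7
          refine h6 (fun s => ?_)
          exact congrFun (List.ofFn_injective h7) s

/-- Linearization. -/
theorem linearize (T : Set U) (hT0 : (0 : U) ∈ T) (hTa : ∀ a ∈ T, ∀ b ∈ T, a + b ∈ T)
    (f : List ℕ →₀ k) (hf : f ≠ 0)
    (hid : ∀ y : ℕ → U, (∀ i, y i ∈ T) → (f.sum fun w c => c • (w.map y).prod) = 0) :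
    ∃ (N : ℕ) (z : Perm (Fin (N + 1)) → k), z 1 ≠ 0 ∧ ∀ y : Fin (N + 1) → U, (∀ i, y i ∈ T) →
      ∑ τ : Perm (Fin (N + 1)), z τ • (List.ofFn fun i => y (τ i)).prod = 0 := by
  classical
  obtain ⟨w0, hw0, hmax⟩ := Finset.exists_max_image f.support List.length
    (Finsupp.support_nonempty_iff.mpr hf)
  have hc0 : f w0 ≠ 0 := Finsupp.mem_support_iff.mp hw0
  by_cases hlen : w0.length = 0
  · -- then `1 = 0` in `U`
    have hnil : ∀ w ∈ f.support, w = [] := by
      intro w hw
      have := hmax w hw
      exact List.length_eq_zero_iff.mp (by omega)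
    have h1 := hid (fun _ => 0) (fun _ => hT0)
    have hw00 : w0 = [] := hnil w0 hw0
    have h2 : (f.sum fun w c => c • (w.map (fun _ : ℕ => (0 : U))).prod) = f w0 • (1 : U) := by
      rw [Finsupp.sum, Finset.sum_eq_single_of_mem w0 hw0]
      · rw [hw00]
        rfl
      · intro w hw hne
        exact absurd ((hnil w hw).trans hw00.symm) hne
    rw [h2] at h1
    have h3 : (1 : U) = 0 := by
      have h4 := congrArg (fun u => (f w0)⁻¹ • u) h1
      simpa [smul_smul, inv_mul_cancel₀ hc0] using h4
    refine ⟨0, fun _ => 1, one_ne_zero, ?_⟩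
    intro y _
    have h4 : ∀ u : U, u = 0 := fun u => by rw [← mul_one u, h3, mul_zero]
    exact h4 _
  · obtain ⟨N, hN⟩ : ∃ N, w0.length = N + 1 := ⟨w0.length - 1, by omega⟩
    obtain ⟨i, hi⟩ : ∃ i : Fin (N + 1) → ℕ, w0 = List.ofFn i := by
      rw [← hN]
      exact ⟨w0.get, (List.ofFn_get w0).symm⟩
    refine ⟨N, fun π => f (List.ofFn fun s => i (π s)), ?_, ?_⟩
    · show f (List.ofFn fun s => i s) ≠ 0
      rw [← hi]
      exact hc0
    · intro Y hY
      have hsub : ∀ S j, sub i Y S j ∈ T := by
        intro S j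
        unfold sub
        refine Finset.sum_induction _ (fun u => u ∈ T) (fun a b ha hb => hTa a ha b hb) hT0 ?_
        intro t _
        split_ifs
        · exact hY t
        · exact hT0
      have h1 : ∑ S ∈ (univ : Finset (Fin (N + 1))).powerset, (-1 : k) ^ S.card •
          (f.sum fun w c => c • (w.map (sub i Y S)).prod) = 0 := by
        refine Finset.sum_eq_zero (fun S _ => ?_)
        rw [hid _ (hsub S), smul_zero]
      have h2 : ∑ S ∈ (univ : Finset (Fin (N + 1))).powerset, (-1 : k) ^ S.card •
          (f.sum fun w c => c • (w.map (sub i Y S)).prod) =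
          ∑ w ∈ f.support, f w • ∑ S ∈ (univ : Finset (Fin (N + 1))).powerset,
            (-1 : k) ^ S.card • (w.map (sub i Y S)).prod := by
        simp only [Finsupp.sum, Finset.smul_sum]
        rw [Finset.sum_comm]
        refine Finset.sum_congr rfl (fun w _ => Finset.sum_congr rfl (fun S _ => ?_))
        rw [smul_smul, smul_smul, mul_comm]
      rw [h2] at h1
      have h3 : ∀ w ∈ f.support, f w • ∑ S ∈ (univ : Finset (Fin (N + 1))).powerset,
            (-1 : k) ^ S.card • (w.map (sub i Y S)).prod =
          ∑ π : Perm (Fin (N + 1)), if List.ofFn (fun s => i (π s)) = w then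
            (f w * (-1 : k) ^ (N + 1)) • (List.ofFn fun s => Y (π s)).prod else 0 := by
        intro w hw
        have h4 := hmax w hw
        rw [alt_word i Y w (by omega), Finset.smul_sum]
        refine Finset.sum_congr rfl (fun π _ => ?_)
        split_ifs
        · rw [smul_smul]
        · rw [smul_zero]
      rw [Finset.sum_congr rfl h3, Finset.sum_comm] at h1
      have h4 : ∀ π ∈ (univ : Finset (Perm (Fin (N + 1)))),
          ∑ w ∈ f.support, (if List.ofFn (fun s => i (π s)) = w then
            (f w * (-1 : k) ^ (N + 1)) • (List.ofFn fun s => Y (π s)).prod else 0) =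
          (-1 : k) ^ (N + 1) • (f (List.ofFn fun s => i (π s)) •
            (List.ofFn fun s => Y (π s)).prod) := by
        intro π _
        rw [Finset.sum_ite_eq]
        split_ifs with h5
        · rw [smul_smul, mul_comm]
        · rw [Finsupp.notMem_support_iff.mp h5, zero_smul, smul_zero]
      rw [Finset.sum_congr rfl h4, ← Finset.smul_sum] at h1
      have h5 := congrArg (fun u => ((-1 : k) ^ (N + 1)) • u) h1
      simp only [smul_smul, smul_zero] at h5
      rw [← mul_pow] at h5
      simpa using h5

end Pool.Agent.Q11.Kem
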