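import Pool.Agent.Q11.KemH
import Pool.Agent.Q11.KemI
import Pool.Agent.Q11.CapH

/-!
Rings with a polynomial identity that coincide with their derived ring have divisible additive
groups.
-/

universe u

namespace Pool.Agent.Q11.Kem

open Finset Equiv Pool.Agent.Q11.Cap

section general

variable {U0 : Type*} [Ring U0]

theorem mem_span_nat (p : ℕ) (u : U0) : u ∈ Ideal.span {(p : U0)} ↔ ∃ v, v * (p : U0) = u :=
  Ideal.mem_span_singleton'

theorem twoSided (p : ℕ) : (Ideal.span {(p : U0)}).IsTwoSided := by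
  refine ⟨?_⟩
  intro a b ha
  obtain ⟨v, rfl⟩ := (mem_span_nat p a).mp ha
  refine (mem_span_nat p _).mpr ⟨v * b, ?_⟩
  rw [mul_assoc, mul_assoc, (Nat.cast_commute p b).eq]

/-- divisibility by `p` of an ideal equal to its derived ring, with a polynomial identity -/
theorem pdiv (I0 : Ideal U0) [hI0 : I0.IsTwoSided] (hcomm : Comm I0) (p : ℕ) [Fact p.Prime]
    (hchar : ∀ n : ℕ, (∃ v : U0, v * (p : U0) = (n : U0)) → p ∣ n)
    (f : List ℕ →₀ ℤ) (w1 : List ℕ) (hf : ¬ (p : ℤ) ∣ f w1)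
    (hid : ∀ r : ℕ → U0, (∀ i, r i ∈ I0) → (f.sum fun w c => c • (w.map r).prod) = 0) :
    ∀ a ∈ I0, ∃ v : U0, v * (p : U0) = a := by
  classical
  have hJ : (Ideal.span {(p : U0)}).IsTwoSided := twoSided p
  set J : Ideal U0 := Ideal.span {(p : U0)} with hJdef
  let π : U0 →+* U0 ⧸ J := Ideal.Quotient.mk J
  have hπs : Function.Surjective π := Ideal.Quotient.mk_surjective
  have hcp : CharP (U0 ⧸ J) p := by
    refine ⟨fun n => ?_⟩
    constructor
    · intro h
      have h1 : (n : U0) ∈ J := by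
        rw [← Ideal.Quotient.eq_zero_iff_mem]
        exact (map_natCast π n).trans h
      exact hchar n ((mem_span_nat p _).mp h1)
    · rintro ⟨c, rfl⟩
      have h1 : ((p * c : ℕ) : U0) ∈ J := by
        refine (mem_span_nat p _).mpr ⟨c, ?_⟩
        rw [Nat.cast_mul, (Nat.cast_commute p (c : U0)).eq]
      have h2 := Ideal.Quotient.eq_zero_iff_mem.mpr h1
      exact (map_natCast π _).symm.trans h2
  let _ : Algebra (ZMod p) (U0 ⧸ J) := ZMod.algebra _ p
  -- the image of the ideal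
  let T : Set (U0 ⧸ J) := π '' (I0 : Set U0)
  have hfb : f.mapRange (Int.castRingHom (ZMod p)) (map_zero _) ≠ 0 := by
    intro h0
    have h1 := DFunLike.congr_fun h0 w1
    rw [Finsupp.mapRange_apply, Finsupp.zero_apply] at h1
    exact hf ((ZMod.intCast_zmod_eq_zero_iff_dvd _ p).mp h1)
  have hidb : ∀ y : ℕ → U0 ⧸ J, (∀ i, y i ∈ T) →
      ((f.mapRange (Int.castRingHom (ZMod p)) (map_zero _)).sum fun w c =>
        c • (w.map y).prod) = 0 := by
    intro y hy
    choose r hr hry using hy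
    rw [Finsupp.sum_mapRange_index (fun w => by rw [zero_smul])]
    have h1 := congrArg π (hid r hr)
    rw [map_zero, Finsupp.sum, map_sum] at h1
    rw [Finsupp.sum, ← h1]
    refine Finset.sum_congr rfl (fun w _ => ?_)
    rw [map_zsmul, map_list_prod, List.map_map]
    have h2 : (⇑π ∘ r) = y := funext hry
    rw [h2]
    exact Int.cast_smul_eq_zsmul (ZMod p) _ _
  obtain ⟨N, z, hz, hzid⟩ := linearize (k := ZMod p) T ⟨0, I0.zero_mem, map_zero π⟩
    (by
      rintro _ ⟨a, ha, rfl⟩ _ ⟨b, hb, rfl⟩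
      exact ⟨a + b, I0.add_mem ha hb, map_add π a b⟩) _ hfb hidb
  obtain ⟨n, hn, hcap⟩ := cap_of_id T
    (by
      rintro _ ⟨a, ha, rfl⟩ _ ⟨b, hb, rfl⟩
      exact ⟨a * b, I0.mul_mem_left a hb, map_mul π a b⟩) z hz hzid
  let I : Ideal (U0 ⧸ J) := I0.map π
  have hImem : ∀ u, u ∈ I ↔ ∃ a ∈ I0, π a = u := fun u => Ideal.mem_map_iff_of_surjective π hπs
  have hIts : I.IsTwoSided := by
    refine ⟨?_⟩
    intro a b ha
    obtain ⟨a', ha', rfl⟩ := (hImem a).mp ha
    obtain ⟨b', rfl⟩ := hπs b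
    exact (hImem _).mpr ⟨a' * b', I0.mul_mem_right _ ha', map_mul π _ _⟩
  have hI0all : ∀ a ∈ I, a = 0 := by
    refine main_weak (I := I) ?_ (n := n) ?_
    · intro a ha
      obtain ⟨a', ha', rfl⟩ := (hImem a).mp ha
      have h1 := hcomm a' ha'
      refine AddSubgroup.closure_induction (p := fun (c : U0) _ => π c ∈
        AddSubgroup.closure {c : U0 ⧸ J | ∃ a ∈ I, ∃ b ∈ I, c = a * b - b * a}) ?_ ?_ ?_ ?_ h1
      · rintro c ⟨a, ha, b, hb, rfl⟩
        refine AddSubgroup.subset_closure ⟨π a, (hImem _).mpr ⟨a, ha, rfl⟩, π b,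
          (hImem _).mpr ⟨b, hb, rfl⟩, ?_⟩
        rw [map_sub, map_mul, map_mul]
      · rw [map_zero]
        exact AddSubgroup.zero_mem _
      · intro a b _ _ ha hb
        rw [map_add]
        exact AddSubgroup.add_mem _ ha hb
      · intro a _ ha
        rw [map_neg]
        exact AddSubgroup.neg_mem _ ha
    · intro x a hx ha
      exact hcap x a (fun i => (hImem _).mp (hx i)) (fun i => (hImem _).mp (ha i))
  intro a ha
  have h1 := hI0all (π a) ((hImem _).mpr ⟨a, ha, rfl⟩)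
  exact (mem_span_nat p a).mp (Ideal.Quotient.eq_zero_iff_mem.mp h1)

end general

/-- The value of the noncommutative polynomial `f` (a finite integral combination of words in the
variables `x_0, x_1, …`) at the elements `r 0, r 1, …` of `R`, computed in `ℤ ⊕ R`. -/
noncomputable def evalPoly {R : Type u} [NonUnitalRing R] (f : List ℕ →₀ ℤ) (r : ℕ → R) :
    Unitization ℤ R :=
  f.sum fun w c => c • (w.map fun i => (r i : Unitization ℤ R)).prod

theorem div_prime {R : Type u} [NonUnitalRing R] (hd : EqualsDerived R) (f : List ℕ →₀ ℤ)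
    (w1 : List ℕ) (hw : f w1 = 1 ∨ f w1 = -1) (hid : ∀ r : ℕ → R, evalPoly f r = 0) (p : ℕ)
    (hp : p.Prime) (x : R) : ∃ y : R, p • y = x := by
  classical
  have : Fact p.Prime := ⟨hp⟩
  have h1 := pdiv (U0 := Unitization ℤ R) (idl R) (comm_idl hd) p ?_ f w1 ?_ ?_
    (x : Unitization ℤ R) ((mem_idl _).mpr ⟨x, rfl⟩)
  · obtain ⟨v, hv⟩ := h1
    refine ⟨v.snd, ?_⟩
    have h2 : p • v = (x : Unitization ℤ R) := (nsmul_eq_mul' v p).trans hv
    have h3 := congrArg (Unitization.sndHom (R := ℤ) ℤ R) h2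
    rw [map_nsmul] at h3
    exact h3
  · rintro n ⟨v, hv⟩
    have h2 := congrArg (Unitization.fstHom ℤ R : Unitization ℤ R →ₐ[ℤ] ℤ) hv
    have h3 : (Unitization.fstHom ℤ R : Unitization ℤ R →ₐ[ℤ] ℤ) v * (p : ℤ) = (n : ℤ) := by
      rw [map_mul, map_natCast, map_natCast] at h2
      exact h2
    have h4 : (p : ℤ) ∣ (n : ℤ) := ⟨_, by rw [← h3, mul_comm]⟩
    exact_mod_cast h4
  · intro h2
    have h3 : (p : ℤ) ∣ 1 := by
      rcases hw with h | h
      · rwa [h] at h2
      · rw [h] at h2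
        exact (dvd_neg.mp h2)
    have h4 : p ∣ 1 := by exact_mod_cast h3
    exact hp.one_lt.ne' (Nat.dvd_one.mp h4)
  · intro r hr
    choose s hs using fun i => (mem_idl (r i)).mp (hr i)
    have h2 := hid s
    unfold evalPoly at h2
    simp only [hs] at h2
    exact h2

theorem div_nat {R : Type u} [NonUnitalRing R] (hd : EqualsDerived R) (f : List ℕ →₀ ℤ)
    (w1 : List ℕ) (hw : f w1 = 1 ∨ f w1 = -1) (hid : ∀ r : ℕ → R, evalPoly f r = 0) (n : ℕ)
    (hn : n ≠ 0) (x : R) : ∃ y : R, n • y = x := by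
  induction n using Nat.recOnMul generalizing x with
  | zero => exact absurd rfl hn
  | one => exact ⟨x, one_smul _ _⟩
  | prime q hq => exact div_prime hd f w1 hw hid q hq x
  | mul a b iha ihb =>
    obtain ⟨y, hy⟩ := iha (fun h => hn (by rw [h, zero_mul])) x
    obtain ⟨z, hz⟩ := ihb (fun h => hn (by rw [h, mul_zero])) y
    exact ⟨z, by rw [mul_smul, hz, hy]⟩

/-- The conclusions. -/
theorem all {R : Type u} [NonUnitalRing R] (hd : EqualsDerived R) (f : List ℕ →₀ ℤ)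
    (w1 : List ℕ) (hw : f w1 = 1 ∨ f w1 = -1) (hid : ∀ r : ℕ → R, evalPoly f r = 0) :
    (∀ n : ℕ, n ≠ 0 → ∀ x : R, ∃ y : R, n • y = x) ∧
    (∀ n : ℕ, n ≠ 0 → ∀ t : R, n • t = 0 → ∀ x : R, t * x = 0 ∧ x * t = 0) ∧
    ((∀ x : R, ∃ n : ℕ, n ≠ 0 ∧ n • x = 0) → ∀ x : R, x = 0) := by
  have h1 := div_nat hd f w1 hw hid
  have h2 : ∀ n : ℕ, n ≠ 0 → ∀ t : R, n • t = 0 → ∀ x : R, t * x = 0 ∧ x * t = 0 := by
    intro n hn t ht x
    obtain ⟨y, rfl⟩ := h1 n hn x
    constructor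
    · rw [mul_smul_comm, ← smul_mul_assoc, ht, zero_mul]
    · rw [smul_mul_assoc, ← mul_smul_comm, ht, mul_zero]
  refine ⟨h1, h2, ?_⟩
  intro h3 x
  have h4 : ∀ a b : R, a * b = 0 := by
    intro a b
    obtain ⟨n, hn, hna⟩ := h3 a
    exact (h2 n hn a hna b).1
  have h5 : x ∈ AddSubgroup.closure {c : R | ∃ a b : R, c = a * b - b * a} := by
    unfold EqualsDerived at hd
    rw [hd]
    exact AddSubgroup.mem_top x
  refine AddSubgroup.closure_induction (p := fun (r : R) _ => r = 0) ?_ rfl ?_ ?_ h5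
  · rintro c ⟨a, b, rfl⟩
    rw [h4, h4, sub_zero]
  · intro a b _ _ ha hb
    rw [ha, hb, add_zero]
  · intro a _ ha
    rw [ha, neg_zero]

end Pool.Agent.Q11.Kem
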