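import Mathlib

set_option autoImplicit false

namespace Q11.NEss

universe u

/-- the 4-dimensional algebra with basis `1, x, u, z` and `x x = u`, `u x = z`, all other
products of `x, u, z` being zero -/
def R4 (F : Type u) : Type u := Fin 4 → F

variable {F : Type u} [Field F]

instance : AddCommGroup (R4 F) := inferInstanceAs (AddCommGroup (Fin 4 → F))
instance : Module F (R4 F) := inferInstanceAs (Module F (Fin 4 → F))

/-- the product -/
def mul4 (a b : Fin 4 → F) : Fin 4 → F :=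
  ![a 0 * b 0, a 0 * b 1 + a 1 * b 0, a 0 * b 2 + a 2 * b 0 + a 1 * b 1,
    a 0 * b 3 + a 3 * b 0 + a 2 * b 1]

instance : Mul (R4 F) := ⟨fun a b => mul4 a b⟩
instance : One (R4 F) := ⟨(![1, 0, 0, 0] : Fin 4 → F)⟩

lemma ext4 {a b : R4 F} (h0 : a 0 = b 0) (h1 : a 1 = b 1) (h2 : a 2 = b 2) (h3 : a 3 = b 3) :
    a = b := by
  funext k
  fin_cases k <;> assumption

@[simp] lemma add_ap (a b : R4 F) (i : Fin 4) : (a + b) i = a i + b i := rfl
@[simp] lemma zero_ap (i : Fin 4) : (0 : R4 F) i = 0 := rfl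
@[simp] lemma smul_ap (t : F) (b : R4 F) (i : Fin 4) : (t • b) i = t * b i := rfl
@[simp] lemma one_ap0 : (1 : R4 F) 0 = 1 := rfl
@[simp] lemma one_ap1 : (1 : R4 F) 1 = 0 := rfl
@[simp] lemma one_ap2 : (1 : R4 F) 2 = 0 := rfl
@[simp] lemma one_ap3 : (1 : R4 F) 3 = 0 := rfl
@[simp] lemma mul_ap0 (a b : R4 F) : (a * b) 0 = a 0 * b 0 := rfl
@[simp] lemma mul_ap1 (a b : R4 F) : (a * b) 1 = a 0 * b 1 + a 1 * b 0 := rfl
@[simp] lemma mul_ap2 (a b : R4 F) : (a * b) 2 = a 0 * b 2 + a 2 * b 0 + a 1 * b 1 := rfl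
@[simp] lemma mul_ap3 (a b : R4 F) : (a * b) 3 = a 0 * b 3 + a 3 * b 0 + a 2 * b 1 := rfl

instance : NonAssocRing (R4 F) :=
  { (inferInstance : AddCommGroup (R4 F)) with
    mul := (· * ·)
    one := 1
    left_distrib := by intro a b c; apply ext4 <;> simp <;> ring
    right_distrib := by intro a b c; apply ext4 <;> simp <;> ring
    zero_mul := by intro a; apply ext4 <;> simp
    mul_zero := by intro a; apply ext4 <;> simp
    one_mul := by intro a; apply ext4 <;> simp
    mul_one := by intro a; apply ext4 <;> simp }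

instance : IsScalarTower F (R4 F) (R4 F) :=
  ⟨by intro t a b; apply ext4 <;> simp <;> ring⟩

instance : SMulCommClass F (R4 F) (R4 F) :=
  ⟨by intro t a b; apply ext4 <;> simp <;> ring⟩

lemma finrank4 : Module.finrank F (R4 F) = 4 := by
  show Module.finrank F (Fin 4 → F) = 4
  simp

/-- the basis elements -/
def vec (a b c d : F) : R4 F := (![a, b, c, d] : Fin 4 → F)
@[simp] lemma vec0 (a b c d : F) : vec a b c d 0 = a := rfl
@[simp] lemma vec1 (a b c d : F) : vec a b c d 1 = b := rfl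
@[simp] lemma vec2 (a b c d : F) : vec a b c d 2 = c := rfl
@[simp] lemma vec3 (a b c d : F) : vec a b c d 3 = d := rfl

lemma nuc_iff (x : R4 F) : (∀ a b : R4 F, x * a * b = x * (a * b) ∧ a * x * b = a * (x * b) ∧
    a * b * x = a * (b * x)) ↔ x 1 = 0 := by
  constructor
  · intro h
    have h1 := congrFun (h (vec 0 1 0 0) (vec 0 1 0 0)).1 3
    simpa using h1
  · intro h a b
    refine ⟨?_, ?_, ?_⟩ <;> apply ext4 <;> simp [h] <;> ring

end Q11.NEss
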