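import Mathlib

set_option autoImplicit false
set_option linter.unusedSimpArgs false

namespace Q11.NonCoord

open MvPolynomial

universe u

variable {K : Type u} [Field K] {m : ℕ}

/-- images of the variables under `E1` -/
noncomputable def g1 (i : Fin (m + 3)) : MvPolynomial (Fin (m + 3)) K :=
  if i = 0 then 1 + 2 * X 1 * X 0 + X 0 ^ 2 * X 2 else X i

noncomputable def g2 (i : Fin (m + 3)) : MvPolynomial (Fin (m + 3)) K :=
  if i = 1 then X 1 - X 0 * X 2 else X i

noncomputable def g2' (i : Fin (m + 3)) : MvPolynomial (Fin (m + 3)) K :=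
  if i = 1 then X 1 + X 0 * X 2 else X i

noncomputable def g3 (i : Fin (m + 3)) : MvPolynomial (Fin (m + 3)) K :=
  if i = 0 then X 2 else if i = 2 then X 0 - X 1 ^ 2 else X i

noncomputable def g3' (i : Fin (m + 3)) : MvPolynomial (Fin (m + 3)) K :=
  if i = 0 then X 2 + X 1 ^ 2 else if i = 2 then X 0 else X i

lemma h10 : (1 : Fin (m + 3)) ≠ 0 := by
  intro h; have := congrArg Fin.val h; simp at this
lemma val2 : (2 : Fin (m + 3)).val = 2 := by
  show 2 % (m + 3) = 2
  exact Nat.mod_eq_of_lt (by omega)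
lemma h20 : (2 : Fin (m + 3)) ≠ 0 := by
  intro h; have := congrArg Fin.val h; rw [val2] at this; simp at this
lemma h21 : (2 : Fin (m + 3)) ≠ 1 := by
  intro h; have := congrArg Fin.val h; rw [val2] at this; simp at this

lemma inj_of_comp (f g : MvPolynomial (Fin (m + 3)) K →ₐ[K] MvPolynomial (Fin (m + 3)) K)
    (h : ∀ i, g (f (X i)) = X i) : Function.Injective f := by
  have h2 : g.comp f = AlgHom.id K _ := by
    apply MvPolynomial.algHom_ext
    intro i
    simpa using h i
  intro a b hab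
  have h3 : g.comp f a = g.comp f b := by
    show g (f a) = g (f b)
    rw [hab]
  rw [h2] at h3
  simpa using h3

lemma inj2 : Function.Injective (aeval (g2 (m := m) (K := K)) :
    MvPolynomial (Fin (m + 3)) K →ₐ[K] MvPolynomial (Fin (m + 3)) K) := by
  apply inj_of_comp _ (aeval (g2' (m := m) (K := K)))
  intro i
  rw [aeval_X]
  by_cases hi : i = 1
  · subst hi
    simp [g2, g2', h10, h20, h21, h10.symm, h20.symm, h21.symm]
  · simp [g2, g2', hi]

lemma inj3 : Function.Injective (aeval (g3 (m := m) (K := K)) :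
    MvPolynomial (Fin (m + 3)) K →ₐ[K] MvPolynomial (Fin (m + 3)) K) := by
  apply inj_of_comp _ (aeval (g3' (m := m) (K := K)))
  intro i
  rw [aeval_X]
  by_cases hi : i = 0
  · subst hi
    simp [g3, g3', h10, h20, h21, h10.symm, h20.symm, h21.symm]
  · by_cases hi2 : i = 2
    · subst hi2
      simp [g3, g3', h10, h20, h21, h10.symm, h20.symm, h21.symm]
    · simp [g3, g3', hi, hi2]

open Polynomial in
lemma inj1 : Function.Injective (aeval (g1 (m := m) (K := K)) :
    MvPolynomial (Fin (m + 3)) K →ₐ[K] MvPolynomial (Fin (m + 3)) K) := by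
  set R := MvPolynomial (Fin (m + 2)) K with hR
  let g : R[X] := 1 + 2 * Polynomial.C (MvPolynomial.X 0) * Polynomial.X
    + Polynomial.X ^ 2 * Polynomial.C (MvPolynomial.X 1)
  have hfac : ((MvPolynomial.finSuccEquiv K (m + 2)).toAlgHom.comp
      (MvPolynomial.aeval (g1 (m := m) (K := K)))) =
      (((Polynomial.aeval g : R[X] →ₐ[R] R[X]).restrictScalars K).comp
        (MvPolynomial.finSuccEquiv K (m + 2)).toAlgHom) := by
    apply MvPolynomial.algHom_ext
    intro i
    refine Fin.cases ?_ (fun j => ?_) i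
    · have e1 : (MvPolynomial.X 1 : MvPolynomial (Fin (m + 3)) K) =
          MvPolynomial.X (Fin.succ 0) := rfl
      have e2 : (MvPolynomial.X 2 : MvPolynomial (Fin (m + 3)) K) =
          MvPolynomial.X (Fin.succ 1) := rfl
      simp [g1, g, e1, e2, MvPolynomial.finSuccEquiv_X_zero, MvPolynomial.finSuccEquiv_X_succ]
      exact map_ofNat _ 2
    · have hne : (Fin.succ j : Fin (m + 3)) ≠ 0 := Fin.succ_ne_zero j
      simp [g1, hne, MvPolynomial.finSuccEquiv_X_succ]
  have hg : Polynomial.coeff g 2 = MvPolynomial.X 1 := by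
    simp [g, Polynomial.coeff_one, mul_assoc]
  rw [injective_iff_map_eq_zero]
  intro f hf
  have h1 : Polynomial.aeval g (MvPolynomial.finSuccEquiv K (m + 2) f) = 0 := by
    have h2 := DFunLike.congr_fun hfac f
    have h3 : MvPolynomial.finSuccEquiv K (m + 2) (MvPolynomial.aeval (g1 (m := m) (K := K)) f) =
      Polynomial.aeval g (MvPolynomial.finSuccEquiv K (m + 2) f) := h2
    rw [← h3, hf, map_zero]
  have h4 : Polynomial.comp (MvPolynomial.finSuccEquiv K (m + 2) f) g = 0 := h1
  rw [Polynomial.comp_eq_zero_iff] at h4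
  rcases h4 with h4 | ⟨-, h4⟩
  · exact (MvPolynomial.finSuccEquiv K (m + 2)).injective (by rw [h4, map_zero])
  · exfalso
    rw [h4, Polynomial.coeff_C, if_neg (by norm_num)] at hg
    exact MvPolynomial.X_ne_zero _ hg.symm

/-- the injective endomorphism -/
noncomputable def phi : MvPolynomial (Fin (m + 3)) K →ₐ[K] MvPolynomial (Fin (m + 3)) K :=
  ((aeval (g3 (m := m) (K := K))).comp (aeval (g2 (m := m) (K := K)))).comp
    (aeval (g1 (m := m) (K := K)))

lemma phi_inj : Function.Injective (phi (m := m) (K := K)) :=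
  (inj3.comp inj2).comp inj1

lemma phi_p : phi (m := m) (K := K) (X 0 * X 2 + X 1 ^ 2) = X 0 := by
  have a0 : g1 (m := m) (K := K) 0 = 1 + 2 * X 1 * X 0 + X 0 ^ 2 * X 2 := if_pos rfl
  have a1 : g1 (m := m) (K := K) 1 = X 1 := if_neg h10
  have a2 : g1 (m := m) (K := K) 2 = X 2 := if_neg h20
  have b0 : g2 (m := m) (K := K) 0 = X 0 := if_neg h10.symm
  have b1 : g2 (m := m) (K := K) 1 = X 1 - X 0 * X 2 := if_pos rfl
  have b2 : g2 (m := m) (K := K) 2 = X 2 := if_neg h21
  have c0 : g3 (m := m) (K := K) 0 = X 2 := if_pos rfl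
  have c1 : g3 (m := m) (K := K) 1 = X 1 := (if_neg h10).trans (if_neg h21.symm)
  have c2 : g3 (m := m) (K := K) 2 = X 0 - X 1 ^ 2 := (if_neg h20).trans (if_pos rfl)
  simp only [phi, AlgHom.comp_apply, map_add, map_sub, map_mul, map_pow, map_one, map_ofNat,
    aeval_X, a0, a1, a2, b0, b1, b2, c0, c1, c2]
  ring

lemma not_coord : ¬ ∃ α : MvPolynomial (Fin (m + 3)) K ≃ₐ[K] MvPolynomial (Fin (m + 3)) K,
    α (X 0) = X 0 * X 2 + X 1 ^ 2 := by
  rintro ⟨α, hα⟩
  set b : Fin (m + 3) → MvPolynomial (Fin (m + 3)) K := fun i => α.symm (X i) with hb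
  have h1 : (X 0 : MvPolynomial (Fin (m + 3)) K) = b 0 * b 2 + b 1 ^ 2 := by
    have := congrArg α.symm hα
    rw [AlgEquiv.symm_apply_apply] at this
    rw [this]
    simp [hb]
  have h2 := congrArg (pderiv (0 : Fin (m + 3))) h1
  simp only [pderiv_X_self, map_add, Derivation.leibniz, Derivation.leibniz_pow, smul_eq_mul]
    at h2
  let ev : MvPolynomial (Fin (m + 3)) K →ₐ[K] K :=
    (aeval (fun _ => (0 : K))).comp α.toAlgHom
  have hev : ∀ i, ev (b i) = 0 := by
    intro i
    simp [ev, hb]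
  have h3 := congrArg ev h2
  simp [hev] at h3

end Q11.NonCoord
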