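import Mathlib

set_option autoImplicit false

/-!
Notions of category theory which are invariant under equivalences.
-/

namespace Q11.PS

open CategoryTheory CategoryTheory.Limits

universe u v u' v'

variable {𝒟 : Type u} [Category.{v} 𝒟] {𝒟' : Type u'} [Category.{v'} 𝒟']

/-- not initial -/
def NI (X : 𝒟) : Prop := ¬ Nonempty (IsInitial X)

/-- atoms -/
def IsAtom (F : 𝒟) : Prop :=
  NI F ∧ ∀ (X : 𝒟) (f : X ⟶ F), NI X → ∃ s : F ⟶ X, s ≫ f = 𝟙 F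

/-- torsors -/
def IsTor (X : 𝒟) : Prop :=
  Nonempty (Aut X ≃* Multiplicative ℚ) ∧ ∀ F : 𝒟, IsAtom F →
    (Nonempty (F ⟶ X) ∧ ∀ u v : F ⟶ X, ∃ a : Aut X, u ≫ a.hom = v)

/-- periods -/
def Per (F X : 𝒟) : Set (Aut X) := {a | ∃ τ : Aut F, ∀ u : F ⟶ X, τ.hom ≫ u = u ≫ a.hom}

theorem NI.of_iso {X Y : 𝒟} (e : X ≅ Y) (h : NI X) : NI Y := by
  rintro ⟨h'⟩
  exact h ⟨h'.ofIso e.symm⟩

theorem IsAtom.of_iso {F F' : 𝒟} (e : F ≅ F') (h : IsAtom F) : IsAtom F' := by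
  refine ⟨h.1.of_iso e, fun X f hX => ?_⟩
  obtain ⟨s, hs⟩ := h.2 X (f ≫ e.inv) hX
  refine ⟨e.inv ≫ s, ?_⟩
  have h1 : s ≫ f = e.hom := by
    rw [← Category.comp_id (s ≫ f), ← e.inv_hom_id, ← Category.assoc, Category.assoc s, hs,
      Category.id_comp]
  rw [Category.assoc, h1, e.inv_hom_id]

theorem Per.of_iso {F F' X : 𝒟} (e : F ≅ F') {a : Aut X} (h : a ∈ Per F X) : a ∈ Per F' X := by
  obtain ⟨τ, hτ⟩ := h
  refine ⟨e.conjAut τ, fun u => ?_⟩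
  rw [Iso.conjAut_hom, Iso.conj_apply, Category.assoc, Category.assoc, hτ,
    ← Category.assoc, ← Category.assoc, e.inv_hom_id, Category.id_comp]

theorem Per.iff_of_iso {F F' X : 𝒟} (e : F ≅ F') (a : Aut X) : a ∈ Per F X ↔ a ∈ Per F' X :=
  ⟨Per.of_iso e, Per.of_iso e.symm⟩

variable (Φ : 𝒟 ≌ 𝒟')

theorem NI.map {X : 𝒟} (h : NI X) : NI (Φ.functor.obj X) := by
  rintro ⟨h'⟩
  exact h ⟨IsInitial.isInitialOfObj Φ.functor X h'⟩

theorem NI.of_map {X : 𝒟} (h : NI (Φ.functor.obj X)) : NI X := by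
  rintro ⟨h'⟩
  exact h ⟨IsInitial.isInitialObj Φ.functor X h'⟩

theorem IsAtom.map {F : 𝒟} (h : IsAtom F) : IsAtom (Φ.functor.obj F) := by
  refine ⟨h.1.map Φ, fun X f hX => ?_⟩
  let e : Φ.functor.obj (Φ.inverse.obj X) ≅ X := Φ.counitIso.app X
  obtain ⟨g, hg⟩ := Φ.functor.map_surjective (e.hom ≫ f)
  have h1 : NI (Φ.inverse.obj X) := NI.of_map Φ (hX.of_iso e.symm)
  obtain ⟨s, hs⟩ := h.2 _ g h1
  refine ⟨Φ.functor.map s ≫ e.hom, ?_⟩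
  rw [Category.assoc, ← hg, ← Functor.map_comp, hs, CategoryTheory.Functor.map_id]

theorem IsAtom.of_map {F : 𝒟} (h : IsAtom (Φ.functor.obj F)) : IsAtom F := by
  have h1 := h.map Φ.symm
  exact h1.of_iso (Φ.unitIso.app F).symm

/-- automorphism groups -/
noncomputable def autE (X : 𝒟) : Aut X ≃* Aut (Φ.functor.obj X) :=
  (Functor.FullyFaithful.ofFullyFaithful Φ.functor).autMulEquivOfFullyFaithful X

theorem autE_hom (X : 𝒟) (a : Aut X) : (autE Φ X a).hom = Φ.functor.map a.hom := rfl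

theorem IsTor.map {X : 𝒟} (h : IsTor X) : IsTor (Φ.functor.obj X) := by
  obtain ⟨⟨θ⟩, h2⟩ := h
  refine ⟨⟨(autE Φ X).symm.trans θ⟩, fun F' hF' => ?_⟩
  let e : Φ.functor.obj (Φ.inverse.obj F') ≅ F' := Φ.counitIso.app F'
  have h1 : IsAtom (Φ.inverse.obj F') := (hF'.of_iso e.symm).of_map
  obtain ⟨⟨u⟩, h3⟩ := h2 _ h1
  refine ⟨⟨e.inv ≫ Φ.functor.map u⟩, fun v w => ?_⟩
  obtain ⟨v', hv'⟩ := Φ.functor.map_surjective (e.hom ≫ v)
  obtain ⟨w', hw'⟩ := Φ.functor.map_surjective (e.hom ≫ w)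
  obtain ⟨a, ha⟩ := h3 v' w'
  refine ⟨autE Φ X a, ?_⟩
  rw [autE_hom]
  have h4 : e.hom ≫ v ≫ Φ.functor.map a.hom = e.hom ≫ w := by
    rw [← Category.assoc, ← hv', ← Functor.map_comp, ha, hw']
  exact (cancel_epi e.hom).1 h4

theorem Per.map_iff (F X : 𝒟) (a : Aut X) :
    autE Φ X a ∈ Per (Φ.functor.obj F) (Φ.functor.obj X) ↔ a ∈ Per F X := by
  constructor
  · rintro ⟨τ, hτ⟩
    refine ⟨(autE Φ F).symm τ, fun u => ?_⟩
    apply Φ.functor.map_injective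
    rw [Functor.map_comp, Functor.map_comp, ← autE_hom, MulEquiv.apply_symm_apply, hτ, autE_hom]
  · rintro ⟨τ, hτ⟩
    refine ⟨autE Φ F τ, fun u => ?_⟩
    obtain ⟨u', rfl⟩ := Φ.functor.map_surjective u
    rw [autE_hom, autE_hom, ← Functor.map_comp, ← Functor.map_comp, hτ]

end Q11.PS
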