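import Mathlib

set_option autoImplicit false

/-!
Directed graphs, diagrams of a shape satisfying the coproduct condition, and the Parry-Sullivan
number.
-/

namespace Q11.PS

open CategoryTheory CategoryTheory.Limits

universe u v

/-- A directed graph: a type `V` of vertices, and for all vertices `a`, `b` the type `E a b` of
the edges with source `a` and target `b`. -/
structure Graph : Type 1 where
  /-- vertices -/
  V : Type
  /-- edges from `a` to `b` -/
  E : V → V → Type

/-- `DiPath G a b`: there is a directed path (of length `≥ 0`) from `a` to `b`. -/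
inductive DiPath (G : Graph) : G.V → G.V → Prop
  | nil (a : G.V) : DiPath G a a
  | cons {a b c : G.V} (p : DiPath G a b) (e : G.E b c) : DiPath G a c

/-- A graph is irreducible if it has a vertex and every vertex can be reached from every vertex by
a directed path. -/
def Irreducible (G : Graph) : Prop := Nonempty G.V ∧ ∀ a b : G.V, DiPath G a b

/-- A diagram of shape `G` in `C` satisfying the coproduct condition: at every vertex `v` which is
not a source, the morphisms `D_e`, `t(e) = v`, make `D_v` a coproduct of the `D_{s(e)}`. -/
structure Diag (C : Type u) [Category.{v} C] (G : Graph) where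
  /-- the objects `D_v` -/
  obj : G.V → C
  /-- the morphisms `D_e` -/
  map : ∀ {a b : G.V}, G.E a b → (obj a ⟶ obj b)
  /-- the coproduct condition -/
  cop : ∀ b : G.V, (∃ a, Nonempty (G.E a b)) →
    Nonempty (IsColimit (Cofan.mk (obj b) (fun e : Σ a, G.E a b => map e.2)))

/-- A morphism of diagrams. -/
@[ext]
structure Diag.Hom {C : Type u} [Category.{v} C] {G : Graph} (D D' : Diag C G) where
  /-- the components `f_v : D_v → D'_v` -/
  app : ∀ a : G.V, D.obj a ⟶ D'.obj a
  /-- `f_{t(e)} ∘ D_e = D'_e ∘ f_{s(e)}` -/
  comm : ∀ {a b : G.V} (e : G.E a b), D.map e ≫ app b = app a ≫ D'.map e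

instance (C : Type u) [Category.{v} C] (G : Graph) : Category (Diag C G) where
  Hom D D' := Diag.Hom D D'
  id D := ⟨fun a => 𝟙 (D.obj a), fun e => by rw [Category.comp_id, Category.id_comp]⟩
  comp f g := ⟨fun a => f.app a ≫ g.app a, fun e => by
    rw [← Category.assoc, f.comm, Category.assoc, g.comm, Category.assoc]⟩
  id_comp f := Diag.Hom.ext (funext fun a => Category.id_comp _)
  comp_id f := Diag.Hom.ext (funext fun a => Category.comp_id _)
  assoc f g h := Diag.Hom.ext (funext fun a => Category.assoc _ _ _)

/-- The adjacency matrix: the `(a, b)` entry is the number of edges from `a` to `b`. -/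
noncomputable def adj (G : Graph) : Matrix G.V G.V ℤ := fun a b => (Nat.card (G.E a b) : ℤ)

open Classical in
/-- The Parry-Sullivan number `det (I - A)` of a graph with finitely many vertices. -/
noncomputable def parrySullivan (G : Graph) [Finite G.V] : ℤ :=
  letI := Fintype.ofFinite G.V
  (1 - adj G).det

end Q11.PS
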