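import Mathlib
import Pool.Agent.Q11.PSDefs

set_option autoImplicit false

/-!
The category `LObj`: its objects are pairs of a compact Hausdorff space `K` and a set `S`;
maps between the compact parts carry locally constant labels in `ℚ`.
-/

namespace Q11.PS

open CategoryTheory CategoryTheory.Limits

/-- An object of the category `C`: a compact Hausdorff space `K` and a set `S`. -/
structure LObj : Type 1 where
  /-- the compact part -/
  K : Type
  /-- the discrete part -/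
  S : Type
  [top : TopologicalSpace K]
  [comp : CompactSpace K]
  [t2 : T2Space K]

attribute [instance] LObj.top LObj.comp LObj.t2

namespace LObj

/-- The points of an object: the disjoint union of `K × ℚ` and `S × {false, true}`. -/
abbrev Pt (X : LObj) : Type := (X.K × ℚ) ⊕ (X.S × Bool)

/-- The involution exchanging `(s, false)` and `(s, true)`, and fixing the points of `K × ℚ`. -/
def flip {X : LObj} : X.Pt → X.Pt
  | Sum.inl a => Sum.inl a
  | Sum.inr (s, b) => Sum.inr (s, !b)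

/-- `f` is a morphism: it commutes with the involutions, and is given on `K × ℚ` by
`(k, q) ↦ (φ k, q + c k)` for a continuous `φ` and a locally constant `c`. -/
def IsMor {X Y : LObj} (f : X.Pt → Y.Pt) : Prop :=
  (∀ a, f (flip a) = flip (f a)) ∧
    ∃ (φ : X.K → Y.K) (c : X.K → ℚ), Continuous φ ∧ IsLocallyConstant c ∧
      ∀ k q, f (Sum.inl (k, q)) = Sum.inl (φ k, q + c k)

theorem isMor_id (X : LObj) : IsMor (id : X.Pt → X.Pt) :=
  ⟨fun _ => rfl, id, fun _ => 0, continuous_id, IsLocallyConstant.const 0, fun k q => by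
    rw [add_zero]; rfl⟩

theorem IsMor.comp {X Y Z : LObj} {f : X.Pt → Y.Pt} {g : Y.Pt → Z.Pt} (hf : IsMor f)
    (hg : IsMor g) : IsMor (g ∘ f) := by
  obtain ⟨hf1, φ, c, hφ, hc, hf2⟩ := hf
  obtain ⟨hg1, ψ, d, hψ, hd, hg2⟩ := hg
  refine ⟨fun a => ?_, ψ ∘ φ, fun k => c k + d (φ k), hψ.comp hφ,
    hc.add (hd.comp_continuous hφ), fun k q => ?_⟩
  · rw [Function.comp_apply, Function.comp_apply, hf1, hg1]
  · rw [Function.comp_apply, hf2, hg2, Function.comp_apply, add_assoc]

instance : Category LObj where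
  Hom X Y := {f : X.Pt → Y.Pt // IsMor f}
  id X := ⟨id, isMor_id X⟩
  comp f g := ⟨g.1 ∘ f.1, f.2.comp g.2⟩

theorem hom_ext {X Y : LObj} {f g : X ⟶ Y} (h : ∀ a, f.1 a = g.1 a) : f = g :=
  Subtype.ext (funext h)

theorem comp_val {X Y Z : LObj} (f : X ⟶ Y) (g : Y ⟶ Z) (a : X.Pt) :
    (f ≫ g).1 a = g.1 (f.1 a) := rfl

theorem id_val (X : LObj) (a : X.Pt) : (𝟙 X : X ⟶ X).1 a = a := rfl

theorem flip_flip {X : LObj} (a : X.Pt) : flip (flip a) = a := by
  rcases a with a | ⟨s, b⟩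
  · rfl
  · show Sum.inr (s, !!b) = Sum.inr (s, b)
    rw [Bool.not_not]

theorem flip_inr_ne {X : LObj} (a : X.S × Bool) : flip (Sum.inr a : X.Pt) ≠ Sum.inr a := by
  obtain ⟨s, b⟩ := a
  intro h
  have h2 : (s, !b) = (s, b) := Sum.inr_injective h
  have h3 : (!b) = b := (Prod.mk.inj h2).2
  cases b <;> simp at h3

variable {ι : Type}

/-- A finite family of morphisms to `Y` is a coproduct if it is jointly bijective on points. -/
theorem isColimit_of_bijective [Finite ι] (X : ι → LObj) (Y : LObj) (f : ∀ i, X i ⟶ Y)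
    (h : Function.Bijective (fun p : Σ i, (X i).Pt => (f p.1).1 p.2)) :
    Nonempty (IsColimit (Cofan.mk Y f)) := by
  classical
  choose hfl φ c hφ hc hf using fun i => (f i).2
  -- `S`-parts go to `S`-parts
  have hS : ∀ i (s : (X i).S × Bool), ∃ t, (f i).1 (Sum.inr s) = Sum.inr t := by
    intro i s
    rcases e : (f i).1 (Sum.inr s) with y | y
    · exfalso
      have h1 : (f i).1 (flip (Sum.inr s)) = (f i).1 (Sum.inr s) := by
        rw [hfl, e]; rfl
      have h2 := h.1 (a₁ := ⟨i, flip (Sum.inr s)⟩) (a₂ := ⟨i, Sum.inr s⟩) h1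
      have h3 : flip (Sum.inr s : (X i).Pt) = Sum.inr s := by
        simpa using h2
      exact flip_inr_ne s h3
    · exact ⟨y, rfl⟩
  -- the homeomorphism of the `K`-parts
  let Φ : (Σ i, (X i).K) → Y.K := fun p => φ p.1 p.2
  have hΦc : Continuous Φ := continuous_sigma (fun i => hφ i)
  have hΦ : Function.Bijective Φ := by
    constructor
    · rintro ⟨i, k⟩ ⟨j, l⟩ hkl
      have hkl' : φ i k = φ j l := hkl
      have h1 : (f i).1 (Sum.inl (k, c j l)) = (f j).1 (Sum.inl (l, c i k)) := by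
        rw [hf, hf, hkl', add_comm]
      have h2 := h.1 (a₁ := ⟨i, Sum.inl (k, c j l)⟩) (a₂ := ⟨j, Sum.inl (l, c i k)⟩) h1
      have hij : i = j := congrArg Sigma.fst h2
      subst hij
      have h3 := eq_of_heq (Sigma.mk.inj h2).2
      have h4 := Sum.inl_injective h3
      rw [(Prod.mk.inj h4).1]
    · intro y
      obtain ⟨⟨i, a⟩, ha⟩ := h.2 (Sum.inl (y, 0))
      rcases a with ⟨k, q⟩ | a
      · refine ⟨⟨i, k⟩, ?_⟩
        have ha' : (f i).1 (Sum.inl (k, q)) = Sum.inl (y, 0) := ha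
        rw [hf] at ha'
        exact (Prod.mk.inj (Sum.inl_injective ha')).1
      · obtain ⟨t, ht⟩ := hS i a
        have ha' : (f i).1 (Sum.inr a) = Sum.inl (y, 0) := ha
        rw [ht] at ha'
        exact absurd ha' (by simp)
  let e : (Σ i, (X i).K) ≃ₜ Y.K :=
    Continuous.homeoOfEquivCompactToT2 (f := Equiv.ofBijective Φ hΦ) hΦc
  have he : ∀ i k, e ⟨i, k⟩ = φ i k := fun i k => rfl
  have hes : ∀ i k, e.symm (φ i k) = ⟨i, k⟩ := fun i k => by rw [← he, e.symm_apply_apply]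
  let E : (Σ i, (X i).Pt) ≃ Y.Pt := Equiv.ofBijective _ h
  have hE : ∀ i a, E.symm ((f i).1 a) = ⟨i, a⟩ := fun i a => by
    rw [Equiv.symm_apply_eq]; rfl
  refine ⟨Cofan.IsColimit.mk _ (fun g => ⟨fun y => (g.inj (E.symm y).1).1 (E.symm y).2, ?_, ?_⟩) ?_ ?_⟩
  · intro y
    obtain ⟨⟨i, a⟩, rfl⟩ := h.2 y
    show (g.inj (E.symm (flip ((f i).1 a))).1).1 (E.symm (flip ((f i).1 a))).2 =
      flip ((g.inj (E.symm ((f i).1 a)).1).1 (E.symm ((f i).1 a)).2)
    rw [← hfl, hE, hE]
    exact (g.inj i).2.1 a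
  · choose hgl ψ d hψ hd hg using fun i => (g.inj i).2
    let Ψ : (Σ i, (X i).K) → g.pt.K := fun p => ψ p.1 p.2
    let Δ : (Σ i, (X i).K) → ℚ := fun p => d p.1 p.2 - c p.1 p.2
    refine ⟨fun y => Ψ (e.symm y), fun y => Δ (e.symm y), ?_, ?_, ?_⟩
    · have h1 : Continuous Ψ := continuous_sigma (fun i => hψ i)
      exact h1.comp e.symm.continuous
    · have h1 : IsLocallyConstant Δ := by
        intro s
        rw [isOpen_sigma_iff]
        intro i
        exact ((hd i).sub (hc i)) s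
      exact h1.comp_continuous e.symm.continuous
    · intro y q
      obtain ⟨⟨i, k⟩, rfl⟩ := e.surjective y
      have h0 : e.symm (e ⟨i, k⟩) = ⟨i, k⟩ := e.symm_apply_apply _
      show (g.inj (E.symm (Sum.inl (e ⟨i, k⟩, q))).1).1 (E.symm (Sum.inl (e ⟨i, k⟩, q))).2 =
        Sum.inl (Ψ (e.symm (e ⟨i, k⟩)), q + Δ (e.symm (e ⟨i, k⟩)))
      rw [h0]
      have h1 : (Sum.inl (e ⟨i, k⟩, q) : Y.Pt) = (f i).1 (Sum.inl (k, q - c i k)) := by
        rw [hf, he, sub_add_cancel]
      rw [h1, hE]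
      show (g.inj i).1 (Sum.inl (k, q - c i k)) = _
      rw [hg]
      show Sum.inl (ψ i k, q - c i k + d i k) = Sum.inl (ψ i k, q + (d i k - c i k))
      congr 2
      ring
  · intro g i
    apply hom_ext
    intro a
    show (g.inj (E.symm ((f i).1 a)).1).1 (E.symm ((f i).1 a)).2 = (g.inj i).1 a
    rw [hE]
  · intro g m hm
    apply hom_ext
    intro y
    obtain ⟨⟨i, a⟩, rfl⟩ := h.2 y
    show m.1 ((f i).1 a) = (g.inj (E.symm ((f i).1 a)).1).1 (E.symm ((f i).1 a)).2
    rw [hE]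
    have h1 := hm i
    have h2 := congrArg (fun t => t.1 a) h1
    exact h2

/-- The explicit coproduct of a finite family. -/
def cop [Finite ι] (X : ι → LObj) : LObj where
  K := Σ i, (X i).K
  S := Σ i, (X i).S

/-- the injections of the explicit coproduct -/
def copInj [Finite ι] (X : ι → LObj) (i : ι) : X i ⟶ cop X :=
  ⟨fun a => match a with
    | Sum.inl (k, q) => Sum.inl (⟨i, k⟩, q)
    | Sum.inr (s, b) => Sum.inr (⟨i, s⟩, b), by
    refine ⟨?_, fun k => ⟨i, k⟩, fun _ => 0,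
      @continuous_sigmaMk ι (fun i => (X i).K) _ i,
      IsLocallyConstant.const 0, ?_⟩
    · rintro (⟨k, q⟩ | ⟨s, b⟩)
      · rfl
      · rfl
    · intro k q
      rw [add_zero]⟩

theorem copInj_bijective [Finite ι] (X : ι → LObj) :
    Function.Bijective (fun p : Σ i, (X i).Pt => (copInj X p.1).1 p.2) := by
  constructor
  · rintro ⟨i, (⟨k, q⟩ | ⟨s, b⟩)⟩ ⟨j, (⟨l, r⟩ | ⟨t, d⟩)⟩ h
    · have h1 : ((⟨i, k⟩, q) : (Σ i, (X i).K) × ℚ) = (⟨j, l⟩, r) := Sum.inl_injective h
      obtain ⟨h2, h3⟩ := Prod.mk.inj h1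
      obtain ⟨h4, h5⟩ := Sigma.mk.inj h2
      subst h4; subst h3
      rw [eq_of_heq h5]
    · exact absurd h (by simp [copInj])
    · exact absurd h (by simp [copInj])
    · have h1 : ((⟨i, s⟩, b) : (Σ i, (X i).S) × Bool) = (⟨j, t⟩, d) := Sum.inr_injective h
      obtain ⟨h2, h3⟩ := Prod.mk.inj h1
      obtain ⟨h4, h5⟩ := Sigma.mk.inj h2
      subst h4; subst h3
      rw [eq_of_heq h5]
  · rintro (⟨⟨i, k⟩, q⟩ | ⟨⟨i, s⟩, b⟩)
    · exact ⟨⟨i, Sum.inl (k, q)⟩, rfl⟩
    · exact ⟨⟨i, Sum.inr (s, b)⟩, rfl⟩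

theorem cop_isColimit [Finite ι] (X : ι → LObj) :
    Nonempty (IsColimit (Cofan.mk (cop X) (copInj X))) :=
  isColimit_of_bijective X _ _ (copInj_bijective X)

/-- A coproduct of a finite family is jointly bijective on points. -/
theorem bijective_of_isColimit [Finite ι] (X : ι → LObj) (Y : LObj) (f : ∀ i, X i ⟶ Y)
    (h : Nonempty (IsColimit (Cofan.mk Y f))) :
    Function.Bijective (fun p : Σ i, (X i).Pt => (f p.1).1 p.2) := by
  obtain ⟨hY⟩ := h
  obtain ⟨hC⟩ := cop_isColimit X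
  let e := hC.coconePointUniqueUpToIso hY
  have he : ∀ i, copInj X i ≫ e.hom = f i := fun i =>
    hC.comp_coconePointUniqueUpToIso_hom hY ⟨i⟩
  have hbij : Function.Bijective e.hom.1 := by
    refine ⟨fun a b hab => ?_, fun y => ⟨e.inv.1 y, ?_⟩⟩
    · have h1 : ∀ a, e.inv.1 (e.hom.1 a) = a := fun a => by
        have := congrArg (fun t => t.1 a) e.hom_inv_id
        exact this
      rw [← h1 a, ← h1 b, hab]
    · have := congrArg (fun t => t.1 y) e.inv_hom_id
      exact this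
  have h2 : (fun p : Σ i, (X i).Pt => (f p.1).1 p.2) =
      e.hom.1 ∘ (fun p : Σ i, (X i).Pt => (copInj X p.1).1 p.2) := by
    funext ⟨i, a⟩
    rw [← he i]
    rfl
  rw [h2]
  exact hbij.comp (copInj_bijective X)

instance : HasFiniteCoproducts LObj where
  out n := ⟨fun F => by
    let X : Fin n → LObj := fun i => F.obj ⟨i⟩
    obtain ⟨hC⟩ := cop_isColimit X
    have e : Discrete.functor X ≅ F := Discrete.natIso (fun i => Iso.refl _)
    have : HasColimit (Discrete.functor X) := ⟨⟨⟨_, hC⟩⟩⟩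
    exact hasColimit_of_iso e.symm⟩

instance : HasBinaryCoproducts LObj := inferInstance

end LObj

end Q11.PS
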