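import Mathlib
import Pool.Agent.Q11.PSDefs
import Pool.Agent.Q11.PSCat

set_option autoImplicit false
set_option linter.unusedSectionVars false

/-!
The set of all points of a diagram, with the edge and the ancestor of a point, and the paths.
-/

namespace Q11.PS

open CategoryTheory CategoryTheory.Limits

variable (G : Graph)

/-- all edges: target, source, edge -/
abbrev Ed : Type := Σ b : G.V, Σ a : G.V, G.E a b

variable {G}

/-- the target -/
abbrev tgt (e : Ed G) : G.V := e.1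
/-- the source -/
abbrev src (e : Ed G) : G.V := e.2.1

variable (G)

/-- the infinite backward paths -/
def PP : Type := {z : ℕ → Ed G // ∀ n, src (z n) = tgt (z (n + 1))}

variable {G}

/-- the shift -/
def sh (z : PP G) : PP G := ⟨fun n => z.1 (n + 1), fun n => z.2 (n + 1)⟩

theorem sh_iter (n : ℕ) (z : PP G) (m : ℕ) : (sh^[n] z).1 m = z.1 (m + n) := by
  induction n generalizing z with
  | zero => rfl
  | succ n ih =>
    rw [Function.iterate_succ_apply, ih]
    show z.1 (m + n + 1) = z.1 (m + (n + 1))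
    rw [add_assoc]

theorem PP_ext {y z : PP G} (h0 : y.1 0 = z.1 0) (h : sh y = sh z) : y = z := by
  apply Subtype.ext
  funext n
  rcases n with _ | n
  · exact h0
  · exact congrFun (congrArg Subtype.val h) n

/-- put an edge in front of a path -/
def consP (e : Ed G) (z : PP G) (h : src e = tgt (z.1 0)) : PP G :=
  ⟨fun n => Nat.casesOn n e z.1, by
    intro n
    rcases n with _ | n
    · exact h
    · exact z.2 n⟩

theorem sh_consP (e : Ed G) (z : PP G) (h : src e = tgt (z.1 0)) : sh (consP e z h) = z := rfl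
theorem consP_zero (e : Ed G) (z : PP G) (h : src e = tgt (z.1 0)) : (consP e z h).1 0 = e := rfl

variable (G)

/-- A set with edges and ancestors. -/
structure GS (A : Type) where
  edge : A → Ed G
  anc : A → A
  chain : ∀ a, src (edge a) = tgt (edge (anc a))
  inj : ∀ a b, edge a = edge b → anc a = anc b → a = b
  ex : ∀ (e : Ed G) (b : A), src e = tgt (edge b) → ∃ a, edge a = e ∧ anc a = b

variable {G}

namespace GS

variable {T : Type} (A : GS G T)

/-- the path of an element -/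
def path (a : T) : PP G := ⟨fun n => A.edge (A.anc^[n] a), fun n => by
  show src (A.edge (A.anc^[n] a)) = tgt (A.edge (A.anc^[n + 1] a))
  rw [Function.iterate_succ_apply']
  exact A.chain _⟩

theorem path_zero (a : T) : (A.path a).1 0 = A.edge a := rfl

theorem path_anc (a : T) : A.path (A.anc a) = sh (A.path a) := rfl

theorem path_anc_iter (n : ℕ) (a : T) : A.path (A.anc^[n] a) = sh^[n] (A.path a) := by
  induction n generalizing a with
  | zero => rfl
  | succ n ih => rw [Function.iterate_succ_apply, ih, path_anc, Function.iterate_succ_apply]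

theorem ext_iter (n : ℕ) (a b : T) (h : A.path a = A.path b)
    (hn : A.anc^[n] a = A.anc^[n] b) : a = b := by
  induction n generalizing a b with
  | zero => exact hn
  | succ n ih =>
    apply A.inj
    · exact congrFun (congrArg Subtype.val h) 0
    · apply ih
      · rw [path_anc, path_anc, h]
      · rw [← Function.iterate_succ_apply, hn, Function.iterate_succ_apply]

theorem lift (n : ℕ) (z : PP G) (b : T) (h : A.path b = sh^[n] z) :
    ∃ a, A.path a = z ∧ A.anc^[n] a = b := by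
  induction n generalizing z with
  | zero => exact ⟨b, h, rfl⟩
  | succ n ih =>
    rw [Function.iterate_succ_apply] at h
    obtain ⟨c, hc1, hc2⟩ := ih (sh z) h
    obtain ⟨a, ha1, ha2⟩ := A.ex (z.1 0) c (by
      have h1 : A.edge c = z.1 1 := congrFun (congrArg Subtype.val hc1) 0
      rw [h1]; exact z.2 0)
    refine ⟨a, PP_ext ha1 ?_, ?_⟩
    · rw [← path_anc, ha2, hc1]
    · rw [Function.iterate_succ_apply, ha2, hc2]

/-- `c` is the transport of `a` to the path `y` with lag `k` -/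
def Tr (a c : T) (k : ℤ) : Prop := ∃ m n : ℕ, (m : ℤ) - n = k ∧ A.anc^[m] c = A.anc^[n] a

variable {A}

theorem Tr.mk (a c : T) (m n : ℕ) (h : A.anc^[m] c = A.anc^[n] a) : A.Tr a c ((m : ℤ) - n) :=
  ⟨m, n, rfl, h⟩

theorem Tr.raise {a c : T} {m n : ℕ} (h : A.anc^[m] c = A.anc^[n] a) (d : ℕ) :
    A.anc^[m + d] c = A.anc^[n + d] a := by
  rw [add_comm m d, add_comm n d, Function.iterate_add_apply, Function.iterate_add_apply, h]

theorem Tr.unique {a c c' : T} {k : ℤ} (h : A.Tr a c k) (h' : A.Tr a c' k)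
    (hp : A.path c = A.path c') : c = c' := by
  obtain ⟨m, n, hk, h1⟩ := h
  obtain ⟨m', n', hk', h2⟩ := h'
  rcases le_total m m' with hle | hle
  · obtain ⟨d, rfl⟩ := Nat.exists_eq_add_of_le hle
    have hn : n' = n + d := by omega
    subst hn
    exact A.ext_iter _ _ _ hp ((Tr.raise h1 d).trans h2.symm)
  · obtain ⟨d, rfl⟩ := Nat.exists_eq_add_of_le hle
    have hn : n = n' + d := by omega
    subst hn
    exact A.ext_iter _ _ _ hp (h1.trans (Tr.raise h2 d).symm)

end GS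

/-- `y` is tail equivalent to `x` with lag `k` -/
def Rel (x y : PP G) (k : ℤ) : Prop := ∃ m n : ℕ, (m : ℤ) - n = k ∧ sh^[m] y = sh^[n] x

theorem GS.exists_tr {T : Type} (A : GS G T) (a : T) (y : PP G) (k : ℤ) (h : Rel (A.path a) y k) :
    ∃ c, A.path c = y ∧ A.Tr a c k := by
  obtain ⟨m, n, hk, h1⟩ := h
  obtain ⟨c, hc1, hc2⟩ := A.lift m y (A.anc^[n] a) (by rw [A.path_anc_iter, h1])
  exact ⟨c, hc1, m, n, hk, hc2⟩

theorem Rel.refl (x : PP G) : Rel x x 0 := ⟨0, 0, rfl, rfl⟩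

theorem Rel.symm {x y : PP G} {k : ℤ} (h : Rel x y k) : Rel y x (-k) := by
  obtain ⟨m, n, hk, h1⟩ := h
  exact ⟨n, m, by omega, h1.symm⟩

theorem Rel.trans {x y z : PP G} {k l : ℤ} (h : Rel x y k) (h' : Rel y z l) : Rel x z (k + l) := by
  obtain ⟨m, n, hk, h1⟩ := h
  obtain ⟨m', n', hl, h2⟩ := h'
  refine ⟨m' + m, n + n', by push_cast; omega, ?_⟩
  rw [add_comm m' m, Function.iterate_add_apply, h2, ← Function.iterate_add_apply,
    add_comm m n', Function.iterate_add_apply, h1, ← Function.iterate_add_apply, add_comm n' n]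

theorem Rel.sh (x : PP G) : Rel x (sh x) (-1) := ⟨0, 1, rfl, rfl⟩

theorem Rel.sh_left {x y : PP G} {k : ℤ} (h : Rel x y k) : Rel x (PS.sh y) (k - 1) :=
  h.trans (Rel.sh y)

theorem GS.Tr.refl {T : Type} {A : GS G T} (a : T) : A.Tr a a 0 := ⟨0, 0, rfl, rfl⟩

theorem GS.Tr.trans {T : Type} {A : GS G T} {a b c : T} {k l : ℤ} (h : A.Tr a b k) (h' : A.Tr b c l) :
    A.Tr a c (k + l) := by
  obtain ⟨m, n, hk, h1⟩ := h
  obtain ⟨m', n', hl, h2⟩ := h'
  refine ⟨m' + m, n + n', by push_cast; omega, ?_⟩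
  rw [add_comm m' m, Function.iterate_add_apply, h2, ← Function.iterate_add_apply,
    add_comm m n', Function.iterate_add_apply, h1, ← Function.iterate_add_apply, add_comm n' n]

theorem GS.Tr.anc {T : Type} {A : GS G T} (a : T) : A.Tr a (A.anc a) (-1) := ⟨0, 1, rfl, rfl⟩

theorem GS.Tr.symm {T : Type} {A : GS G T} {a b : T} {k : ℤ} (h : A.Tr a b k) : A.Tr b a (-k) := by
  obtain ⟨m, n, hk, h1⟩ := h
  exact ⟨n, m, by omega, h1.symm⟩

/-! ### The points of a diagram -/

section diagrams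

/-- Every vertex has an incoming edge and the graph is finite. -/
class Good (G : Graph) : Prop where
  finV : Finite G.V
  finE : ∀ a b, Finite (G.E a b)
  inc : ∀ b, ∃ a, Nonempty (G.E a b)

instance [h : Good G] : Finite G.V := h.finV
instance [h : Good G] (a b : G.V) : Finite (G.E a b) := h.finE a b

variable [Good G]

/-- all points of a diagram -/
abbrev Tot (D : Diag LObj G) : Type := Σ v, (D.obj v).Pt

theorem map_bijective (D : Diag LObj G) (b : G.V) :
    Function.Bijective (fun p : Σ e : (Σ a, G.E a b), (D.obj e.1).Pt => (D.map p.1.2).1 p.2) :=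
  LObj.bijective_of_isColimit (fun e : (Σ a, G.E a b) => D.obj e.1) (D.obj b)
    (fun e => D.map e.2) (D.cop b (Good.inc b))

theorem push_bijective (D : Diag LObj G) :
    Function.Bijective (fun p : Σ e : Ed G, (D.obj (src e)).Pt =>
      (⟨tgt p.1, (D.map p.1.2.2).1 p.2⟩ : Tot D)) := by
  constructor
  · rintro ⟨⟨b, a, ε⟩, x⟩ ⟨⟨b', a', ε'⟩, x'⟩ h
    obtain ⟨h1, h2⟩ := Sigma.mk.inj h
    dsimp only [tgt] at h1
    subst h1
    have h3 := (map_bijective D b).1 (a₁ := ⟨⟨a, ε⟩, x⟩) (a₂ := ⟨⟨a', ε'⟩, x'⟩) (eq_of_heq h2)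
    obtain ⟨h4, h5⟩ := Sigma.mk.inj h3
    obtain ⟨h6, h7⟩ := Sigma.mk.inj h4
    subst h6
    have h8 := eq_of_heq h7
    subst h8
    have h9 := eq_of_heq h5
    subst h9
    rfl
  · rintro ⟨b, y⟩
    obtain ⟨⟨⟨a, ε⟩, x⟩, hx⟩ := (map_bijective D b).2 y
    exact ⟨⟨⟨b, a, ε⟩, x⟩, by
      show (⟨b, (D.map ε).1 x⟩ : Tot D) = ⟨b, y⟩
      rw [← hx]⟩

/-- all points, by their edge and their ancestor -/
noncomputable def pushEquiv (D : Diag LObj G) : (Σ e : Ed G, (D.obj (src e)).Pt) ≃ Tot D :=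
  Equiv.ofBijective _ (push_bijective D)

theorem pushEquiv_apply (D : Diag LObj G) (e : Ed G) (x : (D.obj (src e)).Pt) :
    pushEquiv D ⟨e, x⟩ = ⟨tgt e, (D.map e.2.2).1 x⟩ := rfl

theorem pushEquiv_symm (D : Diag LObj G) {a b : G.V} (ε : G.E a b) (x : (D.obj a).Pt) :
    (pushEquiv D).symm ⟨b, (D.map ε).1 x⟩ = ⟨⟨b, a, ε⟩, x⟩ := by
  rw [Equiv.symm_apply_eq]; rfl

/-- the points of a diagram as a set with edges and ancestors -/
noncomputable def TS (D : Diag LObj G) : GS G (Tot D) where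
  edge a := ((pushEquiv D).symm a).1
  anc a := ⟨src ((pushEquiv D).symm a).1, ((pushEquiv D).symm a).2⟩
  chain a := by
    obtain ⟨⟨e, x⟩, rfl⟩ := (pushEquiv D).surjective a
    rw [Equiv.symm_apply_apply]
    show src e = tgt ((pushEquiv D).symm ⟨src e, x⟩).1
    obtain ⟨⟨e', x'⟩, h⟩ := (pushEquiv D).surjective ⟨src e, x⟩
    rw [← h, Equiv.symm_apply_apply]
    exact (congrArg Sigma.fst h).symm
  inj a b h1 h2 := by
    obtain ⟨⟨e, x⟩, rfl⟩ := (pushEquiv D).surjective a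
    obtain ⟨⟨e', x'⟩, rfl⟩ := (pushEquiv D).surjective b
    rw [Equiv.symm_apply_apply, Equiv.symm_apply_apply] at h1 h2
    dsimp only at h1
    subst h1
    obtain ⟨_, h3⟩ := Sigma.mk.inj h2
    have h4 : x = x' := eq_of_heq h3
    rw [h4]
  ex e b h := by
    obtain ⟨v, y⟩ := b
    obtain ⟨⟨e', x'⟩, h'⟩ := (pushEquiv D).surjective ⟨v, y⟩
    rw [← h', Equiv.symm_apply_apply] at h
    have hv : v = src e := by
      have : tgt e' = v := congrArg Sigma.fst h'
      rw [← this]; exact h.symm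
    subst hv
    refine ⟨pushEquiv D ⟨e, y⟩, ?_, ?_⟩
    · rw [Equiv.symm_apply_apply]
    · rw [Equiv.symm_apply_apply]

variable (D : Diag LObj G)

theorem edge_map {a b : G.V} (ε : G.E a b) (x : (D.obj a).Pt) :
    (TS D).edge ⟨b, (D.map ε).1 x⟩ = ⟨b, a, ε⟩ := by
  show ((pushEquiv D).symm _).1 = _
  rw [pushEquiv_symm]

theorem anc_map {a b : G.V} (ε : G.E a b) (x : (D.obj a).Pt) :
    (TS D).anc ⟨b, (D.map ε).1 x⟩ = ⟨a, x⟩ := by
  show (⟨src ((pushEquiv D).symm _).1, ((pushEquiv D).symm _).2⟩ : Tot D) = _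
  rw [pushEquiv_symm]

theorem exists_map (t : Tot D) : ∃ (a b : G.V) (ε : G.E a b) (x : (D.obj a).Pt),
    t = ⟨b, (D.map ε).1 x⟩ := by
  obtain ⟨⟨⟨b, a, ε⟩, x⟩, rfl⟩ := (pushEquiv D).surjective t
  exact ⟨a, b, ε, x, rfl⟩

theorem tgt_edge (t : Tot D) : tgt ((TS D).edge t) = t.1 := by
  obtain ⟨a, b, ε, x, rfl⟩ := exists_map D t
  rw [edge_map]

theorem src_edge (t : Tot D) : src ((TS D).edge t) = ((TS D).anc t).1 := by
  obtain ⟨a, b, ε, x, rfl⟩ := exists_map D t
  rw [edge_map, anc_map]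

variable {D} {D' D'' : Diag LObj G}

/-- the map on all points -/
def tot (f : D ⟶ D') : Tot D → Tot D' := fun t => ⟨t.1, (f.app t.1).1 t.2⟩

theorem tot_fst (f : D ⟶ D') (t : Tot D) : (tot f t).1 = t.1 := rfl

theorem tot_comp (f : D ⟶ D') (g : D' ⟶ D'') (t : Tot D) : tot (f ≫ g) t = tot g (tot f t) := rfl

theorem tot_id (t : Tot D) : tot (𝟙 D) t = t := rfl

theorem tot_map (f : D ⟶ D') {a b : G.V} (ε : G.E a b) (x : (D.obj a).Pt) :
    tot f ⟨b, (D.map ε).1 x⟩ = ⟨b, (D'.map ε).1 ((f.app a).1 x)⟩ := by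
  show (⟨b, (f.app b).1 ((D.map ε).1 x)⟩ : Tot D') = _
  have h := congrArg (fun t => t.1 x) (f.comm ε)
  congr 1

theorem tot_ext {f g : D ⟶ D'} (h : ∀ t, tot f t = tot g t) : f = g := by
  apply Diag.Hom.ext
  funext a
  apply LObj.hom_ext
  intro x
  have := h ⟨a, x⟩
  exact eq_of_heq (Sigma.mk.inj this).2

theorem edge_tot (f : D ⟶ D') (t : Tot D) : (TS D').edge (tot f t) = (TS D).edge t := by
  obtain ⟨a, b, ε, x, rfl⟩ := exists_map D t
  rw [tot_map, edge_map, edge_map]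

theorem anc_tot (f : D ⟶ D') (t : Tot D) : (TS D').anc (tot f t) = tot f ((TS D).anc t) := by
  obtain ⟨a, b, ε, x, rfl⟩ := exists_map D t
  rw [tot_map, anc_map, anc_map]
  rfl

theorem anc_iter_tot (f : D ⟶ D') (n : ℕ) (t : Tot D) :
    (TS D').anc^[n] (tot f t) = tot f ((TS D).anc^[n] t) := by
  induction n generalizing t with
  | zero => rfl
  | succ n ih =>
    have h1 : (TS D').anc^[n + 1] (tot f t) = (TS D').anc^[n] ((TS D').anc (tot f t)) := rfl
    have h2 : (TS D).anc^[n + 1] t = (TS D).anc^[n] ((TS D).anc t) := rfl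
    rw [h1, h2, anc_tot, ih]

theorem path_tot (f : D ⟶ D') (t : Tot D) : (TS D').path (tot f t) = (TS D).path t := by
  apply Subtype.ext
  funext n
  show (TS D').edge ((TS D').anc^[n] (tot f t)) = (TS D).edge ((TS D).anc^[n] t)
  rw [anc_iter_tot, edge_tot]

theorem tr_tot (f : D ⟶ D') {t t' : Tot D} {k : ℤ} (h : (TS D).Tr t t' k) :
    (TS D').Tr (tot f t) (tot f t') k := by
  obtain ⟨m, n, hk, h1⟩ := h
  refine ⟨m, n, hk, ?_⟩
  rw [anc_iter_tot, anc_iter_tot, h1]

/-- the involution on all points -/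
def flipT (t : Tot D) : Tot D := ⟨t.1, LObj.flip t.2⟩

theorem flipT_flipT (t : Tot D) : flipT (flipT t) = t := by
  obtain ⟨a, x⟩ := t
  show (⟨a, LObj.flip (LObj.flip x)⟩ : Tot D) = ⟨a, x⟩
  rw [LObj.flip_flip]

theorem flipT_map {a b : G.V} (ε : G.E a b) (x : (D.obj a).Pt) :
    (flipT ⟨b, (D.map ε).1 x⟩ : Tot D) = ⟨b, (D.map ε).1 (LObj.flip x)⟩ := by
  show (⟨b, LObj.flip ((D.map ε).1 x)⟩ : Tot D) = _
  rw [(D.map ε).2.1]

theorem edge_flipT (t : Tot D) : (TS D).edge (flipT t) = (TS D).edge t := by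
  obtain ⟨a, b, ε, x, rfl⟩ := exists_map D t
  rw [flipT_map, edge_map, edge_map]

theorem anc_flipT (t : Tot D) : (TS D).anc (flipT t) = flipT ((TS D).anc t) := by
  obtain ⟨a, b, ε, x, rfl⟩ := exists_map D t
  rw [flipT_map, anc_map, anc_map]
  rfl

theorem anc_iter_flipT (n : ℕ) (t : Tot D) :
    (TS D).anc^[n] (flipT t) = flipT ((TS D).anc^[n] t) := by
  induction n generalizing t with
  | zero => rfl
  | succ n ih =>
    have h1 : (TS D).anc^[n + 1] (flipT t) = (TS D).anc^[n] ((TS D).anc (flipT t)) := rfl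
    have h2 : (TS D).anc^[n + 1] t = (TS D).anc^[n] ((TS D).anc t) := rfl
    rw [h1, h2, anc_flipT, ih]

theorem path_flipT (t : Tot D) : (TS D).path (flipT t) = (TS D).path t := by
  apply Subtype.ext
  funext n
  show (TS D).edge ((TS D).anc^[n] (flipT t)) = (TS D).edge ((TS D).anc^[n] t)
  rw [anc_iter_flipT, edge_flipT]

theorem tr_flipT {t t' : Tot D} {k : ℤ} (h : (TS D).Tr t t' k) :
    (TS D).Tr (flipT t) (flipT t') k := by
  obtain ⟨m, n, hk, h1⟩ := h
  refine ⟨m, n, hk, ?_⟩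
  rw [anc_iter_flipT, anc_iter_flipT, h1]

theorem tot_flipT (f : D ⟶ D') (t : Tot D) : tot f (flipT t) = flipT (tot f t) := by
  obtain ⟨a, x⟩ := t
  show (⟨a, (f.app a).1 (LObj.flip x)⟩ : Tot D') = ⟨a, LObj.flip ((f.app a).1 x)⟩
  rw [(f.app a).2.1]

/-- the point over `v` -/
def castT {v : G.V} (t : Tot D) (h : t.1 = v) : (D.obj v).Pt := h ▸ t.2

theorem castT_spec {v : G.V} (t : Tot D) (h : t.1 = v) : (⟨v, castT t h⟩ : Tot D) = t := by
  subst h
  rfl

/-- a morphism from a map on all points -/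
def mkHom (F : Tot D → Tot D') (h : ∀ t, (F t).1 = t.1)
    (hm : ∀ v, LObj.IsMor (fun x : (D.obj v).Pt => castT (F ⟨v, x⟩) (h ⟨v, x⟩)))
    (hanc : ∀ t, (TS D').anc (F t) = F ((TS D).anc t))
    (hedge : ∀ t, (TS D').edge (F t) = (TS D).edge t) : D ⟶ D' where
  app v := ⟨fun x => castT (F ⟨v, x⟩) (h ⟨v, x⟩), hm v⟩
  comm {a b} ε := by
    apply LObj.hom_ext
    intro x
    have h1 : (⟨b, castT (F ⟨b, (D.map ε).1 x⟩) (h ⟨b, (D.map ε).1 x⟩)⟩ : Tot D') =
        ⟨b, (D'.map ε).1 (castT (F ⟨a, x⟩) (h ⟨a, x⟩))⟩ := by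
      rw [castT_spec]
      apply (TS D').inj
      · rw [hedge, edge_map, edge_map]
      · rw [hanc, anc_map, anc_map, castT_spec]
    exact eq_of_heq (Sigma.mk.inj h1).2

theorem tot_mkHom (F : Tot D → Tot D') (h hm hanc hedge) (t : Tot D) :
    tot (mkHom F h hm hanc hedge) t = F t := by
  obtain ⟨v, x⟩ := t
  exact castT_spec _ _

end diagrams

end Q11.PS
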