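import Mathlib
import Pool.Agent.Q11.PSDefs
import Pool.Agent.Q11.PSCat
import Pool.Agent.Q11.PSTot

set_option autoImplicit false
set_option linter.unusedSectionVars false

/-!
The free diagrams on a path.
-/

namespace Q11.PS

open CategoryTheory CategoryTheory.Limits

variable {G : Graph} [Good G]

theorem LObj.isMor_of_isEmpty {X Y : LObj} [IsEmpty X.K] (f : X.Pt → Y.Pt)
    (h : ∀ a, f (LObj.flip a) = LObj.flip (f a)) : LObj.IsMor f :=
  ⟨h, fun k => isEmptyElim k, fun k => isEmptyElim k, continuous_of_discreteTopology,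
    fun _ => isOpen_discrete _, fun k => isEmptyElim k⟩

/-- the objects of the free diagram on `x` -/
def FxO (x : PP G) (v : G.V) : LObj where
  K := Empty
  S := {p : PP G × ℤ // tgt (p.1.1 0) = v ∧ Rel x p.1 p.2}

theorem Rel.cons {x y : PP G} {k : ℤ} (h : Rel x y k) (e : Ed G) (he : src e = tgt (y.1 0)) :
    Rel x (consP e y he) (k + 1) := by
  have h1 := (Rel.sh (consP e y he)).symm
  rw [sh_consP] at h1
  simpa using h.trans h1

instance (x : PP G) (v : G.V) : IsEmpty (FxO x v).K := inferInstanceAs (IsEmpty Empty)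

/-- the morphisms of the free diagram on `x` -/
def FxMap (x : PP G) {a b : G.V} (ε : G.E a b) : FxO x a ⟶ FxO x b :=
  ⟨fun t => match t with
    | Sum.inl (k, _) => Empty.elim k
    | Sum.inr (⟨p, h⟩, β) => Sum.inr (⟨(consP ⟨b, a, ε⟩ p.1 h.1.symm, p.2 + 1),
        rfl, h.2.cons _ h.1.symm⟩, β), by
    apply LObj.isMor_of_isEmpty
    rintro (⟨k, _⟩ | ⟨⟨p, h⟩, β⟩)
    · exact isEmptyElim k
    · rfl⟩

/-- the free diagram on `x` -/
def Fx (x : PP G) : Diag LObj G where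
  obj v := FxO x v
  map ε := FxMap x ε
  cop b _ := by
    apply LObj.isColimit_of_bijective
    constructor
    · rintro ⟨⟨a, ε⟩, (⟨k, _⟩ | ⟨⟨p, h⟩, β⟩)⟩ ⟨⟨a', ε'⟩, (⟨k', _⟩ | ⟨⟨p', h'⟩, β'⟩)⟩ hh
      · exact Empty.elim k
      · exact Empty.elim k
      · exact Empty.elim k'
      · change (Sum.inr (⟨(consP ⟨b, a, ε⟩ p.1 h.1.symm, p.2 + 1), _⟩, β) : (FxO x b).Pt) =
          Sum.inr (⟨(consP ⟨b, a', ε'⟩ p'.1 h'.1.symm, p'.2 + 1), _⟩, β') at hh
        have h1 := Sum.inr_injective hh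
        obtain ⟨h2, h3⟩ := Prod.mk.inj h1
        have h4 := congrArg Subtype.val h2
        obtain ⟨h5, h6⟩ := Prod.mk.inj h4
        have h7 : (⟨b, a, ε⟩ : Ed G) = ⟨b, a', ε'⟩ := congrArg (fun z : PP G => z.1 0) h5
        have h8 : p.1 = p'.1 := congrArg sh h5
        have h9 : p.2 = p'.2 := by omega
        have h10 : p = p' := Prod.ext h8 h9
        obtain ⟨_, h11⟩ := Sigma.mk.inj h7
        obtain ⟨h12, h13⟩ := Sigma.mk.inj (eq_of_heq h11)
        subst h12
        have h14 := eq_of_heq h13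
        subst h14
        subst h10
        subst h3
        rfl
    · rintro (⟨k, _⟩ | ⟨⟨p, h⟩, β⟩)
      · exact Empty.elim k
      · obtain ⟨⟨z, k⟩, rfl⟩ : ∃ q : PP G × ℤ, q = p := ⟨p, rfl⟩
        obtain ⟨hb, hr⟩ := h
        dsimp only at hb hr
        obtain ⟨b', a, ε, hz⟩ : ∃ b' a ε, z.1 0 = ⟨b', a, ε⟩ := ⟨_, _, _, rfl⟩
        have hb' : b' = b := by rw [hz] at hb; exact hb
        subst hb'
        refine ⟨⟨⟨a, ε⟩, Sum.inr (⟨(sh z, k - 1), ?_, hr.sh_left⟩, β)⟩, ?_⟩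
        · have := z.2 0
          rw [hz] at this
          exact this.symm
        · show (Sum.inr (⟨(consP _ (sh z) _, k - 1 + 1), _⟩, β) : (FxO x b').Pt) = _
          congr 3
          apply Prod.ext
          · apply PP_ext
            · exact hz.symm
            · rfl
          · exact sub_add_cancel k 1

/-- the points of the free diagram -/
def mkT {x : PP G} (y : PP G) (k : ℤ) (h : Rel x y k) (β : Bool) : Tot (Fx x) :=
  ⟨tgt (y.1 0), Sum.inr (⟨(y, k), rfl, h⟩, β)⟩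

theorem eq_mkT {x : PP G} (t : Tot (Fx x)) : ∃ y k h β, t = mkT y k h β := by
  obtain ⟨v, (⟨k, _⟩ | ⟨⟨⟨y, k⟩, h1, h2⟩, β⟩)⟩ := t
  · exact Empty.elim k
  · dsimp only at h1
    subst h1
    exact ⟨y, k, h2, β, rfl⟩

theorem mkT_congr {x y y' : PP G} {k k' : ℤ} {h : Rel x y k} {h' : Rel x y' k'} {β : Bool}
    (hy : y = y') (hk : k = k') : mkT y k h β = mkT y' k' h' β := by
  subst hy; subst hk; rfl

theorem mkT_eq_map {x : PP G} (y : PP G) (k : ℤ) (h : Rel x y k) (β : Bool) {a b : G.V}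
    {ε : G.E a b} (hy : y.1 0 = ⟨b, a, ε⟩) (h1 : tgt ((sh y).1 0) = a) :
    mkT y k h β = ⟨b, ((Fx x).map ε).1 (Sum.inr (⟨(sh y, k - 1), h1, h.sh_left⟩, β))⟩ := by
  have hc : src (⟨b, a, ε⟩ : Ed G) = tgt ((sh y).1 0) := h1.symm
  have hyc : y = consP ⟨b, a, ε⟩ (sh y) hc := PP_ext hy rfl
  have h2 : mkT y k h β = mkT (consP ⟨b, a, ε⟩ (sh y) hc) (k - 1 + 1) (h.sh_left.cons _ _) β :=
    mkT_congr hyc (sub_add_cancel k 1).symm
  rw [h2]
  rfl

theorem edge_mkT {x : PP G} (y : PP G) (k : ℤ) (h : Rel x y k) (β : Bool) :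
    (TS (Fx x)).edge (mkT y k h β) = y.1 0 := by
  rcases hz : y.1 0 with ⟨b, a, ε⟩
  have h1 : tgt ((sh y).1 0) = a := by
    have := y.2 0
    rw [hz] at this
    exact this.symm
  rw [mkT_eq_map y k h β hz h1, edge_map]

theorem anc_mkT {x : PP G} (y : PP G) (k : ℤ) (h : Rel x y k) (β : Bool) :
    (TS (Fx x)).anc (mkT y k h β) = mkT (sh y) (k - 1) h.sh_left β := by
  rcases hz : y.1 0 with ⟨b, a, ε⟩
  have h1 : tgt ((sh y).1 0) = a := by
    have := y.2 0
    rw [hz] at this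
    exact this.symm
  rw [mkT_eq_map y k h β hz h1, anc_map]
  subst h1
  rfl

theorem anc_iter_mkT {x : PP G} (n : ℕ) (y : PP G) (k : ℤ) (h : Rel x y k) (β : Bool) :
    ∃ h', (TS (Fx x)).anc^[n] (mkT y k h β) = mkT (sh^[n] y) (k - n) h' β := by
  induction n generalizing y k with
  | zero =>
    refine ⟨?_, ?_⟩
    · simpa using h
    · exact mkT_congr rfl (by simp)
  | succ n ih =>
    obtain ⟨h', hh⟩ := ih (sh y) (k - 1) h.sh_left
    have e1 : (TS (Fx x)).anc^[n + 1] (mkT y k h β) =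
        (TS (Fx x)).anc^[n] ((TS (Fx x)).anc (mkT y k h β)) := rfl
    have e2 : k - 1 - (n : ℤ) = k - ((n + 1 : ℕ) : ℤ) := by push_cast; ring
    refine ⟨?_, ?_⟩
    · rw [← e2]; exact h'
    · rw [e1, anc_mkT, hh]
      exact mkT_congr rfl e2

theorem path_mkT {x : PP G} (y : PP G) (k : ℤ) (h : Rel x y k) (β : Bool) :
    (TS (Fx x)).path (mkT y k h β) = y := by
  apply Subtype.ext
  funext n
  show (TS (Fx x)).edge ((TS (Fx x)).anc^[n] (mkT y k h β)) = y.1 n
  obtain ⟨h', hh⟩ := anc_iter_mkT n y k h β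
  rw [hh, edge_mkT, sh_iter, zero_add]

/-- the base point -/
def base (x : PP G) : Tot (Fx x) := mkT x 0 (Rel.refl x) false

theorem tr_base {x : PP G} (y : PP G) (k : ℤ) (h : Rel x y k) :
    (TS (Fx x)).Tr (base x) (mkT y k h false) k := by
  obtain ⟨m, n, hk, h1⟩ := id h
  refine ⟨m, n, hk, ?_⟩
  obtain ⟨h', hh⟩ := anc_iter_mkT m y k h false
  obtain ⟨h'', hh'⟩ := anc_iter_mkT n x 0 (Rel.refl x) false
  rw [hh, base, hh']
  exact mkT_congr h1 (by omega)

theorem flipT_mkT {x : PP G} (y : PP G) (k : ℤ) (h : Rel x y k) (β : Bool) :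
    flipT (mkT y k h β) = mkT y k h (!β) := rfl

variable {D : Diag LObj G}

/-- Two morphisms from the free diagram agree if they agree at the base point. -/
theorem fx_hom_ext {x : PP G} {f g : Fx x ⟶ D} (h : tot f (base x) = tot g (base x)) : f = g := by
  have key : ∀ y k (hr : Rel x y k), tot f (mkT y k hr false) = tot g (mkT y k hr false) := by
    intro y k hr
    have h1 := tr_tot f (tr_base y k hr)
    have h2 := tr_tot g (tr_base y k hr)
    rw [h] at h1
    apply h1.unique h2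
    rw [path_tot, path_tot]
  apply tot_ext
  intro t
  obtain ⟨y, k, hr, β, rfl⟩ := eq_mkT t
  cases β
  · exact key y k hr
  · have e1 : mkT y k hr true = flipT (mkT y k hr false) := rfl
    rw [e1, tot_flipT, tot_flipT, key]

section univ

variable (t₀ : Tot D) {x : PP G} (h₀ : (TS D).path t₀ = x)
include h₀

/-- the transport of `t₀` -/
noncomputable def trP (y : PP G) (k : ℤ) (h : Rel x y k) : Tot D :=
  Classical.choose ((TS D).exists_tr t₀ y k (by rw [h₀]; exact h))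

theorem trP_path (y : PP G) (k : ℤ) (h : Rel x y k) : (TS D).path (trP t₀ h₀ y k h) = y :=
  (Classical.choose_spec ((TS D).exists_tr t₀ y k (by rw [h₀]; exact h))).1

theorem trP_tr (y : PP G) (k : ℤ) (h : Rel x y k) : (TS D).Tr t₀ (trP t₀ h₀ y k h) k :=
  (Classical.choose_spec ((TS D).exists_tr t₀ y k (by rw [h₀]; exact h))).2

/-- the map from the free diagram on all points -/
noncomputable def univF (t : Tot (Fx x)) : Tot D :=
  match t with
  | ⟨_, Sum.inl (k, _)⟩ => Empty.elim k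
  | ⟨_, Sum.inr (⟨p, h⟩, β)⟩ => bif β then flipT (trP t₀ h₀ p.1 p.2 h.2) else trP t₀ h₀ p.1 p.2 h.2

theorem univF_false (y : PP G) (k : ℤ) (h : Rel x y k) :
    univF t₀ h₀ (mkT y k h false) = trP t₀ h₀ y k h := rfl

theorem univF_true (y : PP G) (k : ℤ) (h : Rel x y k) :
    univF t₀ h₀ (mkT y k h true) = flipT (trP t₀ h₀ y k h) := rfl

theorem univF_flipT (t : Tot (Fx x)) : univF t₀ h₀ (flipT t) = flipT (univF t₀ h₀ t) := by
  obtain ⟨y, k, hr, β, rfl⟩ := eq_mkT t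
  cases β
  · rfl
  · rw [univF_true, flipT_flipT]; rfl

theorem univF_edge (t : Tot (Fx x)) : (TS D).edge (univF t₀ h₀ t) = (TS (Fx x)).edge t := by
  obtain ⟨y, k, hr, β, rfl⟩ := eq_mkT t
  have key : (TS D).edge (trP t₀ h₀ y k hr) = y.1 0 := by
    rw [← GS.path_zero, trP_path]
  cases β
  · rw [univF_false, edge_mkT, key]
  · rw [univF_true, edge_flipT, edge_mkT, key]

theorem univF_anc (t : Tot (Fx x)) :
    (TS D).anc (univF t₀ h₀ t) = univF t₀ h₀ ((TS (Fx x)).anc t) := by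
  obtain ⟨y, k, hr, β, rfl⟩ := eq_mkT t
  have key : (TS D).anc (trP t₀ h₀ y k hr) = trP t₀ h₀ (sh y) (k - 1) hr.sh_left := by
    have h1 : (TS D).Tr t₀ ((TS D).anc (trP t₀ h₀ y k hr)) (k - 1) :=
      (trP_tr t₀ h₀ y k hr).trans (GS.Tr.anc _)
    apply h1.unique (trP_tr t₀ h₀ (sh y) (k - 1) hr.sh_left)
    rw [GS.path_anc, trP_path, trP_path]
  rw [anc_mkT]
  cases β
  · rw [univF_false, univF_false, key]
  · rw [univF_true, univF_true, anc_flipT, key]

theorem univF_fst (t : Tot (Fx x)) : (univF t₀ h₀ t).1 = t.1 := by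
  rw [← tgt_edge, univF_edge, tgt_edge]

/-- the morphism from the free diagram -/
noncomputable def fxHom : Fx x ⟶ D :=
  mkHom (univF t₀ h₀) (univF_fst t₀ h₀) (by
    intro v
    have hE : IsEmpty ((Fx x).obj v).K := inferInstanceAs (IsEmpty Empty)
    apply LObj.isMor_of_isEmpty
    intro a
    have h1 : (⟨v, castT (univF t₀ h₀ ⟨v, LObj.flip a⟩) (univF_fst t₀ h₀ _)⟩ : Tot D) =
        ⟨v, LObj.flip (castT (univF t₀ h₀ ⟨v, a⟩) (univF_fst t₀ h₀ _))⟩ := by
      rw [castT_spec]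
      show univF t₀ h₀ (flipT ⟨v, a⟩) = flipT ⟨v, castT (univF t₀ h₀ ⟨v, a⟩) (univF_fst t₀ h₀ _)⟩
      rw [univF_flipT, castT_spec]
    exact eq_of_heq (Sigma.mk.inj h1).2)
    (univF_anc t₀ h₀) (univF_edge t₀ h₀)

theorem tot_fxHom (t : Tot (Fx x)) : tot (fxHom t₀ h₀) t = univF t₀ h₀ t := tot_mkHom _ _ _ _ _ _

theorem fxHom_base : tot (fxHom t₀ h₀) (base x) = t₀ := by
  rw [tot_fxHom, base, univF_false]
  apply (trP_tr t₀ h₀ x 0 (Rel.refl x)).unique (GS.Tr.refl t₀)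
  rw [trP_path, h₀]

end univ

end Q11.PS
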