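import Mathlib
import Pool.Agent.Q11.PSDefs
import Pool.Agent.Q11.PSCat
import Pool.Agent.Q11.PSTot
import Pool.Agent.Q11.PSFree
import Pool.Agent.Q11.PSAbs

set_option autoImplicit false
set_option linter.unusedSectionVars false

/-!
The atoms of the category of diagrams.
-/

namespace Q11.PS

open CategoryTheory CategoryTheory.Limits

variable {G : Graph} [Good G]

/-- the empty diagram -/
def emptyDiag (G : Graph) [Good G] : Diag LObj G where
  obj _ := ⟨Empty, Empty⟩
  map _ := 𝟙 _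
  cop b _ := by
    apply LObj.isColimit_of_bijective
    constructor
    · rintro ⟨_, (⟨k, _⟩ | ⟨k, _⟩)⟩
      · exact Empty.elim k
      · exact Empty.elim k
    · rintro (⟨k, _⟩ | ⟨k, _⟩)
      · exact Empty.elim k
      · exact Empty.elim k

theorem NI.nonempty {D : Diag LObj G} (h : NI D) : Nonempty (Tot D) := by
  by_contra hcon
  rw [not_nonempty_iff] at hcon
  apply h
  have hK : ∀ v, IsEmpty (D.obj v).K := fun v => ⟨fun k => hcon.false ⟨v, Sum.inl (k, 0)⟩⟩
  have hP : ∀ v, IsEmpty (D.obj v).Pt := fun v => ⟨fun k => hcon.false ⟨v, k⟩⟩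
  refine ⟨IsInitial.ofUniqueHom (fun D' => ⟨fun v => ⟨fun x => ((hP v).false x).elim, ?_⟩, ?_⟩) ?_⟩
  · have := hK v
    exact LObj.isMor_of_isEmpty _ (fun x => ((hP v).false x).elim)
  · intro a b ε
    apply LObj.hom_ext
    intro x
    exact ((hP a).false x).elim
  · intro D' m
    apply tot_ext
    intro t
    exact (hcon.false t).elim

theorem NI.of_point {D : Diag LObj G} (t : Tot D) : NI D := by
  rintro ⟨h⟩
  have f : D ⟶ emptyDiag G := h.to _
  obtain ⟨v, x⟩ := tot f t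
  rcases x with ⟨k, _⟩ | ⟨k, _⟩
  · exact Empty.elim k
  · exact Empty.elim k

theorem tr_mkT {x y y' : PP G} {k k' : ℤ} (h : Rel x y k) (h' : Rel x y' k') (β : Bool) :
    (TS (Fx x)).Tr (mkT y k h β) (mkT y' k' h' β) (k' - k) := by
  have key : (TS (Fx x)).Tr (mkT y k h false) (mkT y' k' h' false) (k' - k) := by
    have h1 := (tr_base y k h).symm.trans (tr_base y' k' h')
    have e : -k + k' = k' - k := by ring
    rwa [e] at h1
  cases β
  · exact key
  · exact tr_flipT key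

theorem flip_cases {x : PP G} (P : Tot (Fx x) → Prop) (hP : ∀ t, P t → P (flipT t))
    {y : PP G} {k : ℤ} {h : Rel x y k} {β β' : Bool} (h1 : P (mkT y k h β)) :
    P (mkT y k h β') := by
  cases β <;> cases β'
  · exact h1
  · exact hP _ h1
  · exact hP _ h1
  · exact h1

theorem exists_over_base {x : PP G} {X : Diag LObj G} (f : X ⟶ Fx x) (hX : NI X)
    (y : PP G) (k : ℤ) (h : Rel x y k) (β : Bool) : ∃ t, tot f t = mkT y k h β := by
  obtain ⟨t⟩ := hX.nonempty
  obtain ⟨y', k', h', β', ht⟩ := eq_mkT (tot f t)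
  have hp : (TS X).path t = y' := by rw [← path_tot f, ht, path_mkT]
  have hr : Rel y' y (-k' + k) := h'.symm.trans h
  obtain ⟨c, hc1, hc2⟩ := (TS X).exists_tr t y (-k' + k) (by rw [hp]; exact hr)
  have h1 := tr_tot f hc2
  rw [ht] at h1
  have h2 := tr_mkT h' h β'
  have e : k - k' = -k' + k := by ring
  rw [e] at h2
  have h3 : tot f c = mkT y k h β' := by
    apply h1.unique h2
    rw [path_tot, hc1, path_mkT]
  exact flip_cases (fun t => ∃ s, tot f s = t) (by
    rintro t ⟨s, hs⟩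
    exact ⟨flipT s, by rw [tot_flipT, hs]⟩) ⟨c, h3⟩

theorem fx_isAtom (x : PP G) : IsAtom (Fx x) := by
  refine ⟨NI.of_point (base x), fun X f hX => ?_⟩
  obtain ⟨t, ht⟩ := exists_over_base f hX x 0 (Rel.refl x) false
  have hp : (TS X).path t = x := by rw [← path_tot f, ht, path_mkT]
  refine ⟨fxHom t hp, ?_⟩
  apply fx_hom_ext
  rw [tot_comp, fxHom_base, tot_id]
  exact ht

theorem fx_isIso {x y : PP G} (f : Fx x ⟶ Fx y) : IsIso f := by
  obtain ⟨s, hs⟩ := (fx_isAtom y).2 _ f (fx_isAtom x).1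
  obtain ⟨s', hs'⟩ := (fx_isAtom x).2 _ s (fx_isAtom y).1
  have h : s' = f := by
    calc s' = s' ≫ (s ≫ f) := by rw [hs, Category.comp_id]
      _ = (s' ≫ s) ≫ f := (Category.assoc _ _ _).symm
      _ = f := by rw [hs', Category.id_comp]
  exact ⟨s, by rw [← h]; exact hs', hs⟩

theorem atom_iso {F : Diag LObj G} (h : IsAtom F) : ∃ x : PP G, Nonempty (F ≅ Fx x) := by
  obtain ⟨t⟩ := h.1.nonempty
  refine ⟨(TS F).path t, ?_⟩
  obtain ⟨s, hs⟩ := h.2 _ (fxHom t rfl) (fx_isAtom _).1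
  refine ⟨⟨s, fxHom t rfl, hs, ?_⟩⟩
  apply tot_ext
  intro b
  obtain ⟨y, k, hr, β, rfl⟩ := eq_mkT b
  obtain ⟨c, hc⟩ := exists_over_base s h.1 y k hr β
  rw [← hc, tot_comp, ← tot_comp s, hs, tot_id, tot_id]

theorem fx_iso_iff (x y : PP G) : Nonempty (Fx x ≅ Fx y) ↔ ∃ k, Rel x y k := by
  constructor
  · rintro ⟨e⟩
    obtain ⟨z, k, h, β, hz⟩ := eq_mkT (tot e.hom (base x))
    have hp := path_tot e.hom (base x)
    rw [hz, path_mkT, base, path_mkT] at hp
    subst hp
    exact ⟨-k, h.symm⟩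
  · rintro ⟨k, h⟩
    let f : Fx x ⟶ Fx y := fxHom (mkT x (-k) h.symm false) (path_mkT _ _ _ _)
    have := fx_isIso f
    exact ⟨asIso f⟩

end Q11.PS
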