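import Mathlib

set_option autoImplicit false

/-!
Weighted sums over the periodic points of a map, written as sums over the periodic orbits.
-/

namespace Q11.PS

open Function
open scoped ENNReal

variable {X Y : Type} (S : X → X) (w : X → ℚ)

/-- the sum of `w` along an orbit -/
def ws (n : ℕ) (x : X) : ℚ := ∑ i ∈ Finset.range n, w (S^[i] x)

theorem ws_zero (x : X) : ws S w 0 x = 0 := rfl

theorem ws_succ (n : ℕ) (x : X) : ws S w (n + 1) x = w x + ws S w n (S x) := by
  unfold ws
  rw [Finset.sum_range_succ', add_comm]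
  rfl

theorem ws_add (m n : ℕ) (x : X) : ws S w (m + n) x = ws S w m x + ws S w n (S^[m] x) := by
  induction m generalizing x with
  | zero => rw [zero_add, ws_zero, zero_add]; rfl
  | succ m ih =>
    rw [Nat.succ_add, Nat.succ_eq_add_one, ws_succ, ih, ws_succ, add_assoc]
    rfl

theorem ws_mul {x : X} {l : ℕ} (h : S^[l] x = x) (j : ℕ) :
    S^[l * j] x = x ∧ ws S w (l * j) x = j * ws S w l x := by
  induction j with
  | zero => simp [ws_zero]
  | succ j ih =>
    rw [Nat.mul_succ, iterate_add_apply, h, ws_add, ih.1, ih.2]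
    refine ⟨rfl, ?_⟩
    push_cast
    ring

theorem ws_apply {x : X} {l : ℕ} (h : S^[l] x = x) : ws S w l (S x) = ws S w l x := by
  have h1 := ws_succ S w l x
  have h2 := ws_add S w l 1 x
  rw [h, ws_succ S w 0 x, ws_zero, add_zero] at h2
  linarith

theorem ws_apply_iterate {x : X} {l : ℕ} (h : S^[l] x = x) (n : ℕ) :
    ws S w l (S^[n] x) = ws S w l x := by
  induction n generalizing x with
  | zero => rfl
  | succ n ih =>
    rw [iterate_succ_apply, ih, ws_apply S w h]
    rw [← iterate_succ_apply, iterate_succ_apply', h]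

/-- the sum over the minimal period -/
noncomputable def WW (x : X) : ℚ := ws S w (minimalPeriod S x) x

theorem WW_iterate (x : X) (hx : x ∈ periodicPts S) (n : ℕ) : WW S w (S^[n] x) = WW S w x := by
  unfold WW
  rw [minimalPeriod_apply_iterate hx, ws_apply_iterate]
  exact isPeriodicPt_minimalPeriod S x

theorem ws_of_periodic (x : X) {n : ℕ} (h : S^[n] x = x) :
    ∃ j : ℕ, n = minimalPeriod S x * j ∧ ws S w n x = j * WW S w x := by
  obtain ⟨j, hj⟩ := IsPeriodicPt.minimalPeriod_dvd (f := S) (x := x) (n := n) h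
  refine ⟨j, hj, ?_⟩
  rw [hj]
  exact (ws_mul S w (isPeriodicPt_minimalPeriod S x) j).2

/-- the weighted sum over the periodic points -/
noncomputable def TT (s : ℝ) : ℝ≥0∞ :=
  ∑' k : ℕ, ∑' x : {x : X // S^[k + 1] x = x},
    ENNReal.ofReal (Real.exp (-(s * (ws S w (k + 1) x.1 : ℚ))) / ((k : ℝ) + 1))

/-- the contribution of an orbit with sum `a` -/
noncomputable def PSI (s : ℝ) (a : ℚ) : ℝ≥0∞ :=
  ∑' j : ℕ, ENNReal.ofReal (Real.exp (-(s * (((j : ℝ) + 1) * (a : ℝ)))) / ((j : ℝ) + 1))

open Classical in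
theorem point_sum (s : ℝ) (x : X) : (∑' k : ℕ, if S^[k + 1] x = x then
      ENNReal.ofReal (Real.exp (-(s * (ws S w (k + 1) x : ℚ))) / ((k : ℝ) + 1)) else 0) =
    if x ∈ periodicPts S then
      ENNReal.ofReal (1 / (minimalPeriod S x : ℝ)) * PSI s (WW S w x) else 0 := by
  split_ifs with hx
  · have hl : 0 < minimalPeriod S x := minimalPeriod_pos_of_mem_periodicPts hx
    have hinj : Injective (fun j : ℕ => minimalPeriod S x * (j + 1) - 1) := by
      intro j j' h
      have h1 : 0 < minimalPeriod S x * (j + 1) := by positivity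
      have h2 : 0 < minimalPeriod S x * (j' + 1) := by positivity
      have h3 : minimalPeriod S x * (j + 1) = minimalPeriod S x * (j' + 1) := by
        dsimp only at h
        omega
      have h4 := Nat.eq_of_mul_eq_mul_left hl h3
      omega
    rw [← hinj.tsum_eq]
    · unfold PSI
      rw [← ENNReal.tsum_mul_left]
      apply tsum_congr
      intro j
      have h1 : 0 < minimalPeriod S x * (j + 1) := by positivity
      have h2 : minimalPeriod S x * (j + 1) - 1 + 1 = minimalPeriod S x * (j + 1) := by omega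
      have h3 := ws_mul S w (isPeriodicPt_minimalPeriod S x) (j + 1)
      rw [h2, if_pos h3.1, h3.2, ← ENNReal.ofReal_mul (by positivity)]
      congr 1
      have h4 : (((minimalPeriod S x * (j + 1) - 1 : ℕ) : ℝ) + 1) =
          (minimalPeriod S x : ℝ) * ((j : ℝ) + 1) := by
        rw [← Nat.cast_succ, Nat.succ_eq_add_one, h2]
        push_cast
        ring
      rw [h4]
      unfold WW
      push_cast
      have h5 : (minimalPeriod S x : ℝ) ≠ 0 := by positivity
      field_simp
    · intro k hk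
      have h1 : S^[k + 1] x = x := by
        by_contra hcon
        exact hk (if_neg hcon)
      obtain ⟨j, hj, -⟩ := ws_of_periodic S w x h1
      have hj0 : j ≠ 0 := by
        rintro rfl
        omega
      obtain ⟨j, rfl⟩ := Nat.exists_eq_succ_of_ne_zero hj0
      exact ⟨j, by dsimp only; rw [Nat.succ_eq_add_one] at hj; omega⟩
  · rw [ENNReal.tsum_eq_zero]
    intro k
    rw [if_neg]
    intro h
    exact hx ⟨k + 1, Nat.succ_pos _, h⟩

theorem TT_points (s : ℝ) : TT S w s =
    ∑' x : periodicPts S, ENNReal.ofReal (1 / (minimalPeriod S x.1 : ℝ)) * PSI s (WW S w x.1) := by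
  classical
  have h1 : TT S w s = ∑' k : ℕ, ∑' x : X, if S^[k + 1] x = x then
      ENNReal.ofReal (Real.exp (-(s * (ws S w (k + 1) x : ℚ))) / ((k : ℝ) + 1)) else 0 := by
    unfold TT
    apply tsum_congr
    intro k
    exact tsum_subtype {x : X | S^[k + 1] x = x} (fun x : X =>
      ENNReal.ofReal (Real.exp (-(s * (ws S w (k + 1) x : ℚ))) / ((k : ℝ) + 1)))
  rw [h1, ENNReal.tsum_comm]
  simp only [point_sum]
  rw [tsum_subtype (periodicPts S) (fun x =>
    ENNReal.ofReal (1 / (minimalPeriod S x : ℝ)) * PSI s (WW S w x))]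
  rfl

/-- tail equivalence of periodic points -/
def perSetoid : Setoid (periodicPts S) where
  r x y := ∃ m n : ℕ, S^[m] x.1 = S^[n] y.1
  iseqv := by
    refine ⟨fun x => ⟨0, 0, rfl⟩, ?_, ?_⟩
    · rintro x y ⟨m, n, h⟩
      exact ⟨n, m, h.symm⟩
    · rintro x y z ⟨m, n, h⟩ ⟨m', n', h'⟩
      refine ⟨m' + m, n + n', ?_⟩
      rw [iterate_add_apply, h, ← iterate_add_apply, add_comm m' n, iterate_add_apply, h',
        ← iterate_add_apply]

theorem per_exists {x y : X} (hy : y ∈ periodicPts S) {m n : ℕ}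
    (h : S^[m] x = S^[n] y) : ∃ i, S^[i] x = y := by
  obtain ⟨l, hl, hp⟩ := hy
  obtain ⟨d, hd⟩ : ∃ d, n + d = l * (n + 1) := by
    refine ⟨l * (n + 1) - n, ?_⟩
    have : n ≤ l * (n + 1) := by nlinarith
    omega
  refine ⟨d + m, ?_⟩
  rw [iterate_add_apply, h, ← iterate_add_apply, add_comm d n, hd]
  exact (ws_mul S (fun _ => 0) hp (n + 1)).1

theorem per_fiber (x : periodicPts S) (f : periodicPts S → ℝ≥0∞)
    (hf : ∀ y z : periodicPts S, (perSetoid S).r y z → f y = f z) :
    (∑' y : {y : periodicPts S // Quotient.mk (perSetoid S) y = Quotient.mk (perSetoid S) x},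
      f y.1) = (minimalPeriod S x.1 : ℝ≥0∞) * f x := by
  have hl : 0 < minimalPeriod S x.1 := minimalPeriod_pos_of_mem_periodicPts x.2
  have hmem : ∀ i : ℕ, S^[i] x.1 ∈ periodicPts S := by
    intro i
    obtain ⟨l, hl, hp⟩ := x.2
    exact ⟨l, hl, hp.apply_iterate i⟩
  let e : Fin (minimalPeriod S x.1) →
      {y : periodicPts S // Quotient.mk (perSetoid S) y = Quotient.mk (perSetoid S) x} :=
    fun i => ⟨⟨S^[i.1] x.1, hmem i.1⟩, Quotient.sound (s := perSetoid S) ⟨0, i.1, rfl⟩⟩
  have he : Bijective e := by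
    constructor
    · intro i j h
      have h1 : S^[i.1] x.1 = S^[j.1] x.1 :=
        congrArg (fun y : {y : periodicPts S // Quotient.mk (perSetoid S) y =
          Quotient.mk (perSetoid S) x} => y.1.1) h
      exact Fin.ext (iterate_injOn_Iio_minimalPeriod i.2 j.2 h1)
    · rintro ⟨y, hy⟩
      obtain ⟨m, n, h⟩ := Quotient.exact (s := perSetoid S) hy
      obtain ⟨i, hi⟩ := per_exists S y.2 h.symm
      refine ⟨⟨i % minimalPeriod S x.1, Nat.mod_lt _ hl⟩, ?_⟩
      apply Subtype.ext
      apply Subtype.ext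
      show S^[i % minimalPeriod S x.1] x.1 = y.1
      rw [iterate_mod_minimalPeriod_eq, hi]
  rw [← (Equiv.ofBijective e he).tsum_eq]
  have h1 : ∀ i, f ((Equiv.ofBijective e he) i).1 = f x := by
    intro i
    apply hf
    exact ⟨0, i.1, rfl⟩
  simp only [h1]
  rw [tsum_fintype, Finset.sum_const, Finset.card_univ, Fintype.card_fin, nsmul_eq_mul]

/-- the sum of an orbit -/
noncomputable def WQ : Quotient (perSetoid S) → ℚ :=
  Quotient.lift (fun x : periodicPts S => WW S w x.1) (by
    rintro x y ⟨m, n, h⟩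
    obtain ⟨i, hi⟩ := per_exists S y.2 h
    show WW S w x.1 = WW S w y.1
    rw [← hi, WW_iterate S w x.1 x.2])

theorem TT_orbits (s : ℝ) : TT S w s = ∑' o : Quotient (perSetoid S), PSI s (WQ S w o) := by
  rw [TT_points, ← (Equiv.sigmaFiberEquiv (Quotient.mk (perSetoid S))).tsum_eq,
    ENNReal.tsum_sigma']
  apply tsum_congr
  intro o
  induction o using Quotient.inductionOn with
  | h x =>
    have h1 := per_fiber S x (fun x => ENNReal.ofReal (1 / (minimalPeriod S x.1 : ℝ)) *
      PSI s (WW S w x.1)) (by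
        rintro y z ⟨m, n, h⟩
        obtain ⟨i, hi⟩ := per_exists S z.2 h
        rw [← hi, WW_iterate S w y.1 y.2, minimalPeriod_apply_iterate y.2])
    refine Eq.trans ?_ (h1.trans ?_)
    · rfl
    · have hl : 0 < minimalPeriod S x.1 := minimalPeriod_pos_of_mem_periodicPts x.2
      rw [← mul_assoc, ← ENNReal.ofReal_natCast, ← ENNReal.ofReal_mul (by positivity),
        mul_one_div_cancel (by positivity), ENNReal.ofReal_one, one_mul]
      rfl

/-- invariance under conjugation -/
theorem TT_conj (S' : Y → Y) (e : X ≃ Y) (he : ∀ x, e (S x) = S' (e x)) (s : ℝ) :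
    TT S' (fun y => w (e.symm y)) s = TT S w s := by
  have hi : ∀ (n : ℕ) (x : X), e (S^[n] x) = S'^[n] (e x) := by
    intro n
    induction n with
    | zero => intro x; rfl
    | succ n ih => intro x; rw [iterate_succ_apply, ih, he, iterate_succ_apply]
  unfold TT
  apply tsum_congr
  intro k
  rw [← (e.subtypeEquiv (p := fun x => S^[k + 1] x = x) (q := fun y => S'^[k + 1] y = y) (by
    intro x
    rw [← hi, e.apply_eq_iff_eq])).tsum_eq]
  apply tsum_congr
  rintro ⟨x, hx⟩
  have h1 : ws S' (fun y => w (e.symm y)) (k + 1) (e x) = ws S w (k + 1) x := by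
    unfold ws
    apply Finset.sum_congr rfl
    intro i _
    dsimp only
    rw [← hi, e.symm_apply_apply]
  show ENNReal.ofReal (Real.exp (-(s * (ws S' (fun y => w (e.symm y)) (k + 1) (e x) : ℚ))) /
    ((k : ℝ) + 1)) = _
  rw [h1]

end Q11.PS
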