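import Mathlib
import Pool.Agent.TH658.Eq.Newt

set_option autoImplicit false

/-!
`det (1 - B) = exp (- ∑ tr (B ^ k) / k)` for a nonnegative real matrix for which the sum is finite.
-/

namespace Q11.PS

open Polynomial Finset.HasAntidiagonal Filter Topology

variable {ι : Type} [Fintype ι] [DecidableEq ι]

theorem det_exp_aux (a : ℕ → ℝ) (ha : ∀ k, 0 ≤ a k) (p : ℝ[X]) (hp0 : p.coeff 0 = 1)
    (hp : ∀ k, p.coeff (k + 1) * ((k : ℝ) + 1) =
      - ∑ x ∈ Finset.HasAntidiagonal.antidiagonal k, p.coeff x.1 * a x.2)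
    (hs : Summable (fun k => a k / ((k : ℝ) + 1))) :
    p.eval 1 = Real.exp (- ∑' k, a k / ((k : ℝ) + 1)) := by
  -- summability inside the disc
  have hsum : ∀ ρ : ℝ, 0 ≤ ρ → ρ < 1 → Summable (fun k => a k * ρ ^ k) := by
    intro ρ h0 h1
    have hb : ∃ C, ∀ k : ℕ, ((k : ℝ) + 1) * ρ ^ k ≤ C := by
      have h2 : Tendsto (fun k : ℕ => (k : ℝ) * ρ ^ k) atTop (𝓝 0) :=
        tendsto_self_mul_const_pow_of_lt_one h0 h1
      obtain ⟨C, hC⟩ := h2.bddAbove_range
      refine ⟨C + 1, fun k => ?_⟩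
      have h3 : (k : ℝ) * ρ ^ k ≤ C := hC ⟨k, rfl⟩
      have h4 : ρ ^ k ≤ 1 := pow_le_one₀ h0 h1.le
      rw [add_mul, one_mul]
      linarith
    obtain ⟨C, hC⟩ := hb
    refine Summable.of_nonneg_of_le (fun k => mul_nonneg (ha k) (pow_nonneg h0 k)) (fun k => ?_)
      (hs.mul_right C)
    have hk : (0 : ℝ) < (k : ℝ) + 1 := by positivity
    calc a k * ρ ^ k = a k / ((k : ℝ) + 1) * (((k : ℝ) + 1) * ρ ^ k) := by
          field_simp
      _ ≤ a k / ((k : ℝ) + 1) * C :=
          mul_le_mul_of_nonneg_left (hC k) (div_nonneg (ha k) hk.le)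
  have hsumn : ∀ t : ℝ, |t| < 1 → Summable (fun k => ‖a k * t ^ k‖) := by
    intro t ht
    have := hsum |t| (abs_nonneg t) ht
    refine this.congr (fun k => ?_)
    rw [norm_mul, Real.norm_eq_abs, Real.norm_eq_abs, abs_of_nonneg (ha k), abs_pow]
  -- the derivative of `p`
  have hder : ∀ t : ℝ, |t| < 1 → (derivative p).eval t = - (p.eval t * ∑' k, a k * t ^ k) := by
    intro t ht
    have e1 : p.eval t = ∑' k, p.coeff k * t ^ k := by
      rw [eval_eq_sum_range' (Nat.lt_succ_self p.natDegree)]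
      symm
      apply tsum_eq_sum
      intro k hk
      rw [Finset.mem_range, not_lt] at hk
      rw [coeff_eq_zero_of_natDegree_lt (by omega), zero_mul]
    have s1 : Summable (fun k => ‖p.coeff k * t ^ k‖) := by
      apply summable_of_hasFiniteSupport
      apply (Finset.finite_toSet (Finset.range (p.natDegree + 1))).subset
      intro k hk
      by_contra hcon
      have h1 : p.natDegree < k := by
        simpa using hcon
      apply hk
      show ‖p.coeff k * t ^ k‖ = 0
      rw [coeff_eq_zero_of_natDegree_lt h1, zero_mul, norm_zero]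
    have e2 : (derivative p).eval t = ∑' k : ℕ, p.coeff (k + 1) * ((k : ℝ) + 1) * t ^ k := by
      rw [eval_eq_sum_range' (Nat.lt_succ_self (derivative p).natDegree)]
      have h1 : ∀ k, (derivative p).coeff k = p.coeff (k + 1) * ((k : ℝ) + 1) :=
        fun k => coeff_derivative p k
      symm
      simp only [← h1]
      apply tsum_eq_sum
      intro k hk
      rw [Finset.mem_range, not_lt] at hk
      rw [coeff_eq_zero_of_natDegree_lt (by omega), zero_mul]
    rw [e1, e2, tsum_mul_tsum_eq_tsum_sum_antidiagonal_of_summable_norm s1 (hsumn t ht),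
      ← tsum_neg]
    apply tsum_congr
    intro k
    rw [hp, neg_mul, Finset.sum_mul]
    congr 1
    apply Finset.sum_congr rfl
    rintro ⟨i, j⟩ hij
    rw [Finset.HasAntidiagonal.mem_antidiagonal] at hij
    dsimp only at hij ⊢
    rw [← hij, pow_add]
    ring
  -- the logarithm
  set L : ℝ → ℝ := fun t => ∑' k : ℕ, a k * (t ^ (k + 1) / ((k : ℝ) + 1)) with hL
  have hLd : ∀ t : ℝ, |t| < 1 → HasDerivAt L (∑' k, a k * t ^ k) t := by
    intro t ht
    obtain ⟨ρ, h1, h2⟩ := exists_between ht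
    have hρ0 : 0 ≤ ρ := (abs_nonneg t).trans h1.le
    refine hasDerivAt_tsum_of_isPreconnected (𝕜 := ℝ)
      (g := fun (k : ℕ) (z : ℝ) => a k * (z ^ (k + 1) / ((k : ℝ) + 1)))
      (g' := fun (k : ℕ) (z : ℝ) => a k * z ^ k) (u := fun k => a k * ρ ^ k) (t := Set.Ioo (-ρ) ρ)
      (y₀ := 0) (hsum ρ hρ0 h2) isOpen_Ioo (convex_Ioo (-ρ) ρ).isPreconnected ?_ ?_ ?_ ?_ ?_
    · intro k y _
      have h3 : HasDerivAt (fun z : ℝ => z ^ (k + 1)) (((k + 1 : ℕ) : ℝ) * y ^ k) y := by
        simpa using hasDerivAt_pow (k + 1) y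
      have h4 := (h3.div_const ((k : ℝ) + 1)).const_mul (a k)
      have h5 : a k * (((k + 1 : ℕ) : ℝ) * y ^ k / ((k : ℝ) + 1)) = a k * y ^ k := by
        have hk : ((k : ℝ) + 1) ≠ 0 := by positivity
        push_cast
        field_simp
      rw [h5] at h4
      exact h4
    · intro k y hy
      rw [Set.mem_Ioo, ← abs_lt] at hy
      rw [norm_mul, Real.norm_eq_abs, Real.norm_eq_abs, abs_of_nonneg (ha k), abs_pow]
      exact mul_le_mul_of_nonneg_left (pow_le_pow_left₀ (abs_nonneg _) hy.le k) (ha k)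
    · rw [Set.mem_Ioo]
      have : 0 < ρ := lt_of_le_of_lt (abs_nonneg t) h1
      exact ⟨by linarith, this⟩
    · simp only [ne_eq, Nat.add_eq_zero_iff, one_ne_zero, and_false, not_false_eq_true, zero_pow,
        zero_div, mul_zero]
      exact summable_zero
    · rw [Set.mem_Ioo, ← abs_lt]
      exact h1
  -- `p exp L = 1`
  have hF : ∀ t : ℝ, 0 ≤ t → t < 1 → p.eval t * Real.exp (L t) = 1 := by
    intro t h0 h1
    have hd : ∀ x : ℝ, |x| < 1 → HasDerivAt (fun x => p.eval x * Real.exp (L x)) 0 x := by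
      intro x hx
      have h2 := (p.hasDerivAt x).mul (hLd x hx).exp
      have h3 : (derivative p).eval x * Real.exp (L x) +
          p.eval x * (Real.exp (L x) * ∑' k, a k * x ^ k) = 0 := by
        rw [hder x hx]; ring
      rw [h3] at h2
      exact h2
    have h2 := constant_of_has_deriv_right_zero (f := fun x => p.eval x * Real.exp (L x))
      (a := 0) (b := t) (by
        intro x hx
        have : |x| < 1 := by rw [abs_of_nonneg hx.1]; exact lt_of_le_of_lt hx.2 h1
        exact (hd x this).continuousAt.continuousWithinAt) (by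
        intro x hx
        have : |x| < 1 := by rw [abs_of_nonneg hx.1]; exact hx.2.trans h1
        exact (hd x this).hasDerivWithinAt) t ⟨h0, le_rfl⟩
    have h3 : L 0 = 0 := by
      simp [hL]
    have h4 : p.eval 0 = 1 := by rw [← coeff_zero_eq_eval_zero, hp0]
    have h5 : p.eval t * Real.exp (L t) = p.eval 0 * Real.exp (L 0) := h2
    rw [h5, h3, h4, Real.exp_zero, one_mul]
  -- the limit
  have hlim : Tendsto L (𝓝[<] 1) (𝓝 (∑' k, a k / ((k : ℝ) + 1))) := by
    have h1 : Tendsto L (𝓝[<] 1) (𝓝 (∑' k : ℕ, a k * (1 ^ (k + 1) / ((k : ℝ) + 1)))) := by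
      apply tendsto_tsum_of_dominated_convergence hs
      · intro k
        have hc : Continuous (fun t : ℝ => a k * (t ^ (k + 1) / ((k : ℝ) + 1))) := by
          fun_prop
        exact (hc.tendsto 1).mono_left nhdsWithin_le_nhds
      · have h2 : ∀ᶠ t : ℝ in 𝓝[<] 1, 0 < t ∧ t < 1 := by
          have h3 : Set.Ioo (0 : ℝ) 1 ∈ 𝓝[<] (1 : ℝ) := Ioo_mem_nhdsLT one_pos
          filter_upwards [h3] with t ht
          exact ht
        filter_upwards [h2] with t ht k
        have hk : (0 : ℝ) < (k : ℝ) + 1 := by positivity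
        rw [norm_mul, Real.norm_eq_abs, Real.norm_eq_abs, abs_of_nonneg (ha k), abs_div,
          abs_pow, abs_of_pos ht.1, abs_of_pos hk, div_eq_mul_one_div (a k)]
        apply mul_le_mul_of_nonneg_left _ (ha k)
        apply div_le_div_of_nonneg_right _ hk.le
        exact pow_le_one₀ ht.1.le ht.2.le
    have h2 : (∑' k : ℕ, a k * (1 ^ (k + 1) / ((k : ℝ) + 1))) = ∑' k, a k / ((k : ℝ) + 1) := by
      apply tsum_congr
      intro k
      rw [one_pow, mul_one_div]
    rwa [h2] at h1
  have h1 : Tendsto (fun t => p.eval t * Real.exp (L t)) (𝓝[<] 1)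
      (𝓝 (p.eval 1 * Real.exp (∑' k, a k / ((k : ℝ) + 1)))) := by
    apply Tendsto.mul
    · exact (p.continuous.tendsto 1).mono_left nhdsWithin_le_nhds
    · exact (Real.continuous_exp.tendsto _).comp hlim
  have h2 : Tendsto (fun t => p.eval t * Real.exp (L t)) (𝓝[<] 1) (𝓝 1) := by
    apply tendsto_const_nhds.congr'
    have h3 : Set.Ioo (0 : ℝ) 1 ∈ 𝓝[<] (1 : ℝ) := Ioo_mem_nhdsLT one_pos
    filter_upwards [h3] with t ht
    exact (hF t ht.1.le ht.2).symm
  have h3 := tendsto_nhds_unique h1 h2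
  rw [Real.exp_neg]
  exact eq_inv_of_mul_eq_one_left h3

/-- `det (1 - B) = exp (- ∑ tr (B ^ k) / k)`. -/
theorem det_exp (B : Matrix ι ι ℝ) (hB : ∀ i j, 0 ≤ B i j)
    (hs : Summable (fun k : ℕ => (B ^ (k + 1)).trace / ((k : ℝ) + 1))) :
    (1 - B).det = Real.exp (- ∑' k : ℕ, (B ^ (k + 1)).trace / ((k : ℝ) + 1)) := by
  have hpow : ∀ k i j, 0 ≤ (B ^ k) i j := by
    intro k
    induction k with
    | zero =>
      intro i j
      rw [pow_zero, Matrix.one_apply]
      split_ifs
      · exact zero_le_one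
      · exact le_rfl
    | succ k ih =>
      intro i j
      rw [pow_succ, Matrix.mul_apply]
      exact Finset.sum_nonneg (fun x _ => mul_nonneg (ih i x) (hB x j))
  have h0 : B.charpolyRev.coeff 0 = 1 := by
    rw [coeff_zero_eq_eval_zero, Matrix.eval_charpolyRev]
  have h1 : B.charpolyRev.eval 1 = (1 - B).det := by
    rw [Matrix.charpolyRev, ← coe_evalRingHom, RingHom.map_det]
    congr 1
    ext i j
    simp [Matrix.map_apply, Matrix.sub_apply, Matrix.one_apply]
    split_ifs <;> simp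
  rw [← h1]
  exact det_exp_aux (fun k => (B ^ (k + 1)).trace)
    (fun k => Finset.sum_nonneg (fun i _ => hpow _ i i)) _ h0
    (fun k => Pool.Agent.TH658.Eq.newton B k) hs

end Q11.PS
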