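import Mathlib
import Pool.Agent.Q11.PSDyn
import Pool.Agent.Q11.PSZeta
import Pool.Agent.H654R3.Paths

set_option autoImplicit false
set_option linter.unusedSectionVars false

/-!
Vertex shifts with a weight depending on finitely many coordinates: the signs of the weights of the
periodic points, and the determinant formula.
-/

namespace Q11.PS

open Function
open scoped ENNReal

section Defs

variable {I : Type} (R : I → I → Prop)

/-- the paths -/
def VS : Type := {x : ℕ → I // ∀ n, R (x n) (x (n + 1))}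

variable {R}

/-- the shift -/
def vsh (x : VS R) : VS R := ⟨fun n => x.1 (n + 1), fun n => x.2 (n + 1)⟩

theorem vsh_iter (n : ℕ) (z : VS R) (m : ℕ) : (vsh^[n] z).1 m = z.1 (m + n) := by
  induction n generalizing z with
  | zero => rfl
  | succ n ih =>
    rw [Function.iterate_succ_apply, ih]
    show z.1 (m + n + 1) = z.1 (m + (n + 1))
    rw [add_assoc]

variable (R)

/-- the weight depends on the coordinates `0, …, N` -/
def Win (N : ℕ) (w : VS R → ℚ) : Prop := ∀ y z : VS R, (∀ i, i ≤ N → y.1 i = z.1 i) → w y = w z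

/-- the 2-block presentation: states -/
abbrev I2 : Type := {p : I × I // R p.1 p.2}

/-- the 2-block presentation: transitions -/
def R2 (p q : I2 R) : Prop := p.1.2 = q.1.1

/-- the conjugation with the 2-block presentation -/
def blk : VS R ≃ VS (R2 R) where
  toFun x := ⟨fun n => ⟨(x.1 n, x.1 (n + 1)), x.2 n⟩, fun _ => rfl⟩
  invFun y := ⟨fun n => (y.1 n).1.1, fun n => by
    have h := y.2 n
    have h2 := (y.1 n).2
    unfold R2 at h
    rw [h] at h2
    exact h2⟩
  left_inv x := rfl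
  right_inv y := by
    apply Subtype.ext
    funext n
    apply Subtype.ext
    exact Prod.ext rfl (y.2 n).symm

theorem blk_vsh (x : VS R) : blk R (vsh x) = vsh (blk R x) := rfl

theorem win_blk {N : ℕ} {w : VS R → ℚ} (h : Win R (N + 1) w) :
    Win (R2 R) N (fun y => w ((blk R).symm y)) := by
  intro y z hyz
  apply h
  intro i hi
  rcases Nat.lt_or_ge i (N + 1) with h1 | h1
  · exact congrArg (fun p : I2 R => p.1.1) (hyz i (by omega))
  · have h2 : i = N + 1 := by omega
    subst h2
    show (y.1 (N + 1)).1.1 = (z.1 (N + 1)).1.1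
    rw [← y.2 N, ← z.2 N, hyz N le_rfl]

/-- irreducibility -/
def Irr : Prop := ∀ i j : I, Relation.TransGen R i j

theorem irr_blk (h : Irr R) : Irr (R2 R) := by
  have key : ∀ (b c : I), Relation.ReflTransGen R b c → ∀ (a d : I) (ha : R a b) (hd : R c d),
      Relation.TransGen (R2 R) ⟨(a, b), ha⟩ ⟨(c, d), hd⟩ := by
    intro b c hbc
    induction hbc using Relation.ReflTransGen.head_induction_on with
    | refl =>
      intro a d ha hd
      exact Relation.TransGen.single rfl
    | @head b b' h1 _ ih =>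
      intro a d ha hd
      have h2 : R2 R ⟨(a, b), ha⟩ ⟨(b, b'), h1⟩ := rfl
      exact Relation.TransGen.head h2 (ih b d h1 hd)
  rintro ⟨⟨a, b⟩, ha⟩ ⟨⟨c, d⟩, hd⟩
  exact key b c (h b c).to_reflTransGen a d ha hd

theorem win_zero {w : VS R → ℚ} (h : Win R 0 w) : ∃ w0 : I → ℚ, ∀ x : VS R, w x = w0 (x.1 0) := by
  classical
  refine ⟨fun i => if h : ∃ x : VS R, x.1 0 = i then w h.choose else 0, fun x => ?_⟩
  have hx : ∃ y : VS R, y.1 0 = x.1 0 := ⟨x, rfl⟩
  dsimp only
  rw [dif_pos hx]
  apply h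
  intro i hi
  rw [Nat.le_zero.1 hi, hx.choose_spec]

end Defs

/-! ### signs -/

section Signs

variable {I : Type} {R : I → I → Prop} {w0 : I → ℚ}

/-- walks with weights -/
inductive Wk (R : I → I → Prop) (w0 : I → ℚ) : I → I → ℚ → Prop
  | one {i j : I} : R i j → Wk R w0 i j (w0 i)
  | cons {i j k : I} {q : ℚ} : R i j → Wk R w0 j k q → Wk R w0 i k (w0 i + q)

theorem Wk.append {i j k : I} {p q : ℚ} (h : Wk R w0 i j p) (h' : Wk R w0 j k q) :
    Wk R w0 i k (p + q) := by
  induction h with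
  | one h => exact Wk.cons h h'
  | cons h _ ih => rw [add_assoc]; exact Wk.cons h (ih h')

theorem Wk.rep {i : I} {p : ℚ} (h : Wk R w0 i i p) (n : ℕ) : Wk R w0 i i ((n + 1 : ℕ) * p) := by
  induction n with
  | zero => simpa using h
  | succ n ih =>
    have := ih.append h
    push_cast at this ⊢
    rwa [show ((n : ℚ) + 1 + 1) * p = ((n : ℚ) + 1) * p + p by ring]

theorem Wk.of_trans {i j : I} (h : Relation.TransGen R i j) : ∃ q, Wk R w0 i j q := by
  induction h using Relation.TransGen.head_induction_on with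
  | single h => exact ⟨_, Wk.one h⟩
  | head h _ ih =>
    obtain ⟨q, hq⟩ := ih
    exact ⟨_, Wk.cons h hq⟩

theorem Wk.fn {i j : I} {q : ℚ} (h : Wk R w0 i j q) : ∃ (n : ℕ) (f : ℕ → I), f 0 = i ∧
    f (n + 1) = j ∧ (∀ m, m ≤ n → R (f m) (f (m + 1))) ∧ ∑ m ∈ Finset.range (n + 1), w0 (f m) = q := by
  induction h with
  | @one i j h =>
    refine ⟨0, fun n => if n = 0 then i else j, rfl, rfl, ?_, ?_⟩
    · intro m hm
      rw [Nat.le_zero.1 hm]
      exact h
    · simp
  | @cons i j k q h _ ih =>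
    obtain ⟨n, f, h0, h1, h2, h3⟩ := ih
    refine ⟨n + 1, fun m => Nat.casesOn m i f, rfl, h1, ?_, ?_⟩
    · intro m hm
      rcases m with _ | m
      · show R i (f 0)
        rw [h0]; exact h
      · exact h2 m (by omega)
    · rw [Finset.sum_range_succ', add_comm]
      show w0 i + ∑ m ∈ Finset.range (n + 1), w0 (f m) = _
      rw [h3]

theorem Wk.periodic {i : I} {q : ℚ} (h : Wk R w0 i i q) : ∃ (n : ℕ) (x : VS R), x.1 0 = i ∧
    vsh^[n + 1] x = x ∧ ws vsh (fun x => w0 (x.1 0)) (n + 1) x = q := by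
  obtain ⟨n, f, h0, h1, h2, h3⟩ := h.fn
  have hR : ∀ m, R (f (m % (n + 1))) (f ((m + 1) % (n + 1))) := by
    intro m
    have hlt : m % (n + 1) < n + 1 := Nat.mod_lt _ (Nat.succ_pos n)
    rcases Nat.lt_or_ge (m % (n + 1) + 1) (n + 1) with h4 | h4
    · have h5 : (m + 1) % (n + 1) = m % (n + 1) + 1 := by
        rw [Nat.add_mod, Nat.mod_eq_of_lt (a := 1) (by omega), Nat.mod_eq_of_lt h4]
      rw [h5]
      exact h2 _ (by omega)
    · have h6 : m % (n + 1) = n := by omega
      have h5 : (m + 1) % (n + 1) = 0 := by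
        rw [← Nat.mod_add_mod, h6, Nat.mod_self]
      rw [h5, h6, h0]
      have := h2 n le_rfl
      rwa [h1] at this
  refine ⟨n, ⟨fun m => f (m % (n + 1)), hR⟩, ?_, ?_, ?_⟩
  · show f (0 % (n + 1)) = i
    rw [Nat.zero_mod, h0]
  · apply Subtype.ext
    funext m
    rw [vsh_iter]
    show f ((m + (n + 1)) % (n + 1)) = f (m % (n + 1))
    rw [Nat.add_mod_right]
  · unfold ws
    rw [← h3]
    apply Finset.sum_congr rfl
    intro m hm
    rw [Finset.mem_range] at hm
    dsimp only
    rw [vsh_iter]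
    show w0 (f ((0 + m) % (n + 1))) = w0 (f m)
    rw [zero_add, Nat.mod_eq_of_lt hm]

theorem Wk.of_point (n : ℕ) (x : VS R) :
    Wk R w0 (x.1 0) (x.1 (n + 1)) (ws vsh (fun x => w0 (x.1 0)) (n + 1) x) := by
  induction n generalizing x with
  | zero =>
    rw [ws_succ, ws_zero, add_zero]
    exact Wk.one (x.2 0)
  | succ n ih =>
    rw [ws_succ]
    exact Wk.cons (x.2 0) (ih (vsh x))

theorem sign_zero (hI : Irr R) (hne : ∀ (n : ℕ) (x : VS R), vsh^[n + 1] x = x →
      ws vsh (fun x => w0 (x.1 0)) (n + 1) x ≠ 0) (n m : ℕ) (x y : VS R)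
    (hx : vsh^[n + 1] x = x) (hy : vsh^[m + 1] y = y) :
    0 < ws vsh (fun x => w0 (x.1 0)) (n + 1) x → 0 < ws vsh (fun x => w0 (x.1 0)) (m + 1) y := by
  intro hpos
  by_contra hcon
  have hneg : ws vsh (fun x => w0 (x.1 0)) (m + 1) y < 0 :=
    lt_of_le_of_ne (not_lt.1 hcon) (hne m y hy)
  set a := ws vsh (fun x => w0 (x.1 0)) (n + 1) x with ha
  set b := ws vsh (fun x => w0 (x.1 0)) (m + 1) y with hb
  have hxa : Wk R w0 (x.1 0) (x.1 0) a := by
    have h1 := Wk.of_point (w0 := w0) n x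
    have h2 : x.1 (n + 1) = x.1 0 := by
      have h3 := vsh_iter (n + 1) x 0
      rw [hx, zero_add] at h3
      exact h3.symm
    rwa [h2] at h1
  have hyb : Wk R w0 (y.1 0) (y.1 0) b := by
    have h1 := Wk.of_point (w0 := w0) m y
    have h2 : y.1 (m + 1) = y.1 0 := by
      have h3 := vsh_iter (m + 1) y 0
      rw [hy, zero_add] at h3
      exact h3.symm
    rwa [h2] at h1
  obtain ⟨p, hp⟩ := Wk.of_trans (w0 := w0) (hI (x.1 0) (y.1 0))
  obtain ⟨q, hq⟩ := Wk.of_trans (w0 := w0) (hI (y.1 0) (x.1 0))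
  -- a closed walk at `x 0` of negative weight
  obtain ⟨N, hN⟩ := exists_nat_gt ((p + q) / (-b))
  have hb' : 0 < -b := by linarith
  rw [div_lt_iff₀ hb'] at hN
  have hc := (hp.append (hyb.rep N)).append hq
  set c := p + ((N + 1 : ℕ) : ℚ) * b + q with hcdef
  have hc0 : c < 0 := by
    rw [hcdef]
    push_cast
    nlinarith
  -- a closed walk of weight zero
  have ha0 : a.num = (a.num.toNat : ℤ) := (Int.toNat_of_nonneg (Rat.num_nonneg.2 hpos.le)).symm
  have hc1 : (-c).num = ((-c).num.toNat : ℤ) :=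
    (Int.toNat_of_nonneg (Rat.num_nonneg.2 (by linarith))).symm
  have ha1 : 0 < a.num.toNat := by
    have := Rat.num_pos.2 hpos
    omega
  have hc2 : 0 < (-c).num.toNat := by
    have : 0 < (-c).num := Rat.num_pos.2 (by linarith)
    omega
  obtain ⟨A, hA⟩ : ∃ A : ℕ, A + 1 = (-c).num.toNat * a.den :=
    ⟨(-c).num.toNat * a.den - 1, Nat.sub_add_cancel (Nat.mul_pos hc2 a.den_pos)⟩
  obtain ⟨C, hC⟩ : ∃ C : ℕ, C + 1 = a.num.toNat * (-c).den :=
    ⟨a.num.toNat * (-c).den - 1, Nat.sub_add_cancel (Nat.mul_pos ha1 (-c).den_pos)⟩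
  have hz := (hxa.rep A).append (hc.rep C)
  have e1 : (((A + 1 : ℕ) : ℚ)) * a = (-c).num * a.num := by
    rw [hA]
    push_cast
    have h1 : ((-c).num.toNat : ℚ) = ((-c).num : ℚ) := by
      rw [hc1]; rfl
    have h2 : (a.den : ℚ) * a = a.num := by rw [mul_comm]; exact Rat.mul_den_eq_num a
    rw [h1, mul_assoc, h2]
  have e2 : (((C + 1 : ℕ) : ℚ)) * c = - ((-c).num * a.num) := by
    rw [hC]
    push_cast
    have h1 : (a.num.toNat : ℚ) = (a.num : ℚ) := by
      rw [ha0]; rfl
    have h2 : ((-c).den : ℚ) * (-c) = (-c).num := by rw [mul_comm]; exact Rat.mul_den_eq_num (-c)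
    have h3 : ((-c).den : ℚ) * c = - (-c).num := by linarith
    rw [h1, mul_assoc, h3]
    ring
  rw [e1, e2, add_neg_cancel] at hz
  obtain ⟨k, z, -, hz1, hz2⟩ := hz.periodic
  exact hne k z hz1 hz2

theorem sign_win (N : ℕ) : ∀ {I : Type} {R : I → I → Prop} (_ : Irr R) (w : VS R → ℚ)
    (_ : Win R N w) (_ : ∀ (n : ℕ) (x : VS R), vsh^[n + 1] x = x → ws vsh w (n + 1) x ≠ 0)
    (n m : ℕ) (x y : VS R) (_ : vsh^[n + 1] x = x) (_ : vsh^[m + 1] y = y),
    0 < ws vsh w (n + 1) x → 0 < ws vsh w (m + 1) y := by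
  induction N with
  | zero =>
    intro I R hI w hw hne n m x y hx hy
    obtain ⟨w0, hw0⟩ := win_zero R hw
    obtain rfl : w = fun x => w0 (x.1 0) := funext hw0
    exact sign_zero hI hne n m x y hx hy
  | succ N ih =>
    intro I R hI w hw hne n m x y hx hy
    have hiter : ∀ (n : ℕ) (x : VS R), blk R (vsh^[n] x) = vsh^[n] (blk R x) := by
      intro n
      induction n with
      | zero => intro x; rfl
      | succ n ih => intro x; rw [iterate_succ_apply, ih, blk_vsh, iterate_succ_apply]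
    have hws : ∀ (n : ℕ) (x : VS R),
        ws vsh (fun y => w ((blk R).symm y)) n (blk R x) = ws vsh w n x := by
      intro n x
      unfold ws
      apply Finset.sum_congr rfl
      intro i _
      dsimp only
      rw [← hiter, Equiv.symm_apply_apply]
    have key := ih (irr_blk R hI) _ (win_blk R hw) (by
      intro n y hy
      obtain ⟨x, rfl⟩ := (blk R).surjective y
      rw [hws]
      apply hne
      rw [← hiter] at hy
      exact (blk R).injective hy) n m (blk R x) (blk R y) (by rw [← hiter, hx])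
        (by rw [← hiter, hy])
    rwa [hws, hws] at key

end Signs

/-! ### determinants -/

section Det

open Classical in
/-- the matrix of the relation -/
noncomputable def MR {I : Type} (R : I → I → Prop) : Matrix I I ℝ := fun i j => if R i j then 1 else 0

open Classical in
/-- the weighted matrix -/
noncomputable def MW {I : Type} (R : I → I → Prop) (w0 : I → ℚ) (s : ℝ) : Matrix I I ℝ :=
  fun i j => if R i j then Real.exp (-(s * (w0 i : ℚ))) else 0

theorem MW_zero {I : Type} (R : I → I → Prop) (w0 : I → ℚ) : MW R w0 0 = MR R := by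
  ext i j
  unfold MW MR
  rw [zero_mul, neg_zero, Real.exp_zero]

variable {I : Type} [Fintype I] (R : I → I → Prop)

open Classical in
/-- closed paths as functions on `Fin (m + 1)` -/
noncomputable def clPath (m : ℕ) : {x : VS R // vsh^[m + 1] x = x} ≃
    {p : Fin (m + 1) → I // ∀ i, R (p i) (p (i + 1))} where
  toFun x := ⟨fun i => x.1.1 i.1, by
    intro i
    have h1 := x.1.2 i.1
    rcases Nat.lt_or_ge (i.1 + 1) (m + 1) with h2 | h2
    · have h3 : (i + 1).1 = i.1 + 1 := by
        rw [Fin.val_add_one_of_lt]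
        rw [Fin.lt_def, Fin.val_last]
        omega
      dsimp only
      rw [h3]
      exact h1
    · have h3 : i = Fin.last m := by
        apply Fin.ext
        rw [Fin.val_last]
        have := i.2
        omega
      subst h3
      rw [Fin.last_add_one]
      have h4 := vsh_iter (m + 1) x.1 0
      rw [x.2, zero_add] at h4
      show R (x.1.1 m) (x.1.1 0)
      rw [h4]
      exact h1⟩
  invFun p := ⟨⟨fun n => p.1 (Fin.ofNat (m + 1) n), by
    intro n
    have h := p.2 (Fin.ofNat (m + 1) n)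
    have h2 : (Fin.ofNat (m + 1) n) + 1 = Fin.ofNat (m + 1) (n + 1) := by
      apply Fin.ext
      rw [Fin.val_add, Fin.val_ofNat, Fin.val_ofNat, Fin.val_one', ← Nat.add_mod]
    rw [h2] at h
    exact h⟩, by
      apply Subtype.ext
      funext n
      rw [vsh_iter]
      show p.1 (Fin.ofNat (m + 1) (n + (m + 1))) = p.1 (Fin.ofNat (m + 1) n)
      refine congrArg p.1 (Fin.ext ?_)
      rw [Fin.val_ofNat, Fin.val_ofNat, Nat.add_mod_right]⟩
  left_inv x := by
    apply Subtype.ext
    apply Subtype.ext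
    funext n
    show x.1.1 (n % (m + 1)) = x.1.1 n
    have h1 : ∀ (q r : ℕ), x.1.1 (r + (m + 1) * q) = x.1.1 r := by
      intro q r
      induction q with
      | zero => rfl
      | succ q ih =>
        have h4 := vsh_iter (m + 1) x.1 (r + (m + 1) * q)
        rw [x.2, ih] at h4
        rw [h4]
        refine congrArg x.1.1 ?_
        ring
    rw [← h1 (n / (m + 1)) (n % (m + 1)), Nat.mod_add_div]
  right_inv p := by
    apply Subtype.ext
    funext i
    show p.1 (Fin.ofNat (m + 1) i.1) = p.1 i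
    refine congrArg p.1 (Fin.ext ?_)
    rw [Fin.val_ofNat, Nat.mod_eq_of_lt i.2]

variable [DecidableEq I]

instance fin_cl (m : ℕ) : Finite {x : VS R // vsh^[m + 1] x = x} :=
  Finite.of_equiv _ (clPath R m).symm

open Classical in
theorem trace_MW (w0 : I → ℚ) (s : ℝ) (m : ℕ) :
    ENNReal.ofReal ((MW R w0 s ^ (m + 1)).trace / ((m : ℝ) + 1)) =
      ∑' x : {x : VS R // vsh^[m + 1] x = x}, ENNReal.ofReal
        (Real.exp (-(s * (ws vsh (fun x => w0 (x.1 0)) (m + 1) x.1 : ℚ))) / ((m : ℝ) + 1)) := by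
  have h1 : (MW R w0 s ^ (m + 1)).trace =
      ∑ p : {p : Fin (m + 1) → I // ∀ i, R (p i) (p (i + 1))},
        Real.exp (-(s * ∑ i, (w0 (p.1 i) : ℝ))) := by
    rw [Pool.Agent.H654R3.trace_pow_paths]
    have h2 : ∀ p : Fin (m + 1) → I, ∏ i, MW R w0 s (p i) (p (i + 1)) =
        if (∀ i, R (p i) (p (i + 1))) then Real.exp (-(s * ∑ i, (w0 (p i) : ℝ))) else 0 := by
      intro p
      split_ifs with h
      · rw [Finset.mul_sum, ← Finset.sum_neg_distrib, Real.exp_sum]
        apply Finset.prod_congr rfl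
        intro i _
        exact if_pos (h i)
      · push Not at h
        obtain ⟨i, hi⟩ := h
        exact Finset.prod_eq_zero (Finset.mem_univ i) (if_neg hi)
    simp only [h2]
    rw [← Finset.sum_filter, Finset.sum_subtype]
    intro p
    simp
  rw [← (clPath R m).symm.tsum_eq, tsum_fintype, h1, Finset.sum_div, ENNReal.ofReal_sum_of_nonneg]
  · apply Finset.sum_congr rfl
    intro p _
    congr 4
    unfold ws
    push_cast
    rw [Finset.sum_range]
    apply congrArg (fun t : ℝ => s * t)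
    apply Finset.sum_congr rfl
    intro i _
    rw [vsh_iter]
    show (w0 (p.1 i) : ℝ) = (w0 (p.1 (Fin.ofNat (m + 1) (0 + i.1))) : ℝ)
    refine congrArg (fun i => (w0 (p.1 i) : ℝ)) (Fin.ext ?_)
    rw [Fin.val_ofNat, zero_add, Nat.mod_eq_of_lt i.2]
  · intro p _
    positivity

theorem MW_nonneg (w0 : I → ℚ) (s : ℝ) (i j : I) : 0 ≤ MW R w0 s i j := by
  unfold MW
  split_ifs
  · exact (Real.exp_pos _).le
  · exact le_rfl

theorem pow_nonneg_entry (B : Matrix I I ℝ) (hB : ∀ i j, 0 ≤ B i j) (k : ℕ) (i j : I) :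
    0 ≤ (B ^ k) i j := by
  induction k generalizing i j with
  | zero =>
    rw [pow_zero, Matrix.one_apply]
    split_ifs
    · exact zero_le_one
    · exact le_rfl
  | succ k ih =>
    rw [pow_succ, Matrix.mul_apply]
    exact Finset.sum_nonneg (fun x _ => mul_nonneg (ih i x) (hB x j))

theorem det_zero (w0 : I → ℚ) (s : ℝ) (hT : TT (vsh (R := R)) (fun x => w0 (x.1 0)) s ≠ ⊤) :
    (1 - MW R w0 s).det = Real.exp (-(TT (vsh (R := R)) (fun x => w0 (x.1 0)) s).toReal) := by
  have h0 : ∀ m : ℕ, 0 ≤ (MW R w0 s ^ (m + 1)).trace / ((m : ℝ) + 1) := fun m =>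
    div_nonneg (Finset.sum_nonneg (fun i _ => pow_nonneg_entry _ (MW_nonneg R w0 s) _ i i))
      (by positivity)
  have h1 : TT (vsh (R := R)) (fun x => w0 (x.1 0)) s =
      ∑' m : ℕ, ENNReal.ofReal ((MW R w0 s ^ (m + 1)).trace / ((m : ℝ) + 1)) := by
    unfold TT
    apply tsum_congr
    intro m
    rw [trace_MW]
  rw [h1] at hT ⊢
  have h2 : Summable (fun m : ℕ => (MW R w0 s ^ (m + 1)).trace / ((m : ℝ) + 1)) := by
    have := ENNReal.summable_toReal hT
    refine this.congr (fun m => ?_)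
    rw [ENNReal.toReal_ofReal (h0 m)]
  rw [det_exp _ (MW_nonneg R w0 s) h2, ENNReal.tsum_toReal_eq]
  · congr 2
    apply tsum_congr
    intro m
    rw [ENNReal.toReal_ofReal (h0 m)]
  · intro m
    exact ENNReal.ofReal_ne_top

end Det

end Q11.PS
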