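import Mathlib
import Pool.Agent.Q11.PSVert

set_option autoImplicit false
set_option linter.unusedSectionVars false

/-!
The determinant of a vertex shift as the value at `0` of an analytic function determined by the
weights of the periodic points.
-/

namespace Q11.PS

open Function
open scoped ENNReal

theorem analytic_det {I : Type} [Fintype I] [DecidableEq I] (R : I → I → Prop) (w0 : I → ℚ) :
    AnalyticOnNhd ℝ (fun s => (1 - MW R w0 s).det) Set.univ := by
  simp only [Matrix.det_apply]
  apply Finset.analyticOnNhd_fun_sum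
  intro σ _
  have h1 : AnalyticOnNhd ℝ (fun s => ∏ i, (1 - MW R w0 s) (σ i) i) Set.univ := by
    apply Finset.analyticOnNhd_fun_prod
    intro i _
    simp only [Matrix.sub_apply, MW]
    apply AnalyticOnNhd.sub
    · exact analyticOnNhd_const
    · split_ifs
      · intro s _
        fun_prop
      · exact analyticOnNhd_const
  intro s hs
  have h2 := (h1 s hs)
  have h3 : (fun s => Equiv.Perm.sign σ • ∏ i, (1 - MW R w0 s) (σ i) i) =
      fun s => ((Equiv.Perm.sign σ : ℤ) : ℝ) * ∏ i, (1 - MW R w0 s) (σ i) i := by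
    funext s
    rw [Units.smul_def, zsmul_eq_mul]
  rw [h3]
  exact analyticAt_const.mul h2

theorem det_blk {I : Type} [Fintype I] [DecidableEq I] (R : I → I → Prop) [Fintype (I2 R)]
    [DecidableEq (I2 R)] : (1 - MR (R2 R)).det = (1 - MR R).det := by
  classical
  let P : Matrix (I2 R) I ℝ := fun p i => if p.1.2 = i then 1 else 0
  let Q : Matrix I (I2 R) ℝ := fun i q => if i = q.1.1 then 1 else 0
  have h1 : MR (R2 R) = P * Q := by
    ext p q
    rw [Matrix.mul_apply]
    simp only [P, Q, ite_mul, one_mul, zero_mul, Finset.sum_ite_eq, Finset.mem_univ, if_true]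
    unfold MR R2
    split_ifs <;> rfl
  have h2 : MR R = Q * P := by
    ext i j
    rw [Matrix.mul_apply]
    simp only [P, Q, MR, ite_mul, one_mul, zero_mul]
    by_cases h : R i j
    · rw [if_pos h, Finset.sum_eq_single (⟨(i, j), h⟩ : I2 R)]
      · rw [if_pos rfl, if_pos rfl]
      · rintro ⟨⟨a, b⟩, hab⟩ _ hne
        by_cases h3 : i = a
        · by_cases h4 : b = j
          · subst h3
            subst h4
            exact absurd rfl hne
          · rw [if_pos h3, if_neg h4]
        · rw [if_neg h3]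
      · intro h3
        exact absurd (Finset.mem_univ _) h3
    · rw [if_neg h]
      symm
      apply Finset.sum_eq_zero
      rintro ⟨⟨a, b⟩, hab⟩ _
      by_cases h3 : i = a
      · by_cases h4 : b = j
        · subst h3
          subst h4
          exact absurd hab h
        · rw [if_pos h3, if_neg h4]
      · rw [if_neg h3]
  rw [h1, h2, Matrix.det_one_sub_mul_comm]

theorem det_win (N : ℕ) : ∀ {I : Type} [Fintype I] [DecidableEq I] (R : I → I → Prop)
    (w : VS R → ℚ) (_ : Win R N w), ∃ D : ℝ → ℝ, AnalyticOnNhd ℝ D Set.univ ∧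
      D 0 = (1 - MR R).det ∧
      ∀ s, TT (vsh (R := R)) w s ≠ ⊤ → D s = Real.exp (-(TT (vsh (R := R)) w s).toReal) := by
  classical
  induction N with
  | zero =>
    intro I _ _ R w hw
    obtain ⟨w0, hw0⟩ := win_zero R hw
    obtain rfl : w = fun x => w0 (x.1 0) := funext hw0
    refine ⟨fun s => (1 - MW R w0 s).det, analytic_det R w0, ?_, fun s hs => det_zero R w0 s hs⟩
    dsimp only
    rw [MW_zero]
  | succ N ih =>
    intro I _ _ R w hw
    let _ : Fintype (I2 R) := Fintype.ofFinite _
    obtain ⟨D, hD, hD0, hDs⟩ := ih (R2 R) _ (win_blk R hw)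
    refine ⟨D, hD, ?_, ?_⟩
    · rw [hD0, det_blk]
    · intro s hs
      have h1 := TT_conj (vsh (R := R)) w (vsh (R := R2 R)) (blk R) (blk_vsh R) s
      rw [← h1] at hs ⊢
      exact hDs s hs

theorem card_fix {I : Type} [Fintype I] (R : I → I → Prop) (m : ℕ) :
    Nat.card {x : VS R // vsh^[m + 1] x = x} ≤ (Fintype.card I) ^ (m + 1) := by
  rw [Nat.card_congr (clPath R m)]
  have h1 : Nat.card {p : Fin (m + 1) → I // ∀ i, R (p i) (p (i + 1))} ≤
      Nat.card (Fin (m + 1) → I) := Nat.card_le_card_of_injective _ Subtype.val_injective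
  rw [Nat.card_fun, Nat.card_fin, Nat.card_eq_fintype_card (α := I)] at h1
  exact h1

/-- finiteness for the constant weight `1` -/
theorem TT_finite {I : Type} [Fintype I] (R : I → I → Prop) (s : ℝ)
    (hs : (Fintype.card I : ℝ) * Real.exp (-s) < 1) :
    TT (vsh (R := R)) (fun _ => 1) s ≠ ⊤ := by
  have hfin : ∀ m, Finite {x : VS R // vsh^[m + 1] x = x} := fun m =>
    Finite.of_equiv _ (clPath R m).symm
  have h1 : TT (vsh (R := R)) (fun _ => 1) s ≤
      ∑' k : ℕ, ENNReal.ofReal (((Fintype.card I : ℝ) * Real.exp (-s)) ^ (k + 1)) := by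
    unfold TT
    apply ENNReal.tsum_le_tsum
    intro k
    let _ := Fintype.ofFinite {x : VS R // vsh^[k + 1] x = x}
    have h2 : ∀ x : {x : VS R // vsh^[k + 1] x = x}, ENNReal.ofReal
        (Real.exp (-(s * (ws vsh (fun _ => 1) (k + 1) x.1 : ℚ))) / ((k : ℝ) + 1)) ≤
        ENNReal.ofReal ((Real.exp (-s)) ^ (k + 1)) := by
      intro x
      apply ENNReal.ofReal_le_ofReal
      have h3 : ((ws vsh (fun _ => 1) (k + 1) x.1 : ℚ) : ℝ) = (k : ℝ) + 1 := by
        unfold ws
        simp
      rw [h3, ← Real.exp_nat_mul]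
      have h4 : -(s * ((k : ℝ) + 1)) = ((k + 1 : ℕ) : ℝ) * -s := by
        push_cast
        ring
      rw [h4]
      exact div_le_self (Real.exp_pos _).le (by linarith [k.cast_nonneg (α := ℝ)])
    calc _ ≤ ∑' _x : {x : VS R // vsh^[k + 1] x = x}, ENNReal.ofReal ((Real.exp (-s)) ^ (k + 1)) :=
          ENNReal.tsum_le_tsum h2
      _ = (Fintype.card {x : VS R // vsh^[k + 1] x = x} : ℝ≥0∞) *
            ENNReal.ofReal ((Real.exp (-s)) ^ (k + 1)) := by
          rw [tsum_fintype, Finset.sum_const, Finset.card_univ, nsmul_eq_mul]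
      _ ≤ ((Fintype.card I ^ (k + 1) : ℕ) : ℝ≥0∞) * ENNReal.ofReal ((Real.exp (-s)) ^ (k + 1)) := by
          apply mul_le_mul_left
          have := card_fix R k
          rw [Nat.card_eq_fintype_card] at this
          exact_mod_cast this
      _ = _ := by
          rw [← ENNReal.ofReal_natCast, ← ENNReal.ofReal_mul (by positivity), mul_pow]
          push_cast
          rfl
  apply ne_top_of_le_ne_top _ h1
  set c := (Fintype.card I : ℝ) * Real.exp (-s) with hc
  have hc0 : 0 ≤ c := by positivity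
  have h2 : Summable (fun k : ℕ => c ^ (k + 1)) := by
    have := (summable_geometric_of_lt_one hc0 hs).mul_left c
    refine this.congr (fun k => ?_)
    rw [pow_succ]; ring
  rw [← ENNReal.ofReal_tsum_of_nonneg (fun k => pow_nonneg hc0 _) h2]
  exact ENNReal.ofReal_ne_top

/-- two vertex shifts with the same weighted sums have the same determinant -/
theorem det_eq_of_TT {I J : Type} [Fintype I] [DecidableEq I] [Fintype J] [DecidableEq J]
    (R : I → I → Prop) (R' : J → J → Prop) (w' : VS R' → ℚ) (N : ℕ) (hw' : Win R' N w')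
    (h : ∀ s : ℝ, TT (vsh (R := R)) (fun _ => 1) s = TT (vsh (R := R')) w' s) :
    (1 - MR R).det = (1 - MR R').det := by
  obtain ⟨D, hD, hD0, hDs⟩ := det_win 0 R (fun _ => 1) (fun _ _ _ => rfl)
  obtain ⟨D', hD', hD0', hDs'⟩ := det_win N R' w' hw'
  obtain ⟨s₀, hs₀⟩ : ∃ s₀ : ℝ, ∀ s, s₀ < s → (Fintype.card I : ℝ) * Real.exp (-s) < 1 := by
    refine ⟨Real.log ((Fintype.card I : ℝ) + 1), fun s hs => ?_⟩
    have h1 : (0 : ℝ) < (Fintype.card I : ℝ) + 1 := by positivity
    rw [Real.log_lt_iff_lt_exp h1] at hs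
    rw [Real.exp_neg, ← div_eq_mul_inv, div_lt_one (Real.exp_pos s)]
    linarith
  have heq : D = D' := by
    apply hD.eq_of_eventuallyEq (z₀ := s₀ + 1) hD'
    have h1 : Set.Ioi s₀ ∈ nhds (s₀ + 1) := Ioi_mem_nhds (by linarith)
    filter_upwards [h1] with s hs
    have h2 := TT_finite R s (hs₀ s hs)
    rw [hDs s h2, hDs' s (by rw [← h s]; exact h2), h s]
  rw [← hD0, ← hD0', heq]

end Q11.PS
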