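import Mathlib
import Pool.Agent.Q11.PSDefs
import Pool.Agent.Q11.PSCat
import Pool.Agent.Q11.PSTot
import Pool.Agent.Q11.PSFree
import Pool.Agent.Q11.PSAbs
import Pool.Agent.Q11.PSAtom

set_option autoImplicit false
set_option linter.unusedSectionVars false

/-!
The torsors of the category of diagrams.
-/

namespace Q11.PS

open CategoryTheory CategoryTheory.Limits

variable {G : Graph} [Good G]

/-! ### the space of paths -/

instance : TopologicalSpace (Ed G) := ⊥
instance : DiscreteTopology (Ed G) := ⟨rfl⟩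
instance : TopologicalSpace (PP G) :=
  inferInstanceAs (TopologicalSpace {z : ℕ → Ed G // ∀ n, src (z n) = tgt (z (n + 1))})
instance : T2Space (PP G) :=
  inferInstanceAs (T2Space {z : ℕ → Ed G // ∀ n, src (z n) = tgt (z (n + 1))})

theorem isClosed_PP : IsClosed {z : ℕ → Ed G | ∀ n, src (z n) = tgt (z (n + 1))} := by
  have h : {z : ℕ → Ed G | ∀ n, src (z n) = tgt (z (n + 1))} =
      ⋂ n, (fun z : ℕ → Ed G => (z n, z (n + 1))) ⁻¹' {p | src p.1 = tgt p.2} := by
    ext z
    simp
  rw [h]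
  apply isClosed_iInter
  intro n
  apply IsClosed.preimage _ (isClosed_discrete _)
  exact (continuous_apply n).prodMk (continuous_apply (n + 1))

instance : CompactSpace (PP G) :=
  isCompact_iff_compactSpace.1 (isClosed_PP (G := G)).isCompact

/-- a locally constant function on the space of paths depends on finitely many edges -/
theorem exists_window (w : PP G → ℚ) (hw : IsLocallyConstant w) :
    ∃ N, ∀ y z : PP G, (∀ i, i ≤ N → y.1 i = z.1 i) → w y = w z := by
  -- a cylinder around each point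
  have h1 : ∀ z : PP G, ∃ N, ∀ y : PP G, (∀ i, i ≤ N → y.1 i = z.1 i) → w y = w z := by
    intro z
    have ho : IsOpen (w ⁻¹' {w z}) := hw _
    obtain ⟨U, hU, hUw⟩ := isOpen_induced_iff.1 ho
    have hz : z.1 ∈ U := by
      have : z ∈ (Subtype.val ⁻¹' U : Set (PP G)) := by rw [hUw]; rfl
      exact this
    obtain ⟨I, u, hu, hI⟩ := isOpen_pi_iff.1 hU z.1 hz
    refine ⟨I.sup id, fun y hy => ?_⟩
    have : y ∈ w ⁻¹' {w z} := by
      rw [← hUw]
      apply hI
      intro i hi
      rw [hy i (Finset.le_sup (f := id) hi)]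
      exact (hu i hi).2
    exact this
  choose N hN using h1
  -- finitely many cylinders
  have hopen : ∀ z : PP G, IsOpen {y : PP G | ∀ i, i ≤ N z → y.1 i = z.1 i} := by
    intro z
    have h : {y : PP G | ∀ i, i ≤ N z → y.1 i = z.1 i} =
        ⋂ i ∈ Finset.range (N z + 1), (fun y : PP G => y.1 i) ⁻¹' {z.1 i} := by
      ext y
      simp
    rw [h]
    apply isOpen_biInter_finset
    intro i _
    apply IsOpen.preimage _ (isOpen_discrete _)
    exact (continuous_apply i).comp continuous_subtype_val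
  obtain ⟨t, ht⟩ := isCompact_univ.elim_finite_subcover
    (fun z : PP G => {y : PP G | ∀ i, i ≤ N z → y.1 i = z.1 i}) hopen
    (fun z _ => Set.mem_iUnion.2 ⟨z, fun _ _ => rfl⟩)
  refine ⟨t.sup N, fun y z hyz => ?_⟩
  obtain ⟨x, hx⟩ := Set.mem_iUnion.1 (ht (Set.mem_univ y))
  obtain ⟨hxt, hxy⟩ := Set.mem_iUnion.1 hx
  have hxy' : ∀ i, i ≤ N x → y.1 i = x.1 i := hxy
  have hle : N x ≤ t.sup N := Finset.le_sup hxt
  rw [hN x y hxy', hN x z (fun i hi => by rw [← hyz i (hi.trans hle)]; exact hxy' i hi)]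

/-! ### diagrams without discrete part -/

/-- no discrete part -/
def SE (X : Diag LObj G) : Prop := ∀ v, IsEmpty (X.obj v).S

/-- the flip automorphism -/
def flipHom (X : Diag LObj G) : X ⟶ X where
  app v := ⟨LObj.flip, fun _ => rfl, id, fun _ => 0, continuous_id, IsLocallyConstant.const 0,
    fun k q => by rw [add_zero]; rfl⟩
  comm ε := by
    apply LObj.hom_ext
    intro x
    exact ((X.map ε).2.1 x).symm

theorem flipHom_comp (X : Diag LObj G) : flipHom X ≫ flipHom X = 𝟙 X := by
  apply tot_ext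
  intro t
  exact flipT_flipT t

/-- the flip automorphism -/
def flipAut (X : Diag LObj G) : Aut X := ⟨flipHom X, flipHom X, flipHom_comp X, flipHom_comp X⟩

theorem se_of_aut {X : Diag LObj G} (θ : Aut X ≃* Multiplicative ℚ) : SE X := by
  intro v
  refine ⟨fun s => ?_⟩
  have h1 : flipAut X * flipAut X = 1 := by
    apply Iso.ext
    exact flipHom_comp X
  have h2 : θ (flipAut X) * θ (flipAut X) = 1 := by rw [← map_mul, h1, map_one]
  have h3 : Multiplicative.toAdd (θ (flipAut X)) + Multiplicative.toAdd (θ (flipAut X)) = 0 := h2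
  have h4 : Multiplicative.toAdd (θ (flipAut X)) = 0 := by linarith
  have h5 : θ (flipAut X) = 1 := h4
  have h6 : flipAut X = 1 := by
    apply θ.injective
    rw [h5, map_one]
  have h7 : flipHom X = 𝟙 X := congrArg Iso.hom h6
  have h8 : tot (flipHom X) ⟨v, Sum.inr (s, false)⟩ = ⟨v, Sum.inr (s, false)⟩ := by rw [h7]; rfl
  have h9 : LObj.flip (Sum.inr (s, false) : (X.obj v).Pt) = Sum.inr (s, false) :=
    eq_of_heq (Sigma.mk.inj h8).2
  exact LObj.flip_inr_ne _ h9

/-- the points of the compact part -/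
def pt {X : Diag LObj G} (κ : Σ v, (X.obj v).K) (q : ℚ) : Tot X := ⟨κ.1, Sum.inl (κ.2, q)⟩

section lam

variable {X : Diag LObj G} (hX : SE X)
include hX

/-- translation by `q` -/
def lamHom (q : ℚ) : X ⟶ X where
  app v := ⟨fun p => match p with
    | Sum.inl (k, r) => Sum.inl (k, r + q)
    | Sum.inr s => Sum.inr s, by
    refine ⟨?_, id, fun _ => q, continuous_id, IsLocallyConstant.const q, fun k q => rfl⟩
    rintro (⟨k, r⟩ | ⟨s, _⟩)
    · rfl
    · exact ((hX v).false s).elim⟩
  comm {a b} ε := by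
    apply LObj.hom_ext
    obtain ⟨φ, c, hφ, hc, h⟩ := (X.map ε).2.2
    rintro (⟨k, r⟩ | ⟨s, _⟩)
    · show (match (X.map ε).1 (Sum.inl (k, r)) with
        | Sum.inl (k, r) => Sum.inl (k, r + q)
        | Sum.inr s => Sum.inr s) = (X.map ε).1 (Sum.inl (k, r + q))
      rw [h, h]
      show Sum.inl (φ k, r + c k + q) = Sum.inl (φ k, r + q + c k)
      congr 2
      ring
    · exact ((hX a).false s).elim

theorem eq_pt (t : Tot X) : ∃ κ q, t = pt κ q := by
  obtain ⟨v, (⟨k, q⟩ | ⟨s, _⟩)⟩ := t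
  · exact ⟨⟨v, k⟩, q, rfl⟩
  · exact ((hX v).false s).elim

omit hX in
theorem pt_inj {κ κ' : Σ v, (X.obj v).K} {q q' : ℚ} (h : pt κ q = pt κ' q') :
    κ = κ' ∧ q = q' := by
  obtain ⟨v, k⟩ := κ
  obtain ⟨v', k'⟩ := κ'
  obtain ⟨h1, h2⟩ := Sigma.mk.inj h
  dsimp only at h1
  subst h1
  have h3 := Sum.inl_injective (eq_of_heq h2)
  obtain ⟨h4, h5⟩ := Prod.mk.inj h3
  dsimp only at h4
  subst h4
  exact ⟨rfl, h5⟩

theorem tot_lam (q r : ℚ) (κ : Σ v, (X.obj v).K) :
    tot (lamHom hX q) (pt κ r) = pt κ (r + q) := rfl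

theorem lam_comp (q r : ℚ) : lamHom hX q ≫ lamHom hX r = lamHom hX (q + r) := by
  apply tot_ext
  intro t
  obtain ⟨κ, s, rfl⟩ := eq_pt hX t
  rw [tot_comp, tot_lam, tot_lam, tot_lam, add_assoc]

theorem lam_zero : lamHom hX 0 = 𝟙 X := by
  apply tot_ext
  intro t
  obtain ⟨κ, s, rfl⟩ := eq_pt hX t
  rw [tot_lam, add_zero, tot_id]

/-- translation by `q`, as an automorphism -/
def lam (q : ℚ) : Aut X where
  hom := lamHom hX q
  inv := lamHom hX (-q)
  hom_inv_id := by rw [lam_comp, add_neg_cancel, lam_zero]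
  inv_hom_id := by rw [lam_comp, neg_add_cancel, lam_zero]

theorem lam_hom (q : ℚ) : (lam hX q).hom = lamHom hX q := rfl

theorem lam_injective (t : Tot X) : Function.Injective (lam hX) := by
  intro q r h
  obtain ⟨κ, s, rfl⟩ := eq_pt hX t
  have h1 : lamHom hX q = lamHom hX r := congrArg Iso.hom h
  have h2 : tot (lamHom hX q) (pt κ s) = tot (lamHom hX r) (pt κ s) := by rw [h1]
  rw [tot_lam, tot_lam] at h2
  have := (pt_inj h2).2
  linarith

theorem lam_surjective (θ : Aut X ≃* Multiplicative ℚ) (t : Tot X) :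
    Function.Surjective (lam hX) := by
  -- the additive map `ℚ → ℚ`
  let ψ : ℚ →+ ℚ :=
    { toFun := fun q => Multiplicative.toAdd (θ (lam hX q))
      map_zero' := by
        have h : lam hX 0 = 1 := Iso.ext (lam_zero hX)
        rw [h, map_one]
        rfl
      map_add' := fun q r => by
        have h : lam hX (q + r) = lam hX q * lam hX r := by
          apply Iso.ext
          show lamHom hX (q + r) = lamHom hX r ≫ lamHom hX q
          rw [lam_comp, add_comm]
        rw [h, map_mul]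
        rfl }
  have hψ : ∀ q, ψ q = Multiplicative.toAdd (θ (lam hX q)) := fun q => rfl
  have hinj : Function.Injective ψ := by
    intro q r h
    rw [hψ, hψ] at h
    exact lam_injective hX t (θ.injective h)
  have hmul : ∀ q, ψ q = q * ψ 1 := by
    intro q
    have := map_rat_smul ψ q 1
    rw [smul_eq_mul, mul_one] at this
    rw [this, smul_eq_mul]
  have h1 : ψ 1 ≠ 0 := by
    intro h
    have := hinj (h.trans (map_zero ψ).symm)
    exact one_ne_zero this
  intro a
  refine ⟨Multiplicative.toAdd (θ a) / ψ 1, ?_⟩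
  apply θ.injective
  have h2 : ψ (Multiplicative.toAdd (θ a) / ψ 1) = Multiplicative.toAdd (θ a) := by
    rw [hmul, div_mul_cancel₀ _ h1]
  rw [hψ] at h2
  exact h2

end lam

end Q11.PS
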