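import Mathlib
import Pool.Agent.Q11.PSDefs
import Pool.Agent.Q11.PSCat
import Pool.Agent.Q11.PSTot
import Pool.Agent.Q11.PSFree
import Pool.Agent.Q11.PSAbs
import Pool.Agent.Q11.PSAtom
import Pool.Agent.Q11.PSTor

set_option autoImplicit false
set_option linter.unusedSectionVars false

/-!
The locally constant function attached to a torsor, and its periods.
-/

namespace Q11.PS

open CategoryTheory CategoryTheory.Limits

variable {G : Graph} [Good G]

/-- the sums of `w` along an orbit -/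
def wsum (w : PP G → ℚ) (n : ℕ) (z : PP G) : ℚ := ∑ i ∈ Finset.range n, w (sh^[i] z)

theorem wsum_succ (w : PP G → ℚ) (n : ℕ) (z : PP G) :
    wsum w (n + 1) z = w z + wsum w n (sh z) := by
  unfold wsum
  rw [Finset.sum_range_succ', add_comm]
  rfl

section K

variable {X : Diag LObj G} (hX : SE X)
include hX

/-- the compact part, by edge and ancestor -/
noncomputable def pushK (p : Σ e : Ed G, (X.obj (src e)).K) : Σ v, (X.obj v).K :=
  ⟨tgt p.1, Classical.choose (X.map p.1.2.2).2.2 p.2⟩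

/-- the label -/
noncomputable def labK (p : Σ e : Ed G, (X.obj (src e)).K) : ℚ :=
  Classical.choose (Classical.choose_spec (X.map p.1.2.2).2.2) p.2

omit hX in
theorem pushK_spec (p : Σ e : Ed G, (X.obj (src e)).K) (q : ℚ) :
    (⟨tgt p.1, (X.map p.1.2.2).1 (Sum.inl (p.2, q))⟩ : Tot X) = pt (pushK p) (q + labK p) := by
  have h := (Classical.choose_spec (Classical.choose_spec (X.map p.1.2.2).2.2)).2.2 p.2 q
  rw [h]
  rfl

omit hX in
theorem edge_pushK (p : Σ e : Ed G, (X.obj (src e)).K) (q : ℚ) :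
    (TS X).edge (pt (pushK p) (q + labK p)) = p.1 := by
  rw [← pushK_spec, edge_map]

omit hX in
theorem anc_pushK (p : Σ e : Ed G, (X.obj (src e)).K) (q : ℚ) :
    (TS X).anc (pt (pushK p) (q + labK p)) = pt ⟨src p.1, p.2⟩ q := by
  rw [← pushK_spec, anc_map]
  rfl

omit hX in
theorem pushK_continuous : Continuous (pushK : (Σ e : Ed G, (X.obj (src e)).K) → _) := by
  apply continuous_sigma
  intro e
  have h := (Classical.choose_spec (Classical.choose_spec (X.map e.2.2).2.2)).1
  exact (@continuous_sigmaMk G.V (fun v => (X.obj v).K) _ (tgt e)).comp h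

omit hX in
theorem labK_lc : IsLocallyConstant (labK : (Σ e : Ed G, (X.obj (src e)).K) → ℚ) := by
  intro s
  rw [isOpen_sigma_iff]
  intro e
  exact (Classical.choose_spec (Classical.choose_spec (X.map e.2.2).2.2)).2.1 s

theorem pushK_bijective : Function.Bijective (pushK : (Σ e : Ed G, (X.obj (src e)).K) → _) := by
  constructor
  · intro p p' h
    have h1 : (pt (pushK p) (0 + labK p) : Tot X) = pt (pushK p') ((labK p - labK p') + labK p') := by
      rw [h, zero_add, sub_add_cancel]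
    have h2 := congrArg (TS X).edge h1
    rw [edge_pushK, edge_pushK] at h2
    have h3 := congrArg (TS X).anc h1
    rw [anc_pushK, anc_pushK] at h3
    obtain ⟨e, k⟩ := p
    obtain ⟨e', k'⟩ := p'
    dsimp only at h2
    subst h2
    have h4 := (pt_inj h3).1
    have h5 := eq_of_heq (Sigma.mk.inj h4).2
    dsimp only at h5
    rw [h5]
  · intro κ
    obtain ⟨a, b, ε, x, hx⟩ := exists_map X (pt κ 0)
    rcases x with ⟨k, q⟩ | ⟨s, _⟩
    · refine ⟨⟨⟨b, a, ε⟩, k⟩, ?_⟩
      have h1 := pushK_spec (X := X) ⟨⟨b, a, ε⟩, k⟩ q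
      have h2 : (pt κ 0 : Tot X) = pt (pushK ⟨⟨b, a, ε⟩, k⟩) (q + labK ⟨⟨b, a, ε⟩, k⟩) :=
        hx.trans h1
      exact (pt_inj h2).1.symm
    · exact ((hX a).false s).elim

/-- the homeomorphism -/
noncomputable def homK : (Σ e : Ed G, (X.obj (src e)).K) ≃ₜ (Σ v, (X.obj v).K) :=
  Continuous.homeoOfEquivCompactToT2 (f := Equiv.ofBijective _ (pushK_bijective hX))
    pushK_continuous

theorem homK_apply (p : Σ e : Ed G, (X.obj (src e)).K) : homK hX p = pushK p := rfl

/-- the ancestor -/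
noncomputable def ancK (κ : Σ v, (X.obj v).K) : Σ v, (X.obj v).K :=
  ⟨src ((homK hX).symm κ).1, ((homK hX).symm κ).2⟩

/-- the edge -/
noncomputable def edgeK (κ : Σ v, (X.obj v).K) : Ed G := ((homK hX).symm κ).1

/-- the label -/
noncomputable def lb (κ : Σ v, (X.obj v).K) : ℚ := labK ((homK hX).symm κ)

theorem lb_lc : IsLocallyConstant (lb hX) := labK_lc.comp_continuous (homK hX).symm.continuous

theorem edgeK_continuous : Continuous (edgeK hX) := by
  have h : Continuous (fun p : Σ e : Ed G, (X.obj (src e)).K => p.1) :=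
    continuous_sigma (fun _ => continuous_const)
  exact h.comp (homK hX).symm.continuous

theorem ancK_continuous : Continuous (ancK hX) := by
  have h : Continuous (fun p : Σ e : Ed G, (X.obj (src e)).K =>
      (⟨src p.1, p.2⟩ : Σ v, (X.obj v).K)) :=
    continuous_sigma (fun e => @continuous_sigmaMk G.V (fun v => (X.obj v).K) _ (src e))
  exact h.comp (homK hX).symm.continuous

theorem edge_pt (κ : Σ v, (X.obj v).K) (q : ℚ) : (TS X).edge (pt κ q) = edgeK hX κ := by
  obtain ⟨p, rfl⟩ := (homK hX).surjective κ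
  have h := edge_pushK p (q - labK p)
  rw [sub_add_cancel] at h
  unfold edgeK
  rw [(homK hX).symm_apply_apply]
  exact h

theorem anc_pt (κ : Σ v, (X.obj v).K) (q : ℚ) :
    (TS X).anc (pt κ q) = pt (ancK hX κ) (q - lb hX κ) := by
  obtain ⟨p, rfl⟩ := (homK hX).surjective κ
  have h := anc_pushK p (q - labK p)
  rw [sub_add_cancel] at h
  unfold ancK lb
  rw [(homK hX).symm_apply_apply]
  exact h

theorem anc_iter_pt (n : ℕ) (κ : Σ v, (X.obj v).K) (q : ℚ) :
    ∃ r, (TS X).anc^[n] (pt κ q) = pt ((ancK hX)^[n] κ) r := by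
  induction n generalizing κ q with
  | zero => exact ⟨q, rfl⟩
  | succ n ih =>
    obtain ⟨r, hr⟩ := ih (ancK hX κ) (q - lb hX κ)
    refine ⟨r, ?_⟩
    have e1 : (TS X).anc^[n + 1] (pt κ q) = (TS X).anc^[n] ((TS X).anc (pt κ q)) := rfl
    rw [e1, anc_pt hX, hr]
    rfl

/-- the path of a point of the compact part -/
noncomputable def PiK (κ : Σ v, (X.obj v).K) : PP G := (TS X).path (pt κ 0)

theorem path_pt_apply (κ : Σ v, (X.obj v).K) (q : ℚ) (n : ℕ) :
    ((TS X).path (pt κ q)).1 n = edgeK hX ((ancK hX)^[n] κ) := by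
  show (TS X).edge ((TS X).anc^[n] (pt κ q)) = _
  obtain ⟨r, hr⟩ := anc_iter_pt hX n κ q
  rw [hr, edge_pt hX]

theorem path_pt (κ : Σ v, (X.obj v).K) (q : ℚ) : (TS X).path (pt κ q) = PiK κ := by
  apply Subtype.ext
  funext n
  rw [path_pt_apply hX]
  exact (path_pt_apply hX κ 0 n).symm

theorem PiK_continuous : Continuous (PiK (X := X)) := by
  apply Continuous.subtype_mk
  apply continuous_pi
  intro n
  have h : (fun κ => ((TS X).path (pt κ 0)).1 n) = fun κ => edgeK hX ((ancK hX)^[n] κ) := by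
    funext κ
    exact path_pt_apply hX κ 0 n
  show Continuous (fun κ => ((TS X).path (pt κ 0)).1 n)
  rw [h]
  exact (edgeK_continuous hX).comp ((ancK_continuous hX).iterate n)

end K

/-- The properties of a torsor. -/
structure TorP (X : Diag LObj G) (hX : SE X) : Prop where
  pt_ex : ∀ z : PP G, ∃ t : Tot X, (TS X).path t = z
  trans : ∀ t t' : Tot X, (TS X).path t = (TS X).path t' → ∃ q, tot (lamHom hX q) t = t'
  surj : Function.Surjective (lam hX)

theorem IsTor.torP {X : Diag LObj G} (h : IsTor X) : ∃ hX : SE X, TorP X hX := by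
  obtain ⟨⟨θ⟩, h2⟩ := h
  have hX := se_of_aut θ
  have hne : Nonempty (Tot X) := by
    by_contra hcon
    rw [not_nonempty_iff] at hcon
    have h1 : ∀ a b : Aut X, a = b := by
      intro a b
      apply Iso.ext
      apply tot_ext
      intro t
      exact (hcon.false t).elim
    have h3 : θ.symm (Multiplicative.ofAdd 1) = θ.symm (Multiplicative.ofAdd 0) := h1 _ _
    have h4 := θ.symm.injective h3
    exact one_ne_zero (α := ℚ) (Multiplicative.ofAdd.injective h4)
  obtain ⟨t₀⟩ := hne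
  have hs := lam_surjective hX θ t₀
  refine ⟨hX, ⟨fun z => ?_, fun t t' htt => ?_, hs⟩⟩
  · obtain ⟨⟨u⟩, -⟩ := h2 (Fx z) (fx_isAtom z)
    exact ⟨tot u (base z), by rw [path_tot, base, path_mkT]⟩
  · obtain ⟨-, h3⟩ := h2 (Fx ((TS X).path t)) (fx_isAtom _)
    obtain ⟨a, ha⟩ := h3 (fxHom t rfl) (fxHom t' htt.symm)
    obtain ⟨q, rfl⟩ := hs a
    refine ⟨q, ?_⟩
    have h4 := congrArg (fun f => tot f (base ((TS X).path t))) ha
    rw [tot_comp, fxHom_base, fxHom_base] at h4
    exact h4

section P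

variable {X : Diag LObj G} {hX : SE X} (hT : TorP X hX)
include hT

theorem PiK_bijective : Function.Bijective (PiK (X := X)) := by
  constructor
  · intro κ κ' h
    obtain ⟨q, hq⟩ := hT.trans (pt κ 0) (pt κ' 0) h
    rw [tot_lam] at hq
    exact (pt_inj hq).1
  · intro z
    obtain ⟨t, ht⟩ := hT.pt_ex z
    obtain ⟨κ, q, rfl⟩ := eq_pt hX t
    exact ⟨κ, by rw [← path_pt hX κ q, ht]⟩

/-- the compact part is the space of paths -/
noncomputable def homP : (Σ v, (X.obj v).K) ≃ₜ PP G :=
  Continuous.homeoOfEquivCompactToT2 (f := Equiv.ofBijective _ (PiK_bijective hT))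
    (PiK_continuous hX)

/-- the function attached to the torsor -/
noncomputable def wT (z : PP G) : ℚ := lb hX ((homP hT).symm z)

theorem wT_lc : IsLocallyConstant (wT hT) := (lb_lc hX).comp_continuous (homP hT).symm.continuous

theorem wT_path (κ : Σ v, (X.obj v).K) (q : ℚ) : wT hT ((TS X).path (pt κ q)) = lb hX κ := by
  unfold wT
  rw [path_pt hX]
  have h : PiK κ = homP hT κ := rfl
  rw [h, (homP hT).symm_apply_apply]

theorem anc_pt' (κ : Σ v, (X.obj v).K) (q : ℚ) :
    (TS X).anc (pt κ q) = pt (ancK hX κ) (q - wT hT ((TS X).path (pt κ q))) := by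
  rw [wT_path, anc_pt hX]

theorem anc_iter_pt' (n : ℕ) (κ : Σ v, (X.obj v).K) (q : ℚ) :
    (TS X).anc^[n] (pt κ q) =
      pt ((ancK hX)^[n] κ) (q - wsum (wT hT) n ((TS X).path (pt κ q))) := by
  induction n generalizing κ q with
  | zero =>
    show pt κ q = pt κ (q - wsum (wT hT) 0 ((TS X).path (pt κ q)))
    simp [wsum]
  | succ n ih =>
    have e1 : (TS X).anc^[n + 1] (pt κ q) = (TS X).anc^[n] ((TS X).anc (pt κ q)) := rfl
    rw [e1, anc_pt' hT, ih]
    have e2 : (TS X).path (pt (ancK hX κ) (q - wT hT ((TS X).path (pt κ q)))) =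
        sh ((TS X).path (pt κ q)) := by
      rw [← anc_pt' hT, GS.path_anc]
    rw [e2, wsum_succ]
    show pt ((ancK hX)^[n + 1] κ) _ = _
    congr 1
    ring

/-- the periods of a free diagram at a torsor -/
theorem per_iff (x : PP G) (q : ℚ) : lam hX q ∈ Per (Fx x) X ↔
    ∃ m n : ℕ, sh^[m] x = sh^[n] x ∧ q = wsum (wT hT) m x - wsum (wT hT) n x := by
  constructor
  · rintro ⟨τ, hτ⟩
    obtain ⟨t, ht⟩ := hT.pt_ex x
    obtain ⟨κ, r, rfl⟩ := eq_pt hX t
    obtain ⟨y, p, hr, β, hy⟩ := eq_mkT (tot τ.hom (base x))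
    have hyx : y = x := by
      have := path_tot τ.hom (base x)
      rw [hy, path_mkT, base, path_mkT] at this
      exact this
    subst hyx
    have h1 := congrArg (fun f => tot f (base y)) (hτ (fxHom (pt κ r) ht))
    rw [tot_comp, tot_comp, fxHom_base, hy, lam_hom, tot_lam] at h1
    -- the flip acts trivially
    have h2 : ∀ β, tot (fxHom (pt κ r) ht) (mkT y p hr β) =
        tot (fxHom (pt κ r) ht) (mkT y p hr false) := by
      intro β
      cases β
      · rfl
      · have e : mkT y p hr true = flipT (mkT y p hr false) := rfl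
        rw [e, tot_flipT]
        obtain ⟨κ', r', hh⟩ := eq_pt hX (tot (fxHom (pt κ r) ht) (mkT y p hr false))
        rw [hh]
        rfl
    rw [h2] at h1
    have h3 := tr_tot (fxHom (pt κ r) ht) (tr_base y p hr)
    rw [h1, fxHom_base] at h3
    obtain ⟨m, n, hmn, h4⟩ := h3
    refine ⟨m, n, ?_, ?_⟩
    · have h5 := congrArg (TS X).path h4
      rw [GS.path_anc_iter, GS.path_anc_iter, path_pt hX, ← path_pt hX κ r, ht] at h5
      exact h5
    · rw [anc_iter_pt' hT, anc_iter_pt' hT, path_pt hX, ← path_pt hX κ r, ht] at h4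
      have h5 := (pt_inj h4).2
      linarith
  · rintro ⟨m, n, hmn, hq⟩
    have hr : Rel x x ((m : ℤ) - n) := ⟨m, n, rfl, hmn⟩
    let f : Fx x ⟶ Fx x := fxHom (mkT x ((m : ℤ) - n) hr false) (path_mkT _ _ _ _)
    have hf : IsIso f := fx_isIso f
    refine ⟨@asIso _ _ _ _ f hf, fun u => ?_⟩
    show f ≫ u = u ≫ lamHom hX q
    apply fx_hom_ext
    rw [tot_comp, tot_comp, fxHom_base]
    obtain ⟨κ, r, hκ⟩ := eq_pt hX (tot u (base x))
    have hp : (TS X).path (pt κ r) = x := by
      rw [← hκ, path_tot, base, path_mkT]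
    have h1 := tr_tot u (tr_base x _ hr)
    rw [hκ] at h1
    rw [hκ, tot_lam]
    obtain ⟨q', hq'⟩ := hT.trans (pt κ r) (tot u (mkT x _ hr false)) (by
      rw [hp, path_tot, path_mkT])
    rw [tot_lam] at hq'
    rw [← hq'] at h1 ⊢
    -- compare the labels
    have h2 : (TS X).Tr (pt κ r) (pt κ (r + q')) ((m : ℤ) - n) := h1
    have h3 : (TS X).anc^[m] (pt κ (r + q)) = (TS X).anc^[n] (pt κ r) := by
      obtain ⟨m', n', hmn', h4⟩ := h2
      have h5 : ∀ s : ℚ, (TS X).path (pt κ s) = x := fun s => by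
        rw [path_pt hX, ← path_pt hX κ r, hp]
      have h6 : (ancK hX)^[m] κ = (ancK hX)^[n] κ := by
        apply (PiK_bijective hT).1
        have e1 : PiK ((ancK hX)^[m] κ) = sh^[m] x := by
          rw [← h5 r, ← GS.path_anc_iter, anc_iter_pt' hT, path_pt hX]
        have e2 : PiK ((ancK hX)^[n] κ) = sh^[n] x := by
          rw [← h5 r, ← GS.path_anc_iter, anc_iter_pt' hT, path_pt hX]
        rw [e1, e2, hmn]
      rw [anc_iter_pt' hT, anc_iter_pt' hT, h5, h5, h6, hq]
      congr 1
      ring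
    apply GS.Tr.unique h2 ⟨m, n, rfl, h3⟩
    rw [path_pt hX, path_pt hX]

end P

end Q11.PS
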