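import Mathlib
import Pool.Agent.Q11.PSDefs
import Pool.Agent.Q11.PSCat
import Pool.Agent.Q11.PSTot
import Pool.Agent.Q11.PSFree
import Pool.Agent.Q11.PSAbs
import Pool.Agent.Q11.PSAtom
import Pool.Agent.Q11.PSTor
import Pool.Agent.Q11.PSTorB

set_option autoImplicit false
set_option linter.unusedSectionVars false

/-!
The torsor with all labels `1`.
-/

namespace Q11.PS

open CategoryTheory CategoryTheory.Limits

variable {G : Graph} [Good G]

/-- the paths starting at `v` -/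
abbrev PV (G : Graph) (v : G.V) : Type := {z : PP G // tgt (z.1 0) = v}

instance (v : G.V) : CompactSpace (PV G v) := by
  have hc : Continuous (fun z : PP G => z.1 0) :=
    (continuous_apply (A := fun _ : ℕ => Ed G) 0).comp continuous_subtype_val
  have h : IsClosed {z : PP G | tgt (z.1 0) = v} :=
    (isClosed_discrete {e : Ed G | tgt e = v}).preimage hc
  exact isCompact_iff_compactSpace.1 h.isCompact

/-- the objects -/
def T1O (G : Graph) [Good G] (v : G.V) : LObj where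
  K := PV G v
  S := Empty

theorem continuous_consP {a b : G.V} (ε : G.E a b) :
    Continuous (fun z : PV G a => (⟨consP ⟨b, a, ε⟩ z.1 z.2.symm, rfl⟩ : PV G b)) := by
  apply Continuous.subtype_mk
  apply Continuous.subtype_mk
  apply continuous_pi
  intro n
  rcases n with _ | n
  · exact continuous_const
  · exact (continuous_apply n).comp (continuous_subtype_val.comp continuous_subtype_val)

/-- the morphisms -/
def T1Map {a b : G.V} (ε : G.E a b) : T1O G a ⟶ T1O G b :=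
  ⟨fun t => match t with
    | Sum.inl (z, q) => Sum.inl ((⟨consP ⟨b, a, ε⟩ z.1 z.2.symm, rfl⟩ : PV G b), q + 1)
    | Sum.inr (s, _) => Empty.elim s, by
    refine ⟨?_, fun z => (⟨consP ⟨b, a, ε⟩ z.1 z.2.symm, rfl⟩ : PV G b), fun _ => 1,
      continuous_consP ε, IsLocallyConstant.const 1, fun k q => rfl⟩
    rintro (⟨k, r⟩ | ⟨s, _⟩)
    · rfl
    · exact Empty.elim s⟩

/-- the diagram with all labels `1` -/
def T1 (G : Graph) [Good G] : Diag LObj G where
  obj v := T1O G v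
  map ε := T1Map ε
  cop b _ := by
    apply LObj.isColimit_of_bijective
    constructor
    · rintro ⟨⟨a, ε⟩, (⟨z, q⟩ | ⟨s, _⟩)⟩ ⟨⟨a', ε'⟩, (⟨z', q'⟩ | ⟨s', _⟩)⟩ hh
      · change (Sum.inl ((⟨consP ⟨b, a, ε⟩ z.1 z.2.symm, rfl⟩ : PV G b), q + 1) :
            (T1O G b).Pt) =
          Sum.inl ((⟨consP ⟨b, a', ε'⟩ z'.1 z'.2.symm, rfl⟩ : PV G b), q' + 1) at hh
        have h1 := Sum.inl_injective hh
        obtain ⟨h2, h3⟩ := Prod.mk.inj h1
        have h5 := congrArg Subtype.val h2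
        have h7 : (⟨b, a, ε⟩ : Ed G) = ⟨b, a', ε'⟩ := congrArg (fun z : PP G => z.1 0) h5
        have h8 : z.1 = z'.1 := congrArg sh h5
        have h9 : q = q' := by linarith
        obtain ⟨_, h11⟩ := Sigma.mk.inj h7
        obtain ⟨h12, h13⟩ := Sigma.mk.inj (eq_of_heq h11)
        subst h12
        have h14 := eq_of_heq h13
        subst h14
        have h15 := Subtype.ext h8
        subst h15
        subst h9
        rfl
      · exact Empty.elim s'
      · exact Empty.elim s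
      · exact Empty.elim s
    · rintro (⟨⟨z, hz⟩, q⟩ | ⟨s, _⟩)
      · obtain ⟨b', a, ε, he⟩ : ∃ b' a ε, z.1 0 = ⟨b', a, ε⟩ := ⟨_, _, _, rfl⟩
        have hb' : b' = b := by rw [he] at hz; exact hz
        subst hb'
        have h1 : tgt ((sh z).1 0) = a := by
          have := z.2 0
          rw [he] at this
          exact this.symm
        refine ⟨⟨⟨a, ε⟩, Sum.inl ((⟨sh z, h1⟩ : PV G a), q - 1)⟩, ?_⟩
        show (Sum.inl ((⟨consP ⟨b', a, ε⟩ (sh z) h1.symm, rfl⟩ : PV G b'), q - 1 + 1) :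
            (T1O G b').Pt) = Sum.inl ((⟨z, hz⟩ : PV G b'), q)
        congr 2
        · apply Subtype.ext
          apply PP_ext
          · exact he.symm
          · rfl
        · ring
      · exact Empty.elim s

theorem T1_se : SE (T1 G) := fun _ => inferInstanceAs (IsEmpty Empty)

/-- the points of `T1` -/
def pz (z : PP G) (q : ℚ) : Tot (T1 G) := ⟨tgt (z.1 0), Sum.inl ((⟨z, rfl⟩ : PV G _), q)⟩

theorem eq_pz (t : Tot (T1 G)) : ∃ z q, t = pz z q := by
  obtain ⟨v, (⟨⟨z, hz⟩, q⟩ | ⟨s, _⟩)⟩ := t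
  · subst hz
    exact ⟨z, q, rfl⟩
  · exact Empty.elim s

theorem pz_inj {z z' : PP G} {q q' : ℚ} (h : pz z q = pz z' q') : z = z' ∧ q = q' := by
  obtain ⟨h1, h2⟩ := pt_inj (X := T1 G) (κ := ⟨_, (⟨z, rfl⟩ : PV G _)⟩)
    (κ' := ⟨_, (⟨z', rfl⟩ : PV G _)⟩) h
  refine ⟨?_, h2⟩
  have h3 : ∀ κ κ' : (Σ v, ((T1 G).obj v).K), κ = κ' →
      (κ.2 : PV G κ.1).1 = (κ'.2 : PV G κ'.1).1 := by
    rintro κ κ' rfl
    rfl
  exact h3 _ _ h1

theorem pz_eq_map (z : PP G) (q : ℚ) {a b : G.V} {ε : G.E a b} (hz : z.1 0 = ⟨b, a, ε⟩)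
    (h1 : tgt ((sh z).1 0) = a) :
    pz z q = ⟨b, ((T1 G).map ε).1 (Sum.inl ((⟨sh z, h1⟩ : PV G a), q - 1))⟩ := by
  have hc : src (⟨b, a, ε⟩ : Ed G) = tgt ((sh z).1 0) := h1.symm
  have hyc : z = consP ⟨b, a, ε⟩ (sh z) hc := PP_ext hz rfl
  have h2 : pz z q = pz (consP ⟨b, a, ε⟩ (sh z) hc) (q - 1 + 1) := by
    rw [← hyc, sub_add_cancel]
  rw [h2]
  rfl

theorem edge_pz (z : PP G) (q : ℚ) : (TS (T1 G)).edge (pz z q) = z.1 0 := by
  obtain ⟨b, a, ε, hz⟩ : ∃ b' a ε, z.1 0 = ⟨b', a, ε⟩ := ⟨_, _, _, rfl⟩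
  have h1 : tgt ((sh z).1 0) = a := by
    have := z.2 0
    rw [hz] at this
    exact this.symm
  rw [pz_eq_map z q hz h1, edge_map, hz]

theorem anc_pz (z : PP G) (q : ℚ) : (TS (T1 G)).anc (pz z q) = pz (sh z) (q - 1) := by
  obtain ⟨b, a, ε, hz⟩ : ∃ b' a ε, z.1 0 = ⟨b', a, ε⟩ := ⟨_, _, _, rfl⟩
  have h1 : tgt ((sh z).1 0) = a := by
    have := z.2 0
    rw [hz] at this
    exact this.symm
  rw [pz_eq_map z q hz h1, anc_map]
  subst h1
  rfl

theorem path_pz (z : PP G) (q : ℚ) : (TS (T1 G)).path (pz z q) = z := by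
  have h : ∀ n, ∃ r, (TS (T1 G)).anc^[n] (pz z q) = pz (sh^[n] z) r := by
    intro n
    induction n generalizing z q with
    | zero => exact ⟨q, rfl⟩
    | succ n ih =>
      obtain ⟨r, hr⟩ := ih (sh z) (q - 1)
      refine ⟨r, ?_⟩
      have e1 : (TS (T1 G)).anc^[n + 1] (pz z q) =
          (TS (T1 G)).anc^[n] ((TS (T1 G)).anc (pz z q)) := rfl
      rw [e1, anc_pz, hr]
      rfl
  apply Subtype.ext
  funext n
  show (TS (T1 G)).edge ((TS (T1 G)).anc^[n] (pz z q)) = z.1 n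
  obtain ⟨r, hr⟩ := h n
  rw [hr, edge_pz, sh_iter, zero_add]

/-! ### irreducibility -/

theorem exists_prefix {a b : G.V} (p : DiPath G a b) (y : PP G) (hy : tgt (y.1 0) = a) :
    ∃ (z : PP G) (m : ℕ), sh^[m] z = y ∧ tgt (z.1 0) = b := by
  induction p with
  | nil => exact ⟨y, 0, rfl, hy⟩
  | cons p e ih =>
    obtain ⟨z, m, h1, h2⟩ := ih
    refine ⟨consP ⟨_, _, e⟩ z h2.symm, m + 1, ?_, rfl⟩
    rw [Function.iterate_succ_apply, sh_consP, h1]

theorem exists_glue (x : PP G) (N : ℕ) (z : PP G) (h : src (x.1 N) = tgt (z.1 0)) :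
    ∃ y : PP G, (∀ i, i ≤ N → y.1 i = x.1 i) ∧ sh^[N + 1] y = z := by
  induction N generalizing x with
  | zero =>
    refine ⟨consP (x.1 0) z h, fun i hi => ?_, rfl⟩
    rw [Nat.le_zero.1 hi]
    rfl
  | succ N ih =>
    obtain ⟨y, h1, h2⟩ := ih (sh x) h
    have h3 : src (x.1 0) = tgt (y.1 0) := by
      rw [h1 0 (Nat.zero_le _)]; exact x.2 0
    refine ⟨consP (x.1 0) y h3, fun i hi => ?_, ?_⟩
    · rcases i with _ | i
      · rfl
      · exact h1 i (by omega)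
    · rw [Function.iterate_succ_apply, sh_consP, h2]

/-- an invariant function which is constant near some point is constant -/
theorem invariant_const (hG : Irreducible G) (C : PP G → ℚ) (hC : ∀ z, C z = C (sh z))
    (x : PP G) (N : ℕ) (hx : ∀ z : PP G, (∀ i, i ≤ N → z.1 i = x.1 i) → C z = C x) (y : PP G) :
    C y = C x := by
  have hC' : ∀ n z, C z = C (sh^[n] z) := by
    intro n
    induction n with
    | zero => intro z; rfl
    | succ n ih => intro z; rw [Function.iterate_succ_apply, ← ih, hC z]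
  obtain ⟨z, m, h1, h2⟩ := exists_prefix (hG.2 (tgt (y.1 0)) (src (x.1 N))) y rfl
  obtain ⟨w, h3, h4⟩ := exists_glue x N z h2.symm
  rw [← h1, ← hC' m z, ← h4, ← hC' (N + 1) w, hx w h3]

theorem nonempty_PP (hG : Irreducible G) : Nonempty (PP G) := by
  classical
  choose p hp using fun b : G.V => (Good.inc (G := G) b)
  let e : ∀ b, G.E (p b) b := fun b => (hp b).some
  obtain ⟨v⟩ := hG.1
  exact ⟨⟨fun n => ⟨p^[n] v, p (p^[n] v), e _⟩, fun n => by
    show p (p^[n] v) = p^[n + 1] v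
    rw [Function.iterate_succ_apply']⟩⟩

theorem T1_aut (hG : Irreducible G) (f : T1 G ⟶ T1 G) : ∃ q, f = lamHom T1_se q := by
  -- the shift of the label
  have h1 : ∀ z, ∃ c, ∀ q, tot f (pz z q) = pz z (q + c) := by
    intro z
    obtain ⟨φ, c, -, -, h⟩ := (f.app (tgt (z.1 0))).2.2
    refine ⟨c (⟨z, rfl⟩ : PV G _), fun q => ?_⟩
    have h2 : tot f (pz z q) = ⟨tgt (z.1 0), Sum.inl (φ (⟨z, rfl⟩ : PV G _),
        q + c (⟨z, rfl⟩ : PV G _))⟩ :=
      congrArg (fun t => (⟨tgt (z.1 0), t⟩ : Tot (T1 G))) (h (⟨z, rfl⟩ : PV G _) q)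
    obtain ⟨z', q', h3⟩ := eq_pz (tot f (pz z q))
    have h4 : z' = z := by
      have := path_tot f (pz z q)
      rw [h3, path_pz, path_pz] at this
      exact this
    subst h4
    rw [h3] at h2 ⊢
    have h5 : (Sum.inl ((⟨z', rfl⟩ : PV G _), q') : ((T1 G).obj (tgt (z'.1 0))).Pt) =
        Sum.inl (φ (⟨z', rfl⟩ : PV G _), q + c (⟨z', rfl⟩ : PV G _)) :=
      eq_of_heq (Sigma.mk.inj h2).2
    have h6 := (Prod.mk.inj (Sum.inl_injective h5)).2
    rw [h6]
  choose C hC using h1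
  have hinv : ∀ z, C z = C (sh z) := by
    intro z
    have h2 := anc_tot f (pz z 0)
    rw [hC, anc_pz, anc_pz, hC] at h2
    have := (pz_inj h2).2
    linarith
  obtain ⟨x⟩ := nonempty_PP hG
  -- local constancy at `x`
  have hloc : ∃ N, ∀ z : PP G, (∀ i, i ≤ N → z.1 i = x.1 i) → C z = C x := by
    obtain ⟨φ, c, -, hc, h⟩ := (f.app (tgt (x.1 0))).2.2
    have hcC : ∀ (z : PP G) (hz : tgt (z.1 0) = tgt (x.1 0)), c (⟨z, hz⟩ : PV G _) = C z := by
      intro z hz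
      have h2 : (⟨tgt (x.1 0), Sum.inl ((⟨z, hz⟩ : PV G _), 0)⟩ : Tot (T1 G)) = pz z 0 := by
        have : ∀ v (hz : tgt (z.1 0) = v),
            (⟨v, Sum.inl ((⟨z, hz⟩ : PV G _), 0)⟩ : Tot (T1 G)) = pz z 0 := by
          rintro _ rfl
          rfl
        exact this _ hz
      have h3 : tot f (⟨tgt (x.1 0), Sum.inl ((⟨z, hz⟩ : PV G _), 0)⟩ : Tot (T1 G)) =
          ⟨tgt (x.1 0), Sum.inl (φ (⟨z, hz⟩ : PV G _), 0 + c (⟨z, hz⟩ : PV G _))⟩ :=
        congrArg (fun t => (⟨tgt (x.1 0), t⟩ : Tot (T1 G))) (h (⟨z, hz⟩ : PV G _) 0)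
      rw [h2, hC] at h3
      -- compare
      have h4 : ∀ v (k : PV G v) (r : ℚ), pz z (0 + C z) =
          (⟨v, Sum.inl (k, r)⟩ : Tot (T1 G)) → 0 + C z = r := by
        intro v k r hk
        have h5 : (⟨v, Sum.inl (k, r)⟩ : Tot (T1 G)) = pz k.1 r := by
          obtain ⟨k, rfl⟩ := k
          rfl
        rw [h5] at hk
        exact (pz_inj hk).2
      have h5 := h4 _ _ _ h3
      linarith
    have ho : IsOpen (c ⁻¹' {C x}) := hc _
    obtain ⟨U, hU, hUc⟩ := isOpen_induced_iff.1 ho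
    obtain ⟨W, hW, hWU⟩ := isOpen_induced_iff.1 hU
    have hx : x.1 ∈ W := by
      have h3 : x ∈ U := (Set.ext_iff.1 hUc (⟨x, rfl⟩ : PV G (tgt (x.1 0)))).2 (hcC x rfl)
      rw [← hWU] at h3
      exact h3
    obtain ⟨I, u, hu, hI⟩ := isOpen_pi_iff.1 hW x.1 hx
    refine ⟨I.sup id, fun z hz => ?_⟩
    have hz0 : tgt (z.1 0) = tgt (x.1 0) := by rw [hz 0 (Nat.zero_le _)]
    have h2 : z.1 ∈ W := by
      apply hI
      intro i hi
      rw [hz i (Finset.le_sup (f := id) hi)]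
      exact (hu i hi).2
    have h3 : z ∈ U := by rw [← hWU]; exact h2
    have h5 : c (⟨z, hz0⟩ : PV G (tgt (x.1 0))) = C x :=
      (Set.ext_iff.1 hUc (⟨z, hz0⟩ : PV G (tgt (x.1 0)))).1 h3
    rw [hcC] at h5
    exact h5
  obtain ⟨N, hN⟩ := hloc
  refine ⟨C x, tot_ext fun t => ?_⟩
  obtain ⟨z, q, rfl⟩ := eq_pz t
  rw [hC, invariant_const hG C hinv x N hN z]
  rfl

theorem T1_isTor (hG : Irreducible G) : IsTor (T1 G) := by
  obtain ⟨x₀⟩ := nonempty_PP hG
  refine ⟨⟨(MulEquiv.ofBijective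
    ({ toFun := fun q => lam T1_se (Multiplicative.toAdd q)
       map_one' := Iso.ext (lam_zero T1_se)
       map_mul' := fun q r => by
        apply Iso.ext
        show lamHom T1_se (Multiplicative.toAdd q + Multiplicative.toAdd r) =
          lamHom T1_se (Multiplicative.toAdd r) ≫ lamHom T1_se (Multiplicative.toAdd q)
        rw [lam_comp, add_comm] } : Multiplicative ℚ →* Aut (T1 G)) ?_).symm⟩, ?_⟩
  · constructor
    · intro q r h
      exact lam_injective T1_se (pz x₀ 0) h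
    · intro a
      obtain ⟨q, hq⟩ := T1_aut hG a.hom
      exact ⟨Multiplicative.ofAdd q, Iso.ext hq.symm⟩
  · intro F hF
    obtain ⟨x, ⟨e⟩⟩ := atom_iso hF
    refine ⟨⟨e.hom ≫ fxHom (pz x 0) (path_pz x 0)⟩, fun u v => ?_⟩
    obtain ⟨y, q, hy⟩ := eq_pz (tot (e.inv ≫ u) (base x))
    obtain ⟨y', q', hy'⟩ := eq_pz (tot (e.inv ≫ v) (base x))
    have h1 : y = x := by
      have := path_tot (e.inv ≫ u) (base x)
      rw [hy, path_pz, base, path_mkT] at this
      exact this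
    have h2 : y' = x := by
      have := path_tot (e.inv ≫ v) (base x)
      rw [hy', path_pz, base, path_mkT] at this
      exact this
    subst h1
    subst h2
    refine ⟨lam T1_se (q' - q), ?_⟩
    rw [lam_hom]
    have h3 : (e.inv ≫ u) ≫ lamHom T1_se (q' - q) = e.inv ≫ v := by
      apply fx_hom_ext
      rw [tot_comp, hy, hy']
      have h4 : tot (lamHom T1_se (q' - q)) (pz y' q) = pz y' (q + (q' - q)) := rfl
      rw [h4]
      congr 1
      ring
    rw [Category.assoc] at h3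
    exact (cancel_epi e.inv).1 h3

theorem T1_wT (hX : SE (T1 G)) (hT : TorP (T1 G) hX) (z : PP G) : wT hT z = 1 := by
  have h1 := anc_pt' hT ⟨tgt (z.1 0), (⟨z, rfl⟩ : PV G _)⟩ 0
  have h2 : (pt (X := T1 G) ⟨tgt (z.1 0), (⟨z, rfl⟩ : PV G _)⟩ 0) = pz z 0 := rfl
  rw [h2, anc_pz, path_pz] at h1
  have h3 : ∀ (κ : Σ v, ((T1 G).obj v).K) (r : ℚ), pz (sh z) (0 - 1) = pt κ r → 0 - 1 = r := by
    intro κ r hk
    exact (pt_inj (X := T1 G) (κ := ⟨tgt ((sh z).1 0), (⟨sh z, rfl⟩ : PV G _)⟩) (κ' := κ) hk).2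
  have h4 := h3 _ _ h1
  linarith

end Q11.PS
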