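import Mathlib
import Pool.Agent.Q11.PSDefs
import Pool.Agent.Q11.PSCat
import Pool.Agent.Q11.PSTot
import Pool.Agent.Q11.PSFree
import Pool.Agent.Q11.PSAbs
import Pool.Agent.Q11.PSAtom
import Pool.Agent.Q11.PSTor
import Pool.Agent.Q11.PSTorB
import Pool.Agent.Q11.PSOne

set_option autoImplicit false
set_option linter.unusedSectionVars false

/-!
What an equivalence of the diagram categories does to paths and periods.
-/

namespace Q11.PS

open CategoryTheory CategoryTheory.Limits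

variable {G H : Graph} [Good G] [Good H]

/-- the paths `x` and `x'` correspond to each other -/
def Cor (Φ : Diag LObj G ≌ Diag LObj H) (x : PP G) (x' : PP H) : Prop :=
  Nonempty (Φ.functor.obj (Fx x) ≅ Fx x')

theorem cor_total (Φ : Diag LObj G ≌ Diag LObj H) (x : PP G) : ∃ x', Cor Φ x x' :=
  atom_iso ((fx_isAtom x).map Φ)

theorem cor_symm (Φ : Diag LObj G ≌ Diag LObj H) {x : PP G} {x' : PP H} :
    Cor Φ x x' ↔ Cor Φ.symm x' x := by
  constructor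
  · rintro ⟨e⟩
    exact ⟨(Φ.inverse.mapIso e).symm ≪≫ (Φ.unitIso.app (Fx x)).symm⟩
  · rintro ⟨e⟩
    exact ⟨(Φ.functor.mapIso e).symm ≪≫ Φ.counitIso.app (Fx x')⟩

theorem cor_rel (Φ : Diag LObj G ≌ Diag LObj H) {x y : PP G} {x' y' : PP H} (h : Cor Φ x x')
    (h' : Cor Φ y y') : (∃ k, Rel x y k) ↔ ∃ k, Rel x' y' k := by
  rw [← fx_iso_iff, ← fx_iso_iff]
  obtain ⟨e⟩ := h
  obtain ⟨e'⟩ := h'
  constructor
  · rintro ⟨i⟩
    exact ⟨e.symm ≪≫ Φ.functor.mapIso i ≪≫ e'⟩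
  · rintro ⟨i⟩
    exact ⟨Φ.functor.preimageIso (e ≪≫ i ≪≫ e'.symm)⟩

theorem cor_of_rel (Φ : Diag LObj G ≌ Diag LObj H) {x : PP G} {x' y' : PP H} (h : Cor Φ x x')
    (h' : ∃ k, Rel x' y' k) : Cor Φ x y' := by
  obtain ⟨i⟩ := (fx_iso_iff x' y').2 h'
  obtain ⟨e⟩ := h
  exact ⟨e ≪≫ i⟩

theorem wsum_one (n : ℕ) (z : PP G) : wsum (fun _ => 1) n z = n := by
  simp [wsum]

/-- The function on the paths of `H` attached to the equivalence. -/
theorem transfer (hG : Irreducible G) (Φ : Diag LObj G ≌ Diag LObj H) :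
    ∃ (w : PP H → ℚ) (r : ℚ), IsLocallyConstant w ∧ r ≠ 0 ∧
      ∀ (x : PP G) (x' : PP H), Cor Φ x x' → ∀ q : ℚ,
        (∃ m n : ℕ, sh^[m] x' = sh^[n] x' ∧ q = wsum w m x' - wsum w n x') ↔
        (∃ m n : ℕ, sh^[m] x = sh^[n] x ∧ q = r * ((m : ℚ) - n)) := by
  have hX := T1_isTor hG
  have hY := hX.map Φ
  obtain ⟨sX, tX⟩ := hX.torP
  obtain ⟨sY, tY⟩ := hY.torP
  obtain ⟨x₀⟩ := nonempty_PP hG
  -- the additive map
  choose ρ hρ using fun q : ℚ => tY.surj (autE Φ (T1 G) (lam sX q))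
  obtain ⟨t₀⟩ : Nonempty (Tot (Φ.functor.obj (T1 G))) := by
    apply NI.nonempty
    exact NI.map Φ (NI.of_point (pz x₀ 0))
  have hinjY := lam_injective sY t₀
  have hinjX := lam_injective sX (pz x₀ 0)
  have lam_add : ∀ {K : Graph} [Good K] {X : Diag LObj K} (s : SE X) (q r : ℚ),
      lam s (q + r) = lam s q * lam s r := by
    intro K _ X s q r
    apply Iso.ext
    show lamHom s (q + r) = lamHom s r ≫ lamHom s q
    rw [lam_comp, add_comm]
  have hadd : ∀ q r, ρ (q + r) = ρ q + ρ r := by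
    intro q r
    apply hinjY
    rw [hρ, lam_add, map_mul, lam_add, hρ, hρ]
  let ψ : ℚ →+ ℚ := AddMonoidHom.mk' ρ hadd
  have hψ : ∀ q, ρ q = ρ 1 * q := by
    intro q
    have := map_rat_smul ψ q 1
    rw [smul_eq_mul, mul_one, smul_eq_mul] at this
    rw [mul_comm]
    exact this
  have hr : ρ 1 ≠ 0 := by
    intro h0
    have h1 : ρ 1 = ρ 0 := by rw [h0, hψ 0, mul_zero]
    have h2 := hρ 1
    rw [h1, hρ] at h2
    exact zero_ne_one (hinjX ((autE Φ (T1 G)).injective h2))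
  refine ⟨wT tY, ρ 1, wT_lc tY, hr, fun x x' hc q => ?_⟩
  rw [← per_iff tY x' q]
  obtain ⟨e⟩ := hc
  rw [← Per.iff_of_iso e]
  have h1 : lam sY q = autE Φ (T1 G) (lam sX (q / ρ 1)) := by
    rw [← hρ, hψ, mul_div_cancel₀ _ hr]
  rw [h1, Per.map_iff, per_iff tX]
  have h2 : wT tX = fun _ => 1 := funext fun z => T1_wT sX tX z
  rw [h2]
  constructor
  · rintro ⟨m, n, hmn, hq⟩
    refine ⟨m, n, hmn, ?_⟩
    rw [wsum_one, wsum_one, div_eq_iff hr] at hq
    rw [hq]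
    ring
  · rintro ⟨m, n, hmn, hq⟩
    refine ⟨m, n, hmn, ?_⟩
    rw [wsum_one, wsum_one, div_eq_iff hr, hq]
    ring

end Q11.PS
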