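import Mathlib
import Pool.Agent.Q11.PSTrans
import Pool.Agent.Q11.PSDet

set_option autoImplicit false
set_option linter.unusedSectionVars false

/-!
An equivalence of the diagram categories matches the periodic orbits, and a weight on the second
graph measures the periods in the first graph.
-/

namespace Q11.PS

open CategoryTheory CategoryTheory.Limits Function

variable {G H : Graph} [Good G] [Good H]

/-- eventually periodic -/
def EvP {X : Type} (S : X → X) (x : X) : Prop := ∃ m n : ℕ, m ≠ n ∧ S^[m] x = S^[n] x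

theorem EvP.exists_per {X : Type} {S : X → X} {x : X} (h : EvP S x) :
    ∃ i, S^[i] x ∈ periodicPts S := by
  have key : ∀ m n : ℕ, m < n → S^[m] x = S^[n] x → ∃ i, S^[i] x ∈ periodicPts S := by
    intro m n hmn he
    refine ⟨m, n - m, by omega, ?_⟩
    show S^[n - m] (S^[m] x) = S^[m] x
    rw [← iterate_add_apply, Nat.sub_add_cancel hmn.le, he]
  obtain ⟨m, n, hne, he⟩ := h
  rcases Nat.lt_or_gt_of_ne hne with h1 | h1
  · exact key m n h1 he
  · exact key n m h1 he.symm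

theorem EvP.of_per {X : Type} {S : X → X} {x : X} (h : x ∈ periodicPts S) : EvP S x := by
  obtain ⟨n, hn, hp⟩ := h
  exact ⟨n, 0, by omega, hp⟩

theorem wsum_eq_ws (w : PP G → ℚ) (n : ℕ) (z : PP G) : wsum w n z = ws sh w n z := rfl

theorem evP_of_cor (hG : Irreducible G) (Φ : Diag LObj G ≌ Diag LObj H) {x : PP G} {x' : PP H}
    (hc : Cor Φ x x') (hx : EvP sh x) : EvP sh x' := by
  obtain ⟨w, r, hw, hr, htr⟩ := transfer hG Φ
  obtain ⟨m, n, hne, he⟩ := hx
  obtain ⟨m', n', he', hq⟩ := (htr x x' hc (r * ((m : ℚ) - n))).2 ⟨m, n, he, rfl⟩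
  refine ⟨m', n', ?_, he'⟩
  rintro rfl
  rw [sub_self] at hq
  have h1 : (m : ℚ) - n ≠ 0 := by
    rw [sub_ne_zero]
    exact_mod_cast hne
  exact (mul_ne_zero hr h1) hq

theorem rel_iff (x y : PP G) : (∃ k, Rel x y k) ↔ ∃ m n : ℕ, sh^[m] x = sh^[n] y := by
  constructor
  · rintro ⟨k, m, n, -, h⟩
    exact ⟨n, m, h.symm⟩
  · rintro ⟨m, n, h⟩
    exact ⟨(n : ℤ) - m, n, m, rfl, h.symm⟩

theorem cor_of_rel_left (Φ : Diag LObj G ≌ Diag LObj H) {x y : PP G} {x' : PP H} (h : Cor Φ x x')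
    (h' : ∃ k, Rel x y k) : Cor Φ y x' := by
  rw [cor_symm] at h ⊢
  exact cor_of_rel Φ.symm h h'

/-- the differences of partial sums at a periodic point -/
theorem diff_per {X : Type} (S : X → X) (w : X → ℚ) {x : X} (hx : x ∈ periodicPts S) {m n : ℕ}
    (h : S^[m] x = S^[n] x) : ∃ a : ℤ, ws S w m x - ws S w n x = a * WW S w x := by
  have key : ∀ m n : ℕ, m ≤ n → S^[m] x = S^[n] x →
      ∃ a : ℤ, ws S w n x - ws S w m x = a * WW S w x := by
    intro m n hmn he
    have h1 : S^[n - m] (S^[m] x) = S^[m] x := by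
      rw [← iterate_add_apply, Nat.sub_add_cancel hmn, he]
    obtain ⟨j, -, hj⟩ := ws_of_periodic S w (S^[m] x) h1
    rw [WW_iterate S w x hx] at hj
    have h2 := ws_add S w m (n - m) x
    rw [Nat.add_sub_cancel' hmn, hj] at h2
    refine ⟨j, ?_⟩
    rw [h2]
    push_cast
    ring
  rcases le_total m n with h1 | h1
  · obtain ⟨a, ha⟩ := key m n h1 h
    refine ⟨-a, ?_⟩
    push_cast
    linarith
  · exact key n m h1 h.symm

theorem WW_one {X : Type} (S : X → X) (x : X) :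
    WW S (fun _ => 1) x = minimalPeriod S x := by
  unfold WW ws
  simp

/-- the sum over the orbit is the period of the corresponding orbit, up to a sign -/
theorem WW_cor {w : PP H → ℚ} {r : ℚ} (hr : r ≠ 0) {x : PP G} {x' : PP H}
    (htr : ∀ q : ℚ, (∃ m n : ℕ, sh^[m] x' = sh^[n] x' ∧ q = wsum w m x' - wsum w n x') ↔
        (∃ m n : ℕ, sh^[m] x = sh^[n] x ∧ q = r * ((m : ℚ) - n)))
    (hx : x ∈ periodicPts (sh (G := G))) (hx' : x' ∈ periodicPts (sh (G := H))) :
    WW sh w x' = r * minimalPeriod sh x ∨ WW sh w x' = - (r * minimalPeriod sh x) := by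
  have hl : 0 < minimalPeriod sh x := minimalPeriod_pos_of_mem_periodicPts hx
  have hlq : (minimalPeriod sh x : ℚ) ≠ 0 := by positivity
  -- `W = r l a`
  have h1 : ∃ a : ℤ, WW sh w x' = a * (r * minimalPeriod sh x) := by
    obtain ⟨m, n, he, hq⟩ := (htr (WW sh w x')).1 ⟨minimalPeriod sh x', 0,
      isPeriodicPt_minimalPeriod sh x', by
        show _ = wsum w _ x' - 0
        rw [sub_zero]
        rfl⟩
    obtain ⟨a, ha⟩ := diff_per sh (fun _ => 1) hx he
    rw [WW_one, ← wsum_eq_ws, ← wsum_eq_ws, wsum_one, wsum_one] at ha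
    refine ⟨a, ?_⟩
    rw [hq, ha]
    ring
  -- `r l = W b`
  have h2 : ∃ b : ℤ, r * minimalPeriod sh x = b * WW sh w x' := by
    obtain ⟨m, n, he, hq⟩ := (htr (r * minimalPeriod sh x)).2 ⟨minimalPeriod sh x, 0,
      isPeriodicPt_minimalPeriod sh x, by
        rw [Nat.cast_zero, sub_zero]⟩
    obtain ⟨b, hb⟩ := diff_per sh w hx' he
    exact ⟨b, hq.trans hb⟩
  obtain ⟨a, ha⟩ := h1
  obtain ⟨b, hb⟩ := h2
  have h3 : (r * (minimalPeriod sh x : ℚ)) ≠ 0 := mul_ne_zero hr hlq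
  have h4 : (b : ℚ) * a = 1 := by
    have h5 : ((b : ℚ) * a) * (r * (minimalPeriod sh x : ℚ)) = 1 * (r * minimalPeriod sh x) := by
      rw [mul_assoc, ← ha, ← hb, one_mul]
    exact mul_right_cancel₀ h3 h5
  have h5 : b * a = 1 := by exact_mod_cast h4
  rcases Int.eq_one_or_neg_one_of_mul_eq_one' h5 with ⟨-, h6⟩ | ⟨-, h6⟩
  · left
    rw [ha, h6, Int.cast_one, one_mul]
  · right
    rw [ha, h6]
    push_cast
    ring

end Q11.PS
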