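import Mathlib
import Pool.Agent.Q11.PSMatch

set_option autoImplicit false
set_option linter.unusedSectionVars false

/-!
Equivalent diagram categories give graphs with the same Parry-Sullivan number (graphs without
sources).
-/

namespace Q11.PS

open CategoryTheory CategoryTheory.Limits Function

variable {G H : Graph} [Good G] [Good H]

/-- the relation between consecutive edges of a backward path -/
def RG (G : Graph) (e e' : Ed G) : Prop := src e = tgt e'

theorem irr_RG (hG : Irreducible G) : Irr (RG G) := by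
  have key : ∀ (a b : G.V), DiPath G a b → ∀ e e' : Ed G, tgt e' = a → src e = b →
      Relation.TransGen (RG G) e e' := by
    intro a b p
    induction p with
    | nil => intro e e' h1 h2; exact Relation.TransGen.single (h2.trans h1.symm)
    | @cons b c p ε ih =>
      intro e e' h1 h2
      have h3 : RG G e ⟨c, b, ε⟩ := h2
      exact Relation.TransGen.head h3 (ih ⟨c, b, ε⟩ e' h1 rfl)
  intro e e'
  exact key (tgt e') (src e) (hG.2 _ _) e e' rfl rfl

theorem TT_match (hG : Irreducible G) (hH : Irreducible H) (Φ : Diag LObj G ≌ Diag LObj H) :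
    ∃ (w' : PP H → ℚ) (N : ℕ), Win (RG H) N w' ∧
      ∀ s : ℝ, TT (sh (G := G)) (fun _ => 1) s = TT (sh (G := H)) w' s := by
  obtain ⟨w, r, hw, hr, htr⟩ := transfer hG Φ
  -- the periodic points
  have hback : ∀ x' : PP H, x' ∈ periodicPts (sh (G := H)) →
      ∃ x : PP G, x ∈ periodicPts (sh (G := G)) ∧ Cor Φ x x' := by
    intro x' hx'
    obtain ⟨y, hy⟩ := cor_total Φ.symm x'
    obtain ⟨i, hi⟩ := (evP_of_cor hH Φ.symm hy (EvP.of_per hx')).exists_per
    rw [← cor_symm] at hy
    exact ⟨sh^[i] y, hi, cor_of_rel_left Φ hy ((rel_iff _ _).2 ⟨i, 0, rfl⟩)⟩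
  have hforw : ∀ x : PP G, x ∈ periodicPts (sh (G := G)) →
      ∃ x' : PP H, x' ∈ periodicPts (sh (G := H)) ∧ Cor Φ x x' := by
    intro x hx
    obtain ⟨y, hy⟩ := cor_total Φ x
    obtain ⟨i, hi⟩ := (evP_of_cor hG Φ hy (EvP.of_per hx)).exists_per
    exact ⟨sh^[i] y, hi, cor_of_rel Φ hy ((rel_iff _ _).2 ⟨i, 0, rfl⟩)⟩
  -- the normalised weight
  set w1 : PP H → ℚ := fun z => w z / r with hw1
  have hWW1 : ∀ y, WW sh w1 y = WW sh w y / r := by
    intro y
    unfold WW ws
    rw [Finset.sum_div]
  have hpm : ∀ (x : PP G) (x' : PP H), x ∈ periodicPts (sh (G := G)) →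
      x' ∈ periodicPts (sh (G := H)) → Cor Φ x x' →
      WW sh w1 x' = minimalPeriod sh x ∨ WW sh w1 x' = - minimalPeriod sh x := by
    intro x x' hx hx' hc
    rw [hWW1]
    rcases WW_cor hr (htr x x' hc) hx hx' with h1 | h1
    · left
      rw [h1, mul_div_cancel_left₀ _ hr]
    · right
      rw [h1, neg_div, mul_div_cancel_left₀ _ hr]
  obtain ⟨N, hN⟩ := exists_window w hw
  have hwin1 : Win (RG H) N w1 := by
    intro y z hyz
    show w y / r = w z / r
    rw [hN y z hyz]
  have hne : ∀ (n : ℕ) (x : VS (RG H)), vsh^[n + 1] x = x → ws vsh w1 (n + 1) x ≠ 0 := by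
    intro n x' hx'
    have hp : x' ∈ periodicPts (sh (G := H)) := ⟨n + 1, Nat.succ_pos _, hx'⟩
    obtain ⟨x, hx, hc⟩ := hback x' hp
    obtain ⟨j, hj1, hj2⟩ := ws_of_periodic (sh (G := H)) w1 x' hx'
    have hj0 : (j : ℚ) ≠ 0 := by
      intro h0
      rw [Nat.cast_eq_zero] at h0
      rw [h0, mul_zero] at hj1
      omega
    have hl : 0 < minimalPeriod sh x := minimalPeriod_pos_of_mem_periodicPts hx
    have hlq : (minimalPeriod sh x : ℚ) ≠ 0 := by positivity
    have hW : WW sh w1 x' ≠ 0 := by
      rcases hpm x x' hx hp hc with h1 | h1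
      · rw [h1]; exact hlq
      · rw [h1]; exact neg_ne_zero.2 hlq
    have h2 : ws vsh w1 (n + 1) x' = j * WW sh w1 x' := hj2
    rw [h2]
    exact mul_ne_zero hj0 hW
  have hsign := sign_win N (irr_RG hH) w1 hwin1 hne
  have hW1 : ∀ x' : PP H, x' ∈ periodicPts (sh (G := H)) → ∃ n : ℕ,
      (vsh (R := RG H))^[n + 1] x' = x' ∧
      ws (vsh (R := RG H)) w1 (n + 1) x' = WW (sh (G := H)) w1 x' := by
    intro x' hx'
    have hl : 0 < minimalPeriod sh x' := minimalPeriod_pos_of_mem_periodicPts hx'
    refine ⟨minimalPeriod sh x' - 1, ?_, ?_⟩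
    · rw [Nat.sub_add_cancel hl]
      exact isPeriodicPt_minimalPeriod sh x'
    · rw [Nat.sub_add_cancel hl]
      rfl
  have hcase : (∀ x' : PP H, x' ∈ periodicPts (sh (G := H)) → 0 < WW sh w1 x') ∨
      (∀ x' : PP H, x' ∈ periodicPts (sh (G := H)) → WW sh w1 x' < 0) := by
    by_cases h : ∃ x' : PP H, x' ∈ periodicPts (sh (G := H)) ∧ 0 < WW sh w1 x'
    · left
      obtain ⟨x', hx', hpos⟩ := h
      intro y' hy'
      obtain ⟨n, hn1, hn2⟩ := hW1 x' hx'
      obtain ⟨m, hm1, hm2⟩ := hW1 y' hy'
      rw [← hn2] at hpos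
      rw [← hm2]
      exact hsign n m x' y' hn1 hm1 hpos
    · right
      intro y' hy'
      obtain ⟨m, hm1, hm2⟩ := hW1 y' hy'
      push Not at h
      refine lt_of_le_of_ne (h y' hy') ?_
      rw [← hm2]
      exact hne m y' hm1
  -- a weight with the right sums
  obtain ⟨w', hwin', hw'⟩ : ∃ w' : PP H → ℚ, Win (RG H) N w' ∧
      ∀ (x : PP G) (x' : PP H), x ∈ periodicPts (sh (G := G)) →
      x' ∈ periodicPts (sh (G := H)) → Cor Φ x x' → WW sh w' x' = minimalPeriod sh x := by
    rcases hcase with h | h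
    · refine ⟨w1, hwin1, ?_⟩
      intro x x' hx hx' hc
      rcases hpm x x' hx hx' hc with h1 | h1
      · exact h1
      · exfalso
        have h2 := h x' hx'
        rw [h1] at h2
        have h3 : (0 : ℚ) ≤ minimalPeriod sh x := by positivity
        linarith
    · refine ⟨fun z => - w1 z, ?_, ?_⟩
      · intro y z hyz
        show - w1 y = - w1 z
        rw [hwin1 y z hyz]
      · intro x x' hx hx' hc
        have h4 : WW sh (fun z => - w1 z) x' = - WW sh w1 x' := by
          unfold WW ws
          rw [Finset.sum_neg_distrib]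
        rw [h4]
        rcases hpm x x' hx hx' hc with h1 | h1
        · exfalso
          have h2 := h x' hx'
          rw [h1] at h2
          have h3 : (0 : ℚ) ≤ minimalPeriod sh x := by positivity
          linarith
        · rw [h1, neg_neg]
  refine ⟨w', N, hwin', fun s => ?_⟩
  -- the bijection of the orbits
  choose f hf1 hf2 using fun x : periodicPts (sh (G := G)) => hforw x.1 x.2
  let F : Quotient (perSetoid (sh (G := G))) → Quotient (perSetoid (sh (G := H))) :=
    Quotient.lift (fun x => Quotient.mk (perSetoid (sh (G := H))) ⟨f x, hf1 x⟩) (by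
      intro x y hxy
      apply Quotient.sound (s := perSetoid (sh (G := H)))
      show ∃ m n : ℕ, sh^[m] (f x) = sh^[n] (f y)
      rw [← rel_iff, ← cor_rel Φ (hf2 x) (hf2 y), rel_iff]
      exact hxy)
  have hF : Bijective F := by
    constructor
    · intro a b
      induction a using Quotient.inductionOn with
      | h x =>
        induction b using Quotient.inductionOn with
        | h y =>
          intro h
          have h1 := Quotient.exact (s := perSetoid (sh (G := H))) h
          apply Quotient.sound (s := perSetoid (sh (G := G)))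
          have h2 : ∃ m n : ℕ, sh^[m] (f x) = sh^[n] (f y) := h1
          rw [← rel_iff, ← cor_rel Φ (hf2 x) (hf2 y), rel_iff] at h2
          exact h2
    · intro b
      induction b using Quotient.inductionOn with
      | h y =>
        obtain ⟨x, hx, hc⟩ := hback y.1 y.2
        refine ⟨Quotient.mk (perSetoid (sh (G := G))) ⟨x, hx⟩, ?_⟩
        apply Quotient.sound (s := perSetoid (sh (G := H)))
        show ∃ m n : ℕ, sh^[m] (f ⟨x, hx⟩) = sh^[n] y.1
        rw [← rel_iff, ← cor_rel Φ (hf2 ⟨x, hx⟩) hc]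
        exact ⟨0, Rel.refl _⟩
  rw [TT_orbits, TT_orbits, ← (Equiv.ofBijective F hF).tsum_eq]
  apply tsum_congr
  intro o
  congr 1
  induction o using Quotient.inductionOn with
  | h x =>
    show WW sh (fun _ => 1) x.1 = WW sh w' (f x)
    rw [WW_one, hw' x.1 (f x) x.2 (hf1 x) (hf2 x)]

end Q11.PS
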