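import Mathlib
import Pool.Agent.Q11.PSMatchB

set_option autoImplicit false
set_option linter.unusedSectionVars false

/-!
Equivalent diagram categories over `LObj` give finite irreducible graphs with the same
Parry-Sullivan number.
-/

namespace Q11.PS

open CategoryTheory CategoryTheory.Limits Function

/-! ### graphs without sources -/

section Good

variable {G H : Graph} [Good G] [Good H]

open Classical in
theorem det_RG [Fintype (Ed G)] : (1 - MR (RG G)).det = ((parrySullivan G : ℤ) : ℝ) := by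
  unfold parrySullivan
  let _ := Fintype.ofFinite G.V
  let P : Matrix (Ed G) G.V ℝ := fun e v => if src e = v then 1 else 0
  let Q : Matrix G.V (Ed G) ℝ := fun v e => if v = tgt e then 1 else 0
  have h1 : MR (RG G) = P * Q := by
    ext e e'
    rw [Matrix.mul_apply]
    simp only [P, Q, ite_mul, one_mul, zero_mul, Finset.sum_ite_eq, Finset.mem_univ, if_true]
    unfold MR RG
    split_ifs <;> rfl
  have h2 : Q * P = ((adj G).map (Int.cast : ℤ → ℝ)).transpose := by
    ext v v'
    rw [Matrix.mul_apply, Matrix.transpose_apply, Matrix.map_apply]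
    simp only [P, Q, ite_mul, one_mul, zero_mul]
    have h3 : ∀ e : Ed G, (if v = tgt e then (if src e = v' then (1 : ℝ) else 0) else 0) =
        if (v = tgt e ∧ src e = v') then 1 else 0 := by
      intro e
      split_ifs <;> first | rfl | (exfalso; tauto)
    simp only [h3]
    rw [Finset.sum_boole]
    unfold adj
    have h4 : Nat.card (G.E v' v) = (Finset.univ.filter
        (fun e : Ed G => v = tgt e ∧ src e = v')).card := by
      rw [← Fintype.card_subtype, ← Nat.card_eq_fintype_card]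
      apply Nat.card_congr
      refine Equiv.ofBijective (fun ε : G.E v' v =>
        (⟨⟨v, v', ε⟩, rfl, rfl⟩ : {e : Ed G // v = tgt e ∧ src e = v'})) ⟨?_, ?_⟩
      · intro ε ε' h
        simpa using h
      · rintro ⟨⟨b, a, ε⟩, h5, h6⟩
        obtain rfl : v = b := h5
        obtain rfl : a = v' := h6
        exact ⟨ε, rfl⟩
    rw [h4]
    push_cast
    rfl
  rw [h1, Matrix.det_one_sub_mul_comm, h2, ← Matrix.transpose_one, ← Matrix.transpose_sub,
    Matrix.det_transpose]
  have h5 : (1 : Matrix G.V G.V ℝ) - (adj G).map (Int.cast : ℤ → ℝ) =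
      (Int.castRingHom ℝ).mapMatrix (1 - adj G) := by
    rw [map_sub, map_one]
    rfl
  rw [h5, ← RingHom.map_det]
  rfl

theorem ps_eq_of_good (hG : Irreducible G) (hH : Irreducible H) (Φ : Diag LObj G ≌ Diag LObj H) :
    parrySullivan G = parrySullivan H := by
  classical
  let _ := Fintype.ofFinite (Ed G)
  let _ := Fintype.ofFinite (Ed H)
  obtain ⟨w', N, hw', hT⟩ := TT_match hG hH Φ
  have h1 := det_eq_of_TT (RG G) (RG H) w' N hw' (fun s => hT s)
  rw [det_RG, det_RG] at h1
  exact_mod_cast h1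

theorem exists_edge : Nonempty (Ed G) ∨ IsEmpty G.V := by
  rcases isEmpty_or_nonempty G.V with h | ⟨⟨v⟩⟩
  · exact Or.inr h
  · obtain ⟨a, ⟨ε⟩⟩ := Good.inc (G := G) v
    exact Or.inl ⟨⟨v, a, ε⟩⟩

/-- there is an atom with an automorphism which is not an involution -/
theorem exists_aut (hG : Irreducible G) :
    ∃ F : Diag LObj G, IsAtom F ∧ ∃ τ : Aut F, τ * τ ≠ 1 := by
  obtain ⟨v⟩ := hG.1
  obtain ⟨a, ⟨ε⟩⟩ := Good.inc (G := G) v
  obtain ⟨q, hq⟩ := Wk.of_trans (w0 := fun _ => 0) (irr_RG hG ⟨v, a, ε⟩ ⟨v, a, ε⟩)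
  obtain ⟨n, x, -, hx, -⟩ := hq.periodic
  have hX := T1_isTor hG
  obtain ⟨sX, tX⟩ := hX.torP
  refine ⟨Fx x, fx_isAtom x, ?_⟩
  have h2 : wT tX = fun _ => 1 := funext fun z => T1_wT sX tX z
  have h1 : lam sX ((n : ℚ) + 1) ∈ Per (Fx x) (T1 G) := by
    rw [per_iff tX, h2]
    refine ⟨n + 1, 0, hx, ?_⟩
    rw [wsum_one, wsum_one]
    push_cast
    ring
  obtain ⟨τ, hτ⟩ := h1
  refine ⟨τ, fun hcon => ?_⟩
  obtain ⟨⟨u⟩, -⟩ := hX.2 (Fx x) (fx_isAtom x)
  have h3 : τ.hom ≫ τ.hom = 𝟙 (Fx x) := by
    have := congrArg Iso.hom hcon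
    exact this
  have h4 : u ≫ lamHom sX ((n : ℚ) + 1) ≫ lamHom sX ((n : ℚ) + 1) = u := by
    have e1 := hτ u
    rw [lam_hom] at e1
    have e2 : u ≫ lamHom sX ((n : ℚ) + 1) ≫ lamHom sX ((n : ℚ) + 1) =
        (u ≫ lamHom sX ((n : ℚ) + 1)) ≫ lamHom sX ((n : ℚ) + 1) := (Category.assoc _ _ _).symm
    have e3 : (τ.hom ≫ u) ≫ lamHom sX ((n : ℚ) + 1) =
        τ.hom ≫ (u ≫ lamHom sX ((n : ℚ) + 1)) := Category.assoc _ _ _
    have e4 : τ.hom ≫ (τ.hom ≫ u) = (τ.hom ≫ τ.hom) ≫ u := (Category.assoc _ _ _).symm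
    have e5 : 𝟙 (Fx x) ≫ u = u := Category.id_comp _
    rw [e2, ← e1, e3, ← e1, e4, h3]
    exact e5
  rw [lam_comp] at h4
  obtain ⟨κ, r, hκ⟩ := eq_pt sX (tot u (base x))
  have h5 := congrArg (fun f => tot f (base x)) h4
  rw [tot_comp, hκ, tot_lam] at h5
  have h6 := (pt_inj h5).2
  have h7 : (0 : ℚ) ≤ n := Nat.cast_nonneg n
  linarith

end Good

/-! ### graphs without edges -/

section NoEdge

variable {G : Graph} (hE : ∀ a b, IsEmpty (G.E a b))
include hE

theorem ps_noEdge [Finite G.V] : parrySullivan G = 1 := by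
  have h : adj G = 0 := by
    ext a b
    have := hE a b
    simp [adj]
  classical
  let _ := Fintype.ofFinite G.V
  have h2 : parrySullivan G = (1 - adj G).det := by
    unfold parrySullivan
    congr!
  rw [h2, h, sub_zero, Matrix.det_one]

theorem subsingleton_noEdge (hG : Irreducible G) (a b : G.V) : a = b := by
  have h := hG.2 a b
  cases h with
  | nil => rfl
  | cons p e => exact ((hE _ _).false e).elim

/-- a constant diagram -/
def constD (A : LObj) : Diag LObj G where
  obj _ := A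
  map ε := ((hE _ _).false ε).elim
  cop b h := by
    obtain ⟨a, ⟨ε⟩⟩ := h
    exact ((hE _ _).false ε).elim

theorem involution_noEdge (hG : Irreducible G) (F : Diag LObj G) (hF : IsAtom F) (τ : Aut F) :
    τ * τ = 1 := by
  obtain ⟨v₀⟩ := hG.1
  have hv : ∀ v, v = v₀ := fun v => subsingleton_noEdge hE hG v v₀
  -- `F` has a point
  have h1 : Nonempty (F.obj v₀).Pt := by
    by_contra hcon
    rw [not_nonempty_iff] at hcon
    apply hF.1
    have hP : ∀ v, IsEmpty (F.obj v).Pt := fun v => by rw [hv v]; exact hcon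
    have hK : ∀ v, IsEmpty (F.obj v).K := fun v => ⟨fun k => (hP v).false (Sum.inl (k, 0))⟩
    refine ⟨IsInitial.ofUniqueHom (fun D' => ⟨fun v => ⟨fun x => ((hP v).false x).elim, ?_⟩, ?_⟩) ?_⟩
    · have := hK v
      exact LObj.isMor_of_isEmpty _ (fun x => ((hP v).false x).elim)
    · intro a b ε
      exact ((hE _ _).false ε).elim
    · intro D' m
      apply Diag.Hom.ext
      funext v
      apply LObj.hom_ext
      intro x
      exact ((hP v).false x).elim
  obtain ⟨p⟩ := h1
  let P : LObj := ⟨Empty, Unit⟩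
  have hPt : ∀ v, ∃ q : (F.obj v).Pt, True := fun v => by rw [hv v]; exact ⟨p, trivial⟩
  choose q _ using hPt
  let f : constD hE P ⟶ F :=
    { app := fun v => ⟨fun x => match x with
        | Sum.inl (k, _) => Empty.elim k
        | Sum.inr (_, b) => if b then LObj.flip (q v) else q v, by
        refine ⟨?_, Empty.elim, Empty.elim, ?_, ?_, ?_⟩
        · rintro (⟨k, _⟩ | ⟨_, b⟩)
          · exact Empty.elim k
          · cases b
            · rfl
            · exact (LObj.flip_flip (q v)).symm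
        · exact continuous_of_const (fun x => Empty.elim x)
        · exact IsLocallyConstant.of_discrete (X := Empty) _
        · intro k
          exact Empty.elim k⟩
      comm := fun ε => ((hE _ _).false ε).elim }
  have hNI : NI (constD hE P) := by
    rintro ⟨h⟩
    have g : constD hE P ⟶ constD hE ⟨Empty, Empty⟩ := h.to _
    rcases (g.app v₀).1 (Sum.inr ((), true)) with ⟨k, _⟩ | ⟨k, _⟩
    · exact Empty.elim k
    · exact Empty.elim k
  obtain ⟨s, hs⟩ := hF.2 _ f hNI
  have hsf : ∀ v (a : (F.obj v).Pt), (f.app v).1 ((s.app v).1 a) = a := by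
    intro v a
    have := congrArg (fun t : F ⟶ F => (t.app v).1 a) hs
    exact this
  have key : ∀ v (a : (F.obj v).Pt), (τ.hom.app v).1 ((τ.hom.app v).1 a) = a := by
    intro v a
    set t := (τ.hom.app v) with ht
    have hcase : ∀ b : (F.obj v).Pt, b = a ∨ b = LObj.flip a := by
      intro b
      have e1 := hsf v a
      have e2 := hsf v b
      rcases ha : (s.app v).1 a with ⟨k, _⟩ | ⟨⟨⟩, β⟩
      · exact Empty.elim k
      · rcases hb : (s.app v).1 b with ⟨k, _⟩ | ⟨⟨⟩, γ⟩
        · exact Empty.elim k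
        · by_cases hβγ : β = γ
          · left
            rw [← e1, ← e2, ha, hb, hβγ]
          · right
            have h5 : γ = !β := by
              cases β <;> cases γ <;> simp_all
            have h6 : (s.app v).1 b = LObj.flip ((s.app v).1 a) := by
              rw [hb, ha, h5]
              rfl
            rw [← e2, h6, (f.app v).2.1, e1]
    rcases hcase (t.1 a) with h | h
    · rw [h, h]
    · rw [h, t.2.1, h, LObj.flip_flip]
  apply Iso.ext
  show τ.hom ≫ τ.hom = 𝟙 F
  apply Diag.Hom.ext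
  funext v
  apply LObj.hom_ext
  intro a
  exact key v a

end NoEdge

theorem not_equiv {G H : Graph} [Good H] (hE : ∀ a b, IsEmpty (G.E a b)) (hG : Irreducible G)
    (hH : Irreducible H) (Φ : Diag LObj H ≌ Diag LObj G) : False := by
  obtain ⟨F, hF, τ, hτ⟩ := exists_aut hH
  apply hτ
  have h1 := involution_noEdge hE hG _ (hF.map Φ) (autE Φ F τ)
  apply (autE Φ F).injective
  rw [map_mul, map_one, h1]

theorem good_of_edge {G : Graph} [Finite G.V] (hf : ∀ a b, Finite (G.E a b)) (hG : Irreducible G)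
    (h : ¬ ∀ a b, IsEmpty (G.E a b)) : Good G := by
  refine ⟨inferInstance, hf, fun b => ?_⟩
  push Not at h
  obtain ⟨a, c, ⟨ε⟩⟩ := h
  have h1 := hG.2 c b
  cases h1 with
  | nil => exact ⟨a, ⟨ε⟩⟩
  | cons p e => exact ⟨_, ⟨e⟩⟩

/-- The category `LObj` detects the Parry-Sullivan number. -/
theorem main (G H : Graph) [Finite G.V] [Finite H.V] (hGf : ∀ a b, Finite (G.E a b))
    (hHf : ∀ a b, Finite (H.E a b)) (hG : Irreducible G) (hH : Irreducible H)
    (Φ : Diag LObj G ≌ Diag LObj H) : parrySullivan G = parrySullivan H := by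
  by_cases h1 : ∀ a b, IsEmpty (G.E a b)
  · by_cases h2 : ∀ a b, IsEmpty (H.E a b)
    · rw [ps_noEdge h1, ps_noEdge h2]
    · have := good_of_edge hHf hH h2
      exact (not_equiv h1 hG hH Φ.symm).elim
  · have := good_of_edge hGf hG h1
    by_cases h2 : ∀ a b, IsEmpty (H.E a b)
    · exact (not_equiv h2 hH hG Φ).elim
    · have := good_of_edge hHf hH h2
      exact ps_eq_of_good hG hH Φ

end Q11.PS
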