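import Mathlib

/-!
# The algebra `U_q(sl_2^)^{>0}` : generators `A, A*` and the cubic q-Serre relations.
-/

namespace Pool.Agent.Q11.QSerre

open TensorProduct

section Defs

variable (K : Type*) [Field K] (q : K)

/-- `[3]_q = q^2 + 1 + q^{-2}`. -/
def q3 : K := q ^ 2 + 1 + (q⁻¹) ^ 2

/-- The q-Serre relations between the two generators `ι false`, `ι true` of the free algebra:
`x^3 y - [3] x^2 y x + [3] x y x^2 - y x^3 = 0` for `(x, y)` the two generators in both orders. -/
inductive Rel : FreeAlgebra K Bool → FreeAlgebra K Bool → Prop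
  | serre (i j : Bool) (hij : i ≠ j) : Rel
      (FreeAlgebra.ι K i ^ 3 * FreeAlgebra.ι K j
        - q3 K q • (FreeAlgebra.ι K i ^ 2 * FreeAlgebra.ι K j * FreeAlgebra.ι K i)
        + q3 K q • (FreeAlgebra.ι K i * FreeAlgebra.ι K j * FreeAlgebra.ι K i ^ 2)
        - FreeAlgebra.ι K j * FreeAlgebra.ι K i ^ 3) 0

/-- The algebra `U^+ = U_q(sl_2^)^{>0}`: two generators, subject to the q-Serre relations. -/
def UPlus : Type _ := RingQuot (Rel K q)

noncomputable instance : Ring (UPlus K q) := inferInstanceAs (Ring (RingQuot (Rel K q)))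

noncomputable instance : Algebra K (UPlus K q) :=
  inferInstanceAs (Algebra K (RingQuot (Rel K q)))

/-- The quotient map from the free algebra. -/
noncomputable def mk : FreeAlgebra K Bool →ₐ[K] UPlus K q := RingQuot.mkAlgHom K (Rel K q)

theorem mk_surjective : Function.Surjective (mk K q) :=
  RingQuot.mkAlgHom_surjective K (Rel K q)

theorem mk_rel {x y : FreeAlgebra K Bool} (h : Rel K q x y) : mk K q x = mk K q y :=
  RingQuot.mkAlgHom_rel K h

/-- The two generators of `U^+`. -/
noncomputable def gen (i : Bool) : UPlus K q := mk K q (FreeAlgebra.ι K i)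

end Defs

section Basic

variable {K : Type*} [Field K] {q : K}

theorem gen_serre (i : Bool) :
    gen K q i ^ 3 * gen K q (!i) - q3 K q • (gen K q i ^ 2 * gen K q (!i) * gen K q i)
      + q3 K q • (gen K q i * gen K q (!i) * gen K q i ^ 2) - gen K q (!i) * gen K q i ^ 3 = 0 := by
  have h := mk_rel K q (Rel.serre (K := K) (q := q) i (!i) (by simp))
  simpa [gen] using h

/-- Universal property. -/
noncomputable def lift {R : Type*} [Ring R] [Algebra K R] (f : Bool → R)
    (hf : ∀ i, f i ^ 3 * f (!i) - q3 K q • (f i ^ 2 * f (!i) * f i)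
      + q3 K q • (f i * f (!i) * f i ^ 2) - f (!i) * f i ^ 3 = 0) : UPlus K q →ₐ[K] R :=
  RingQuot.liftAlgHom K ⟨FreeAlgebra.lift K f, by
    rintro x y ⟨i, j, hij⟩
    obtain rfl : j = !i := by revert hij; cases i <;> cases j <;> simp
    simpa using hf i⟩

theorem lift_gen {R : Type*} [Ring R] [Algebra K R] (f : Bool → R)
    (hf : ∀ i, f i ^ 3 * f (!i) - q3 K q • (f i ^ 2 * f (!i) * f i)
      + q3 K q • (f i * f (!i) * f i ^ 2) - f (!i) * f i ^ 3 = 0) (i : Bool) :
    lift (q := q) f hf (gen K q i) = f i := by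
  have h := RingQuot.liftAlgHom_mkAlgHom_apply K (FreeAlgebra.lift K f)
    (s := Rel K q) (by
      rintro x y ⟨i, j, hij⟩
      obtain rfl : j = !i := by revert hij; cases i <;> cases j <;> simp
      simpa using hf i) (FreeAlgebra.ι K i)
  rw [FreeAlgebra.lift_ι_apply] at h
  exact h

theorem ind {P : UPlus K q → Prop} (h1 : P 1) (hadd : ∀ x y, P x → P y → P (x + y))
    (hsmul : ∀ (c : K) x, P x → P (c • x)) (hmul : ∀ i x, P x → P (gen K q i * x)) :
    ∀ x, P x := by
  intro x
  obtain ⟨x, rfl⟩ := mk_surjective K q x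
  have key : ∀ y : FreeAlgebra K Bool, ∀ z : UPlus K q, P z →
      P (mk K q y * z) := by
    intro y
    induction y using FreeAlgebra.induction with
    | grade0 r => 
      intro z hz
      rw [AlgHom.commutes, ← Algebra.smul_def]
      exact hsmul r z hz
    | grade1 i => intro z hz; exact hmul i z hz
    | mul a b ha hb => 
      intro z hz
      rw [map_mul, mul_assoc]
      exact ha _ (hb _ hz)
    | add a b ha hb =>
      intro z hz
      rw [map_add, add_mul]
      exact hadd _ _ (ha _ hz) (hb _ hz)
  simpa using key x 1 h1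

/-- Cubic relation solved for the first monomial, right associated, acting on an element. -/
theorem gen_serre' (i : Bool) (v : UPlus K q) :
    gen K q i * (gen K q i * (gen K q i * (gen K q (!i) * v))) =
      q3 K q • (gen K q i * (gen K q i * (gen K q (!i) * (gen K q i * v))))
      - q3 K q • (gen K q i * (gen K q (!i) * (gen K q i * (gen K q i * v))))
      + gen K q (!i) * (gen K q i * (gen K q i * (gen K q i * v))) := by
  have h := congrArg (· * v) (gen_serre (K := K) (q := q) i)
  simp only [pow_succ, pow_zero, one_mul, sub_mul, add_mul, smul_mul_assoc, mul_assoc, zero_mul] at h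
  rw [← sub_eq_zero, ← h]
  abel

theorem gen_serre'' (i : Bool) (v : UPlus K q) :
    v * (gen K q i * (gen K q i * (gen K q i * gen K q (!i)))) =
      q3 K q • (v * (gen K q i * (gen K q i * (gen K q (!i) * gen K q i))))
      - q3 K q • (v * (gen K q i * (gen K q (!i) * (gen K q i * gen K q i))))
      + v * (gen K q (!i) * (gen K q i * (gen K q i * gen K q i))) := by
  have h := congrArg (v * ·) (gen_serre (K := K) (q := q) i)
  simp only [pow_succ, pow_zero, one_mul, mul_sub, mul_add, mul_smul_comm, mul_assoc, mul_zero] at h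
  rw [← sub_eq_zero, ← h]
  abel

end Basic

section Act

variable {K : Type*} [Field K] {q : K}

/-- A module over `U^+` from two operators satisfying the q-Serre relations. -/
noncomputable def act {V : Type*} [AddCommGroup V] [Module K V] (T : Bool → Module.End K V)
    (hT : ∀ i v, T i (T i (T i (T (!i) v))) - q3 K q • T i (T i (T (!i) (T i v)))
      + q3 K q • T i (T (!i) (T i (T i v))) - T (!i) (T i (T i (T i v))) = 0) :
    UPlus K q →ₐ[K] Module.End K V :=
  lift T (by
    intro i
    ext v
    simpa [pow_succ, Module.End.mul_apply] using hT i v)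

theorem act_gen {V : Type*} [AddCommGroup V] [Module K V] (T : Bool → Module.End K V)
    (hT : ∀ i v, T i (T i (T i (T (!i) v))) - q3 K q • T i (T i (T (!i) (T i v)))
      + q3 K q • T i (T (!i) (T i (T i v))) - T (!i) (T i (T i (T i v))) = 0) (i : Bool) :
    act (q := q) T hT (gen K q i) = T i := lift_gen _ _ i

theorem act_gen_mul {V : Type*} [AddCommGroup V] [Module K V] (T : Bool → Module.End K V)
    (hT : ∀ i v, T i (T i (T i (T (!i) v))) - q3 K q • T i (T i (T (!i) (T i v)))
      + q3 K q • T i (T (!i) (T i (T i v))) - T (!i) (T i (T i (T i v))) = 0) (i : Bool)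
      (x : UPlus K q) (v : V) :
    act (q := q) T hT (gen K q i * x) v = T i (act (q := q) T hT x v) := by
  rw [map_mul, act_gen]; rfl

/-- `q^{(α_i, α_j)}`. -/
noncomputable def qc (q : K) (i j : Bool) : K := if i = j then q ^ 2 else (q⁻¹) ^ 2

theorem qc_self (i : Bool) : qc q i i = q ^ 2 := by simp [qc]

theorem qc_not (i : Bool) : qc q i (!i) = (q⁻¹) ^ 2 := by simp [qc]

theorem qc_not' (i : Bool) : qc q (!i) i = (q⁻¹) ^ 2 := by simp [qc]

theorem qc_not_not (i : Bool) : qc q (!i) (!i) = q ^ 2 := by simp [qc]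

theorem serre_scale {R : Type*} [Ring R] [Algebra K R] (c s t : K) (x y : R)
    (h : x ^ 3 * y - c • (x ^ 2 * y * x) + c • (x * y * x ^ 2) - y * x ^ 3 = 0) :
    (s • x) ^ 3 * (t • y) - c • ((s • x) ^ 2 * (t • y) * (s • x))
      + c • ((s • x) * (t • y) * (s • x) ^ 2) - (t • y) * (s • x) ^ 3 = 0 := by
  have e : (s • x) ^ 3 * (t • y) - c • ((s • x) ^ 2 * (t • y) * (s • x))
      + c • ((s • x) * (t • y) * (s • x) ^ 2) - (t • y) * (s • x) ^ 3 =
      (s ^ 3 * t) • (x ^ 3 * y - c • (x ^ 2 * y * x) + c • (x * y * x ^ 2) - y * x ^ 3) := by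
    simp only [smul_pow, smul_mul_smul_comm]
    module
  rw [e, h, smul_zero]

/-- The automorphism `τ_i`: `e_j ↦ q^{(α_i, α_j)} e_j`. -/
noncomputable def tau (i : Bool) : UPlus K q →ₐ[K] UPlus K q :=
  lift (fun j => qc q i j • gen K q j) (fun j => serre_scale _ _ _ _ _ (gen_serre j))

theorem tau_gen (i j : Bool) : tau (q := q) i (gen K q j) = qc q i j • gen K q j := lift_gen _ _ j

theorem tau_gen_mul (i j : Bool) (x : UPlus K q) :
    tau (q := q) i (gen K q j * x) = qc q i j • (gen K q j * tau i x) := by
  rw [map_mul, tau_gen, smul_mul_assoc]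

/-- Operator used to define the skew derivation `D_i`. -/
noncomputable def Dop (i j : Bool) : Module.End K (UPlus K q × UPlus K q) :=
  LinearMap.prod
    ((if i = j then (1 : K) else 0) • LinearMap.snd K _ _ +
      qc q i j • (LinearMap.mulLeft K (gen K q j) ∘ₗ LinearMap.fst K _ _))
    (LinearMap.mulLeft K (gen K q j) ∘ₗ LinearMap.snd K _ _)

theorem Dop_apply (i j : Bool) (v : UPlus K q × UPlus K q) :
    Dop i j v = ((if i = j then (1 : K) else 0) • v.2 + qc q i j • (gen K q j * v.1),
      gen K q j * v.2) := rfl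

theorem bool_cases (i k : Bool) : k = i ∨ k = !i := by cases i <;> cases k <;> simp

theorem Dop_serre (hq : q ≠ 0) (i k : Bool) (v : UPlus K q × UPlus K q) :
    Dop i k (Dop i k (Dop i k (Dop i (!k) v))) - q3 K q • Dop i k (Dop i k (Dop i (!k) (Dop i k v)))
      + q3 K q • Dop i k (Dop i (!k) (Dop i k (Dop i k v)))
      - Dop i (!k) (Dop i k (Dop i k (Dop i k v))) = 0 := by
  obtain ⟨d, y⟩ := v
  have h1 := gen_serre' (K := K) (q := q) k d
  have h2 := gen_serre' (K := K) (q := q) k y
  ext
  · rcases bool_cases i k with rfl | rfl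
    · simp only [Dop_apply, Prod.fst_add, Prod.fst_sub, Prod.smul_fst, Prod.fst_zero, qc_self,
        qc_not, Bool.not_not, mul_add, mul_smul_comm, smul_add, smul_smul, one_smul, if_true,
        h1, smul_sub, mul_sub]
      simp only [q3]
      simp only [Bool.eq_not_self, if_false, zero_smul, smul_zero, zero_add, mul_zero, zero_mul]
      match_scalars <;> field_simp <;> ring
    · simp only [Dop_apply, Prod.fst_add, Prod.fst_sub, Prod.smul_fst, Prod.fst_zero, qc_self,
        qc_not, Bool.not_not, mul_add, mul_smul_comm, smul_add, smul_smul, one_smul, if_true]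
      simp only [Bool.not_not] at h1
      simp only [h1, smul_sub, mul_sub, smul_add, smul_smul]
      simp only [q3]
      simp only [Bool.eq_not_self, if_false, zero_smul, smul_zero, zero_add, mul_zero, zero_mul]
      match_scalars <;> field_simp <;> ring
  · simp only [Dop_apply, Prod.snd_add, Prod.snd_sub, Prod.smul_snd, Prod.snd_zero]
    rw [h2]
    abel

end Act

end Pool.Agent.Q11.QSerre
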