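import Pool.Agent.Q11.QSerre

/-!
# Skew derivations, grading and the reversal on `U_q(sl_2^)^{>0}`
-/

namespace Pool.Agent.Q11.QSerre

open TensorProduct

variable {K : Type*} [Field K] {q : K}

/-! ### the torus action -/

theorem tau_comm (i j : Bool) (x : UPlus K q) : tau i (tau j x) = tau j (tau i x) := by
  refine ind (P := fun x => tau i (tau j x) = tau j (tau i x)) (by simp) ?_ ?_ ?_ x
  · intro x y hx hy; simp [hx, hy]
  · intro c x hx; simp [hx]
  · intro k x hx
    simp only [tau_gen_mul, map_smul, hx, smul_smul]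
    rw [mul_comm]

theorem tau_not_tau [NeZero q] (i : Bool) (x : UPlus K q) : tau (!i) (tau i x) = x := by
  have hq : q ≠ 0 := NeZero.ne q
  refine ind (P := fun x => tau (!i) (tau i x) = x) (by simp) ?_ ?_ ?_ x
  · intro x y hx hy; simp [hx, hy]
  · intro c x hx; simp [hx]
  · intro k x hx
    simp only [tau_gen_mul, map_smul, hx, smul_smul]
    rcases bool_cases i k with rfl | rfl
    · rw [qc_self, qc_not', ← mul_pow, mul_inv_cancel₀ hq, one_pow, one_smul]
    · rw [qc_not, qc_not_not, ← mul_pow, inv_mul_cancel₀ hq, one_pow, one_smul]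

theorem tau_tau_not [NeZero q] (i : Bool) (x : UPlus K q) : tau i (tau (!i) x) = x := by
  rw [tau_comm]; exact tau_not_tau i x

theorem tau_injective [NeZero q] (i : Bool) : Function.Injective (tau (K := K) (q := q) i) := by
  intro x y h
  rw [← tau_not_tau i x, h, tau_not_tau]

/-! ### skew derivations -/

/-- Module structure defining the skew derivation. -/
noncomputable def Drho [NeZero q] (i : Bool) :
    UPlus K q →ₐ[K] Module.End K (UPlus K q × UPlus K q) :=
  act (Dop i) (Dop_serre (NeZero.ne q) i)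

theorem Drho_gen_mul [NeZero q] (i j : Bool) (x : UPlus K q) (v : UPlus K q × UPlus K q) :
    Drho i (gen K q j * x) v = Dop i j (Drho i x v) := act_gen_mul _ _ _ _ _

theorem Drho_snd [NeZero q] (i : Bool) (x : UPlus K q) (v : UPlus K q × UPlus K q) :
    (Drho i x v).2 = x * v.2 := by
  refine ind (P := fun x => (Drho i x v).2 = x * v.2) (by simp) ?_ ?_ ?_ x
  · intro x y hx hy; simp [hx, hy, add_mul]
  · intro c x hx; simp [hx]
  · intro k x hx; rw [Drho_gen_mul, Dop_apply, hx, mul_assoc]

/-- The skew derivation `D_i`. -/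
noncomputable def D [NeZero q] (i : Bool) : UPlus K q →ₗ[K] UPlus K q where
  toFun x := (Drho i x (0, 1)).1
  map_add' x y := by simp
  map_smul' c x := by simp

theorem D_one [NeZero q] (i : Bool) : D i (1 : UPlus K q) = 0 := by
  simp [D]

theorem D_gen_mul [NeZero q] (i j : Bool) (x : UPlus K q) :
    D i (gen K q j * x) = (if i = j then (1 : K) else 0) • x + qc q i j • (gen K q j * D i x) := by
  change (Drho i (gen K q j * x) (0, 1)).1 = _
  rw [Drho_gen_mul, Dop_apply, Drho_snd, mul_one]
  rfl

theorem D_self_mul [NeZero q] (i : Bool) (x : UPlus K q) :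
    D i (gen K q i * x) = x + q ^ 2 • (gen K q i * D i x) := by
  rw [D_gen_mul, if_pos rfl, one_smul, qc_self]

theorem D_mul [NeZero q] (i : Bool) (x y : UPlus K q) :
    D i (x * y) = D i x * y + tau i x * D i y := by
  refine ind (P := fun x => D i (x * y) = D i x * y + tau i x * D i y) ?_ ?_ ?_ ?_ x
  · simp [D_one]
  · intro x z hx hz; simp only [add_mul, map_add, hx, hz]; abel
  · intro c x hx; simp only [smul_mul_assoc, map_smul, hx, smul_add]
  · intro k x hx
    rw [mul_assoc, D_gen_mul, hx, D_gen_mul, tau_gen_mul]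
    simp only [add_mul, mul_add, smul_mul_assoc, mul_assoc, smul_add]
    module

theorem D_gen [NeZero q] (i j : Bool) : D i (gen K q j) = if i = j then 1 else 0 := by
  have h := D_gen_mul i j (1 : UPlus K q)
  rw [mul_one, D_one, mul_zero, smul_zero, add_zero] at h
  rw [h]; split_ifs <;> simp

theorem D_mul_self [NeZero q] (i : Bool) (x : UPlus K q) :
    D i (x * gen K q i) = D i x * gen K q i + tau i x := by
  rw [D_mul, D_gen, if_pos rfl, mul_one]

theorem D_tau [NeZero q] (i : Bool) (x : UPlus K q) :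
    D i (tau i x) = q ^ 2 • tau i (D i x) := by
  have hq : q ≠ 0 := NeZero.ne q
  refine ind (P := fun x => D i (tau i x) = q ^ 2 • tau i (D i x)) ?_ ?_ ?_ ?_ x
  · simp [D_one]
  · intro x z hx hz; simp only [map_add, hx, hz]; module
  · intro c x hx; simp only [map_smul, hx, smul_smul, mul_comm]
  · intro k x hx
    rw [tau_gen_mul, map_smul, D_gen_mul, D_gen_mul, hx]
    rw [map_add, map_smul, map_smul, tau_gen_mul]
    simp only [mul_smul_comm, smul_add, smul_smul]
    rcases bool_cases i k with rfl | rfl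
    · simp only [if_true, qc_self]
    · simp only [Bool.eq_not_self, if_false, mul_zero, zero_smul, zero_add, qc_not]
      module

theorem D_tau_not [NeZero q] (i : Bool) (x : UPlus K q) :
    D i (tau (!i) x) = (q⁻¹) ^ 2 • tau (!i) (D i x) := by
  have hq : q ≠ 0 := NeZero.ne q
  apply tau_injective i
  have h := D_tau i (tau (!i) x)
  rw [tau_tau_not] at h
  rw [map_smul, tau_tau_not, h, smul_smul, ← mul_pow, inv_mul_cancel₀ hq, one_pow, one_smul]

/-- `[m]' = 1 + q^2 + ... + q^{2(m-1)}`. -/
def qs (q : K) (m : ℕ) : K := ∑ j ∈ Finset.range m, (q ^ 2) ^ j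

theorem qs_succ (m : ℕ) : qs q (m + 1) = qs q m + (q ^ 2) ^ m := Finset.sum_range_succ _ _

theorem D_iter_self_mul [NeZero q] (i : Bool) (x : UPlus K q) (m : ℕ) :
    (D i ^ (m + 1)) (gen K q i * x) =
      (q ^ 2) ^ (m + 1) • (gen K q i * (D i ^ (m + 1)) x) + qs q (m + 1) • (D i ^ m) x := by
  induction m with
  | zero => simp [qs, D_self_mul, add_comm]
  | succ m ih =>
    rw [pow_succ' (D i) (m + 1), Module.End.mul_apply, ih, map_add, map_smul, map_smul, D_self_mul,
      Module.End.mul_apply, qs_succ (m + 1)]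
    have e : D i ((D i ^ m) x) = (D i ^ (m + 1)) x := by
      rw [pow_succ' (D i) m, Module.End.mul_apply]
    rw [e]
    module

theorem D_iter_mul_self [NeZero q] (i : Bool) (x : UPlus K q) (m : ℕ) :
    (D i ^ (m + 1)) (x * gen K q i) =
      (D i ^ (m + 1)) x * gen K q i + qs q (m + 1) • tau i ((D i ^ m) x) := by
  induction m with
  | zero => simp [qs, D_mul_self, add_comm]
  | succ m ih =>
    rw [pow_succ' (D i) (m + 1), Module.End.mul_apply, ih, map_add, map_smul, D_mul_self, D_tau,
      Module.End.mul_apply]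
    have e : D i ((D i ^ m) x) = (D i ^ (m + 1)) x := by
      rw [pow_succ' (D i) m, Module.End.mul_apply]
    have e2 : qs q (m + 1 + 1) = 1 + q ^ 2 * qs q (m + 1) := by
      unfold qs
      rw [Finset.sum_range_succ', Finset.mul_sum, pow_zero, add_comm]
      congr 1
      refine Finset.sum_congr rfl fun j _ => ?_
      ring
    rw [e, e2]
    module

theorem D_nilp [NeZero q] (i : Bool) (x : UPlus K q) : ∃ m, (D i ^ m) x = 0 := by
  refine ind (P := fun x => ∃ m, (D i ^ m) x = 0) ?_ ?_ ?_ ?_ x
  · exact ⟨1, by simp [D_one]⟩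
  · rintro x y ⟨m, hm⟩ ⟨n, hn⟩
    refine ⟨m + n, ?_⟩
    rw [map_add]
    have h1 : (D i ^ (m + n)) x = 0 := by
      rw [add_comm, pow_add, Module.End.mul_apply, hm, map_zero]
    have h2 : (D i ^ (m + n)) y = 0 := by
      rw [pow_add, Module.End.mul_apply, hn, map_zero]
    rw [h1, h2, add_zero]
  · rintro c x ⟨m, hm⟩
    exact ⟨m, by rw [map_smul, hm, smul_zero]⟩
  · rintro j x ⟨m, hm⟩
    rcases bool_cases i j with rfl | rfl
    · refine ⟨m + 1, ?_⟩
      rw [D_iter_self_mul, hm, pow_succ' (D _), Module.End.mul_apply, hm]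
      simp
    · refine ⟨m, ?_⟩
      have : ∀ n, (D i ^ n) (gen K q (!i) * x) =
          ((q⁻¹) ^ 2) ^ n • (gen K q (!i) * (D i ^ n) x) := by
        intro n
        induction n with
        | zero => simp
        | succ n ih =>
          rw [pow_succ' (D i) n, Module.End.mul_apply, ih, map_smul, D_gen_mul, qc_not]
          simp only [Bool.eq_not_self, if_false, zero_smul, zero_add, Module.End.mul_apply]
          module
      rw [this, hm, mul_zero, smul_zero]

end Pool.Agent.Q11.QSerre
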