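import Pool.Agent.Q11.QSerreB

/-!
# The `ℤ × ℤ`-grading of `U_q(sl_2^)^{>0}` (through projections), the reversal and the antipode
-/

namespace Pool.Agent.Q11.QSerre

open TensorProduct

variable {K : Type*} [Field K] {q : K}

/-- The degree of a generator. -/
def al (i : Bool) : ℤ × ℤ := if i = false then (1, 0) else (0, 1)

/-- The height of a degree. -/
def ht (μ : ℤ × ℤ) : ℤ := μ.1 + μ.2

theorem ht_al (i : Bool) : ht (al i) = 1 := by cases i <;> rfl

theorem ht_sub (μ : ℤ × ℤ) (i : Bool) : ht (μ - al i) = ht μ - 1 := by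
  cases i <;> simp [ht, al] <;> ring

/-- shift operator defining the grading. -/
noncomputable def Gop (j : Bool) : Module.End K ((ℤ × ℤ) → UPlus K q) where
  toFun f μ := gen K q j * f (μ - al j)
  map_add' f g := by ext μ; simp [mul_add]
  map_smul' c f := by ext μ; simp

theorem Gop_apply (j : Bool) (f : (ℤ × ℤ) → UPlus K q) (μ : ℤ × ℤ) :
    Gop j f μ = gen K q j * f (μ - al j) := rfl

theorem Gop_serre (k : Bool) (v : (ℤ × ℤ) → UPlus K q) :
    Gop k (Gop k (Gop k (Gop (!k) v))) - q3 K q • Gop k (Gop k (Gop (!k) (Gop k v)))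
      + q3 K q • Gop k (Gop (!k) (Gop k (Gop k v)))
      - Gop (!k) (Gop k (Gop k (Gop k v))) = 0 := by
  ext μ
  simp only [Pi.sub_apply, Pi.add_apply, Pi.smul_apply, Pi.zero_apply, Gop_apply]
  have e1 : μ - al k - al k - al k - al (!k) = μ - (al k + al k + al k + al (!k)) := by abel
  have e2 : μ - al k - al k - al (!k) - al k = μ - (al k + al k + al k + al (!k)) := by abel
  have e3 : μ - al k - al (!k) - al k - al k = μ - (al k + al k + al k + al (!k)) := by abel
  have e4 : μ - al (!k) - al k - al k - al k = μ - (al k + al k + al k + al (!k)) := by abel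
  rw [e1, e2, e3, e4, gen_serre' k]
  abel

/-- Module structure defining the grading. -/
noncomputable def Grho : UPlus K q →ₐ[K] Module.End K ((ℤ × ℤ) → UPlus K q) :=
  act Gop Gop_serre

theorem Grho_gen_mul (j : Bool) (x : UPlus K q) (v) :
    Grho (gen K q j * x) v = Gop j (Grho x v) := act_gen_mul _ _ _ _ _

/-- projection to degree `μ`. -/
noncomputable def comp (μ : ℤ × ℤ) : UPlus K q →ₗ[K] UPlus K q where
  toFun x := Grho x (Pi.single 0 1) μ
  map_add' x y := by simp
  map_smul' c x := by simp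

theorem comp_one (μ : ℤ × ℤ) : comp μ (1 : UPlus K q) = if μ = 0 then 1 else 0 := by
  simp [comp, Pi.single_apply]

theorem comp_gen_mul (μ : ℤ × ℤ) (j : Bool) (x : UPlus K q) :
    comp μ (gen K q j * x) = gen K q j * comp (μ - al j) x := by
  change Grho (gen K q j * x) (Pi.single 0 1) μ = _
  rw [Grho_gen_mul, Gop_apply]; rfl

theorem comp_mul_gen (μ : ℤ × ℤ) (j : Bool) (x : UPlus K q) :
    comp μ (x * gen K q j) = comp (μ - al j) x * gen K q j := by
  refine ind (P := fun x => ∀ μ, comp μ (x * gen K q j) = comp (μ - al j) x * gen K q j)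
    ?_ ?_ ?_ ?_ x μ
  · intro μ
    have h := comp_gen_mul μ j (1 : UPlus K q)
    rw [mul_one] at h
    rw [one_mul, h, comp_one]
    split_ifs <;> simp
  · intro x y hx hy μ; simp only [add_mul, map_add, hx, hy]
  · intro c x hx μ; simp only [smul_mul_assoc, map_smul, hx]
  · intro k x hx μ
    rw [mul_assoc, comp_gen_mul, hx, comp_gen_mul, mul_assoc, sub_right_comm]

theorem comp_comp (μ ν : ℤ × ℤ) (x : UPlus K q) :
    comp μ (comp ν x) = if μ = ν then comp ν x else 0 := by
  refine ind (P := fun x => ∀ μ ν, comp μ (comp ν x) = if μ = ν then comp ν x else 0)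
    ?_ ?_ ?_ ?_ x μ ν
  · intro μ ν
    rw [comp_one]
    by_cases h : ν = 0
    · subst h; simp [comp_one]
    · simp [h]
  · intro x y hx hy μ ν
    simp only [map_add, hx, hy]; split_ifs <;> simp
  · intro c x hx μ ν
    simp only [map_smul, hx]; split_ifs <;> simp
  · intro k x hx μ ν
    simp only [comp_gen_mul, hx]
    by_cases h : μ = ν
    · subst h; simp
    · have h' : μ - al k ≠ ν - al k := fun e => h (sub_left_injective e)
      simp [h, h']

theorem comp_self (μ : ℤ × ℤ) (x : UPlus K q) : comp μ (comp μ x) = comp μ x := by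
  rw [comp_comp, if_pos rfl]

theorem exists_sum_comp (x : UPlus K q) :
    ∃ s : Finset (ℤ × ℤ), (∀ μ ∉ s, comp μ x = 0) ∧ ∑ μ ∈ s, comp μ x = x := by
  classical
  refine ind (P := fun x => ∃ s : Finset (ℤ × ℤ), (∀ μ ∉ s, comp μ x = 0) ∧
    ∑ μ ∈ s, comp μ x = x) ?_ ?_ ?_ ?_ x
  · refine ⟨{0}, ?_, ?_⟩
    · intro μ hμ; rw [comp_one, if_neg (by simpa using hμ)]
    · simp [comp_one]
  · rintro x y ⟨s, hs, hs'⟩ ⟨t, ht, ht'⟩
    refine ⟨s ∪ t, ?_, ?_⟩
    · intro μ hμ
      rw [Finset.mem_union, not_or] at hμ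
      rw [map_add, hs μ hμ.1, ht μ hμ.2, add_zero]
    · simp only [map_add, Finset.sum_add_distrib]
      rw [← Finset.sum_subset Finset.subset_union_left (fun μ _ h => hs μ h),
        ← Finset.sum_subset Finset.subset_union_right (fun μ _ h => ht μ h), hs', ht']
  · rintro c x ⟨s, hs, hs'⟩
    refine ⟨s, fun μ hμ => by rw [map_smul, hs μ hμ, smul_zero], ?_⟩
    simp only [map_smul, ← Finset.smul_sum, hs']
  · rintro j x ⟨s, hs, hs'⟩
    refine ⟨s.map ⟨fun μ => μ + al j, add_left_injective (al j)⟩, ?_, ?_⟩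
    · intro μ hμ
      rw [comp_gen_mul, hs, mul_zero]
      intro h
      apply hμ
      rw [Finset.mem_map]
      exact ⟨μ - al j, h, by simp⟩
    · rw [Finset.sum_map]
      simp only [Function.Embedding.coeFn_mk, comp_gen_mul, add_sub_cancel_right,
        ← Finset.mul_sum, hs']

theorem eq_zero_of_comp (x : UPlus K q) (h : ∀ μ, comp μ x = 0) : x = 0 := by
  obtain ⟨s, -, hs⟩ := exists_sum_comp x
  rw [← hs]
  exact Finset.sum_eq_zero fun μ _ => h μ

theorem comp_neg (x : UPlus K q) (μ : ℤ × ℤ) (h : μ.1 < 0 ∨ μ.2 < 0) : comp μ x = 0 := by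
  refine ind (P := fun x => ∀ μ : ℤ × ℤ, (μ.1 < 0 ∨ μ.2 < 0) → comp μ x = 0) ?_ ?_ ?_ ?_ x μ h
  · intro μ hμ
    rw [comp_one, if_neg]
    rintro rfl
    simp at hμ
  · intro x y hx hy μ h; rw [map_add, hx μ h, hy μ h, add_zero]
  · intro c x hx μ h; rw [map_smul, hx μ h, smul_zero]
  · intro j x hx μ h
    rw [comp_gen_mul, hx, mul_zero]
    cases j <;> simp [al] <;> omega

theorem comp_zero_scalar (x : UPlus K q) : ∃ c : K, comp 0 x = c • 1 := by
  refine ind (P := fun x => ∃ c : K, comp 0 x = c • (1 : UPlus K q)) ?_ ?_ ?_ ?_ x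
  · exact ⟨1, by simp [comp_one]⟩
  · rintro x y ⟨c, hc⟩ ⟨d, hd⟩
    exact ⟨c + d, by rw [map_add, hc, hd, add_smul]⟩
  · rintro c x ⟨d, hd⟩
    exact ⟨c * d, by rw [map_smul, hd, smul_smul]⟩
  · intro j x _
    refine ⟨0, ?_⟩
    rw [comp_gen_mul, comp_neg, mul_zero, zero_smul]
    cases j <;> simp [al]

/-- The integer `(α_i, μ)`. -/
def wt (i : Bool) (μ : ℤ × ℤ) : ℤ := if i = false then 2 * (μ.1 - μ.2) else 2 * (μ.2 - μ.1)

theorem qc_eq_zpow [NeZero q] (i j : Bool) : qc q i j = q ^ (wt i (al j)) := by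
  have hq : q ≠ 0 := NeZero.ne q
  cases i <;> cases j <;> simp [qc, wt, al] <;> rfl

theorem wt_sub (i j : Bool) (μ : ℤ × ℤ) : wt i (μ - al j) = wt i μ - wt i (al j) := by
  cases i <;> cases j <;> simp [wt, al] <;> ring

theorem tau_comp [NeZero q] (i : Bool) (μ : ℤ × ℤ) (x : UPlus K q) :
    tau i (comp μ x) = q ^ (wt i μ) • comp μ x := by
  have hq : q ≠ 0 := NeZero.ne q
  refine ind (P := fun x => ∀ μ, tau i (comp μ x) = q ^ (wt i μ) • comp μ x) ?_ ?_ ?_ ?_ x μ
  · intro μ
    rw [comp_one]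
    by_cases h : μ = 0
    · subst h; simp [wt]
    · simp [h]
  · intro x y hx hy μ; simp only [map_add, hx, hy, smul_add]
  · intro c x hx μ; simp only [map_smul, hx, smul_comm c]
  · intro j x hx μ
    rw [comp_gen_mul, tau_gen_mul, hx, mul_smul_comm, smul_smul, qc_eq_zpow, ← zpow_add₀ hq,
      wt_sub, add_sub_cancel]

theorem D_comp [NeZero q] (i : Bool) (μ : ℤ × ℤ) (x : UPlus K q) :
    D i (comp μ x) = comp (μ - al i) (D i x) := by
  refine ind (P := fun x => ∀ μ, D i (comp μ x) = comp (μ - al i) (D i x)) ?_ ?_ ?_ ?_ x μ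
  · intro μ
    rw [comp_one, D_one, map_zero]
    split_ifs <;> simp [D_one]
  · intro x y hx hy μ; simp only [map_add, hx, hy]
  · intro c x hx μ; simp only [map_smul, hx]
  · intro j x hx μ
    rw [comp_gen_mul, D_gen_mul, D_gen_mul, hx, map_add, map_smul, map_smul, comp_gen_mul,
      sub_right_comm]
    rcases bool_cases i j with rfl | rfl
    · rfl
    · simp

theorem comp_tau (i : Bool) (μ : ℤ × ℤ) (x : UPlus K q) :
    comp μ (tau i x) = tau i (comp μ x) := by
  refine ind (P := fun x => ∀ μ, comp μ (tau i x) = tau i (comp μ x)) ?_ ?_ ?_ ?_ x μ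
  · intro μ
    rw [map_one, comp_one]
    split_ifs <;> simp
  · intro x y hx hy μ; simp only [map_add, hx, hy]
  · intro c x hx μ; simp only [map_smul, hx]
  · intro j x hx μ
    rw [tau_gen_mul, map_smul, comp_gen_mul, hx, comp_gen_mul, tau_gen_mul]

/-! ### the reversal -/

open MulOpposite in
/-- The anti-automorphism fixing the generators. -/
noncomputable def revHom : UPlus K q →ₐ[K] (UPlus K q)ᵐᵒᵖ :=
  lift (fun i => op (gen K q i)) (by
    intro i
    have h := gen_serre (K := K) (q := q) i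
    apply unop_injective
    simp only [unop_sub, unop_add, unop_mul, unop_pow, unop_op, unop_smul, unop_zero]
    rw [← neg_zero, ← h]
    simp only [mul_assoc]
    abel)

/-- The anti-automorphism fixing the generators, as a linear map. -/
noncomputable def rev : UPlus K q →ₗ[K] UPlus K q where
  toFun x := MulOpposite.unop (revHom x)
  map_add' x y := by simp
  map_smul' c x := by simp

theorem rev_mul (x y : UPlus K q) : rev (x * y) = rev y * rev x := by simp [rev]

theorem rev_one : rev (1 : UPlus K q) = 1 := by simp [rev]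

theorem rev_gen (i : Bool) : rev (gen K q i) = gen K q i := by
  simp [rev, revHom, lift_gen]

theorem rev_rev (x : UPlus K q) : rev (rev x) = x := by
  refine ind (P := fun x => rev (rev x) = x) ?_ ?_ ?_ ?_ x
  · simp [rev_one]
  · intro x y hx hy; simp only [map_add, hx, hy]
  · intro c x hx; simp only [map_smul, hx]
  · intro j x hx; rw [rev_mul, rev_mul, rev_gen, rev_gen, hx]

theorem rev_tau (i : Bool) (x : UPlus K q) : rev (tau i x) = tau i (rev x) := by
  refine ind (P := fun x => rev (tau i x) = tau i (rev x)) ?_ ?_ ?_ ?_ x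
  · simp [rev_one]
  · intro x y hx hy; simp only [map_add, hx, hy]
  · intro c x hx; simp only [map_smul, hx]
  · intro j x hx
    rw [tau_gen_mul, map_smul, rev_mul, rev_gen, hx, rev_mul, rev_gen, map_mul, tau_gen,
      mul_smul_comm]

/-! ### the braided antipode -/

/-- Operator used to define the braided antipode. -/
noncomputable def Sop (j : Bool) : Module.End K (UPlus K q) where
  toFun w := - (tau j w * gen K q j)
  map_add' x y := by rw [map_add, add_mul]; abel
  map_smul' c x := by simp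

theorem Sop_apply (j : Bool) (w : UPlus K q) : Sop j w = - (tau j w * gen K q j) := rfl

theorem Sop_serre [NeZero q] (k : Bool) (v : UPlus K q) :
    Sop k (Sop k (Sop k (Sop (!k) v))) - q3 K q • Sop k (Sop k (Sop (!k) (Sop k v)))
      + q3 K q • Sop k (Sop (!k) (Sop k (Sop k v)))
      - Sop (!k) (Sop k (Sop k (Sop k v))) = 0 := by
  have hq : q ≠ 0 := NeZero.ne q
  simp only [Sop_apply, map_neg, map_mul, tau_gen, neg_mul, mul_smul_comm, smul_mul_assoc,
    neg_neg, tau_tau_not, tau_not_tau, mul_assoc, smul_neg, map_smul, smul_smul]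
  rw [gen_serre'' k]
  simp only [qc_self, qc_not, qc_not']
  simp only [smul_sub, smul_add, smul_smul, q3]
  match_scalars <;> field_simp <;> ring

/-- The representation defining the braided antipode. -/
noncomputable def Srho [NeZero q] : UPlus K q →ₐ[K] Module.End K (UPlus K q) :=
  act Sop Sop_serre

/-- The braided antipode. -/
noncomputable def S [NeZero q] : UPlus K q →ₗ[K] UPlus K q where
  toFun x := Srho x 1
  map_add' x y := by simp
  map_smul' c x := by simp

theorem S_one [NeZero q] : S (1 : UPlus K q) = 1 := by simp [S]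

theorem S_gen_mul [NeZero q] (j : Bool) (x : UPlus K q) :
    S (gen K q j * x) = - (tau j (S x) * gen K q j) := by
  change Srho (gen K q j * x) 1 = _
  have : Srho (gen K q j * x) 1 = Sop j (Srho x 1) := act_gen_mul _ _ _ _ _
  rw [this, Sop_apply]; rfl

theorem S_tau [NeZero q] (i : Bool) (x : UPlus K q) : S (tau i x) = tau i (S x) := by
  refine ind (P := fun x => S (tau i x) = tau i (S x)) ?_ ?_ ?_ ?_ x
  · simp [S_one]
  · intro x y hx hy; simp only [map_add, hx, hy]
  · intro c x hx; simp only [map_smul, hx]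
  · intro j x hx
    rw [tau_gen_mul, map_smul, S_gen_mul, S_gen_mul, hx, map_neg, map_mul, tau_gen, tau_comm i j,
      mul_smul_comm, smul_neg]

/-- The scalar relating antipode and reversal. -/
noncomputable def lam (q : K) (μ : ℤ × ℤ) : K :=
  (-1) ^ (μ.1 + μ.2) * q ^ ((μ.1 - μ.2) ^ 2 - (μ.1 + μ.2))

theorem lam_rec [NeZero q] (j : Bool) (μ : ℤ × ℤ) :
    lam q μ = - (q ^ (wt j (μ - al j)) * lam q (μ - al j)) := by
  have hq : q ≠ 0 := NeZero.ne q
  have h1 : (-1 : K) ≠ 0 := by simp
  have e1 : (μ - al j).1 + (μ - al j).2 = μ.1 + μ.2 - 1 := ht_sub μ j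
  unfold lam
  rw [e1, zpow_sub_one₀ h1, mul_left_comm, ← zpow_add₀ hq]
  have e2 : wt j (μ - al j) + (((μ - al j).1 - (μ - al j).2) ^ 2 - (μ.1 + μ.2 - 1)) =
      (μ.1 - μ.2) ^ 2 - (μ.1 + μ.2) := by
    cases j <;> simp [wt, al] <;> ring
  rw [e2]
  simp

theorem S_comp [NeZero q] (μ : ℤ × ℤ) (x : UPlus K q) :
    S (comp μ x) = lam q μ • rev (comp μ x) := by
  refine ind (P := fun x => ∀ μ, S (comp μ x) = lam q μ • rev (comp μ x)) ?_ ?_ ?_ ?_ x μ
  · intro μ
    rw [comp_one]
    by_cases h : μ = 0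
    · subst h; simp [lam, S_one, rev_one]
    · simp [h]
  · intro x y hx hy μ; simp only [map_add, hx, hy, smul_add]
  · intro c x hx μ; simp only [map_smul, hx, smul_comm c]
  · intro j x hx μ
    rw [comp_gen_mul, S_gen_mul, hx, map_smul, ← rev_tau, tau_comp, map_smul, rev_mul, rev_gen,
      lam_rec j μ]
    simp only [smul_mul_assoc, smul_smul, neg_smul]
    rw [mul_comm]

end Pool.Agent.Q11.QSerre
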