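import Pool.Agent.Q11.QSerreC

/-!
# The braided coproduct of `U_q(sl_2^)^{>0}` and nondegeneracy
-/

namespace Pool.Agent.Q11.QSerre

open TensorProduct

variable {K : Type*} [Field K] {q : K}

/-- Operators on `U ⊗ U` defining the braided coproduct. -/
noncomputable def Top (j : Bool) : Module.End K (UPlus K q ⊗[K] UPlus K q) :=
  TensorProduct.map (LinearMap.mulLeft K (gen K q j)) LinearMap.id +
    TensorProduct.map (tau j).toLinearMap (LinearMap.mulLeft K (gen K q j))

theorem Top_tmul (j : Bool) (y w : UPlus K q) :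
    Top j (y ⊗ₜ[K] w) = (gen K q j * y) ⊗ₜ[K] w + (tau j y) ⊗ₜ[K] (gen K q j * w) := rfl

theorem Top_serre_tmul [NeZero q] (k : Bool) (y w : UPlus K q) :
    Top k (Top k (Top k (Top (!k) (y ⊗ₜ[K] w)))) - q3 K q • Top k (Top k (Top (!k) (Top k (y ⊗ₜ[K] w))))
      + q3 K q • Top k (Top (!k) (Top k (Top k (y ⊗ₜ[K] w))))
      - Top (!k) (Top k (Top k (Top k (y ⊗ₜ[K] w)))) = 0 := by
  have hq : q ≠ 0 := NeZero.ne q
  simp only [Top_tmul, map_add, tau_gen_mul, ← TensorProduct.smul_tmul', map_smul, smul_add,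
    tau_tau_not, tau_not_tau, smul_smul, mul_smul_comm, qc_self, qc_not, qc_not', qc_not_not]
  rw [gen_serre' k y, gen_serre' k w]
  simp only [TensorProduct.sub_tmul, TensorProduct.add_tmul, TensorProduct.tmul_sub,
    TensorProduct.tmul_add, ← TensorProduct.smul_tmul', TensorProduct.tmul_smul, q3]
  match_scalars <;> field_simp <;> ring

theorem Top_serre [NeZero q] (k : Bool) (v : UPlus K q ⊗[K] UPlus K q) :
    Top k (Top k (Top k (Top (!k) v))) - q3 K q • Top k (Top k (Top (!k) (Top k v)))
      + q3 K q • Top k (Top (!k) (Top k (Top k v)))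
      - Top (!k) (Top k (Top k (Top k v))) = 0 := by
  have h : (Top (q := q) k * Top k * Top k * Top (!k) - q3 K q • (Top k * Top k * Top (!k) * Top k)
      + q3 K q • (Top k * Top (!k) * Top k * Top k)
      - Top (!k) * Top k * Top k * Top k : Module.End K (UPlus K q ⊗[K] UPlus K q)) = 0 := by
    apply TensorProduct.ext'
    intro y w
    simpa [Module.End.mul_apply] using Top_serre_tmul k y w
  simpa [Module.End.mul_apply] using LinearMap.congr_fun h v

/-- The representation defining the braided coproduct. -/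
noncomputable def Trho [NeZero q] : UPlus K q →ₐ[K] Module.End K (UPlus K q ⊗[K] UPlus K q) :=
  act Top Top_serre

/-- The braided coproduct. -/
noncomputable def Del [NeZero q] : UPlus K q →ₗ[K] UPlus K q ⊗[K] UPlus K q where
  toFun x := Trho x (1 ⊗ₜ 1)
  map_add' x y := by simp
  map_smul' c x := by simp

theorem Del_one [NeZero q] : Del (1 : UPlus K q) = 1 ⊗ₜ 1 := by simp [Del]

theorem Del_gen_mul [NeZero q] (j : Bool) (x : UPlus K q) :
    Del (gen K q j * x) = Top j (Del x) := act_gen_mul _ _ _ _ _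

/-- `(D_i ⊗ 1) Δ = Δ D_i`. -/
theorem D_Del [NeZero q] (i : Bool) (x : UPlus K q) :
    (D i).rTensor (UPlus K q) (Del x) = Del (D i x) := by
  refine ind (P := fun x => (D i).rTensor (UPlus K q) (Del x) = Del (D i x)) ?_ ?_ ?_ ?_ x
  · rw [Del_one, D_one, map_zero, LinearMap.rTensor_tmul, D_one, TensorProduct.zero_tmul]
  · intro x y hx hy; simp only [map_add, hx, hy]
  · intro c x hx; simp only [map_smul, hx]
  · intro j x hx
    have key : ∀ t : UPlus K q ⊗[K] UPlus K q, (D i).rTensor (UPlus K q) (Top j t) =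
        (if i = j then (1 : K) else 0) • t + qc q i j • Top j ((D i).rTensor (UPlus K q) t) := by
      intro t
      have : (D i).rTensor (UPlus K q) ∘ₗ Top j =
          (if i = j then (1 : K) else 0) • LinearMap.id +
            qc q i j • (Top j ∘ₗ (D i).rTensor (UPlus K q)) := by
        apply TensorProduct.ext'
        intro y w
        simp only [LinearMap.comp_apply, Top_tmul, map_add, LinearMap.rTensor_tmul, D_gen_mul,
          LinearMap.add_apply, LinearMap.smul_apply, LinearMap.id_apply, TensorProduct.add_tmul,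
          smul_add, ← TensorProduct.smul_tmul']
        rcases bool_cases i j with rfl | rfl
        · rw [D_tau, qc_self]
          simp only [← TensorProduct.smul_tmul']
          abel
        · rw [D_tau_not, qc_not]
          simp only [← TensorProduct.smul_tmul']
          abel
      exact LinearMap.congr_fun this t
    rw [Del_gen_mul, key, hx, D_gen_mul, map_add, map_smul, map_smul, Del_gen_mul]

/-- The map `y ⊗ w ↦ S(y) w`. -/
noncomputable def MS [NeZero q] : UPlus K q ⊗[K] UPlus K q →ₗ[K] UPlus K q :=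
  TensorProduct.lift ((LinearMap.mul K (UPlus K q)).comp S)

theorem MS_tmul [NeZero q] (y w : UPlus K q) : MS (y ⊗ₜ[K] w) = S y * w := rfl

theorem MS_Top [NeZero q] (j : Bool) (t : UPlus K q ⊗[K] UPlus K q) : MS (Top j t) = 0 := by
  have : (MS ∘ₗ Top j : UPlus K q ⊗[K] UPlus K q →ₗ[K] UPlus K q) = 0 := by
    apply TensorProduct.ext'
    intro y w
    simp only [LinearMap.comp_apply, Top_tmul, map_add, MS_tmul, S_gen_mul, S_tau,
      LinearMap.zero_apply]
    rw [neg_mul, mul_assoc, neg_add_cancel]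
  exact LinearMap.congr_fun this t

/-- The antipode identity. -/
theorem MS_Del [NeZero q] (x : UPlus K q) : MS (Del x) = comp 0 x := by
  refine ind (P := fun x => MS (Del x) = comp 0 x) ?_ ?_ ?_ ?_ x
  · rw [Del_one, MS_tmul, S_one, comp_one]; simp
  · intro x y hx hy; simp only [map_add, hx, hy]
  · intro c x hx; simp only [map_smul, hx]
  · intro j x hx
    rw [Del_gen_mul, MS_Top, comp_gen_mul, comp_neg, mul_zero]
    cases j <;> simp [al]

/-- The span of `y ⊗ w` with `y` homogeneous of height between `1` and `n - 1`. -/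
noncomputable def Fil (K : Type*) [Field K] (q : K) (n : ℤ) : Submodule K (UPlus K q ⊗[K] UPlus K q) :=
  Submodule.span K {t | ∃ (μ : ℤ × ℤ) (y w : UPlus K q), 1 ≤ ht μ ∧ ht μ ≤ n - 1 ∧
    t = (comp μ y) ⊗ₜ[K] w}

theorem mem_Fil {n : ℤ} {μ : ℤ × ℤ} (h1 : 1 ≤ ht μ) (h2 : ht μ ≤ n - 1) (y w : UPlus K q) :
    (comp μ y) ⊗ₜ[K] w ∈ Fil K q n := Submodule.subset_span ⟨μ, y, w, h1, h2, rfl⟩

theorem gen_mul_comp (j : Bool) (μ : ℤ × ℤ) (y : UPlus K q) :
    gen K q j * comp μ y = comp (μ + al j) (gen K q j * y) := by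
  rw [comp_gen_mul, add_sub_cancel_right]

theorem ht_add (μ : ℤ × ℤ) (i : Bool) : ht (μ + al i) = ht μ + 1 := by
  cases i <;> simp [ht, al] <;> ring

theorem Top_Fil {n : ℤ} (j : Bool) {t : UPlus K q ⊗[K] UPlus K q} (h : t ∈ Fil K q n) :
    Top j t ∈ Fil K q (n + 1) := by
  refine Submodule.span_induction (p := fun t _ => Top j t ∈ Fil K q (n + 1)) ?_ ?_ ?_ ?_ h
  · rintro _ ⟨μ, y, w, h1, h2, rfl⟩
    rw [Top_tmul, gen_mul_comp, ← comp_tau]
    refine add_mem (mem_Fil ?_ ?_ _ _) (mem_Fil h1 (by omega) _ _)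
    · rw [ht_add]; omega
    · rw [ht_add]; omega
  · rw [map_zero]; exact zero_mem _
  · intro x y _ _ hx hy; rw [map_add]; exact add_mem hx hy
  · intro c x _ hx; rw [map_smul]; exact Submodule.smul_mem _ _ hx

theorem Del_comp_mem [NeZero q] (x : UPlus K q) (μ : ℤ × ℤ) (h : 1 ≤ ht μ) :
    Del (comp μ x) - (comp μ x) ⊗ₜ[K] 1 - 1 ⊗ₜ[K] (comp μ x) ∈ Fil K q (ht μ) := by
  refine ind (P := fun x => ∀ μ, 1 ≤ ht μ → Del (comp μ x) - (comp μ x) ⊗ₜ[K] 1 -
    1 ⊗ₜ[K] (comp μ x) ∈ Fil K q (ht μ)) ?_ ?_ ?_ ?_ x μ h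
  · intro μ hμ
    have : μ ≠ 0 := by rintro rfl; simp [ht] at hμ
    rw [comp_one, if_neg this]
    simp
  · intro x y hx hy μ hμ
    have := add_mem (hx μ hμ) (hy μ hμ)
    simp only [map_add, TensorProduct.add_tmul, TensorProduct.tmul_add]
    convert this using 1
    abel
  · intro c x hx μ hμ
    have := Submodule.smul_mem _ c (hx μ hμ)
    simp only [map_smul, ← TensorProduct.smul_tmul', TensorProduct.tmul_smul]
    convert this using 1
    rw [smul_sub, smul_sub]
  · intro j x hx μ hμ
    rw [comp_gen_mul, Del_gen_mul]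
    by_cases h2 : 1 ≤ ht (μ - al j)
    · have h3 := Top_Fil j (hx _ h2)
      rw [ht_sub] at h2
      rw [ht_sub, sub_add_cancel, map_sub, map_sub, Top_tmul, Top_tmul, map_one, mul_one] at h3
      have h4 : tau j (comp (μ - al j) x) ⊗ₜ[K] gen K q j ∈ Fil K q (ht μ) := by
        rw [← comp_tau]
        exact mem_Fil (by rw [ht_sub]; omega) (by rw [ht_sub]) _ _
      have h5 : gen K q j ⊗ₜ[K] (comp (μ - al j) x) ∈ Fil K q (ht μ) := by
        have e : gen K q j = comp (al j) (gen K q j) := by
          have := comp_gen_mul (al j) j (1 : UPlus K q)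
          rw [mul_one, sub_self, comp_one, if_pos rfl, mul_one] at this
          exact this.symm
        rw [e]
        exact mem_Fil (by rw [ht_al]) (by rw [ht_al]; omega) _ _
      have := add_mem (add_mem h3 h4) h5
      convert this using 1
      abel
    · rw [ht_sub] at h2
      have hμ1 : ht μ = 1 := by omega
      by_cases h3 : μ - al j = 0
      · rw [h3]
        obtain ⟨c, hc⟩ := comp_zero_scalar x
        rw [hc]
        simp only [map_smul, Del_one, Top_tmul, mul_smul_comm, mul_one, map_one,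
          ← TensorProduct.smul_tmul', TensorProduct.tmul_smul]
        rw [smul_add, add_sub_cancel_left, sub_self]
        exact zero_mem _
      · have : comp (μ - al j) x = 0 := by
          apply comp_neg
          by_contra hcon
          push Not at hcon
          apply h3
          have h4 : ht (μ - al j) = 0 := by rw [ht_sub]; omega
          unfold ht at h4
          ext
          · simp only [Prod.fst_zero]; omega
          · simp only [Prod.snd_zero]; omega
        rw [this]
        simp

end Pool.Agent.Q11.QSerre
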