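import Pool.Agent.Q11.QSerreD

/-!
# Nondegeneracy of `U_q(sl_2^)^{>0}` and triviality of its center
-/

namespace Pool.Agent.Q11.QSerre

open TensorProduct

variable {K : Type*} [Field K] {q : K}

/-! ### primitivity in minimal degree -/

theorem Del_prim [NeZero q] (x : UPlus K q) (μ : ℤ × ℤ) (hμ : 1 ≤ ht μ)
    (hD : ∀ i, D i (comp μ x) = 0)
    (IH : ∀ ν (y : UPlus K q), 1 ≤ ht ν → ht ν ≤ ht μ - 1 → (∀ i, D i (comp ν y) = 0) →
      comp ν y = 0) :
    Del (comp μ x) = (comp μ x) ⊗ₜ[K] 1 + 1 ⊗ₜ[K] (comp μ x) := by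
  classical
  set t := Del (comp μ x) - (comp μ x) ⊗ₜ[K] 1 - 1 ⊗ₜ[K] (comp μ x) with ht'
  have htF : t ∈ Fil K q (ht μ) := Del_comp_mem x μ hμ
  have htD : ∀ i, (D i).rTensor (UPlus K q) t = 0 := by
    intro i
    rw [ht', map_sub, map_sub, D_Del, hD, map_zero, LinearMap.rTensor_tmul, hD,
      LinearMap.rTensor_tmul, D_one]
    simp
  let b := Module.Basis.ofVectorSpace K (UPlus K q)
  let e : UPlus K q ⊗[K] UPlus K q ≃ₗ[K] _ →₀ UPlus K q :=
    TensorProduct.equivFinsuppOfBasisRight b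
  have he : ∀ (y w : UPlus K q) k, e (y ⊗ₜ[K] w) k = b.repr w k • y := fun y w k =>
    TensorProduct.equivFinsuppOfBasisRight_apply_tmul_apply b y w k
  have h1 : ∀ s : UPlus K q ⊗[K] UPlus K q, s ∈ Fil K q (ht μ) → ∀ k ν,
      ¬ (1 ≤ ht ν ∧ ht ν ≤ ht μ - 1) → comp ν (e s k) = 0 := by
    intro s hs k ν hν
    refine Submodule.span_induction (p := fun s _ => comp ν (e s k) = 0) ?_ ?_ ?_ ?_ hs
    · rintro _ ⟨κ, y, w, h1, h2, rfl⟩
      rw [he, map_smul, comp_comp, if_neg, smul_zero]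
      rintro rfl
      exact hν ⟨h1, h2⟩
    · simp
    · intro x y _ _ hx hy; rw [map_add, Finsupp.add_apply, map_add, hx, hy, add_zero]
    · intro c x _ hx; rw [map_smul, Finsupp.smul_apply, map_smul, hx, smul_zero]
  have h2 : ∀ (i : Bool) (s : UPlus K q ⊗[K] UPlus K q) k,
      D i (e s k) = e ((D i).rTensor (UPlus K q) s) k := by
    intro i s k
    induction s using TensorProduct.induction_on with
    | zero => simp
    | tmul y w => rw [he, LinearMap.rTensor_tmul, he, map_smul]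
    | add x y hx hy =>
      rw [map_add, Finsupp.add_apply, map_add, hx, hy, map_add, map_add, Finsupp.add_apply]
  have h3 : t = 0 := by
    apply e.injective
    rw [map_zero]
    ext k
    rw [Finsupp.zero_apply]
    apply eq_zero_of_comp
    intro ν
    by_cases hν : 1 ≤ ht ν ∧ ht ν ≤ ht μ - 1
    · apply IH ν _ hν.1 hν.2
      intro i
      rw [D_comp, h2, htD, map_zero, Finsupp.zero_apply, map_zero]
    · exact h1 t htF k ν hν
  rw [ht', sub_sub, sub_eq_zero] at h3
  exact h3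

theorem lam_rev_of_prim [NeZero q] (x : UPlus K q) (μ : ℤ × ℤ) (hμ : 1 ≤ ht μ)
    (h : Del (comp μ x) = (comp μ x) ⊗ₜ[K] 1 + 1 ⊗ₜ[K] (comp μ x)) :
    lam q μ • rev (comp μ x) = - comp μ x := by
  have h0 : μ ≠ 0 := by rintro rfl; simp [ht] at hμ
  have h1 := MS_Del (comp μ x)
  rw [h, map_add, MS_tmul, MS_tmul, S_one, mul_one, one_mul, comp_comp, if_neg h0.symm,
    S_comp] at h1
  exact eq_neg_of_add_eq_zero_left h1

/-! ### the second skew derivation and the twisted adjoint action -/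

/-- The right skew derivation `D'_i = rev D_i rev`. -/
noncomputable def Dr [NeZero q] (i : Bool) : UPlus K q →ₗ[K] UPlus K q := rev ∘ₗ D i ∘ₗ rev

theorem Dr_apply [NeZero q] (i : Bool) (x : UPlus K q) : Dr i x = rev (D i (rev x)) := rfl

theorem Dr_mul [NeZero q] (i : Bool) (x y : UPlus K q) :
    Dr i (x * y) = x * Dr i y + Dr i x * tau i y := by
  rw [Dr_apply, rev_mul, D_mul, map_add, rev_mul, rev_mul, rev_rev, ← rev_tau, rev_rev]; rfl

theorem Dr_gen_self [NeZero q] (i : Bool) : Dr i (gen K q i) = 1 := by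
  rw [Dr_apply, rev_gen, D_gen, if_pos rfl, rev_one]

theorem Dr_tau_not [NeZero q] (i : Bool) (x : UPlus K q) :
    Dr i (tau (!i) x) = (q⁻¹) ^ 2 • tau (!i) (Dr i x) := by
  rw [Dr_apply, rev_tau, D_tau_not, map_smul, rev_tau, ← Dr_apply]

/-- The twisted adjoint action `y ↦ e_i y - τ_i⁻¹(y) e_i`. -/
noncomputable def ad (i : Bool) : UPlus K q →ₗ[K] UPlus K q where
  toFun y := gen K q i * y - tau (!i) y * gen K q i
  map_add' x y := by rw [mul_add, map_add, add_mul]; abel
  map_smul' c x := by simp [smul_sub]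

theorem ad_apply (i : Bool) (y : UPlus K q) :
    ad i y = gen K q i * y - tau (!i) y * gen K q i := rfl

theorem D_ad [NeZero q] (i : Bool) {y : UPlus K q} (h : D i y = 0) : D i (ad i y) = 0 := by
  rw [ad_apply, map_sub, D_self_mul, D_mul_self, D_tau_not, h, tau_tau_not]
  simp

theorem Dr_ad [NeZero q] (i : Bool) (y : UPlus K q) :
    Dr i (ad i y) = ad i (Dr i y) + (tau i y - tau (!i) y) := by
  have hq : q ≠ 0 := NeZero.ne q
  rw [ad_apply, map_sub, Dr_mul, Dr_mul, Dr_gen_self, Dr_tau_not, tau_gen, qc_self, ad_apply]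
  simp only [smul_mul_assoc, mul_smul_comm, smul_smul, mul_one, one_mul]
  rw [← mul_pow, mul_inv_cancel₀ hq, one_pow, one_smul]
  abel

theorem tau_ad [NeZero q] (i : Bool) (y : UPlus K q) :
    tau i (ad i y) = q ^ 2 • ad i (tau i y) := by
  rw [ad_apply, map_sub, map_mul, map_mul, tau_gen, qc_self, tau_comm i (!i), ad_apply]
  simp only [smul_mul_assoc, mul_smul_comm, smul_sub]

/-! ### nilpotency -/

theorem pow_mul_gen (i : Bool) (m : ℕ) :
    ∃ u : UPlus K q, gen K q i ^ (3 * m) * gen K q (!i) = u * gen K q i ^ m := by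
  induction m with
  | zero => exact ⟨gen K q (!i), by simp⟩
  | succ m ih =>
    obtain ⟨u, hu⟩ := ih
    set e := gen K q i with he
    set f := gen K q (!i) with hf
    have hs : e ^ 3 * f = q3 K q • (e ^ 2 * f * e) - q3 K q • (e * f * e ^ 2) + f * e ^ 3 := by
      have := gen_serre (K := K) (q := q) i
      rw [← sub_eq_zero, ← this]
      abel
    refine ⟨q3 K q • (e ^ 2 * u) - q3 K q • (e * u * e) + u * e ^ 2, ?_⟩
    have e1 : e ^ (3 * m) * (e ^ 2 * f * e) = e ^ 2 * u * e ^ (m + 1) := by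
      calc e ^ (3 * m) * (e ^ 2 * f * e) = e ^ 2 * (e ^ (3 * m) * f) * e := by
            simp only [← mul_assoc, ← pow_add]; rw [add_comm (3 * m) 2]
        _ = _ := by rw [hu]; simp only [mul_assoc, pow_succ]
    have e2 : e ^ (3 * m) * (e * f * e ^ 2) = e * u * e * e ^ (m + 1) := by
      calc e ^ (3 * m) * (e * f * e ^ 2) = e * (e ^ (3 * m) * f) * e ^ 2 := by
            simp only [← mul_assoc, ← pow_succ, ← pow_succ']
        _ = _ := by
            rw [hu]; simp only [mul_assoc, ← pow_add, ← pow_succ']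
    have e3 : e ^ (3 * m) * (f * e ^ 3) = u * e ^ 2 * e ^ (m + 1) := by
      rw [← mul_assoc, hu]; simp only [mul_assoc, ← pow_add]
      congr 2
      ring
    calc e ^ (3 * (m + 1)) * f = e ^ (3 * m) * (e ^ 3 * f) := by
          rw [← mul_assoc, ← pow_add]; rfl
      _ = _ := by
          rw [hs, mul_add, mul_sub, mul_smul_comm, mul_smul_comm, e1, e2, e3]
          simp only [add_mul, sub_mul, smul_mul_assoc]

theorem pow_mul_mem (i : Bool) (y : UPlus K q) :
    ∃ (n : ℕ) (u : UPlus K q), gen K q i ^ n * y = u * gen K q i := by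
  refine ind (P := fun y => ∃ (n : ℕ) (u : UPlus K q), gen K q i ^ n * y = u * gen K q i)
    ?_ ?_ ?_ ?_ y
  · exact ⟨1, 1, by simp⟩
  · rintro x y ⟨n, u, hu⟩ ⟨m, v, hv⟩
    refine ⟨n + m, gen K q i ^ m * u + gen K q i ^ n * v, ?_⟩
    rw [mul_add, add_mul, mul_assoc, ← hu, mul_assoc, ← hv, ← mul_assoc, ← mul_assoc, ← pow_add,
      ← pow_add, add_comm m n]
  · rintro c x ⟨n, u, hu⟩
    exact ⟨n, c • u, by rw [mul_smul_comm, hu, smul_mul_assoc]⟩
  · rintro j x ⟨n, u, hu⟩
    rcases bool_cases i j with rfl | rfl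
    · refine ⟨n, gen K q j * u, ?_⟩
      rw [← mul_assoc, ← pow_succ, pow_succ', mul_assoc, hu, mul_assoc]
    · obtain ⟨v, hv⟩ := pow_mul_gen (K := K) (q := q) i n
      exact ⟨3 * n, v * u, by rw [← mul_assoc, hv, mul_assoc, hu, mul_assoc]⟩

theorem qs_ne_zero (hq : ∀ n : ℕ, 0 < n → q ^ n ≠ 1) (m : ℕ) : qs q (m + 1) ≠ 0 := by
  intro h
  have h1 : qs q (m + 1) * (q ^ 2 - 1) = (q ^ 2) ^ (m + 1) - 1 := geom_sum_mul _ _
  rw [h, zero_mul, ← pow_mul] at h1
  exact hq _ (by positivity) (sub_eq_zero.mp h1.symm)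

theorem eq_zero_of_D_mul [NeZero q] (hq : ∀ n : ℕ, 0 < n → q ^ n ≠ 1) (i : Bool)
    (y : UPlus K q) (h : D i (y * gen K q i) = 0) : y = 0 := by
  classical
  obtain ⟨m, hm⟩ := D_nilp i y
  induction m with
  | zero => simpa using hm
  | succ m ih =>
    apply ih
    have h1 := D_iter_mul_self i y m
    rw [hm, zero_mul, zero_add, pow_succ, Module.End.mul_apply, h, map_zero] at h1
    have h2 := (smul_eq_zero.mp h1.symm).resolve_left (qs_ne_zero hq m)
    exact tau_injective i (by rw [h2, map_zero])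

theorem ad_nilp [NeZero q] (hq : ∀ n : ℕ, 0 < n → q ^ n ≠ 1) (i : Bool) (x : UPlus K q)
    (h : D i x = 0) : ∃ n, (ad i ^ n) x = 0 := by
  obtain ⟨n, u, hu⟩ := pow_mul_mem i x
  refine ⟨n, ?_⟩
  have h1 : ∀ n : ℕ, ∃ v, (ad i ^ n) x = gen K q i ^ n * x + v * gen K q i := by
    intro n
    induction n with
    | zero => exact ⟨0, by simp⟩
    | succ n ih =>
      obtain ⟨v, hv⟩ := ih
      refine ⟨gen K q i * v - tau (!i) ((ad i ^ n) x), ?_⟩
      rw [pow_succ' (ad i), Module.End.mul_apply, ad_apply]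
      nth_rw 1 [hv]
      rw [mul_add, sub_mul, pow_succ' (gen K q i), mul_assoc, mul_assoc]
      abel
  have h2 : ∀ n : ℕ, D i ((ad i ^ n) x) = 0 := by
    intro n
    induction n with
    | zero => simpa using h
    | succ n ih => rw [pow_succ' (ad i), Module.End.mul_apply]; exact D_ad i ih
  obtain ⟨v, hv⟩ := h1 n
  have h3 := h2 n
  rw [hu, ← add_mul] at hv
  rw [hv] at h3 ⊢
  rw [eq_zero_of_D_mul hq i _ h3, zero_mul]

/-- The weight inequality. -/
theorem weight_le [NeZero q] (hq : ∀ n : ℕ, 0 < n → q ^ n ≠ 1) (i : Bool) (x : UPlus K q)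
    (m : ℤ) (hx : x ≠ 0) (hD : D i x = 0) (hDr : Dr i x = 0) (hτ : tau i x = q ^ m • x) :
    m ≤ 0 := by
  classical
  have hq0 : q ≠ 0 := NeZero.ne q
  have ht : ∀ k : ℕ, tau i ((ad i ^ k) x) = q ^ (m + 2 * k) • (ad i ^ k) x := by
    intro k
    induction k with
    | zero => simpa using hτ
    | succ k ih =>
      rw [pow_succ' (ad i), Module.End.mul_apply, tau_ad, ih, map_smul, smul_smul,
        ← zpow_natCast q 2, ← zpow_add₀ hq0]
      congr 2
      push_cast
      ring
  have ht' : ∀ k : ℕ, tau (!i) ((ad i ^ k) x) = q ^ (-(m + 2 * k)) • (ad i ^ k) x := by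
    intro k
    apply tau_injective i
    rw [tau_tau_not, map_smul, ht, smul_smul, ← zpow_add₀ hq0, neg_add_cancel, zpow_zero, one_smul]
  let c : ℕ → K := fun k => ∑ j ∈ Finset.range k, (q ^ (m + 2 * (j : ℤ)) - q ^ (-(m + 2 * (j : ℤ))))
  have hc : ∀ k : ℕ, Dr i ((ad i ^ (k + 1)) x) = c (k + 1) • (ad i ^ k) x := by
    intro k
    induction k with
    | zero =>
      rw [pow_succ' (ad i), Module.End.mul_apply, Dr_ad]
      have h1 := ht 0
      have h2 := ht' 0
      simp only [pow_zero, Module.End.one_apply, CharP.cast_eq_zero, mul_zero, add_zero] at h1 h2 ⊢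
      rw [hDr, map_zero, zero_add, h1, h2, ← sub_smul]
      simp [c]
    | succ k ih =>
      rw [pow_succ' (ad i), Module.End.mul_apply, Dr_ad, ih, map_smul, ht, ht', ← sub_smul]
      have e : ad i ((ad i ^ k) x) = (ad i ^ (k + 1)) x := by
        rw [pow_succ' (ad i) k, Module.End.mul_apply]
      rw [e, ← add_smul]
      congr 1
      simp only [c]
      rw [Finset.sum_range_succ _ (k + 1)]
  have hc2 : ∀ k : ℕ, c k * (q - q⁻¹) = (q ^ (k : ℤ) - q ^ (-(k : ℤ))) *
      (q ^ (m + k - 1) - q ^ (-(m + k - 1))) := by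
    intro k
    have h1 : ∀ k : ℕ, c k * (q - q⁻¹) = q ^ (m + 2 * k - 1) - q ^ (m - 1) +
        (q ^ (-(m + 2 * k) + 1) - q ^ (-m + 1)) := by
      intro k
      induction k with
      | zero => simp [c]
      | succ k ih =>
        have : c (k + 1) = c k + (q ^ (m + 2 * (k : ℤ)) - q ^ (-(m + 2 * (k : ℤ)))) :=
          Finset.sum_range_succ _ k
        rw [this, add_mul, ih]
        have a1 : q ^ (m + 2 * (k : ℤ)) * q = q ^ (m + 2 * ((k + 1 : ℕ) : ℤ) - 1) := by
          rw [← zpow_add_one₀ hq0]; congr 1; push_cast; ring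
        have a2 : q ^ (m + 2 * (k : ℤ)) * q⁻¹ = q ^ (m + 2 * (k : ℤ) - 1) := by
          rw [← zpow_sub_one₀ hq0]
        have a3 : q ^ (-(m + 2 * (k : ℤ))) * q = q ^ (-(m + 2 * (k : ℤ)) + 1) := by
          rw [← zpow_add_one₀ hq0]
        have a4 : q ^ (-(m + 2 * (k : ℤ))) * q⁻¹ = q ^ (-(m + 2 * ((k + 1 : ℕ) : ℤ)) + 1) := by
          rw [← zpow_sub_one₀ hq0]; congr 1; push_cast; ring
        rw [sub_mul, mul_sub, mul_sub, a1, a2, a3, a4]
        ring
    rw [h1, sub_mul, mul_sub, mul_sub, ← zpow_add₀ hq0, ← zpow_add₀ hq0, ← zpow_add₀ hq0,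
      ← zpow_add₀ hq0]
    have b1 : (k : ℤ) + (m + k - 1) = m + 2 * k - 1 := by ring
    have b2 : (k : ℤ) + -(m + k - 1) = -m + 1 := by ring
    have b3 : -(k : ℤ) + (m + k - 1) = m - 1 := by ring
    have b4 : -(k : ℤ) + -(m + k - 1) = -(m + 2 * k) + 1 := by ring
    rw [b1, b2, b3, b4]
    ring
  have hex := ad_nilp hq i x hD
  obtain ⟨n, hn, hmin⟩ : ∃ n, (ad i ^ n) x = 0 ∧ ∀ k < n, (ad i ^ k) x ≠ 0 :=
    ⟨Nat.find hex, Nat.find_spec hex, fun k hk => Nat.find_min hex hk⟩
  rcases n with _ | n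
  · exact absurd (by simpa using hn) hx
  · have h1 := hc n
    rw [hn, map_zero] at h1
    have h2 : c (n + 1) = 0 := (smul_eq_zero.mp h1.symm).resolve_right (hmin n (Nat.lt_succ_self n))
    have h3 := hc2 (n + 1)
    rw [h2, zero_mul] at h3
    have key : ∀ z : ℤ, q ^ z - q ^ (-z) = 0 → z = 0 := by
      intro z hz
      have hz' : q ^ (2 * z) = 1 := by
        have : q ^ z = q ^ (-z) := sub_eq_zero.mp hz
        rw [two_mul, zpow_add₀ hq0]
        nth_rw 2 [this]
        rw [← zpow_add₀ hq0, add_neg_cancel, zpow_zero]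
      by_contra hne
      rcases lt_or_gt_of_ne hne with hlt | hgt
      · apply hq (-(2 * z)).toNat (by omega)
        rw [← zpow_natCast, Int.toNat_of_nonneg (by omega), zpow_neg, hz', inv_one]
      · apply hq (2 * z).toNat (by omega)
        rw [← zpow_natCast, Int.toNat_of_nonneg (by omega), hz']
    rcases mul_eq_zero.mp h3.symm with h4 | h4
    · have := key _ h4
      push_cast at this
      omega
    · have := key _ h4
      push_cast at this
      omega

/-! ### nondegeneracy -/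

theorem nondeg_comp [NeZero q] (hq : ∀ n : ℕ, 0 < n → q ^ n ≠ 1) (n : ℕ) :
    ∀ (μ : ℤ × ℤ) (x : UPlus K q), 1 ≤ ht μ → ht μ ≤ n → (∀ i, D i (comp μ x) = 0) →
      comp μ x = 0 := by
  have hq0 : q ≠ 0 := NeZero.ne q
  induction n with
  | zero => intro μ x h1 h2; push_cast at h2; omega
  | succ n ih =>
    intro μ x h1 h2 hD
    by_contra hne
    have hprim := Del_prim x μ h1 hD (fun ν y a b c => ih ν y a (by push_cast at h2; omega) c)
    have hrev := lam_rev_of_prim x μ h1 hprim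
    have hl0 : lam q μ ≠ 0 := by
      unfold lam
      exact mul_ne_zero (zpow_ne_zero _ (by simp)) (zpow_ne_zero _ hq0)
    have hrev' : rev (comp μ x) = (-(lam q μ)⁻¹) • comp μ x := by
      rw [neg_smul, ← smul_neg, ← hrev, smul_smul, inv_mul_cancel₀ hl0, one_smul]
    have hDr : ∀ i, Dr i (comp μ x) = 0 := by
      intro i
      rw [Dr_apply, hrev', map_smul, hD, smul_zero, map_zero]
    have w1 := weight_le hq false (comp μ x) _ hne (hD _) (hDr _) (tau_comp false μ x)
    have w2 := weight_le hq true (comp μ x) _ hne (hD _) (hDr _) (tau_comp true μ x)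
    simp only [wt] at w1 w2
    have hμ : μ.1 = μ.2 := by simp at w1 w2; omega
    have hsq : (lam q μ * lam q μ) • comp μ x = (1 : K) • comp μ x := by
      have h3 := congrArg rev hrev
      rw [map_smul, rev_rev, map_neg] at h3
      rw [mul_smul, h3, smul_neg, hrev, neg_neg, one_smul]
    have hl1 : lam q μ * lam q μ = 1 := by
      have := sub_eq_zero.mpr hsq
      rw [← sub_smul] at this
      exact sub_eq_zero.mp ((smul_eq_zero.mp this).resolve_right hne)
    unfold lam at hl1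
    rw [hμ, sub_self, mul_mul_mul_comm, ← zpow_add₀ (by simp), ← zpow_add₀ hq0] at hl1
    have hev : ((-1 : K)) ^ (μ.2 + μ.2 + (μ.2 + μ.2)) = 1 := by
      apply Even.neg_one_zpow
      exact ⟨μ.2 + μ.2, rfl⟩
    rw [hev, one_mul] at hl1
    unfold ht at h1
    rw [hμ] at h1
    have hpos : 0 < (4 * μ.2).toNat := by omega
    apply hq _ hpos
    rw [← zpow_natCast, Int.toNat_of_nonneg (by omega)]
    have : (0 : ℤ) ^ 2 - (μ.2 + μ.2) + (0 ^ 2 - (μ.2 + μ.2)) = -(4 * μ.2) := by ring
    rw [this, zpow_neg] at hl1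
    exact inv_eq_one.mp hl1

/-- An element killed by both skew derivations is a scalar. -/
theorem nondeg [NeZero q] (hq : ∀ n : ℕ, 0 < n → q ^ n ≠ 1) (x : UPlus K q)
    (hD : ∀ i, D i x = 0) : ∃ c : K, x = c • 1 := by
  obtain ⟨c, hc⟩ := comp_zero_scalar x
  refine ⟨c, ?_⟩
  rw [← hc, ← sub_eq_zero]
  apply eq_zero_of_comp
  intro μ
  rw [map_sub, comp_comp]
  by_cases h : μ = 0
  · rw [if_pos h, h, sub_self]
  · rw [if_neg h, sub_zero]
    by_cases hneg : μ.1 < 0 ∨ μ.2 < 0
    · exact comp_neg x μ hneg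
    · push Not at hneg
      have h1 : 1 ≤ ht μ := by
        unfold ht
        by_contra hcon
        apply h
        ext
        · simp only [Prod.fst_zero]; omega
        · simp only [Prod.snd_zero]; omega
      refine nondeg_comp hq (ht μ).toNat μ x h1 (by omega) ?_
      intro i
      rw [D_comp, hD, map_zero]

/-! ### the center -/

theorem D_eq_zero_of_comm [NeZero q] (hq : ∀ n : ℕ, 0 < n → q ^ n ≠ 1) (x : UPlus K q)
    (μ : ℤ × ℤ) (hx : comp μ x ≠ 0)
    (hc : ∀ i, gen K q i * comp μ x = comp μ x * gen K q i) :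
    ∀ i, D i (comp μ x) = 0 := by
  classical
  have hq0 : q ≠ 0 := NeZero.ne q
  -- for each `i` there is `N_i` with `D^{N_i} z ≠ 0`, `D^{N_i+1} z = 0`, `wt = 2 N_i`
  have key : ∀ i, ∃ N : ℕ, (D i ^ (N + 1)) (comp μ x) = 0 ∧ wt i μ = 2 * N := by
    intro i
    have hex := D_nilp i (comp μ x)
    obtain ⟨n, hn, hmin⟩ : ∃ n, (D i ^ n) (comp μ x) = 0 ∧ ∀ k < n, (D i ^ k) (comp μ x) ≠ 0 :=
      ⟨Nat.find hex, Nat.find_spec hex, fun k hk => Nat.find_min hex hk⟩
    rcases n with _ | n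
    · exact absurd (by simpa using hn) hx
    · refine ⟨n, hn, ?_⟩
      have h1 := D_iter_self_mul i (comp μ x) n
      have h2 := D_iter_mul_self i (comp μ x) n
      rw [hc i, h2, hn] at h1
      simp only [zero_mul, zero_add, mul_zero, smul_zero] at h1
      -- weight of `D^n z`
      have h3 : ∀ n : ℕ, tau i ((D i ^ n) (comp μ x)) =
          q ^ (wt i μ - 2 * n) • (D i ^ n) (comp μ x) := by
        intro n
        induction n with
        | zero => simpa using tau_comp i μ x
        | succ n ih =>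
          rw [pow_succ' (D i), Module.End.mul_apply]
          have h4 := D_tau i ((D i ^ n) (comp μ x))
          rw [ih, map_smul] at h4
          have h5 : tau i (D i ((D i ^ n) (comp μ x))) =
              (q ^ 2)⁻¹ • (q ^ (wt i μ - 2 * n) • D i ((D i ^ n) (comp μ x))) := by
            rw [h4, smul_smul, inv_mul_cancel₀ (pow_ne_zero 2 hq0), one_smul]
          rw [h5, smul_smul]
          congr 1
          rw [← zpow_natCast q 2, ← zpow_neg, ← zpow_add₀ hq0]
          congr 1
          push_cast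
          ring
      rw [h3, ← sub_eq_zero, ← smul_sub] at h1
      have h6 := (smul_eq_zero.mp h1).resolve_left (qs_ne_zero hq n)
      have h7 : (q ^ (wt i μ - 2 * (n : ℤ)) - 1) • (D i ^ n) (comp μ x) = 0 := by
        rw [sub_smul, one_smul]; exact h6
      have h8 := (smul_eq_zero.mp h7).resolve_right (hmin n (Nat.lt_succ_self n))
      have h9 : q ^ (wt i μ - 2 * (n : ℤ)) = 1 := sub_eq_zero.mp h8
      by_contra hne
      have hne' : wt i μ - 2 * (n : ℤ) ≠ 0 := by omega
      rcases lt_or_gt_of_ne hne' with hlt | hgt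
      · apply hq (-(wt i μ - 2 * (n : ℤ))).toNat (by omega)
        rw [← zpow_natCast, Int.toNat_of_nonneg (by omega), zpow_neg, h9, inv_one]
      · apply hq (wt i μ - 2 * (n : ℤ)).toNat (by omega)
        rw [← zpow_natCast, Int.toNat_of_nonneg (by omega), h9]
  obtain ⟨N, hN, hwN⟩ := key false
  obtain ⟨M, hM, hwM⟩ := key true
  simp only [wt, if_true, Bool.true_eq_false, if_false] at hwN hwM
  have hN0 : N = 0 := by omega
  have hM0 : M = 0 := by omega
  subst hN0
  subst hM0
  intro i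
  cases i
  · simpa using hN
  · simpa using hM

/-- **The center of `U_q(sl_2^)^{>0}` is trivial** for every field `K` and every `q ∈ K`, nonzero
and not a root of unity. -/
theorem center_eq_bot (K : Type*) [Field K] (q : K) (hq0 : q ≠ 0)
    (hq : ∀ n : ℕ, 0 < n → q ^ n ≠ 1) : Subalgebra.center K (UPlus K q) = ⊥ := by
  have : NeZero q := ⟨hq0⟩
  rw [eq_bot_iff]
  intro z hz
  rw [Subalgebra.mem_center_iff] at hz
  rw [Algebra.mem_bot]
  obtain ⟨c, hc⟩ := nondeg hq (z - comp 0 z) (by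
    intro i
    apply eq_zero_of_comp
    intro ν
    have e : comp ν (D i (z - comp 0 z)) = D i (comp (ν + al i) (z - comp 0 z)) := by
      rw [D_comp, add_sub_cancel_right]
    rw [e, map_sub, comp_comp]
    by_cases h0 : ν + al i = 0
    · rw [if_pos h0, h0, sub_self, map_zero]
    · rw [if_neg h0, sub_zero]
      by_cases hx : comp (ν + al i) z = 0
      · rw [hx, map_zero]
      · apply D_eq_zero_of_comm hq z _ hx
        intro j
        rw [gen_mul_comp, hz, comp_mul_gen, add_sub_cancel_right])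
  obtain ⟨d, hd⟩ := comp_zero_scalar z
  refine ⟨c + d, ?_⟩
  rw [Algebra.algebraMap_eq_smul_one, add_smul, ← hc, ← hd, sub_add_cancel]

/-- `U^+` is nontrivial. -/
theorem algebraMap_injective (K : Type*) [Field K] (q : K) :
    Function.Injective (algebraMap K (UPlus K q)) := by
  let ε : UPlus K q →ₐ[K] K := lift (fun _ => (0 : K)) (by intro i; simp)
  intro a b h
  have := congrArg ε h
  simpa using this

end Pool.Agent.Q11.QSerre
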