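import Mathlib

set_option autoImplicit false

namespace Q11.RAlt

universe u

/-- `R = A ⊕ (A / Fz) t`, where `A` has basis `1, x, y, u, v, z` and products `x x = u`,
`x y = y x = v`, `u y = z`, `y u = -z`, `v x = -z` (all other products of `x, y, u, v, z` being
zero), `t` is central and `t t = 0`, `z t = 0`.
Coordinates `0,…,5`: `1, x, y, u, v, z`; coordinates `6,…,10`: `t, xt, yt, ut, vt`. -/
def R11 (F : Type u) : Type u := Fin 11 → F

variable {F : Type u} [Field F]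

instance : AddCommGroup (R11 F) := inferInstanceAs (AddCommGroup (Fin 11 → F))
instance : Module F (R11 F) := inferInstanceAs (Module F (Fin 11 → F))

/-- the product -/
def mul11 (a b : Fin 11 → F) : Fin 11 → F :=
  ![a 0 * b 0,
    a 0 * b 1 + a 1 * b 0,
    a 0 * b 2 + a 2 * b 0,
    a 0 * b 3 + a 3 * b 0 + a 1 * b 1,
    a 0 * b 4 + a 4 * b 0 + a 1 * b 2 + a 2 * b 1,
    a 0 * b 5 + a 5 * b 0 + a 3 * b 2 - a 2 * b 3 - a 4 * b 1,
    a 0 * b 6 + a 6 * b 0,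
    a 0 * b 7 + a 1 * b 6 + a 6 * b 1 + a 7 * b 0,
    a 0 * b 8 + a 2 * b 6 + a 6 * b 2 + a 8 * b 0,
    a 0 * b 9 + a 3 * b 6 + a 1 * b 7 + a 6 * b 3 + a 9 * b 0 + a 7 * b 1,
    a 0 * b 10 + a 4 * b 6 + a 1 * b 8 + a 2 * b 7 + a 6 * b 4 + a 10 * b 0 + a 7 * b 2
      + a 8 * b 1]

instance : Mul (R11 F) := ⟨fun a b => mul11 a b⟩
instance : One (R11 F) := ⟨fun i => if i = 0 then 1 else 0⟩

omit [Field F] in
lemma ext11 {a b : R11 F} (h0 : a 0 = b 0) (h1 : a 1 = b 1) (h2 : a 2 = b 2) (h3 : a 3 = b 3)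
    (h4 : a 4 = b 4) (h5 : a 5 = b 5) (h6 : a 6 = b 6) (h7 : a 7 = b 7) (h8 : a 8 = b 8)
    (h9 : a 9 = b 9) (h10 : a 10 = b 10) : a = b := by
  funext k
  fin_cases k <;> assumption

@[simp] lemma add_ap (a b : R11 F) (i : Fin 11) : (a + b) i = a i + b i := rfl
@[simp] lemma zero_ap (i : Fin 11) : (0 : R11 F) i = 0 := rfl
@[simp] lemma smul_ap (t : F) (b : R11 F) (i : Fin 11) : (t • b) i = t * b i := rfl
@[simp] lemma one_ap0 : (1 : R11 F) 0 = 1 := rfl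
@[simp] lemma one_ap1 : (1 : R11 F) 1 = 0 := rfl
@[simp] lemma one_ap2 : (1 : R11 F) 2 = 0 := rfl
@[simp] lemma one_ap3 : (1 : R11 F) 3 = 0 := rfl
@[simp] lemma one_ap4 : (1 : R11 F) 4 = 0 := rfl
@[simp] lemma one_ap5 : (1 : R11 F) 5 = 0 := rfl
@[simp] lemma one_ap6 : (1 : R11 F) 6 = 0 := rfl
@[simp] lemma one_ap7 : (1 : R11 F) 7 = 0 := rfl
@[simp] lemma one_ap8 : (1 : R11 F) 8 = 0 := rfl
@[simp] lemma one_ap9 : (1 : R11 F) 9 = 0 := rfl
@[simp] lemma one_ap10 : (1 : R11 F) 10 = 0 := rfl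
@[simp] lemma mul_ap0 (a b : R11 F) : (a * b) 0 = a 0 * b 0 := rfl
@[simp] lemma mul_ap1 (a b : R11 F) : (a * b) 1 = a 0 * b 1 + a 1 * b 0 := rfl
@[simp] lemma mul_ap2 (a b : R11 F) : (a * b) 2 = a 0 * b 2 + a 2 * b 0 := rfl
@[simp] lemma mul_ap3 (a b : R11 F) : (a * b) 3 = a 0 * b 3 + a 3 * b 0 + a 1 * b 1 := rfl
@[simp] lemma mul_ap4 (a b : R11 F) :
    (a * b) 4 = a 0 * b 4 + a 4 * b 0 + a 1 * b 2 + a 2 * b 1 := rfl
@[simp] lemma mul_ap5 (a b : R11 F) :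
    (a * b) 5 = a 0 * b 5 + a 5 * b 0 + a 3 * b 2 - a 2 * b 3 - a 4 * b 1 := rfl
@[simp] lemma mul_ap6 (a b : R11 F) : (a * b) 6 = a 0 * b 6 + a 6 * b 0 := rfl
@[simp] lemma mul_ap7 (a b : R11 F) :
    (a * b) 7 = a 0 * b 7 + a 1 * b 6 + a 6 * b 1 + a 7 * b 0 := rfl
@[simp] lemma mul_ap8 (a b : R11 F) :
    (a * b) 8 = a 0 * b 8 + a 2 * b 6 + a 6 * b 2 + a 8 * b 0 := rfl
@[simp] lemma mul_ap9 (a b : R11 F) : (a * b) 9 =
    a 0 * b 9 + a 3 * b 6 + a 1 * b 7 + a 6 * b 3 + a 9 * b 0 + a 7 * b 1 := rfl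
@[simp] lemma mul_ap10 (a b : R11 F) : (a * b) 10 =
    a 0 * b 10 + a 4 * b 6 + a 1 * b 8 + a 2 * b 7 + a 6 * b 4 + a 10 * b 0 + a 7 * b 2
      + a 8 * b 1 := rfl

instance : NonAssocRing (R11 F) :=
  { (inferInstance : AddCommGroup (R11 F)) with
    mul := (· * ·)
    one := 1
    left_distrib := by intro a b c; apply ext11 <;> simp <;> ring
    right_distrib := by intro a b c; apply ext11 <;> simp <;> ring
    zero_mul := by intro a; apply ext11 <;> simp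
    mul_zero := by intro a; apply ext11 <;> simp
    one_mul := by intro a; apply ext11 <;> simp
    mul_one := by intro a; apply ext11 <;> simp }

instance : IsScalarTower F (R11 F) (R11 F) :=
  ⟨by intro t a b; apply ext11 <;> simp <;> ring⟩

instance : SMulCommClass F (R11 F) (R11 F) :=
  ⟨by intro t a b; apply ext11 <;> simp <;> ring⟩

lemma finrank11 : Module.finrank F (R11 F) = 11 := by
  show Module.finrank F (Fin 11 → F) = 11
  simp

/-- basis vectors -/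
def e (i : Fin 11) : R11 F := fun j => if j = i then 1 else 0

lemma e_ap (i j : Fin 11) : (e i : R11 F) j = if j = i then 1 else 0 := rfl

lemma right_alt (a b : R11 F) : (a * b) * b = a * (b * b) := by
  apply ext11 <;> simp <;> ring

/-- elements supported on coordinates `≥ 5` are in the center -/
lemma central (x : R11 F) (h0 : x 0 = 0) (h1 : x 1 = 0) (h2 : x 2 = 0) (h3 : x 3 = 0)
    (h4 : x 4 = 0) (a b : R11 F) : (x * a) * b = x * (a * b) ∧ (a * x) * b = a * (x * b) ∧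
    (a * b) * x = a * (b * x) ∧ x * a = a * x := by
  refine ⟨?_, ?_, ?_, ?_⟩ <;> apply ext11 <;> simp [h0, h1, h2, h3, h4] <;> ring

lemma not_left_alt : (e 1 * e 1 : R11 F) * e 2 ≠ e 1 * (e 1 * e 2) := by
  intro h
  have h1 := congrFun h 5
  simp [e_ap] at h1

end Q11.RAlt
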