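import Mathlib

set_option autoImplicit false
set_option linter.unusedSectionVars false
set_option linter.unusedSimpArgs false

/-!
A 9-dimensional coalgebra with basis `1, a, u, w, x₁, x₂, x₃, b, c` (in this order), all of
`a, u, w, x₁, x₂, x₃` primitive, `Δ b = b ⊗ 1 + 1 ⊗ b + u ⊗ w`, `Δ c = c ⊗ 1 + 1 ⊗ c + w ⊗ w`, with
`u ◁ a = w`, `a ◁ u = -w`, `x₁ ◁ a = x₂`, `x₂ ◁ u = x₃`, `x₁ ◁ w = -x₃`, `b ◁ a = c`.
-/

namespace Q11.RackNine

open TensorProduct

universe u v

/-- the underlying space -/
def C (k : Type u) : Type u := Fin 9 → k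

variable (k : Type u) [Field k]

instance : AddCommGroup (C k) := inferInstanceAs (AddCommGroup (Fin 9 → k))
instance : Module k (C k) := inferInstanceAs (Module k (Fin 9 → k))
instance : Module.Finite k (C k) := inferInstanceAs (Module.Finite k (Fin 9 → k))

lemma finrankC : Module.finrank k (C k) = 9 := by
  show Module.finrank k (Fin 9 → k) = 9
  simp

/-- basis -/
noncomputable def bas : Module.Basis (Fin 9) k (C k) := Pi.basisFun k (Fin 9)

/-- basis vectors -/
noncomputable def e (i : Fin 9) : C k := bas k i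

/-- linear map prescribed on the basis -/
noncomputable def mkLin {M : Type v} [AddCommGroup M] [Module k M] (p : Fin 9 → M) : C k →ₗ[k] M :=
  (bas k).constr k p

@[simp] lemma mkLin_e {M : Type v} [AddCommGroup M] [Module k M] (p : Fin 9 → M) (i : Fin 9) :
    mkLin k p (e k i) = p i := by
  simp [mkLin, e]

lemma lin_ext {M : Type v} [AddCommGroup M] [Module k M] {f g : C k →ₗ[k] M}
    (h : ∀ i, f (e k i) = g (e k i)) : f = g :=
  (bas k).ext h

/-- comultiplication table -/
noncomputable def comT (i : Fin 9) : C k ⊗[k] C k :=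
  if i = 0 then e k 0 ⊗ₜ e k 0
  else if i = 7 then e k 7 ⊗ₜ e k 0 + e k 0 ⊗ₜ e k 7 + e k 2 ⊗ₜ e k 3
  else if i = 8 then e k 8 ⊗ₜ e k 0 + e k 0 ⊗ₜ e k 8 + e k 3 ⊗ₜ e k 3
  else e k i ⊗ₜ e k 0 + e k 0 ⊗ₜ e k i

noncomputable instance : CoalgebraStruct k (C k) where
  comul := mkLin k (comT k)
  counit := mkLin k (fun i => if i = 0 then 1 else 0)

lemma comul_e (i : Fin 9) : Coalgebra.comul (R := k) (e k i) = comT k i := mkLin_e k _ i
lemma counit_e (i : Fin 9) : Coalgebra.counit (R := k) (e k i) = if i = 0 then 1 else 0 :=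
  mkLin_e k _ i

noncomputable instance instCoalgebra : Coalgebra k (C k) where
  coassoc := by
    apply lin_ext
    intro i
    fin_cases i <;>
    simp [comul_e, comT, add_tmul, tmul_add] <;> abel
  rTensor_counit_comp_comul := by
    apply lin_ext
    intro i
    fin_cases i <;>
    simp [comul_e, comT, counit_e, add_tmul, tmul_add]
  lTensor_counit_comp_comul := by
    apply lin_ext
    intro i
    fin_cases i <;>
    simp [comul_e, comT, counit_e, add_tmul, tmul_add]

/-- table of the rack operation -/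
noncomputable def tab (i j : Fin 9) : C k :=
  if j = 0 then e k i
  else if i = 2 ∧ j = 1 then e k 3
  else if i = 1 ∧ j = 2 then - e k 3
  else if i = 4 ∧ j = 1 then e k 5
  else if i = 5 ∧ j = 2 then e k 6
  else if i = 4 ∧ j = 3 then - e k 6
  else if i = 7 ∧ j = 1 then e k 8
  else 0

/-- the rack operation -/
noncomputable def opL : C k ⊗[k] C k →ₗ[k] C k :=
  TensorProduct.lift (mkLin k (fun i => mkLin k (fun j => tab k i j)))

lemma opL_e (i j : Fin 9) : opL k (e k i ⊗ₜ e k j) = tab k i j := by simp [opL]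

lemma bilin_ext {M : Type v} [AddCommGroup M] [Module k M] {f g : C k ⊗[k] C k →ₗ[k] M}
    (h : ∀ i j, f (e k i ⊗ₜ e k j) = g (e k i ⊗ₜ e k j)) : f = g := by
  apply TensorProduct.ext
  apply lin_ext
  intro i
  apply lin_ext
  intro j
  exact h i j

lemma counit_comp : Coalgebra.counit ∘ₗ opL k = Coalgebra.counit (R := k) := by
  apply bilin_ext
  intro i j
  rw [LinearMap.comp_apply, opL_e, TensorProduct.counit_tmul, counit_e, counit_e]
  fin_cases i <;> fin_cases j <;> simp [tab, counit_e]

lemma comul_comp : TensorProduct.map (opL k) (opL k) ∘ₗ Coalgebra.comul (R := k) =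
    Coalgebra.comul (R := k) ∘ₗ opL k := by
  apply bilin_ext
  intro i j
  rw [LinearMap.comp_apply, LinearMap.comp_apply, opL_e, TensorProduct.comul_tmul, comul_e,
    comul_e]
  fin_cases i <;> fin_cases j <;>
  simp [tab, comT, comul_e, opL_e, add_tmul, tmul_add, neg_tmul, tmul_neg] <;> abel

/-- the rack operation as a morphism of coalgebras -/
noncomputable def op : C k ⊗[k] C k →ₗc[k] C k :=
  { opL k with
    counit_comp := counit_comp k
    map_comp_comul := comul_comp k }

lemma op_apply (t : C k ⊗[k] C k) : op k t = opL k t := rfl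

lemma e_apply (i j : Fin 9) : (e k i : Fin 9 → k) j = if j = i then 1 else 0 := by
  have h : (e k i : Fin 9 → k) = Pi.single i 1 := Pi.basisFun_apply k (Fin 9) i
  rw [h, Pi.single_apply]

lemma eq_sum (x : C k) : x = ∑ i, x i • e k i := by
  have h := (bas k).sum_repr x
  conv_lhs => rw [← h]
  rfl

/-- the part of the operation with both arguments in the kernel of the counit -/
noncomputable def G (x y : C k) : C k :=
  (x 2 * y 1 - x 1 * y 2) • e k 3 + (x 4 * y 1) • e k 5 + (x 5 * y 2 - x 4 * y 3) • e k 6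
    + (x 7 * y 1) • e k 8

lemma opL_tmul (x y : C k) : opL k (x ⊗ₜ y) = y 0 • x + G k x y := by
  have h1 : y 0 • x = y 0 • ∑ i, x i • e k i := by rw [← eq_sum]
  rw [h1]
  conv_lhs => rw [eq_sum k x, eq_sum k y]
  simp only [TensorProduct.sum_tmul, TensorProduct.tmul_sum, map_sum, ← smul_tmul',
    TensorProduct.tmul_smul, map_smul, opL_e]
  simp only [Fin.sum_univ_succ, Fin.succ_zero_eq_one, Fin.succ_one_eq_two]
  simp [tab, G]
  module

@[simp] lemma add_ap (x y : C k) (i : Fin 9) : (x + y) i = x i + y i := rfl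
@[simp] lemma sub_ap (x y : C k) (i : Fin 9) : (x - y) i = x i - y i := rfl
@[simp] lemma neg_ap (x : C k) (i : Fin 9) : (-x) i = -(x i) := rfl
@[simp] lemma zero_ap (i : Fin 9) : (0 : C k) i = 0 := rfl
@[simp] lemma smul_ap (c : k) (x : C k) (i : Fin 9) : (c • x) i = c * x i := rfl

lemma distrib (x y z : C k) : opL k (opL k (x ⊗ₜ y) ⊗ₜ z) =
    opL k (TensorProduct.map (opL k ∘ₗ TensorProduct.mk k (C k) (C k) x)
      (opL k ∘ₗ TensorProduct.mk k (C k) (C k) y) (Coalgebra.comul (R := k) z)) := by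
  have h : opL k ∘ₗ TensorProduct.mk k (C k) (C k) (opL k (x ⊗ₜ y)) =
    opL k ∘ₗ (TensorProduct.map (opL k ∘ₗ TensorProduct.mk k (C k) (C k) x)
      (opL k ∘ₗ TensorProduct.mk k (C k) (C k) y)) ∘ₗ Coalgebra.comul (R := k) := by
    apply lin_ext
    intro l
    simp only [LinearMap.comp_apply, comul_e, TensorProduct.mk_apply]
    fin_cases l <;>
    simp [comT, opL_tmul, G, e_apply] <;> module
  exact LinearMap.congr_fun h z

lemma opL_one (x : C k) : opL k (x ⊗ₜ e k 0) = x := by
  rw [opL_tmul]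
  simp [G, e_apply]

lemma one_opL (x : C k) : opL k (e k 0 ⊗ₜ x) = Coalgebra.counit (R := k) x • e k 0 := by
  have h : Coalgebra.counit (R := k) x = x 0 := by
    have h2 : Coalgebra.counit (R := k) (A := C k) =
        ((LinearMap.proj 0 : (Fin 9 → k) →ₗ[k] k) : C k →ₗ[k] k) := by
      apply lin_ext
      intro i
      rw [counit_e]
      show _ = (e k i : Fin 9 → k) 0
      rw [e_apply]
      simp only [eq_comm]
    exact LinearMap.congr_fun h2 x
  rw [opL_tmul, h]
  simp [G, e_apply]

lemma comul_one : Coalgebra.comul (R := k) (e k 0) = e k 0 ⊗ₜ[k] e k 0 := by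
  rw [comul_e]; simp [comT]

lemma counit_one : Coalgebra.counit (R := k) (e k 0) = 1 := by
  rw [counit_e]; simp

end Q11.RackNine
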