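import Mathlib

set_option autoImplicit false

namespace Q11.SetGrad

universe u

/-- representative of the class of the matrix unit `e_(i,j)` -/
def rep (i j : ℕ) : ℕ × ℕ :=
  if i = j then (0, 0) else if i = 1 ∧ j = 0 then (0, 1) else
    if i = 2 ∧ j = 0 then (1, 2) else (i, j)

lemma rep_eq (i j i' j' : ℕ) : rep i j = rep i' j' ↔
    (i = j ∧ i' = j') ∨ (i = i' ∧ j = j') ∨ (i = 0 ∧ j = 1 ∧ i' = 1 ∧ j' = 0) ∨
    (i = 1 ∧ j = 0 ∧ i' = 0 ∧ j' = 1) ∨ (i = 1 ∧ j = 2 ∧ i' = 2 ∧ j' = 0) ∨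
    (i = 2 ∧ j = 0 ∧ i' = 1 ∧ j' = 2) := by
  unfold rep
  constructor
  · intro h
    split_ifs at h <;> simp only [Prod.mk.injEq] at h <;> omega
  · rintro (⟨rfl, rfl⟩ | ⟨rfl, rfl⟩ | ⟨rfl, rfl, rfl, rfl⟩ | ⟨rfl, rfl, rfl, rfl⟩ |
      ⟨rfl, rfl, rfl, rfl⟩ | ⟨rfl, rfl, rfl, rfl⟩) <;> simp

lemma rep_mul (i j k i' j' k' : ℕ) (h1 : rep i j = rep i' j')
    (h2 : rep j k = rep j' k') : rep i k = rep i' k' := by
  rw [rep_eq] at *
  rcases h1 with ⟨rfl, rfl⟩ | ⟨rfl, rfl⟩ | ⟨rfl, rfl, rfl, rfl⟩ | ⟨rfl, rfl, rfl, rfl⟩ |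
      ⟨rfl, rfl, rfl, rfl⟩ | ⟨rfl, rfl, rfl, rfl⟩ <;>
  rcases h2 with h2 | h2 | h2 | h2 | h2 | h2 <;> omega

section generic

variable (K : Type u) [Field K] {n : ℕ} {Γ : Type} (c : Fin n → Fin n → Γ)

/-- span of the matrix units of class `g` -/
def comp (g : Γ) : Submodule K (Matrix (Fin n) (Fin n) K) where
  carrier := {M | ∀ i j, c i j ≠ g → M i j = 0}
  zero_mem' := by intro i j _; rfl
  add_mem' := by
    intro a b ha hb i j h
    rw [Matrix.add_apply, ha i j h, hb i j h, add_zero]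
  smul_mem' := by
    intro t a ha i j h
    rw [Matrix.smul_apply, ha i j h, smul_zero]

lemma mem_comp (g : Γ) (M : Matrix (Fin n) (Fin n) K) :
    M ∈ comp K c g ↔ ∀ i j, c i j ≠ g → M i j = 0 := Iff.rfl

lemma single_mem (i j : Fin n) (t : K) : Matrix.single i j t ∈ comp K c (c i j) := by
  intro i' j' h
  apply Matrix.single_apply_of_ne
  rintro ⟨rfl, rfl⟩
  exact h rfl

lemma internal [DecidableEq Γ] : DirectSum.IsInternal (comp K c) := by
  apply DirectSum.isInternal_submodule_of_iSupIndep_of_iSup_eq_top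
  · rw [iSupIndep_def]
    intro g
    rw [Submodule.disjoint_def]
    intro M hM hM'
    have hle : (⨆ h, ⨆ (_ : h ≠ g), comp K c h) ≤
        ({ carrier := {M | ∀ i j, c i j = g → M i j = 0}
           zero_mem' := by intro i j _; rfl
           add_mem' := by
             intro a b ha hb i j h
             rw [Matrix.add_apply, ha i j h, hb i j h, add_zero]
           smul_mem' := by
             intro t a ha i j h
             rw [Matrix.smul_apply, ha i j h, smul_zero] } :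
          Submodule K (Matrix (Fin n) (Fin n) K)) := by
      refine iSup_le fun h => iSup_le fun hne => ?_
      intro N hN i j hij
      exact hN i j (fun h' => hne (h'.symm.trans hij))
    ext i j
    by_cases h : c i j = g
    · exact hle hM' i j h
    · exact hM i j h
  · rw [eq_top_iff]
    intro M _
    rw [Matrix.matrix_eq_sum_single M]
    refine Submodule.sum_mem _ fun i _ => Submodule.sum_mem _ fun j _ => ?_
    exact Submodule.mem_iSup_of_mem (c i j) (single_mem K c i j _)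

variable {K c} in
lemma exists_of_mul_ne {g h : Γ} {a b : Matrix (Fin n) (Fin n) K} (ha : a ∈ comp K c g)
    (hb : b ∈ comp K c h) {i k : Fin n} (hab : (a * b) i k ≠ 0) :
    ∃ j, c i j = g ∧ c j k = h := by
  by_contra hcon
  push Not at hcon
  apply hab
  rw [Matrix.mul_apply]
  apply Finset.sum_eq_zero
  intro j _
  by_cases h1 : c i j = g
  · rw [hb j k (hcon j h1), mul_zero]
  · rw [ha i j h1, zero_mul]

open Classical in
/-- the partial operation -/
noncomputable def op (g h : Γ) : Option Γ :=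
  if H : ∃ p : Fin n × Fin n × Fin n, c p.1 p.2.1 = g ∧ c p.2.1 p.2.2 = h then
    some (c H.choose.1 H.choose.2.2) else none

lemma op_defined (g h : Γ) : (∃ k, op c g h = some k) ↔
    ∃ a ∈ comp K c g, ∃ b ∈ comp K c h, a * b ≠ 0 := by
  constructor
  · rintro ⟨k, hk⟩
    by_cases H : ∃ p : Fin n × Fin n × Fin n, c p.1 p.2.1 = g ∧ c p.2.1 p.2.2 = h
    · obtain ⟨⟨i, j, k⟩, h1, h2⟩ := H
      refine ⟨Matrix.single i j 1, ?_, Matrix.single j k 1, ?_, ?_⟩
      · rw [← h1]; exact single_mem K c i j 1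
      · rw [← h2]; exact single_mem K c j k 1
      · intro h3
        have h4 := congrFun (congrFun h3 i) k
        simp at h4
    · rw [op, dif_neg H] at hk
      cases hk
  · rintro ⟨a, ha, b, hb, hab⟩
    obtain ⟨i, k, hik⟩ : ∃ i k, (a * b) i k ≠ 0 := by
      by_contra hcon
      push Not at hcon
      exact hab (Matrix.ext hcon)
    obtain ⟨j, h1, h2⟩ := exists_of_mul_ne ha hb hik
    have H : ∃ p : Fin n × Fin n × Fin n, c p.1 p.2.1 = g ∧ c p.2.1 p.2.2 = h :=
      ⟨(i, j, k), h1, h2⟩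
    exact ⟨_, dif_pos H⟩

variable {c} in
lemma op_eq (hc : ∀ i j k i' j' k', c i j = c i' j' → c j k = c j' k' → c i k = c i' k')
    (i j k : Fin n) : op c (c i j) (c j k) = some (c i k) := by
  have H : ∃ p : Fin n × Fin n × Fin n, c p.1 p.2.1 = c i j ∧ c p.2.1 p.2.2 = c j k :=
    ⟨(i, j, k), rfl, rfl⟩
  rw [op, dif_pos H]
  congr 1
  exact hc _ _ _ _ _ _ H.choose_spec.1 H.choose_spec.2

variable {c} in
lemma op_spec (hc : ∀ i j k i' j' k', c i j = c i' j' → c j k = c j' k' → c i k = c i' k')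
    (g h l : Γ) (hl : op c g h = some l) (a : Matrix (Fin n) (Fin n) K) (ha : a ∈ comp K c g)
    (b : Matrix (Fin n) (Fin n) K) (hb : b ∈ comp K c h) : a * b ∈ comp K c l := by
  intro i k hik
  by_contra hne
  obtain ⟨j, h1, h2⟩ := exists_of_mul_ne ha hb hne
  subst h1 h2
  rw [op_eq hc] at hl
  exact hik (Option.some.inj hl)

end generic

end Q11.SetGrad
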