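import Mathlib

set_option autoImplicit false

namespace Q11.SurjPoly

open MvPolynomial

/-- the monomial `x^a y^b z^c` -/
noncomputable def mon (e : Fin 3 → ℕ) : MvPolynomial (Fin 3) ℝ :=
  monomial (Finsupp.equivFunOnFinite.symm e) 1

lemma eval_mon (e : Fin 3 → ℕ) (x : Fin 3 → ℝ) :
    eval x (mon e) = x 0 ^ e 0 * x 1 ^ e 1 * x 2 ^ e 2 := by
  rw [mon, eval_monomial, one_mul, Finsupp.prod_fintype _ _ (by simp)]
  simp [Fin.prod_univ_three]

lemma coeff_two (e e' : Fin 3 → ℕ) (h : e ≠ e') (m : Fin 3 →₀ ℕ) :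
    coeff m (mon e + mon e') =
      if (m = Finsupp.equivFunOnFinite.symm e ∨ m = Finsupp.equivFunOnFinite.symm e') then 1
      else 0 := by
  have h2 : Finsupp.equivFunOnFinite.symm e ≠ Finsupp.equivFunOnFinite.symm e' := by
    intro h3; exact h (Finsupp.equivFunOnFinite.symm.injective h3)
  rw [mon, mon, coeff_add, coeff_monomial, coeff_monomial]
  by_cases h1 : Finsupp.equivFunOnFinite.symm e = m
  · have h3 : ¬ Finsupp.equivFunOnFinite.symm e' = m := fun h4 => h2 (h1.trans h4.symm)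
    rw [if_pos h1, if_neg h3, if_pos (Or.inl h1.symm), add_zero]
  · by_cases h3 : Finsupp.equivFunOnFinite.symm e' = m
    · rw [if_neg h1, if_pos h3, if_pos (Or.inr h3.symm), zero_add]
    · rw [if_neg h1, if_neg h3, if_neg (by rintro (h | h) <;> simp_all), add_zero]

lemma vars_two (e e' : Fin 3 → ℕ) (h : e ≠ e') :
    (mon e + mon e').vars = Finset.univ.filter (fun i => e i ≠ 0 ∨ e' i ≠ 0) := by
  ext i
  rw [mem_vars_iff_mem_support]
  simp only [mem_support_iff, coeff_two e e' h, Finset.mem_filter, Finset.mem_univ, true_and,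
    Finsupp.mem_support_iff]
  constructor
  · rintro ⟨d, hd, hi⟩
    have hd' : d = Finsupp.equivFunOnFinite.symm e ∨ d = Finsupp.equivFunOnFinite.symm e' := by
      by_contra h5; exact hd (if_neg h5)
    rcases hd' with rfl | rfl
    · exact Or.inl (by simpa using hi)
    · exact Or.inr (by simpa using hi)
  · rintro (hi | hi)
    · exact ⟨Finsupp.equivFunOnFinite.symm e, by simp, by simpa using hi⟩
    · exact ⟨Finsupp.equivFunOnFinite.symm e', by simp, by simpa using hi⟩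

lemma totalDegree_mon (e : Fin 3 → ℕ) : (mon e).totalDegree ≤ e 0 + e 1 + e 2 := by
  rw [mon]
  refine (totalDegree_monomial_le _ _).trans ?_
  rw [Finsupp.sum_fintype _ _ (by simp)]
  simp [Fin.sum_univ_three]

lemma totalDegree_two (e e' : Fin 3 → ℕ) (n : ℕ) (h : e 0 + e 1 + e 2 ≤ n)
    (h' : e' 0 + e' 1 + e' 2 ≤ n) : (mon e + mon e').totalDegree ≤ n :=
  (totalDegree_add _ _).trans (max_le ((totalDegree_mon e).trans h) ((totalDegree_mon e').trans h'))

lemma coeff_one (e : Fin 3 → ℕ) (m : Fin 3 →₀ ℕ) :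
    coeff m (mon e) = if m = Finsupp.equivFunOnFinite.symm e then 1 else 0 := by
  rw [mon, coeff_monomial]
  simp only [eq_comm]

lemma vars_one (e : Fin 3 → ℕ) :
    (mon e).vars = Finset.univ.filter (fun i => e i ≠ 0) := by
  rw [mon, vars_monomial one_ne_zero]
  ext i
  simp

/-- real solvability: `x + y = s`, `x z = t`, `x^2 y + x z^2 = r`. -/
lemma solve (s t r : ℝ) : ∃ x y z : ℝ, x + y = s ∧ x * z = t ∧ x ^ 2 * y + x * z ^ 2 = r := by
  by_cases ht : t = 0
  · -- cubic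
    subst ht
    have hc : Continuous (fun x : ℝ => x ^ 2 * (s - x)) := by fun_prop
    set B : ℝ := 1 + |s| + |r| with hB
    have hB1 : 1 ≤ B := by have := abs_nonneg s; have := abs_nonneg r; linarith
    have hs : |s| ≤ B - 1 - |r| := by linarith
    have h1 : (fun x : ℝ => x ^ 2 * (s - x)) B ≤ r := by
      have h2 : s - B ≤ -1 - |r| := by have := le_abs_self s; linarith
      have h3 : -|r| ≤ r := neg_abs_le r
      have h4 : 0 ≤ |r| := abs_nonneg r
      have h5 : 1 ≤ B ^ 2 := by nlinarith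
      show B ^ 2 * (s - B) ≤ r
      nlinarith
    have h2 : r ≤ (fun x : ℝ => x ^ 2 * (s - x)) (-B) := by
      have h2 : 1 + |r| ≤ s - (-B) := by have := neg_abs_le s; linarith
      have h3 : r ≤ |r| := le_abs_self r
      have h4 : 0 ≤ |r| := abs_nonneg r
      have h5 : 1 ≤ B ^ 2 := by nlinarith
      show r ≤ (-B) ^ 2 * (s - (-B))
      nlinarith
    obtain ⟨x, -, hx⟩ := intermediate_value_Icc' (by linarith : -B ≤ B) hc.continuousOn
      (⟨h1, h2⟩ : r ∈ Set.Icc _ _)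
    exact ⟨x, s - x, 0, by ring, by ring, by rw [← hx]; ring⟩
  · have hc : Continuous (fun x : ℝ => x ^ 4 - s * x ^ 3 + r * x) := by fun_prop
    set B : ℝ := 1 + |s| + |r| + t ^ 2 with hB
    have ht2 : 0 < t ^ 2 := by positivity
    have hB1 : 1 ≤ B := by have := abs_nonneg s; have := abs_nonneg r; linarith
    have h1 : (fun x : ℝ => x ^ 4 - s * x ^ 3 + r * x) 0 ≤ t ^ 2 := by
      show (0 : ℝ) ^ 4 - s * 0 ^ 3 + r * 0 ≤ t ^ 2
      nlinarith
    have h2 : t ^ 2 ≤ (fun x : ℝ => x ^ 4 - s * x ^ 3 + r * x) B := by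
      show t ^ 2 ≤ B ^ 4 - s * B ^ 3 + r * B
      have e1 : 1 + |r| + t ^ 2 ≤ B - s := by have := le_abs_self s; linarith
      have e2 : -|r| ≤ r := neg_abs_le r
      have e3 : 0 ≤ |r| := abs_nonneg r
      have e4 : 1 ≤ B ^ 3 := one_le_pow₀ hB1
      have e5 : B ≤ B ^ 3 := by nlinarith [sq_nonneg (B - 1), sq_nonneg B]
      have e6 : B ^ 4 - s * B ^ 3 = B ^ 3 * (B - s) := by ring
      rw [e6]
      have e7 : B ^ 3 * (1 + |r| + t ^ 2) ≤ B ^ 3 * (B - s) :=
        mul_le_mul_of_nonneg_left e1 (by linarith)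
      have e8 : |r| * B ≤ |r| * B ^ 3 := mul_le_mul_of_nonneg_left e5 e3
      have e9 : -(|r| * B) ≤ r * B := by nlinarith
      have e10 : t ^ 2 ≤ t ^ 2 * B ^ 3 := by nlinarith
      nlinarith
    obtain ⟨x, ⟨hx0, -⟩, hx⟩ := intermediate_value_Icc (by linarith : (0 : ℝ) ≤ B) hc.continuousOn
      (⟨h1, h2⟩ : t ^ 2 ∈ Set.Icc _ _)
    have hx' : x ^ 4 - s * x ^ 3 + r * x = t ^ 2 := hx
    have hxne : x ≠ 0 := by
      rintro rfl
      have : t ^ 2 = 0 := by rw [← hx']; ring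
      exact ht2.ne' this
    refine ⟨x, s - x, t / x, by ring, by field_simp, ?_⟩
    field_simp
    rw [← hx']; ring

/-- the three polynomials `x + y`, `x z`, `x^2 y + x z^2` -/
noncomputable def q : Fin 3 → MvPolynomial (Fin 3) ℝ :=
  ![mon ![1, 0, 0] + mon ![0, 1, 0], mon ![1, 0, 1], mon ![2, 1, 0] + mon ![1, 0, 2]]

lemma ne1 : (![1, 0, 0] : Fin 3 → ℕ) ≠ ![0, 1, 0] := by decide
lemma ne2 : (![2, 1, 0] : Fin 3 → ℕ) ≠ ![1, 0, 2] := by decide

lemma q_deg (i : Fin 3) : (q i).totalDegree ≤ (i : ℕ) + 1 := by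
  fin_cases i
  · exact totalDegree_two _ _ _ (by decide) (by decide)
  · exact (totalDegree_mon _).trans (by decide)
  · exact totalDegree_two _ _ _ (by decide) (by decide)

lemma q_eval (x : Fin 3 → ℝ) : (fun i => eval x (q i)) =
    ![x 0 + x 1, x 0 * x 2, x 0 ^ 2 * x 1 + x 0 * x 2 ^ 2] := by
  ext i
  fin_cases i <;> simp [q, eval_mon]

lemma q_zero (i : Fin 3) : eval (fun _ => (0 : ℝ)) (q i) = 0 := by
  have h := congrFun (q_eval (fun _ => (0 : ℝ))) i
  refine h.trans ?_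
  fin_cases i <;> simp

lemma q_fibre : {x : Fin 3 → ℝ | (fun i => eval x (q i)) = fun _ => (0 : ℝ)}.Infinite := by
  have hinj : Function.Injective (fun t : ℝ => (![0, 0, t] : Fin 3 → ℝ)) := by
    intro s t h
    have := congrFun h 2
    simpa using this
  refine (Set.infinite_range_of_injective hinj).mono ?_
  rintro _ ⟨t, rfl⟩
  show (fun i => eval (![0, 0, t] : Fin 3 → ℝ) (q i)) = fun _ => (0 : ℝ)
  rw [q_eval]
  ext i
  fin_cases i <;> simp

lemma q_vars (i : Fin 3) : (q i).vars =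
    (![{0, 1}, {0, 2}, {0, 1, 2}] : Fin 3 → Finset (Fin 3)) i := by
  fin_cases i
  · exact (vars_two _ _ ne1).trans (by decide)
  · exact (vars_one _).trans (by decide)
  · exact (vars_two _ _ ne2).trans (by decide)

lemma q_inv (s : Finset (Fin 3)) (h1 : 1 ≤ s.card) (h2 : s.card < 3) :
    s.card + 1 ≤ (s.biUnion (fun i => (q i).vars)).card := by
  simp only [q_vars]
  revert s
  decide

lemma q_coeff (i : Fin 3) (m : Fin 3 →₀ ℕ) (h : coeff m (q i) ≠ 0) :
    coeff m (q i) = 1 ∨ coeff m (q i) = -1 := by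
  left
  revert h
  fin_cases i
  · show coeff m (mon ![1, 0, 0] + mon ![0, 1, 0]) ≠ 0 →
      coeff m (mon ![1, 0, 0] + mon ![0, 1, 0]) = 1
    rw [coeff_two _ _ ne1]
    split_ifs <;> simp
  · show coeff m (mon ![1, 0, 1]) ≠ 0 → coeff m (mon ![1, 0, 1]) = 1
    rw [coeff_one]
    split_ifs <;> simp
  · show coeff m (mon ![2, 1, 0] + mon ![1, 0, 2]) ≠ 0 →
      coeff m (mon ![2, 1, 0] + mon ![1, 0, 2]) = 1
    rw [coeff_two _ _ ne2]
    split_ifs <;> simp

lemma q_surj : Function.Surjective (fun (x : Fin 3 → ℝ) (i : Fin 3) => eval x (q i)) := by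
  intro v
  obtain ⟨x, y, z, h1, h2, h3⟩ := solve (v 0) (v 1) (v 2)
  refine ⟨![x, y, z], ?_⟩
  show (fun i => eval (![x, y, z] : Fin 3 → ℝ) (q i)) = v
  rw [q_eval]
  ext i
  fin_cases i
  · simpa using h1
  · simpa using h2
  · simpa using h3

end Q11.SurjPoly
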